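import Mathlib
import Pool.Agent.Lib.MP_1d980c_gt.Hyp.CocycleH

set_option autoImplicit false
open scoped UpperHalfPlane MatrixGroups Manifold ContDiff Matrix Topology
open Complex ComplexConjugate Pool.Agent.HypBundle

namespace Pool.Agent.SfBundle

/-- `f_x - i f_y` (so `df = Re (Dz f dz)`) -/
noncomputable def Dz (f : ℂ → ℝ) (z : ℂ) : ℂ :=
  (fderiv ℝ f z 1 : ℂ) - Complex.I * (fderiv ℝ f z Complex.I : ℂ)

/-- `d Re (B dz) = cu B dx ∧ dy` -/
noncomputable def cu (B : ℂ → ℂ) (z : ℂ) : ℝ := -2 * (dbar B z).im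

/-- `fderiv f z v = Re (Dz f z * v)` -/
lemma fderiv_eq_Dz (f : ℂ → ℝ) (z v : ℂ) : fderiv ℝ f z v = (Dz f z * v).re := by
  have h1 : fderiv ℝ f z v = v.re * fderiv ℝ f z 1 + v.im * fderiv ℝ f z Complex.I := by
    have h2 : v = v.re • (1 : ℂ) + v.im • Complex.I := by
      simp [Complex.re_add_im]
    conv_lhs => rw [h2]
    rw [map_add, map_smul, map_smul]
    simp
  rw [h1, Dz]
  simp only [Complex.mul_re, Complex.sub_re, Complex.sub_im, Complex.ofReal_re,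
    Complex.ofReal_im, Complex.I_re, Complex.I_im, Complex.mul_im]
  ring

lemma Dz_smooth {f : ℂ → ℝ} (hf : ContDiffOn ℝ ∞ f HH) : ContDiffOn ℝ ∞ (Dz f) HH := by
  have h1 : ContDiffOn ℝ ∞ (fderiv ℝ f) HH := hf.fderiv_of_isOpen CH.isOpen_HH (by simp)
  have h2 : ∀ v : ℂ, ContDiffOn ℝ ∞ (fun w => ((fderiv ℝ f w v : ℝ) : ℂ)) HH := fun v =>
    Complex.ofRealCLM.contDiff.comp_contDiffOn (h1.clm_apply contDiffOn_const)
  exact (h2 1).sub (contDiffOn_const.mul (h2 Complex.I))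

lemma Dz_add {f g : ℂ → ℝ} {z : ℂ} (hf : DifferentiableAt ℝ f z) (hg : DifferentiableAt ℝ g z) :
    Dz (fun x => f x + g x) z = Dz f z + Dz g z := by
  simp only [Dz, fderiv_fun_add hf hg, _root_.add_apply, Complex.ofReal_add]
  ring

lemma Dz_sub {f g : ℂ → ℝ} {z : ℂ} (hf : DifferentiableAt ℝ f z) (hg : DifferentiableAt ℝ g z) :
    Dz (fun x => f x - g x) z = Dz f z - Dz g z := by
  simp only [Dz, fderiv_fun_sub hf hg, _root_.sub_apply, Complex.ofReal_sub]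
  ring

lemma Dz_const_mul {f : ℂ → ℝ} {z : ℂ} (c : ℝ) (hf : DifferentiableAt ℝ f z) :
    Dz (fun x => c * f x) z = c * Dz f z := by
  simp only [Dz, fderiv_const_mul hf, _root_.smul_apply, smul_eq_mul, Complex.ofReal_mul]
  ring

lemma Dz_congr {f g : ℂ → ℝ} {z : ℂ} (h : f =ᶠ[𝓝 z] g) : Dz f z = Dz g z := by
  rw [Dz, Dz, h.fderiv_eq]

/-- chain rule with a holomorphic map -/
lemma Dz_comp {f : ℂ → ℝ} {g : ℂ → ℂ} {z g' : ℂ} (hf : DifferentiableAt ℝ f (g z))
    (hg : HasDerivAt g g' z) : Dz (fun x => f (g x)) z = Dz f (g z) * g' := by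
  have h1 : HasFDerivAt g ((ContinuousLinearMap.toSpanSingleton ℂ g').restrictScalars ℝ) z :=
    hg.hasFDerivAt.restrictScalars ℝ
  have h2 := hf.hasFDerivAt.comp z h1
  have h3 : fderiv ℝ (fun x => f (g x)) z = _ := h2.fderiv
  rw [Dz, h3]
  simp only [ContinuousLinearMap.comp_apply, ContinuousLinearMap.coe_restrictScalars',
    ContinuousLinearMap.toSpanSingleton_apply, smul_eq_mul, one_mul]
  rw [fderiv_eq_Dz f (g z) g', fderiv_eq_Dz f (g z) (Complex.I * g')]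
  generalize Dz f (g z) = L
  apply Complex.ext <;> simp <;> ring

end Pool.Agent.SfBundle
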