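import Mathlib
import Pool.Agent.Lib.MP_1d980c_gt.Sf.Dz

set_option autoImplicit false
open scoped UpperHalfPlane MatrixGroups Manifold ContDiff Matrix Topology
open Complex ComplexConjugate Pool.Agent.HypBundle MeasureTheory

namespace Pool.Agent.SfBundle

/-- integral over the ray `z - t v`, `t > 0` -/
noncomputable def ray (v : ℂ) (a : ℂ → ℝ) (z : ℂ) : ℝ := ∫ t in Set.Ioi (0 : ℝ), a (z - (t : ℂ) * v)

/-- integral over the line `z - t v`, `t ∈ ℝ` -/
noncomputable def lin (v : ℂ) (a : ℂ → ℝ) (z : ℂ) : ℝ := ∫ t : ℝ, a (z - (t : ℂ) * v)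

private lemma fmc_map {v : ℂ} (hv : v ≠ 0) (ν : Measure ℝ) [IsFiniteMeasureOnCompacts ν] :
    IsFiniteMeasureOnCompacts (Measure.map (fun t : ℝ => (t : ℂ) * v) ν) := by
  refine ⟨fun K hK => ?_⟩
  have hm : Measurable (fun t : ℝ => (t : ℂ) * v) := by fun_prop
  rw [Measure.map_apply hm hK.measurableSet]
  obtain ⟨R, hR⟩ := hK.isBounded.exists_norm_le
  have hv' : 0 < ‖v‖ := norm_pos_iff.mpr hv
  have hsub : (fun t : ℝ => (t : ℂ) * v) ⁻¹' K ⊆ Metric.closedBall 0 (R / ‖v‖) := by
    intro t ht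
    have h1 := hR _ ht
    rw [norm_mul, Complex.norm_real] at h1
    rw [mem_closedBall_zero_iff, le_div_iff₀ hv']
    exact h1
  exact (measure_mono hsub).trans_lt (isCompact_closedBall _ _).measure_lt_top

private lemma conv_smooth {v : ℂ} (hv : v ≠ 0) {a : ℂ → ℝ} (ha : ContDiff ℝ ∞ a)
    (hc : HasCompactSupport a) (ν : Measure ℝ) [IsFiniteMeasureOnCompacts ν] :
    ContDiff ℝ ∞ (fun z : ℂ => ∫ t : ℝ, a (z - (t : ℂ) * v) ∂ν) := by
  have := fmc_map hv ν
  set μ : Measure ℂ := Measure.map (fun t : ℝ => (t : ℂ) * v) ν with hμ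
  have hl : LocallyIntegrable (fun _ : ℂ => (1 : ℝ)) μ := locallyIntegrable_const 1
  have h := hc.contDiff_convolution_right (ContinuousLinearMap.mul ℝ ℝ) (n := ⊤) (μ := μ) hl ha
  have he : (fun z : ℂ => ∫ t : ℝ, a (z - (t : ℂ) * v) ∂ν) =
      MeasureTheory.convolution (fun _ : ℂ => (1 : ℝ)) a (ContinuousLinearMap.mul ℝ ℝ) μ := by
    funext z
    have hm : Measurable (fun t : ℝ => (t : ℂ) * v) := by fun_prop
    rw [MeasureTheory.convolution, hμ, integral_map hm.aemeasurable]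
    · simp
    · have : Continuous fun t : ℂ => ((ContinuousLinearMap.mul ℝ ℝ) (1 : ℝ)) (a (z - t)) := by
        have := ha.continuous
        fun_prop
      exact this.aestronglyMeasurable
  rw [he]
  exact h

/-- Smoothness: `ray v a` is the convolution (`MeasureTheory.convolution`) of the constant `1` with
`a` for the measure `μ = map (t ↦ t v) (volume.restrict (Ioi 0))` on `ℂ`, which is finite on compact
sets as `v ≠ 0`; `HasCompactSupport.contDiff_convolution_right` holds for every measure. -/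
lemma ray_smooth {v : ℂ} (hv : v ≠ 0) {a : ℂ → ℝ} (ha : ContDiff ℝ ∞ a) (hc : HasCompactSupport a) :
    ContDiff ℝ ∞ (ray v a) := by
  have : IsFiniteMeasureOnCompacts ((volume : Measure ℝ).restrict (Set.Ioi 0)) :=
    ⟨fun K hK => (Measure.restrict_apply_le _ _).trans_lt hK.measure_lt_top⟩
  exact conv_smooth hv ha hc _

/-- the same with `volume` instead of `volume.restrict (Ioi 0)` -/
lemma lin_smooth {v : ℂ} (hv : v ≠ 0) {a : ℂ → ℝ} (ha : ContDiff ℝ ∞ a) (hc : HasCompactSupport a) :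
    ContDiff ℝ ∞ (lin v a) :=
  conv_smooth hv ha hc volume

end Pool.Agent.SfBundle
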