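import Mathlib
import Pool.Agent.Lib.MP_1d980c_gt.Sf.CP

set_option autoImplicit false
open scoped UpperHalfPlane MatrixGroups Manifold ContDiff Matrix Topology
open Complex ComplexConjugate Pool.Agent.HypBundle MeasureTheory

namespace Pool.Agent.SfBundle

private lemma ray_line {v : ℂ} (a : ℂ → ℝ) (z : ℂ) (s : ℝ) :
    ray v a (z + (s : ℂ) * v) = ∫ r in Set.Iio s, a (z + (r : ℂ) * v) := by
  unfold ray
  rw [← integral_indicator measurableSet_Ioi, ← integral_indicator measurableSet_Iio,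
    ← integral_sub_left_eq_self _ volume s]
  congr 1
  funext t
  by_cases ht : t < s
  · rw [Set.indicator_of_mem (show s - t ∈ Set.Ioi (0 : ℝ) by simpa using ht),
      Set.indicator_of_mem (show t ∈ Set.Iio s from ht)]
    congr 1
    push_cast
    ring
  · rw [Set.indicator_of_notMem (show s - t ∉ Set.Ioi (0 : ℝ) by simpa using ht),
      Set.indicator_of_notMem (show t ∉ Set.Iio s from ht)]

private lemma line_compact {v : ℂ} (hv : v ≠ 0) {a : ℂ → ℝ} (hc : HasCompactSupport a) (z : ℂ) :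
    HasCompactSupport fun r : ℝ => a (z + (r : ℂ) * v) := by
  obtain ⟨R, hR⟩ := hc.isBounded.exists_norm_le
  have hv' : 0 < ‖v‖ := norm_pos_iff.mpr hv
  refine HasCompactSupport.of_support_subset_isCompact
    (K := Set.Icc (-((R + ‖z‖) / ‖v‖)) ((R + ‖z‖) / ‖v‖)) isCompact_Icc ?_
  intro r hr
  have h1 : z + (r : ℂ) * v ∈ tsupport a := subset_tsupport a hr
  have h2 := hR _ h1
  have h3 : |r| * ‖v‖ ≤ R + ‖z‖ := by
    have h4 : ‖(r : ℂ) * v‖ ≤ ‖z + (r : ℂ) * v‖ + ‖z‖ := by
      calc ‖(r : ℂ) * v‖ = ‖z + (r : ℂ) * v - z‖ := by rw [add_sub_cancel_left]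
        _ ≤ _ := norm_sub_le _ _
    rw [norm_mul, Complex.norm_real, Real.norm_eq_abs] at h4
    linarith
  have h4 : |r| ≤ (R + ‖z‖) / ‖v‖ := (le_div_iff₀ hv').mpr h3
  exact abs_le.mp h4

/-- `∂_v (ray v a) = a`: on the line `s ↦ z + s v` one has `ray v a (z + s v) = ∫_{t < s} a(z + t v)`;
fundamental theorem of calculus. (Together with `ray_smooth`.) -/
lemma ray_deriv {v : ℂ} (hv : v ≠ 0) {a : ℂ → ℝ} (ha : ContDiff ℝ ∞ a) (hc : HasCompactSupport a)
    (z : ℂ) : fderiv ℝ (ray v a) z v = a z := by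
  have hb : Continuous fun r : ℝ => a (z + (r : ℂ) * v) := by
    have := ha.continuous
    fun_prop
  have hi : Integrable fun r : ℝ => a (z + (r : ℂ) * v) :=
    hb.integrable_of_hasCompactSupport (line_compact hv hc z)
  have h1 : ∀ s : ℝ, ray v a (z + (s : ℂ) * v) =
      (∫ r in Set.Iic (0 : ℝ), a (z + (r : ℂ) * v)) + ∫ r in (0 : ℝ)..s, a (z + (r : ℂ) * v) := by
    intro s
    rw [ray_line, ← integral_Iic_eq_integral_Iio]
    have := intervalIntegral.integral_Iic_sub_Iic (μ := volume) (a := (0 : ℝ)) (b := s)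
      hi.integrableOn hi.integrableOn
    rw [← this]
    ring
  have h2 : HasDerivAt (fun s : ℝ => ray v a (z + (s : ℂ) * v)) (a z) 0 := by
    have h3 := intervalIntegral.integral_hasDerivAt_right (a := (0 : ℝ)) (b := (0 : ℝ))
      (hb.intervalIntegrable _ _) (hb.stronglyMeasurableAtFilter _ _) hb.continuousAt
    have h4 := h3.const_add (∫ r in Set.Iic (0 : ℝ), a (z + (r : ℂ) * v))
    simp only [Complex.ofReal_zero, zero_mul, add_zero] at h4
    exact h4.congr_of_eventuallyEq (Filter.Eventually.of_forall h1)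
  have h5 : HasDerivAt (fun s : ℝ => z + (s : ℂ) * v) v 0 := by
    have h6 : HasDerivAt (fun s : ℝ => (s : ℂ)) 1 0 := Complex.ofRealCLM.hasDerivAt
    simpa using (h6.mul_const v).const_add z
  have h7 : HasFDerivAt (ray v a) (fderiv ℝ (ray v a) z) (z + ((0 : ℝ) : ℂ) * v) := by
    have h8 := ((ray_smooth hv ha hc).differentiable (by simp) z).hasFDerivAt
    simpa using h8
  have h9 := h7.comp_hasDerivAt (0 : ℝ) h5
  exact h9.unique h2

/-- If all line integrals vanish, the support of `ray v a` lies in the segments spanned by the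
support of `a`: there are `s ≤ 0 ≤ t` with `a (z + s v) ≠ 0` and `a (z + t v) ≠ 0`. -/
lemma ray_supp {v : ℂ} {a : ℂ → ℝ} (h0 : ∀ z, lin v a z = 0) {z : ℂ} (hz : ray v a z ≠ 0) :
    (∃ s : ℝ, s ≤ 0 ∧ a (z + (s : ℂ) * v) ≠ 0) ∧ ∃ t : ℝ, 0 ≤ t ∧ a (z + (t : ℂ) * v) ≠ 0 := by
  constructor
  · by_contra hcon
    push Not at hcon
    apply hz
    unfold ray
    have h1 : ∀ t ∈ Set.Ioi (0 : ℝ), a (z - (t : ℂ) * v) = 0 := by
      intro t ht
      have h2 := hcon (-t) (by linarith [Set.mem_Ioi.mp ht])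
      have h3 : z - (t : ℂ) * v = z + ((-t : ℝ) : ℂ) * v := by
        push_cast
        ring
      rw [h3]
      exact h2
    rw [setIntegral_congr_fun measurableSet_Ioi h1]
    simp
  · by_contra hcon
    push Not at hcon
    apply hz
    rw [← h0 z]
    unfold ray lin
    apply setIntegral_eq_integral_of_forall_compl_eq_zero
    intro t ht
    have h1 : t ≤ 0 := not_lt.mp ht
    have h2 := hcon (-t) (by linarith)
    have h3 : z - (t : ℂ) * v = z + ((-t : ℝ) : ℂ) * v := by
      push_cast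
      ring
    rw [h3]
    exact h2

end Pool.Agent.SfBundle
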