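import Mathlib
import Pool.Agent.Lib.MP_1d980c_gt.Sf.CPc

set_option autoImplicit false
open scoped UpperHalfPlane MatrixGroups Manifold ContDiff Matrix Topology
open Complex ComplexConjugate Pool.Agent.HypBundle MeasureTheory

namespace Pool.Agent.SfBundle

private lemma exists_box {L : Set ℂ} (hL : IsCompact L) (hLH : L ⊆ HH) :
    ∃ R c : ℝ, 1 ≤ R ∧ 0 < c ∧ ∀ z ∈ L, |z.re| ≤ R ∧ c ≤ z.im ∧ z.im ≤ R := by
  obtain ⟨R0, hR0⟩ := hL.isBounded.subset_closedBall 0
  have hb : ∀ z ∈ L, |z.re| ≤ max R0 1 ∧ z.im ≤ max R0 1 := by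
    intro z hz
    have h1 : ‖z‖ ≤ R0 := by simpa using hR0 hz
    exact ⟨(Complex.abs_re_le_norm z).trans (h1.trans (le_max_left _ _)),
      (le_abs_self _).trans ((Complex.abs_im_le_norm z).trans (h1.trans (le_max_left _ _)))⟩
  rcases L.eq_empty_or_nonempty with he | hne
  · exact ⟨1, 1, le_rfl, one_pos, fun z hz => by simp [he] at hz⟩
  · obtain ⟨w, hw, hmin⟩ := hL.exists_isMinOn hne Complex.continuous_im.continuousOn
    refine ⟨max R0 1, w.im, le_max_right _ _, hLH hw, fun z hz => ⟨(hb z hz).1, hmin hz, (hb z hz).2⟩⟩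

private lemma lin_one_shift (h : ℂ → ℝ) (z : ℂ) (s : ℝ) : lin 1 h (z - (s : ℂ)) = lin 1 h z := by
  unfold lin
  rw [← integral_add_right_eq_self (fun t : ℝ => h (z - (t : ℂ) * 1)) s]
  refine integral_congr_ae (Filter.Eventually.of_forall fun t => ?_)
  show h (z - s - t * 1) = h (z - ((t + s : ℝ) : ℂ) * 1)
  congr 1
  push_cast
  ring

private lemma int_total {h : ℂ → ℝ} (hi : Integrable h) (z : ℂ) :
    ∫ t : ℝ, lin 1 h (z - (t : ℂ) * I) = ∫ w, h w := by
  have h1 : ∀ t : ℝ, lin 1 h (z - (t : ℂ) * I) =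
      (fun y : ℝ => ∫ x : ℝ, h (⟨x, y⟩ : ℂ)) (z.im - t) := by
    intro t
    unfold lin
    beta_reduce
    rw [← integral_sub_left_eq_self (fun x : ℝ => h (⟨x, z.im - t⟩ : ℂ)) volume z.re]
    refine integral_congr_ae (Filter.Eventually.of_forall fun s => ?_)
    show h (z - t * I - s * 1) = h (⟨z.re - s, z.im - t⟩ : ℂ)
    congr 1
    apply Complex.ext <;> simp
  simp_rw [h1]
  rw [integral_sub_left_eq_self (fun y : ℝ => ∫ x : ℝ, h (⟨x, y⟩ : ℂ)) volume z.im]
  have h2 : ∫ w, h w = ∫ p : ℝ × ℝ, h (Complex.measurableEquivRealProd.symm p) := by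
    have := Complex.volume_preserving_equiv_real_prod.symm.integral_comp'
      (g := h)
    exact this.symm
  rw [h2]
  have hi2 : Integrable (fun p : ℝ × ℝ => h (Complex.measurableEquivRealProd.symm p)) := by
    exact (Complex.volume_preserving_equiv_real_prod.symm).integrable_comp_of_integrable hi
  rw [Measure.volume_eq_prod] at hi2 ⊢
  rw [integral_prod_symm _ hi2]
  rfl

/-- **Compactly supported Poincare lemma in the half plane.** Let `h` be smooth with compact support
in the box `[-R,R] × [c,R]`, `c > 0` (exists, since the support is compact in `HH`). Let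
`k = lin 1 h` (depends only on `im z`, vanishes for `im z ∉ [c,R]`), `φ` a smooth bump on `ℝ` with
integral one supported in `[-R,R]`, `b(z) = φ(re z) k(z)`, `a = h - b`. Then `lin 1 a = 0` and, since
`∫ h = 0` (Fubini), `lin I b = 0`. Put `A = ray 1 a`, `B = ray I b`: smooth, supported in the box
(`ray_supp`), `∂_x A = a`, `∂_y B = b` (`ray_deriv`). For `g = -B - i A` (real part `p = -B`,
imaginary part `q = -A`): `cu g = -(p_y + q_x) = B_y + A_x = b + a = h`. -/
theorem compact_poincare {h : ℂ → ℝ} (hs : ContDiff ℝ ∞ h) {L : Set ℂ} (hL : IsCompact L)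
    (hLH : L ⊆ HH) (h0 : ∀ z, z ∉ L → h z = 0) (hi : ∫ z, h z = 0) :
    ∃ (g : ℂ → ℂ) (L' : Set ℂ), IsCompact L' ∧ L' ⊆ HH ∧ ContDiff ℝ ∞ g ∧ (∀ z, z ∉ L' → g z = 0) ∧
      ∀ z, cu g z = h z := by
  obtain ⟨R, c, hR, hc, hbox⟩ := exists_box hL hLH
  have hcs : HasCompactSupport h := HasCompactSupport.intro hL h0
  -- the box
  set X : Set ℂ := (Set.Icc (-R) R) ×ℂ (Set.Icc c R) with hX
  have hXc : IsCompact X := isCompact_Icc.reProdIm isCompact_Icc
  have hXH : X ⊆ HH := by
    intro z hz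
    rw [hX, Complex.mem_reProdIm] at hz
    exact lt_of_lt_of_le hc hz.2.1
  have hhX : ∀ z, z ∉ X → h z = 0 := by
    intro z hz
    apply h0
    intro hzL
    apply hz
    rw [hX, Complex.mem_reProdIm]
    obtain ⟨h1, h2, h3⟩ := hbox z hzL
    exact ⟨⟨(abs_le.1 h1).1, (abs_le.1 h1).2⟩, h2, h3⟩
  -- convexity in the two directions
  have hcv1 : ∀ (z : ℂ) (s t : ℝ), s ≤ 0 → 0 ≤ t → z + (s : ℂ) * 1 ∈ X → z + (t : ℂ) * 1 ∈ X →
      z ∈ X := by
    intro z s t hs0 ht0 h1 h2
    rw [hX, Complex.mem_reProdIm] at h1 h2 ⊢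
    simp only [Set.mem_Icc] at h1 h2 ⊢
    simp at h1 h2
    exact ⟨⟨by linarith [h1.1.1], by linarith [h2.1.2]⟩, h1.2⟩
  have hcv2 : ∀ (z : ℂ) (s t : ℝ), s ≤ 0 → 0 ≤ t → z + (s : ℂ) * I ∈ X → z + (t : ℂ) * I ∈ X →
      z ∈ X := by
    intro z s t hs0 ht0 h1 h2
    rw [hX, Complex.mem_reProdIm] at h1 h2 ⊢
    simp only [Set.mem_Icc] at h1 h2 ⊢
    simp at h1 h2
    exact ⟨h1.1, ⟨by linarith [h1.2.1], by linarith [h2.2.2]⟩⟩
  -- the bump
  let f : ContDiffBump (0 : ℝ) := ⟨1 / 2, 1, by norm_num, by norm_num⟩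
  set φ : ℝ → ℝ := f.normed volume with hφ
  have hφs : ContDiff ℝ ∞ φ := f.contDiff_normed
  have hφi : ∫ x, φ x = 1 := f.integral_normed
  have hφ0 : ∀ x, x ∉ Set.Icc (-R) R → φ x = 0 := by
    intro x hx
    by_contra hne
    have h1 : x ∈ Function.support φ := hne
    rw [hφ, f.support_normed_eq] at h1
    have h2 : |x| < 1 := by simpa [f] using h1
    apply hx
    have h3 := abs_lt.1 h2
    exact ⟨by linarith [h3.1], by linarith [h3.2]⟩
  set k : ℂ → ℝ := lin 1 h with hk
  have hks : ContDiff ℝ ∞ k := lin_smooth one_ne_zero hs hcs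
  have hk0 : ∀ z : ℂ, z.im ∉ Set.Icc c R → k z = 0 := by
    intro z hz
    rw [hk]
    unfold lin
    have : ∀ t : ℝ, h (z - (t : ℂ) * 1) = 0 := by
      intro t
      apply hhX
      intro hm
      rw [hX, Complex.mem_reProdIm] at hm
      apply hz
      simpa using hm.2
    rw [integral_congr_ae (Filter.Eventually.of_forall this), integral_zero]
  set b : ℂ → ℝ := fun z => φ z.re * k z with hb
  have hbs : ContDiff ℝ ∞ b := by
    rw [hb]
    exact (hφs.comp Complex.reCLM.contDiff).mul hks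
  have hbX : ∀ z, z ∉ X → b z = 0 := by
    intro z hz
    rw [hX, Complex.mem_reProdIm] at hz
    show φ z.re * k z = 0
    by_cases h1 : z.re ∈ Set.Icc (-R) R
    · rw [hk0 z (fun h2 => hz ⟨h1, h2⟩), mul_zero]
    · rw [hφ0 _ h1, zero_mul]
  have hbc : HasCompactSupport b := HasCompactSupport.intro hXc hbX
  set a : ℂ → ℝ := fun z => h z - b z with ha
  have has : ContDiff ℝ ∞ a := hs.sub hbs
  have haX : ∀ z, z ∉ X → a z = 0 := by
    intro z hz
    show h z - b z = 0
    rw [hhX z hz, hbX z hz, sub_zero]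
  have hac : HasCompactSupport a := HasCompactSupport.intro hXc haX
  -- line integrals
  have hline : ∀ (f : ℂ → ℝ), Continuous f → (∀ z, z ∉ X → f z = 0) → ∀ z : ℂ,
      Integrable (fun t : ℝ => f (z - (t : ℂ) * 1)) := by
    intro f hf hf0 z
    apply Continuous.integrable_of_hasCompactSupport
    · exact hf.comp (by fun_prop)
    · apply HasCompactSupport.intro (K := Set.Icc (z.re - R) (z.re + R)) isCompact_Icc
      intro t ht
      apply hf0
      intro hm
      rw [hX, Complex.mem_reProdIm] at hm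
      apply ht
      have h1 := hm.1
      simp only [Set.mem_Icc] at h1 ⊢
      simp at h1
      constructor <;> linarith [h1.1, h1.2]
  have hla : ∀ z, lin 1 a z = 0 := by
    intro z
    have h1 : lin 1 a z = lin 1 h z - lin 1 b z := by
      unfold lin
      rw [← integral_sub (hline h hs.continuous hhX z) (hline b hbs.continuous hbX z)]
    have h2 : lin 1 b z = lin 1 h z := by
      unfold lin
      have h3 : ∀ t : ℝ, b (z - (t : ℂ) * 1) = φ (z.re - t) * k z := by
        intro t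
        show φ (z - (t : ℂ) * 1).re * k (z - (t : ℂ) * 1) = _
        rw [mul_one, hk, lin_one_shift]
        simp
      simp_rw [h3]
      rw [integral_mul_const, integral_sub_left_eq_self φ volume z.re, hφi, one_mul]
      rfl
    rw [h1, h2, sub_self]
  have hlb : ∀ z, lin I b z = 0 := by
    intro z
    unfold lin
    have h3 : ∀ t : ℝ, b (z - (t : ℂ) * I) = φ z.re * k (z - (t : ℂ) * I) := by
      intro t
      show φ (z - (t : ℂ) * I).re * k (z - (t : ℂ) * I) = _
      simp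
    simp_rw [h3]
    rw [integral_const_mul, hk, int_total (hs.continuous.integrable_of_hasCompactSupport hcs), hi,
      mul_zero]
  -- the primitives
  have hAs : ContDiff ℝ ∞ (ray 1 a) := ray_smooth one_ne_zero has hac
  have hBs : ContDiff ℝ ∞ (ray I b) := ray_smooth I_ne_zero hbs hbc
  have hA0 : ∀ z, z ∉ X → ray 1 a z = 0 := by
    intro z hz
    by_contra hne
    obtain ⟨⟨s, hs0, hs1⟩, t, ht0, ht1⟩ := ray_supp hla hne
    exact hz (hcv1 z s t hs0 ht0 (by by_contra h; exact hs1 (haX _ h))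
      (by by_contra h; exact ht1 (haX _ h)))
  have hB0 : ∀ z, z ∉ X → ray I b z = 0 := by
    intro z hz
    by_contra hne
    obtain ⟨⟨s, hs0, hs1⟩, t, ht0, ht1⟩ := ray_supp hlb hne
    exact hz (hcv2 z s t hs0 ht0 (by by_contra h; exact hs1 (hbX _ h))
      (by by_contra h; exact ht1 (hbX _ h)))
  refine ⟨fun z => -((ray I b z : ℝ) : ℂ) - I * ((ray 1 a z : ℝ) : ℂ), X, hXc, hXH, ?_, ?_, ?_⟩
  · exact ((Complex.ofRealCLM.contDiff.comp hBs).neg).sub
      (contDiff_const.mul (Complex.ofRealCLM.contDiff.comp hAs))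
  · intro z hz
    simp [hA0 z hz, hB0 z hz]
  · intro z
    have hdA : HasFDerivAt (ray 1 a) (fderiv ℝ (ray 1 a) z) z :=
      (hAs.differentiable (by simp)).differentiableAt.hasFDerivAt
    have hdB : HasFDerivAt (ray I b) (fderiv ℝ (ray I b) z) z :=
      (hBs.differentiable (by simp)).differentiableAt.hasFDerivAt
    have hdA2 : HasFDerivAt (fun z => ((ray 1 a z : ℝ) : ℂ))
        (Complex.ofRealCLM.comp (fderiv ℝ (ray 1 a) z)) z :=
      Complex.ofRealCLM.hasFDerivAt.comp z hdA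
    have hdB2 : HasFDerivAt (fun z => ((ray I b z : ℝ) : ℂ))
        (Complex.ofRealCLM.comp (fderiv ℝ (ray I b) z)) z :=
      Complex.ofRealCLM.hasFDerivAt.comp z hdB
    have hd := (hdB2.neg.sub (hdA2.const_mul I)).fderiv
    have hg : ∀ v, fderiv ℝ (fun z => -((ray I b z : ℝ) : ℂ) - I * ((ray 1 a z : ℝ) : ℂ)) z v =
        -((fderiv ℝ (ray I b) z v : ℝ) : ℂ) - I * ((fderiv ℝ (ray 1 a) z v : ℝ) : ℂ) := by
      intro v
      erw [hd]
      simp
    have e1 : fderiv ℝ (ray 1 a) z 1 = a z := ray_deriv one_ne_zero has hac z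
    have e2 : fderiv ℝ (ray I b) z I = b z := ray_deriv I_ne_zero hbs hbc z
    unfold cu dbar
    rw [hg, hg, e1, e2]
    have e3 : a z + b z = h z := by
      show h z - b z + b z = h z
      ring
    rw [← e3]
    simp
    ring

end Pool.Agent.SfBundle
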