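import Mathlib
import Pool.Agent.Lib.MP_1d980c_gt.Sf.Dz

set_option autoImplicit false
open scoped UpperHalfPlane MatrixGroups Manifold ContDiff Matrix Topology
open Complex ComplexConjugate Pool.Agent.HypBundle

namespace Pool.Agent.SfBundle

lemma cu_add {A B : ℂ → ℂ} {z : ℂ} (hA : DifferentiableAt ℝ A z) (hB : DifferentiableAt ℝ B z) :
    cu (fun x => A x + B x) z = cu A z + cu B z := by
  rw [cu, cu, cu, CH.dbar_add hA hB, Complex.add_im]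
  ring

lemma cu_sub {A B : ℂ → ℂ} {z : ℂ} (hA : DifferentiableAt ℝ A z) (hB : DifferentiableAt ℝ B z) :
    cu (fun x => A x - B x) z = cu A z - cu B z := by
  rw [cu, cu, cu, CH.dbar_sub hA hB, Complex.sub_im]
  ring

/-- real factor -/
lemma cu_const_mul {B : ℂ → ℂ} {z : ℂ} (c : ℝ) (hB : DifferentiableAt ℝ B z) :
    cu (fun x => c * B x) z = c * cu B z := by
  rw [cu, cu, CH.dbar_const_mul (c : ℂ) hB, Complex.im_ofReal_mul]
  ring

lemma cu_congr {A B : ℂ → ℂ} {z : ℂ} (h : A =ᶠ[𝓝 z] B) : cu A z = cu B z := by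
  rw [cu, cu, CH.dbar_congr h]

/-- the derivative of `z ↦ γ z` is `1/(c z + d)²` -/
lemma deriv_T (γ : SL(2, ℝ)) {z : ℂ} (hz : z ∈ HH) : deriv (CH.T γ) z = 1 / jf γ z ^ 2 := by
  have h := (UpperHalfPlane.hasStrictDerivAt_smul (g := (γ : GL (Fin 2) ℝ)) (by simp)
    ⟨z, hz⟩).hasDerivAt.deriv
  have e : deriv (CH.T γ) z = _ := h
  rw [e]
  simp [jf, UpperHalfPlane.denom]

/-- chain rule `(γδ)' = γ'(δ z) δ'(z)` -/
lemma deriv_T_mul (γ δ : SL(2, ℝ)) {z : ℂ} (hz : z ∈ HH) :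
    deriv (CH.T (γ * δ)) z = deriv (CH.T γ) (CH.T δ z) * deriv (CH.T δ) z := by
  have e : CH.T (γ * δ) = fun w => CH.T γ (CH.T δ w) := funext fun w => CH.T_mul γ δ w
  rw [e]
  exact ((CH.hasDerivAt_T γ (CH.T_mem δ z)).comp z (CH.hasDerivAt_T δ hz)).deriv

/-- `|γ'(z)|² (im z)² = (im γz)²` -/
lemma normSq_deriv_T (γ : SL(2, ℝ)) {z : ℂ} (hz : z ∈ HH) :
    Complex.normSq (deriv (CH.T γ) z) * z.im ^ 2 = (CH.T γ z).im ^ 2 := by
  have h1 : (CH.T γ z).im = z.im / Complex.normSq (jf γ z) := by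
    have h2 := CH.T_coe γ ⟨z, hz⟩
    have h3 : (γ • (⟨z, hz⟩ : ℍ) : ℍ).im = z.im / Complex.normSq (jf γ z) := by
      have h5 : ((γ : GL (Fin 2) ℝ) • (⟨z, hz⟩ : ℍ) : ℍ).im = z.im / Complex.normSq (jf γ z) := by
        have h6 := (⟨z, hz⟩ : ℍ).im_smul_eq_div_normSq (γ : GL (Fin 2) ℝ)
        simpa [jf, UpperHalfPlane.denom] using h6
      exact h5
    have h4 : CH.T γ z = ((γ • (⟨z, hz⟩ : ℍ) : ℍ) : ℂ) := h2
    rw [h4]
    exact h3
  rw [deriv_T γ hz, h1, map_div₀, map_one, map_pow, div_pow]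
  ring

end Pool.Agent.SfBundle
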