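import Mathlib
import Pool.Agent.Lib.MP_1d980c_gt.Sf.Cu

set_option autoImplicit false
open scoped UpperHalfPlane MatrixGroups Manifold ContDiff Matrix Topology
open Complex ComplexConjugate Pool.Agent.HypBundle

namespace Pool.Agent.SfBundle

private lemma diffOn_T (γ : SL(2, ℝ)) : DifferentiableOn ℂ (CH.T γ) HH := fun _ hw =>
  (CH.hasDerivAt_T γ hw).differentiableAt.differentiableWithinAt

private lemma diffOn_deriv (γ : SL(2, ℝ)) : DifferentiableOn ℂ (deriv (CH.T γ)) HH :=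
  (diffOn_T γ).deriv CH.isOpen_HH

private lemma dbar_mul_holo {f g : ℂ → ℂ} {z : ℂ} (hf : DifferentiableAt ℝ f z)
    (hg : DifferentiableAt ℂ g z) : dbar (fun x => f x * g x) z = dbar f z * g z := by
  have h0 : dbar g z = 0 := dbar_of_holo hg
  have h1 := fderiv_fun_mul hf (hg.restrictScalars ℝ)
  rw [dbar] at h0 ⊢
  rw [h1, dbar]
  simp only [_root_.add_apply, _root_.smul_apply, smul_eq_mul] at h0 ⊢
  linear_combination (f z) * h0

/-- Pull back: `(im z)² cu (B(γz) γ'(z)) = (im γz)² cu B (γz)`. By `CH.dbar_comp`, the product rule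
`dbar (f g) = dbar f * g` for holomorphic `g`, and `normSq_deriv_T`. -/
lemma cu_pull {B : ℂ → ℂ} (hB : ContDiffOn ℝ ∞ B HH) (γ : SL(2, ℝ)) {z : ℂ} (hz : z ∈ HH) :
    z.im ^ 2 * cu (fun x => B (CH.T γ x) * deriv (CH.T γ) x) z =
      (CH.T γ z).im ^ 2 * cu B (CH.T γ z) := by
  have hBT : DifferentiableAt ℝ B (CH.T γ z) := CH.diffAt hB (CH.T_mem γ z)
  have hT : DifferentiableAt ℝ (CH.T γ) z := CH.diffAt (CH.contDiffOn_T γ) hz
  have h1 : DifferentiableAt ℝ (fun x => B (CH.T γ x)) z := hBT.comp z hT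
  have h2 : DifferentiableAt ℂ (deriv (CH.T γ)) z :=
    (diffOn_deriv γ).differentiableAt (CH.isOpen_HH.mem_nhds hz)
  unfold cu
  rw [dbar_mul_holo h1 h2, CH.dbar_comp hBT (CH.hasDerivAt_T γ hz), mul_assoc,
    mul_comm (conj _) _, Complex.mul_conj, Complex.im_mul_ofReal, ← normSq_deriv_T γ hz]
  ring

lemma pull_smooth {B : ℂ → ℂ} (hB : ContDiffOn ℝ ∞ B HH) (γ : SL(2, ℝ)) :
    ContDiffOn ℝ ∞ (fun x => B (CH.T γ x) * deriv (CH.T γ) x) HH := by
  have h1 : ContDiffOn ℝ ∞ (fun x => B (CH.T γ x)) HH :=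
    hB.comp (CH.contDiffOn_T γ) (fun x _ => CH.T_mem γ x)
  have h2 : ContDiffOn ℝ ∞ (deriv (CH.T γ)) HH :=
    ((diffOn_deriv γ).contDiffOn CH.isOpen_HH).restrict_scalars ℝ
  exact h1.mul h2

end Pool.Agent.SfBundle
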