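import Mathlib
import Pool.Agent.Lib.MP_1d980c_gt.Sf.Cu

set_option autoImplicit false
open scoped UpperHalfPlane MatrixGroups Manifold ContDiff Matrix Topology
open Complex ComplexConjugate Pool.Agent.HypBundle

namespace Pool.Agent.SfBundle

/-- `β₀ = 1/y`, i.e. the form `dx/y`: curvature one, and `γ^* β₀ - β₀ = 2 Dz (arg j)`. -/
lemma beta0 (γ : SL(2, ℝ)) {z : ℂ} (hz : z ∈ HH) :
    z.im ^ 2 * cu (fun x => ((x.im)⁻¹ : ℝ)) z = 1 ∧
      (((CH.T γ z).im)⁻¹ : ℝ) * deriv (CH.T γ) z - ((z.im)⁻¹ : ℝ) =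
        2 * (-Complex.I * ((γ 1 0 : ℝ) : ℂ) / jf γ z) := by
  have hy : 0 < z.im := hz
  refine ⟨?_, ?_⟩
  · have h1 : HasFDerivAt (fun x : ℂ => (x.im)⁻¹) (-(z.im ^ 2)⁻¹ • Complex.imCLM) z :=
      (hasDerivAt_inv hy.ne').comp_hasFDerivAt z Complex.imCLM.hasFDerivAt
    have h2 : HasFDerivAt (fun x : ℂ => (((x.im)⁻¹ : ℝ) : ℂ))
        (Complex.ofRealCLM.comp (-(z.im ^ 2)⁻¹ • Complex.imCLM)) z :=
      Complex.ofRealCLM.hasFDerivAt.comp z h1
    unfold cu dbar
    rw [h2.fderiv]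
    simp
    field_simp
    rw [← Complex.ofReal_pow, Complex.ofReal_re]
  · have hT : 0 < (CH.T γ z).im := CH.T_mem γ z
    have hn := normSq_deriv_T γ hz
    rw [deriv_T γ hz] at hn ⊢
    have hj : jf γ z ≠ 0 := by
      intro h0
      rw [h0] at hn
      simp at hn
      exact hT.ne' (pow_eq_zero_iff two_ne_zero |>.1 hn.symm)
    have hjn : 0 < Complex.normSq (jf γ z) := Complex.normSq_pos.2 hj
    have hi : (CH.T γ z).im = z.im / Complex.normSq (jf γ z) := by
      have h3 : (CH.T γ z).im ^ 2 = (z.im / Complex.normSq (jf γ z)) ^ 2 := by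
        rw [← hn, map_div₀, map_pow, map_one]
        ring
      exact (pow_left_inj₀ hT.le (by positivity) two_ne_zero).1 h3
    have hc : ((Complex.normSq (jf γ z) : ℝ) : ℂ) = jf γ z * conj (jf γ z) :=
      (Complex.mul_conj _).symm
    have hcj : conj (jf γ z) = jf γ z - 2 * Complex.I * ((γ 1 0 : ℝ) : ℂ) * ((z.im : ℝ) : ℂ) := by
      unfold jf
      rw [map_add, map_mul, Complex.conj_ofReal, Complex.conj_ofReal]
      have h4 : conj z = z - 2 * Complex.I * ((z.im : ℝ) : ℂ) := by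
        apply Complex.ext <;> simp
        ring
      rw [h4]
      ring
    have hyc : ((z.im : ℝ) : ℂ) ≠ 0 := Complex.ofReal_ne_zero.2 hy.ne'
    rw [hi, inv_div, Complex.ofReal_div, hc, hcj, Complex.ofReal_inv]
    field_simp
    ring

end Pool.Agent.SfBundle
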