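import Mathlib
import Pool.Agent.Lib.MP_1d980c_gt.Hyp.Pencil
import Pool.Agent.Lib.MP_1d980c_gt.ND

/-! # Definitions for `SurfaceTorusBundles`

Conventions of `Hyp/Defs.lean`: `Γ ≤ SL(2,ℝ)` acts on `ℍ`; `HH ⊆ ℂ` is the upper half plane,
`jf γ w = c w + d`, `ph N o γ w` the peak function, `PS Γ N O A` the Poincare series. -/

set_option autoImplicit false
open scoped UpperHalfPlane MatrixGroups Manifold ContDiff Matrix Topology
open Complex ComplexConjugate Pool.Agent.HypBundle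

namespace Pool.Agent.SfBundle

/-- A holomorphic multiplier `κ` with `|κ(γ,w)| = τ(γw)/τ(w)`, `log τ` Lipschitz. -/
structure Tw (Γ : Subgroup SL(2, ℝ)) where
  /-- the multiplier -/
  κ : Γ → ℂ → ℂ
  /-- the weight -/
  τ : ℍ → ℝ
  /-- Lipschitz constant of `log τ` -/
  C : ℝ
  hC : 0 ≤ C
  hτ : ∀ w, 0 < τ w
  hd : ∀ γ, DifferentiableOn ℂ (κ γ) HH
  h1 : ∀ w : ℍ, κ 1 w = 1
  hm : ∀ (γ δ : Γ) (w : ℍ), κ (γ * δ) w = κ γ ((δ • w : ℍ) : ℂ) * κ δ w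
  hn : ∀ (γ : Γ) (w : ℍ), ‖κ γ w‖ = τ (γ • w) / τ w
  hl : ∀ x w : ℍ, τ x ≤ τ w * Real.exp (C * dist x w)

/-- the trivial multiplier -/
noncomputable def Tw.triv (Γ : Subgroup SL(2, ℝ)) : Tw Γ where
  κ := fun _ _ => 1
  τ := fun _ => 1
  C := 0
  hC := le_rfl
  hτ := fun _ => one_pos
  hd := fun _ => differentiableOn_const _
  h1 := fun _ => rfl
  hm := fun _ _ _ => (mul_one _).symm
  hn := fun _ _ => by simp
  hl := fun _ _ => by simp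

variable {Γ : Subgroup SL(2, ℝ)}

/-- twisted coefficients -/
noncomputable def kA (T : Tw Γ) (A : ℍ → Γ → ℂ) (z : ℂ) : ℍ → Γ → ℂ :=
  fun o γ => A o γ * T.κ γ z / (T.τ o : ℂ)

/-- the twisted Poincare series `∑_o ∑_γ ph(o,γ,z) A(o,γ) κ(γ,z) / τ(o)` -/
noncomputable def PT (T : Tw Γ) (N : ℕ) (O : Finset ℍ) (A : ℍ → Γ → ℂ) (z : ℂ) : ℂ :=
  PS Γ N O (kA T A z) z

/-- matrix valued series with coefficients `c(o) U(o) ρ(γ)` -/
noncomputable def EE {n : ℕ} (ρ : Γ →* Matrix (Fin n) (Fin n) ℝ)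
    (U : ℍ → Matrix (Fin n) (Fin n) ℂ) (T : Tw Γ) (N : ℕ) (O : Finset ℍ) (c : ℍ → ℂ) (z : ℂ) :
    Matrix (Fin n) (Fin n) ℂ :=
  fun i j => PT T N O (fun o γ => c o * (U o * (ρ γ).map Complex.ofReal) i j) z

/-- The constant matrix with rows `v ↦ v_k + i v_{m+k}` (row `k`) and their conjugates
(row `m + k`), `k < m`. -/
noncomputable def Wm (m : ℕ) : Matrix (Fin (2 * m)) (Fin (2 * m)) ℂ :=
  fun x => if x.val < m then TorusBundle.Zr m x.val else TorusBundle.Zb m (x.val - m)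

/-- The model matrix: for `ζ ∈ ℂ^m` and `Ea = P 1`, `Eb = Q 1`, `Ed = S 1`, `Fb = Q 1`, `Fd = S 1` the
rows applied to `(ζ, conj ζ)` are `Q ζ_0 + S conj ζ_{m-1}`, `Q ζ_i + P ζ_{i-1}` (`1 ≤ i < m-1`) and
`Q^{m-1} ζ_{m-1} + ∑_{j < m-1} (-1)^{j+1} S P^j Q^{m-2-j} conj ζ_j`. -/
noncomputable def LX (m : ℕ) (P Q : ℂ) (Ea Eb Ed Fb Fd : Matrix (Fin (2 * m)) (Fin (2 * m)) ℂ) :
    Matrix (Fin m) (Fin (2 * m)) ℂ :=
  fun i => if i.val = m - 1 then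
      Q ^ (m - 2) • Fb ⟨m - 1, by have := i.isLt; omega⟩ +
        ∑ j : Fin (m - 1), ((-1) ^ (j.val + 1) * P ^ j.val * Q ^ (m - 2 - j.val)) •
          Fd ⟨m + j.val, by have := j.isLt; omega⟩
    else Eb ⟨i.val, by have := i.isLt; omega⟩ +
      (if i.val = 0 then Ed ⟨2 * m - 1, by have := i.isLt; omega⟩ else Ea ⟨i.val - 1, by have := i.isLt; omega⟩)

end Pool.Agent.SfBundle
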