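import Mathlib
import Pool.Agent.Lib.MP_1d980c_gt.DetPos

set_option autoImplicit false
open scoped Manifold ContDiff Matrix Topology
open Complex

namespace Pool.Agent.SfBundle

/-- block triangular determinant: copy `TorusBundle.det_block` (`DetPos.lean`), the lower right block
is now the matrix of `D` -/
lemma det_block2 {n : ℕ} (A : Matrix (Fin n) (Fin n) ℝ) (N : (ℝ × ℝ) →ₗ[ℝ] (Fin n → ℝ))
    (D : (ℝ × ℝ) →ₗ[ℝ] (ℝ × ℝ))
    (f : ((Fin n → ℝ) × (ℝ × ℝ)) →ₗ[ℝ] ((Fin n → ℝ) × (ℝ × ℝ)))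
    (hf : ∀ v x, f (v, x) = (A *ᵥ v + N x, D x)) : LinearMap.det f = A.det * LinearMap.det D := by
  classical
  let b0 := (Pi.basisFun ℝ (Fin n)).prod (Module.Basis.finTwoProd ℝ)
  rw [← LinearMap.det_toMatrix b0 f, ← LinearMap.det_toMatrix (Module.Basis.finTwoProd ℝ) D]
  have e : LinearMap.toMatrix b0 b0 f =
      Matrix.fromBlocks A (Matrix.of fun i j => N (Module.Basis.finTwoProd ℝ j) i) 0
        (LinearMap.toMatrix (Module.Basis.finTwoProd ℝ) (Module.Basis.finTwoProd ℝ) D) := by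
    ext i j
    rcases i with i | i <;> rcases j with j | j
    · rw [LinearMap.toMatrix_apply]
      simp [b0, hf]
    · rw [LinearMap.toMatrix_apply]
      simp [b0, hf]
    · rw [LinearMap.toMatrix_apply]
      simp [b0, hf]
    · rw [LinearMap.toMatrix_apply]
      simp only [b0, Module.Basis.prod_apply, Sum.elim_inr, LinearMap.coe_inr, Function.comp_apply, hf,
        Module.Basis.prod_repr_inr, Matrix.fromBlocks_apply₂₂]
      rw [LinearMap.toMatrix_apply]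
  rw [e, Matrix.det_fromBlocks_zero₂₁]

/-- copy `TorusBundle.det_pos_of_field` (`DetPos.lean`) -/
lemma det_pos_of_field2 {n : ℕ} {A : Matrix (Fin n) (Fin n) ℝ} (hA : IsUnit A)
    (N : (ℝ × ℝ) →L[ℝ] (Fin n → ℝ)) (D : (ℝ × ℝ) →L[ℝ] (ℝ × ℝ))
    (hD : 0 < LinearMap.det (D : (ℝ × ℝ) →ₗ[ℝ] (ℝ × ℝ)))
    (f : ((Fin n → ℝ) × (ℝ × ℝ)) →L[ℝ] ((Fin n → ℝ) × (ℝ × ℝ)))
    (hf : ∀ v x, f (v, x) = (A *ᵥ v + N x, D x))
    (J : ((Fin n → ℝ) × (ℝ × ℝ)) → (((Fin n → ℝ) × (ℝ × ℝ)) →L[ℝ] ((Fin n → ℝ) × (ℝ × ℝ))))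
    (hJ : Continuous J) (hJ2 : ∀ p, (J p).comp (J p) = -ContinuousLinearMap.id ℝ _)
    (p q : (Fin n → ℝ) × (ℝ × ℝ)) (h : f.comp (J p) = (J q).comp f) : 0 < A.det := by
  classical
  let b := ((Pi.basisFun ℝ (Fin n)).prod (Module.Basis.finTwoProd ℝ)).reindex finSumFinEquiv
  have hdet : (LinearMap.toMatrix b b (f : _ →ₗ[ℝ] _)).det =
      A.det * LinearMap.det (D : (ℝ × ℝ) →ₗ[ℝ] (ℝ × ℝ)) := by
    rw [LinearMap.det_toMatrix]
    exact det_block2 A (N : (ℝ × ℝ) →ₗ[ℝ] (Fin n → ℝ)) (D : (ℝ × ℝ) →ₗ[ℝ] (ℝ × ℝ)) _ hf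
  refine pos_of_mul_pos_left (b := LinearMap.det (D : (ℝ × ℝ) →ₗ[ℝ] (ℝ × ℝ))) ?_ hD.le
  rw [← hdet]
  refine TorusBundle.det_pos_of_intertwine (fun p => LinearMap.toMatrix b b (J p : _ →ₗ[ℝ] _)) ?_ ?_
    p q _ ?_ ?_
  · let T : (((Fin n → ℝ) × (ℝ × ℝ)) →L[ℝ] ((Fin n → ℝ) × (ℝ × ℝ))) →ₗ[ℝ]
        Matrix (Fin (n + 2)) (Fin (n + 2)) ℝ :=
      (LinearMap.toMatrix b b).toLinearMap.comp (ContinuousLinearMap.coeLM ℝ)
    exact (T.continuous_of_finiteDimensional).comp hJ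
  · intro p
    have h1 := congrArg (fun g : ((Fin n → ℝ) × (ℝ × ℝ)) →L[ℝ] ((Fin n → ℝ) × (ℝ × ℝ)) =>
      LinearMap.toMatrix b b (g : _ →ₗ[ℝ] _)) (hJ2 p)
    simp only [ContinuousLinearMap.toLinearMap_comp, ContinuousLinearMap.toLinearMap_neg,
      map_neg] at h1
    have h2 : LinearMap.toMatrix b b ((ContinuousLinearMap.id ℝ ((Fin n → ℝ) × (ℝ × ℝ)) : _ →L[ℝ] _) :
        _ →ₗ[ℝ] _) = 1 := LinearMap.toMatrix_id b
    rw [h2] at h1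
    rw [← h1, LinearMap.toMatrix_comp b b b]
  · rw [Matrix.isUnit_iff_isUnit_det, hdet]
    exact ((Matrix.isUnit_iff_isUnit_det A).1 hA).mul (isUnit_iff_ne_zero.2 hD.ne')
  · have h1 := congrArg (fun g : ((Fin n → ℝ) × (ℝ × ℝ)) →L[ℝ] ((Fin n → ℝ) × (ℝ × ℝ)) =>
      LinearMap.toMatrix b b (g : _ →ₗ[ℝ] _)) h
    simp only [ContinuousLinearMap.toLinearMap_comp] at h1
    rw [← LinearMap.toMatrix_comp b b b, ← LinearMap.toMatrix_comp b b b]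
    exact h1

end Pool.Agent.SfBundle
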