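import Mathlib

set_option autoImplicit false
open scoped UpperHalfPlane MatrixGroups Manifold ContDiff Matrix Topology
open Complex

namespace Pool.Agent.SfBundle

/-- the coordinates `(x,t) ↦ x + i e^t` of the half plane -/
noncomputable def cH (x : ℝ × ℝ) : ℍ :=
  ⟨⟨x.1, Real.exp x.2⟩, Real.exp_pos x.2⟩

/-- the action in these coordinates -/
noncomputable def gx (γ : SL(2, ℝ)) (x : ℝ × ℝ) : ℝ × ℝ := ((γ • cH x).re, Real.log (γ • cH x).im)

lemma cH_gx (γ : SL(2, ℝ)) (x : ℝ × ℝ) : cH (gx γ x) = γ • cH x := by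
  apply UpperHalfPlane.ext
  apply Complex.ext
  · rfl
  · change Real.exp (Real.log (γ • cH x).im) = (γ • cH x).im
    exact Real.exp_log (γ • cH x).im_pos

private noncomputable def wv (x : ℝ × ℝ) : ℂ := (x.1 : ℂ) + (Real.exp x.2 : ℂ) * I

private lemma coe_cH (x : ℝ × ℝ) : (cH x : ℂ) = wv x := by
  apply Complex.ext
  · simp [cH, wv]
  · have h : (Complex.exp (x.2 : ℂ)).re = Real.exp x.2 := Complex.exp_ofReal_re x.2
    have h2 : (Complex.exp (x.2 : ℂ)).im = 0 := Complex.exp_ofReal_im x.2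
    simp [cH, wv, h, h2]

private lemma wv_deriv (x : ℝ × ℝ) : HasFDerivAt wv
    (Complex.ofRealCLM.comp (ContinuousLinearMap.fst ℝ ℝ ℝ) +
      ((Real.exp x.2) • ContinuousLinearMap.snd ℝ ℝ ℝ).smulRight I) x := by
  have h1 : HasFDerivAt (fun y : ℝ × ℝ => ((y.1 : ℝ) : ℂ))
      (Complex.ofRealCLM.comp (ContinuousLinearMap.fst ℝ ℝ ℝ)) x :=
    Complex.ofRealCLM.hasFDerivAt.comp x hasFDerivAt_fst
  have h2 : HasFDerivAt (fun y : ℝ × ℝ => Real.exp y.2)
      ((Real.exp x.2) • ContinuousLinearMap.snd ℝ ℝ ℝ) x := hasFDerivAt_snd.exp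
  have h3 := h2.smul_const I
  have h4 := h1.add h3
  refine h4.congr_of_eventuallyEq (Filter.Eventually.of_forall fun y => ?_)
  simp [wv]

/-- `gx = cH⁻¹ ∘ γ ∘ cH`: with `γ'(w) = α + i β` (`w = cH x`, `γ' = (c w + d)⁻²`) and
`x' = gx γ x` the derivative is `(p, q) ↦ (α p - β e^t q, e^{-t'} (β p + α e^t q))`, whose
determinant is `(α² + β²) e^{t - t'} > 0`. -/
lemma gx_deriv (γ : SL(2, ℝ)) (x : ℝ × ℝ) : ∃ D : (ℝ × ℝ) →L[ℝ] (ℝ × ℝ), HasFDerivAt (gx γ) D x ∧
    0 < LinearMap.det (D : (ℝ × ℝ) →ₗ[ℝ] (ℝ × ℝ)) := by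
  set a : ℂ := ((γ 0 0 : ℝ) : ℂ) with ha
  set b : ℂ := ((γ 0 1 : ℝ) : ℂ) with hb
  set c : ℂ := ((γ 1 0 : ℝ) : ℂ) with hc
  set d : ℂ := ((γ 1 1 : ℝ) : ℂ) with hd
  have hdet : a * d - b * c = 1 := by
    have h := γ.det_coe
    rw [Matrix.det_fin_two] at h
    rw [ha, hb, hc, hd]
    exact_mod_cast h
  have hco : ∀ y : ℝ × ℝ, ((γ • cH y : ℍ) : ℂ) = (a * wv y + b) / (c * wv y + d) := by
    intro y
    rw [UpperHalfPlane.coe_specialLinearGroup_apply, coe_cH]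
    simp [ha, hb, hc, hd]
  have hne : ∀ y : ℝ × ℝ, c * wv y + d ≠ 0 := by
    intro y h0
    have h1 := hco y
    rw [h0, div_zero] at h1
    have h2 := (γ • cH y : ℍ).im_pos
    have h3 : ((γ • cH y : ℍ) : ℂ).im = 0 := by rw [h1]; rfl
    exact absurd h3 h2.ne'
  -- the complex derivative
  have hm : HasDerivAt (fun w : ℂ => (a * w + b) / (c * w + d)) (1 / (c * wv x + d) ^ 2) (wv x) := by
    have h1 : HasDerivAt (fun w : ℂ => a * w + b) a (wv x) := by
      simpa using ((hasDerivAt_id (wv x)).const_mul a).add_const b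
    have h2 : HasDerivAt (fun w : ℂ => c * w + d) c (wv x) := by
      simpa using ((hasDerivAt_id (wv x)).const_mul c).add_const d
    have h3 := h1.div h2 (hne x)
    refine h3.congr_deriv ?_
    congr 1
    linear_combination hdet
  set μ : ℂ := 1 / (c * wv x + d) ^ 2 with hμ
  have hμ0 : μ ≠ 0 := by
    rw [hμ]
    exact one_div_ne_zero (pow_ne_zero 2 (hne x))
  have hF : HasFDerivAt (fun y : ℝ × ℝ => ((γ • cH y : ℍ) : ℂ))
      ((μ • (1 : ℂ →L[ℝ] ℂ)).comp (Complex.ofRealCLM.comp (ContinuousLinearMap.fst ℝ ℝ ℝ) +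
        ((Real.exp x.2) • ContinuousLinearMap.snd ℝ ℝ ℝ).smulRight I)) x := by
    have h1 := hm.complexToReal_fderiv.comp x (wv_deriv x)
    refine h1.congr_of_eventuallyEq (Filter.Eventually.of_forall fun y => ?_)
    simp only [Function.comp_apply]
    exact hco y
  have hre := Complex.reCLM.hasFDerivAt.comp x hF
  have him := Complex.imCLM.hasFDerivAt.comp x hF
  have hY : 0 < (γ • cH x : ℍ).im := (γ • cH x : ℍ).im_pos
  have hlog := him.log (by
    change (γ • cH x : ℍ).im ≠ 0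
    exact hY.ne')
  refine ⟨_, hre.prodMk hlog, ?_⟩
  have hY' : 0 < (((γ • cH x : ℍ) : ℂ)).im := hY
  rw [← LinearMap.det_toMatrix (Module.Basis.finTwoProd ℝ), Matrix.det_fin_two]
  simp only [LinearMap.toMatrix_apply, Module.Basis.finTwoProd_zero, Module.Basis.finTwoProd_one]
  have hE := Real.exp_pos x.2
  have hμ1 : 0 < μ.re ^ 2 + μ.im ^ 2 := by
    by_contra hcon
    apply hμ0
    have h1 := sq_nonneg μ.re
    have h2 := sq_nonneg μ.im
    apply Complex.ext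
    · exact pow_eq_zero_iff (two_ne_zero) |>.1 (by linarith)
    · exact pow_eq_zero_iff (two_ne_zero) |>.1 (by linarith)
  have hE1 : (cexp (x.2 : ℂ)).re = Real.exp x.2 := Complex.exp_ofReal_re x.2
  simp only [Module.Basis.coe_finTwoProd_repr]
  simp [hE1]
  have h3 : μ.re * ((γ • cH x).im⁻¹ * (μ.re * Real.exp x.2)) +
      μ.im * Real.exp x.2 * ((γ • cH x).im⁻¹ * μ.im) =
      (μ.re ^ 2 + μ.im ^ 2) * Real.exp x.2 * (γ • cH x).im⁻¹ := by ring
  rw [h3]
  exact mul_pos (mul_pos hμ1 hE) (inv_pos.2 hY)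

end Pool.Agent.SfBundle
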