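import Mathlib
import Pool.Agent.Lib.MP_1d980c_gt.Sf.DpB
import Pool.Agent.Lib.MP_1d980c_gt.Hyp.CocycleH

set_option autoImplicit false
open scoped UpperHalfPlane MatrixGroups Manifold ContDiff Matrix Topology
open Complex

namespace Pool.Agent.SfBundle

/-- `UpperHalfPlane.contMDiffAt_ofComplex` restricted to real scalars, or: `ℍ` is an open subset of
`ℂ` with the chart `UpperHalfPlane.coe`. -/
lemma cH_smooth : ContMDiff 𝓘(ℝ, ℝ × ℝ) 𝓘(ℝ, ℂ) ∞ cH := by
  intro x
  have hg : ContDiff ℝ ∞ (fun x : ℝ × ℝ => (x.1 : ℂ) + (Real.exp x.2 : ℂ) * Complex.I) := by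
    have h1 : ContDiff ℝ ∞ (fun x : ℝ × ℝ => (x.1 : ℂ)) :=
      Complex.ofRealCLM.contDiff.comp contDiff_fst
    have h2 : ContDiff ℝ ∞ (fun x : ℝ × ℝ => (Real.exp x.2 : ℂ)) :=
      Complex.ofRealCLM.contDiff.comp (Real.contDiff_exp.comp contDiff_snd)
    exact h1.add (h2.mul contDiff_const)
  have him : ∀ x : ℝ × ℝ, ((x.1 : ℂ) + (Real.exp x.2 : ℂ) * Complex.I).im = Real.exp x.2 := by
    intro x
    simp only [add_im, ofReal_im, mul_im, ofReal_re, I_im, mul_one, I_re, mul_zero, add_zero,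
      zero_add]
  have hpos : 0 < ((x.1 : ℂ) + (Real.exp x.2 : ℂ) * Complex.I).im := by
    rw [him]
    exact Real.exp_pos _
  have h3 := (HypBundle.CH.cmdAt_ofComplex hpos).comp x (hg.contMDiff x)
  refine h3.congr_of_eventuallyEq (Filter.Eventually.of_forall fun y => ?_)
  have hposy : 0 < ((y.1 : ℂ) + (Real.exp y.2 : ℂ) * Complex.I).im := by
    rw [him]
    exact Real.exp_pos _
  simp only [Function.comp_apply]
  rw [UpperHalfPlane.ofComplex_apply_of_im_pos hposy]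
  apply UpperHalfPlane.ext
  apply Complex.ext
  · simp [cH]
  · rw [him]
    rfl

private lemma cH_inv_smooth : ContMDiff 𝓘(ℝ, ℂ) 𝓘(ℝ, ℝ × ℝ) ∞
    (fun w : ℍ => (w.re, Real.log w.im)) := by
  have h : ContDiffOn ℝ ∞ (fun z : ℂ => (z.re, Real.log z.im)) HypBundle.HH := by
    refine ContDiffOn.prodMk Complex.reCLM.contDiff.contDiffOn ?_
    exact (Complex.imCLM.contDiff.contDiffOn (s := HypBundle.HH)).log
      (fun x hx => (ne_of_gt hx : x.im ≠ 0))
  exact HypBundle.CH.cmd_of_contDiffOn h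

/-- a diffeomorphism with inverse `(v,w) ↦ (v, (re w, log (im w)))` -/
lemma cH_local (n : ℕ) : IsLocalDiffeomorph 𝓘(ℝ, (Fin n → ℝ) × (ℝ × ℝ))
    (𝓘(ℝ, Fin n → ℝ).prod 𝓘(ℝ, ℂ)) ∞
    (fun p : (Fin n → ℝ) × (ℝ × ℝ) => ((p.1, cH p.2) : (Fin n → ℝ) × ℍ)) := by
  let e : Diffeomorph 𝓘(ℝ, (Fin n → ℝ) × (ℝ × ℝ)) (𝓘(ℝ, Fin n → ℝ).prod 𝓘(ℝ, ℂ))
      ((Fin n → ℝ) × (ℝ × ℝ)) ((Fin n → ℝ) × ℍ) ∞ :=
    { toFun := fun p => (p.1, cH p.2)
      invFun := fun q => (q.1, (q.2.re, Real.log q.2.im))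
      left_inv := fun p => by
        obtain ⟨v, x, t⟩ := p
        simp only [cH]
        have h1 : (⟨⟨x, Real.exp t⟩, Real.exp_pos t⟩ : ℍ).im = Real.exp t := rfl
        have h2 : (⟨⟨x, Real.exp t⟩, Real.exp_pos t⟩ : ℍ).re = x := rfl
        rw [h1, h2, Real.log_exp]
      right_inv := fun q => by
        obtain ⟨v, w⟩ := q
        simp only [Prod.mk.injEq, true_and]
        apply UpperHalfPlane.ext
        apply Complex.ext
        · rfl
        · show Real.exp (Real.log w.im) = _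
          rw [Real.exp_log w.im_pos]
          rfl
      contMDiff_toFun := by
        refine ContMDiff.prodMk ?_ ?_
        · exact contDiff_fst.contMDiff
        · exact cH_smooth.comp contDiff_snd.contMDiff
      contMDiff_invFun := by
        refine ContMDiff.prodMk_space ?_ ?_
        · exact contMDiff_fst
        · exact cH_inv_smooth.comp contMDiff_snd }
  exact e.isLocalDiffeomorph

end Pool.Agent.SfBundle
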