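import Mathlib
import Pool.Agent.Lib.MP_1d980c_gt.PullJ2
import Pool.Agent.Lib.MP_1d980c_gt.Sf.DpA
import Pool.Agent.Lib.MP_1d980c_gt.Sf.DpC

set_option autoImplicit false
open scoped UpperHalfPlane MatrixGroups Manifold ContDiff Matrix Topology
open Complex

namespace Pool.Agent.SfBundle

/-- **Orientability of almost complex manifolds, for surface bundles.** As
`TorusBundle.det_pos_of_J` (`DetPos.lean`): `exists_pullback_J2` for `π ∘ (id × cH)`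
(`cH_local`, `IsLocalDiffeomorphAt.comp`), applied to
`h (v, x) = (ρ(γ) v + a_γ(cH x), gx γ x)` (`cH_gx`, `gx_deriv`), and `det_pos_of_field2`. Each
`ρ γ` is invertible with inverse `ρ γ⁻¹`. -/
theorem det_pos_of_JH (m : ℕ) {Γ : Subgroup SL(2, ℝ)}
    (ρ : Γ →* Matrix (Fin (2 * m)) (Fin (2 * m)) ℝ)
    (a : Γ → ℍ → (Fin (2 * m) → ℝ))
    (ha : ∀ γ, ContMDiff 𝓘(ℝ, ℂ) 𝓘(ℝ, Fin (2 * m) → ℝ) ∞ (a γ))
    (M : Type) [TopologicalSpace M] [ChartedSpace (EuclideanSpace ℝ (Fin (2 * (m + 1)))) M]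
    [IsManifold (𝓡 (2 * (m + 1))) ∞ M]
    (π : (Fin (2 * m) → ℝ) × ℍ → M)
    (hπ : IsLocalDiffeomorph (𝓘(ℝ, Fin (2 * m) → ℝ).prod 𝓘(ℝ, ℂ)) (𝓡 (2 * (m + 1))) ∞ π)
    (hb : ∀ (γ : Γ) (v : Fin (2 * m) → ℝ) (w : ℍ), π (ρ γ *ᵥ v + a γ w, γ • w) = π (v, w))
    (J : (x : M) → TangentSpace (𝓡 (2 * (m + 1))) x → TangentSpace (𝓡 (2 * (m + 1))) x)
    (hlin : ∀ x, IsLinearMap ℝ (J x)) (hJ : ∀ (x : M) v, J x (J x v) = -v)
    (hcont : Continuous (fun v : TangentBundle (𝓡 (2 * (m + 1))) M =>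
      (⟨v.1, J v.1 v.2⟩ : TangentBundle (𝓡 (2 * (m + 1))) M))) (γ : Γ) :
    0 < (ρ γ).det := by
  let q : (Fin (2 * m) → ℝ) × (ℝ × ℝ) → (Fin (2 * m) → ℝ) × ℍ := fun p => (p.1, cH p.2)
  have hq : IsLocalDiffeomorph 𝓘(ℝ, (Fin (2 * m) → ℝ) × (ℝ × ℝ)) (𝓡 (2 * (m + 1))) ∞ (π ∘ q) := by
    intro p
    exact IsLocalDiffeomorphAt.comp _ _ (cH_local (2 * m) p) (hπ (q p))
  obtain ⟨J', hc, hJ2, heq⟩ := TorusBundle.exists_pullback_J2 (π ∘ q) hq J hlin hJ hcont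
  have hunit : IsUnit (ρ γ) := by
    refine ⟨⟨ρ γ, ρ γ⁻¹, ?_, ?_⟩, rfl⟩
    · rw [← map_mul, mul_inv_cancel, map_one]
    · rw [← map_mul, inv_mul_cancel, map_one]
  let Cl : (Fin (2 * m) → ℝ) →L[ℝ] (Fin (2 * m) → ℝ) :=
    LinearMap.toContinuousLinearMap (Matrix.mulVecLin (ρ γ))
  have hCl : ∀ v, Cl v = ρ γ *ᵥ v := fun v => rfl
  let e : ℝ × ℝ → (Fin (2 * m) → ℝ) := fun x => a γ (cH x)
  have hes : ContDiff ℝ ∞ e := by
    rw [← contMDiff_iff_contDiff]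
    exact (ha γ).comp cH_smooth
  have hed : Differentiable ℝ e := hes.differentiable (by simp)
  choose D hD hDpos using gx_deriv (γ : SL(2, ℝ))
  let h : (Fin (2 * m) → ℝ) × (ℝ × ℝ) → (Fin (2 * m) → ℝ) × (ℝ × ℝ) :=
    fun p => (Cl p.1 + e p.2, gx (γ : SL(2, ℝ)) p.2)
  have hder : ∀ p, HasFDerivAt h (((Cl.comp (ContinuousLinearMap.fst ℝ _ _)) +
      ((fderiv ℝ e p.2).comp (ContinuousLinearMap.snd ℝ _ _))).prod
      ((D p.2).comp (ContinuousLinearMap.snd ℝ _ _))) p := by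
    intro p
    refine HasFDerivAt.prodMk (HasFDerivAt.add ?_ ?_) ?_
    · exact (Cl.hasFDerivAt).comp p hasFDerivAt_fst
    · exact (hed p.2).hasFDerivAt.comp p hasFDerivAt_snd
    · exact (hD p.2).comp p hasFDerivAt_snd
  have hdiff : Differentiable ℝ h := fun p => (hder p).differentiableAt
  have hinv : ∀ p, (π ∘ q) (h p) = (π ∘ q) p := by
    intro p
    have h1 : q (h p) = (ρ γ *ᵥ p.1 + a γ (cH p.2), γ • cH p.2) := by
      show (Cl p.1 + e p.2, cH (gx (γ : SL(2, ℝ)) p.2)) = _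
      rw [cH_gx]
      rfl
    show π (q (h p)) = π (q p)
    rw [h1]
    exact hb γ p.1 (cH p.2)
  have h1 := heq h hdiff hinv 0
  rw [(hder 0).fderiv] at h1
  exact det_pos_of_field2 hunit
    (fderiv ℝ e (0 : (Fin (2 * m) → ℝ) × (ℝ × ℝ)).2) (D (0 : (Fin (2 * m) → ℝ) × (ℝ × ℝ)).2)
    (hDpos _) _ (fun v x => rfl) J' hc hJ2 0 (h 0) h1

end Pool.Agent.SfBundle
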