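import Mathlib
import Pool.Agent.Lib.MP_1d980c_gt.Sf.Dz

set_option autoImplicit false
open scoped UpperHalfPlane MatrixGroups Manifold ContDiff Matrix Topology
open Complex ComplexConjugate Pool.Agent.HypBundle

namespace Pool.Agent.SfBundle

/-- symmetry of second derivatives -/
lemma cu_Dz {f : ℂ → ℝ} (hf : ContDiffOn ℝ ∞ f HH) {z : ℂ} (hz : z ∈ HH) : cu (Dz f) z = 0 := by
  have hfz : ContDiffAt ℝ ∞ f z := hf.contDiffAt (CH.isOpen_HH.mem_nhds hz)
  have hsym : IsSymmSndFDerivAt ℝ f z := hfz.isSymmSndFDerivAt (by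
    simp only [minSmoothness_of_isRCLikeNormedField]
    exact WithTop.coe_le_coe.2 le_top)
  have hd : DifferentiableAt ℝ (fderiv ℝ f) z :=
    ((hf.fderiv_of_isOpen CH.isOpen_HH (m := ∞) (by simp)).contDiffAt
      (CH.isOpen_HH.mem_nhds hz)).differentiableAt (by simp)
  have h1 : ∀ v : ℂ, HasFDerivAt (fun w => ((fderiv ℝ f w v : ℝ) : ℂ))
      (Complex.ofRealCLM.comp ((fderiv ℝ (fderiv ℝ f) z).flip v)) z := by
    intro v
    have h2 : HasFDerivAt (fun w => fderiv ℝ f w v) ((fderiv ℝ (fderiv ℝ f) z).flip v) z := by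
      have := hd.hasFDerivAt.clm_apply (hasFDerivAt_const v z)
      simpa using! this
    exact Complex.ofRealCLM.hasFDerivAt.comp z h2
  have h3 : HasFDerivAt (Dz f) (Complex.ofRealCLM.comp ((fderiv ℝ (fderiv ℝ f) z).flip 1) -
      Complex.I • Complex.ofRealCLM.comp ((fderiv ℝ (fderiv ℝ f) z).flip Complex.I)) z :=
    (h1 1).sub ((h1 Complex.I).const_mul Complex.I)
  have h4 := hsym.eq 1 Complex.I
  rw [cu, dbar, h3.fderiv]
  simp only [_root_.sub_apply, ContinuousLinearMap.comp_apply, ContinuousLinearMap.flip_apply,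
    _root_.smul_apply, Complex.ofRealCLM_apply, smul_eq_mul]
  rw [h4]
  simp

/-- vanishing derivative on the convex set `HH` -/
lemma const_of_Dz {f : ℂ → ℝ} (hf : DifferentiableOn ℝ f HH) (h : ∀ z ∈ HH, Dz f z = 0) :
    ∃ c : ℝ, ∀ z ∈ HH, f z = c := by
  have hc : Convex ℝ HH := by
    have : HH = Complex.imCLM ⁻¹' (Set.Ioi (0 : ℝ)) := by
      ext z
      simp [HH]
    rw [this]
    exact (convex_Ioi (0 : ℝ)).linear_preimage Complex.imCLM.toLinearMap
  refine CH.isOpen_HH.exists_is_const_of_fderiv_eq_zero hc.isPreconnected hf fun z hz => ?_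
  ext v
  rw [fderiv_eq_Dz, h z hz]
  simp

/-- Poincare lemma: `Convex.exists_forall_hasFDerivAt_of_fderiv_symmetric` for
`ω z = (v ↦ Re (B z v))`; the derivative is symmetric iff `cu B = 0`. -/
lemma exists_primitive {B : ℂ → ℂ} (hB : ContDiffOn ℝ ∞ B HH) (h : ∀ z ∈ HH, cu B z = 0) :
    ∃ f : ℂ → ℝ, DifferentiableOn ℝ f HH ∧ ∀ z ∈ HH, Dz f z = B z := by
  have hc : Convex ℝ HH := by
    have : HH = Complex.imCLM ⁻¹' (Set.Ioi (0 : ℝ)) := by
      ext z
      simp [HH]
    rw [this]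
    exact (convex_Ioi (0 : ℝ)).linear_preimage Complex.imCLM.toLinearMap
  let Λ : ℂ →L[ℝ] (ℂ →L[ℝ] ℝ) :=
    (ContinuousLinearMap.compL ℝ ℂ ℂ ℝ Complex.reCLM).comp (ContinuousLinearMap.mul ℝ ℂ)
  have hΛ : ∀ b v : ℂ, Λ b v = (b * v).re := fun b v => rfl
  have hBd : ∀ z ∈ HH, DifferentiableAt ℝ B z := fun z hz =>
    (hB.contDiffAt (CH.isOpen_HH.mem_nhds hz)).differentiableAt (by simp)
  have hω : ∀ z ∈ HH, HasFDerivAt (fun w => Λ (B w)) (Λ.comp (fderiv ℝ B z)) z := fun z hz =>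
    Λ.hasFDerivAt.comp z (hBd z hz).hasFDerivAt
  have hωd : DifferentiableOn ℝ (fun w => Λ (B w)) HH :=
    fun z hz => (hω z hz).differentiableAt.differentiableWithinAt
  obtain ⟨f, hf⟩ := hc.exists_forall_hasFDerivAt_of_fderiv_symmetric CH.isOpen_HH hωd (by
      intro z hz x y
      rw [(hω z hz).fderiv]
      simp only [ContinuousLinearMap.comp_apply, hΛ]
      have hlin : ∀ v : ℂ, fderiv ℝ B z v =
          (v.re : ℂ) * fderiv ℝ B z 1 + (v.im : ℂ) * fderiv ℝ B z Complex.I := by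
        intro v
        have h2 : v = v.re • (1 : ℂ) + v.im • Complex.I := by
          simp [Complex.re_add_im]
        conv_lhs => rw [h2]
        rw [map_add, map_smul, map_smul]
        simp
      have h0 := h z hz
      rw [hlin x, hlin y]
      rw [cu, dbar] at h0
      generalize fderiv ℝ B z 1 = b at h0 ⊢
      generalize fderiv ℝ B z Complex.I = c at h0 ⊢
      simp at h0
      simp only [Complex.mul_re, Complex.add_re, Complex.add_im, Complex.mul_im,
        Complex.ofReal_re, Complex.ofReal_im]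
      have h5 : c.re = -b.im := by linarith
      rw [h5]
      ring)
  refine ⟨f, fun z hz => (hf z hz).differentiableAt.differentiableWithinAt, fun z hz => ?_⟩
  rw [Dz, (hf z hz).fderiv, hΛ, hΛ]
  apply Complex.ext <;> simp

end Pool.Agent.SfBundle
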