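import Mathlib
import Pool.Agent.Lib.MP_1d980c_gt.Sf.Dz

set_option autoImplicit false
open scoped UpperHalfPlane MatrixGroups Manifold ContDiff Matrix Topology
open Complex ComplexConjugate Pool.Agent.HypBundle

namespace Pool.Agent.SfBundle

private lemma Dz_im {G : ℂ → ℂ} {z g' : ℂ} (hg : HasDerivAt G g' z) :
    DifferentiableAt ℝ (fun x => (G x).im) z ∧ Dz (fun x => (G x).im) z = -Complex.I * g' := by
  have h1 : HasFDerivAt G ((ContinuousLinearMap.toSpanSingleton ℂ g').restrictScalars ℝ) z :=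
    hg.hasFDerivAt.restrictScalars ℝ
  have h2 := Complex.imCLM.hasFDerivAt.comp z h1
  have h3 : HasFDerivAt (fun x => (G x).im) (Complex.imCLM.comp
      ((ContinuousLinearMap.toSpanSingleton ℂ g').restrictScalars ℝ)) z := h2
  refine ⟨h3.differentiableAt, ?_⟩
  rw [Dz, h3.fderiv]
  apply Complex.ext <;> simp

/-- imaginary part of the logarithm of `j(γ,z) = c z + d`; for `c = 0` it is constant, for `c ≠ 0`
use `slitPlane` (`im ≠ 0`). `Dz (Im G) = -i G'` for holomorphic `G`. -/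
lemma Dz_arg (γ : SL(2, ℝ)) {z : ℂ} (hz : z ∈ HH) :
    DifferentiableAt ℝ (fun x => (Complex.log (jf γ x)).im) z ∧
      Dz (fun x => (Complex.log (jf γ x)).im) z = -Complex.I * ((γ 1 0 : ℝ) : ℂ) / jf γ z := by
  have hz' : 0 < z.im := hz
  have hj : HasDerivAt (jf γ) ((γ 1 0 : ℝ) : ℂ) z := by
    have h1 : HasDerivAt (fun w : ℂ => ((γ 1 0 : ℝ) : ℂ) * w + ((γ 1 1 : ℝ) : ℂ))
        (((γ 1 0 : ℝ) : ℂ) * 1) z := ((hasDerivAt_id z).const_mul _).add_const _
    rw [mul_one] at h1
    exact h1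
  rcases eq_or_ne (γ 1 0) 0 with hc | hc
  · have hconst : (fun x => Complex.log (jf γ x)) = fun _ => Complex.log ((γ 1 1 : ℝ) : ℂ) := by
      funext x
      rw [jf, hc]
      simp
    have h1 : HasDerivAt (fun x => Complex.log (jf γ x)) 0 z := by
      rw [hconst]
      exact hasDerivAt_const z _
    have h2 := Dz_im h1
    refine ⟨h2.1, ?_⟩
    rw [h2.2, hc]
    simp
  · have him : (jf γ z).im = γ 1 0 * z.im := by
      simp [jf]
    have hs : jf γ z ∈ Complex.slitPlane := by
      right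
      rw [him]
      exact mul_ne_zero hc hz'.ne'
    have h2 := Dz_im (hj.clog hs)
    refine ⟨h2.1, ?_⟩
    rw [h2.2, mul_div_assoc]

end Pool.Agent.SfBundle
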