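import Mathlib
import Pool.Agent.Lib.MP_1d980c_gt.Sf.Defs

set_option autoImplicit false
open scoped UpperHalfPlane MatrixGroups Manifold ContDiff Matrix Topology
open Complex ComplexConjugate Pool.Agent.HypBundle

namespace Pool.Agent.SfBundle

/-- A continuous frame `U` whose rows are multiplied by numbers `D` of modulus one. -/
structure Fr {n : ℕ} {Γ : Subgroup SL(2, ℝ)} (ρ : Γ →* Matrix (Fin n) (Fin n) ℝ)
    (U : ℍ → Matrix (Fin n) (Fin n) ℂ) (D : Γ → ℍ → Fin n → ℂ) : Prop where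
  cont : Continuous U
  unit : ∀ w, IsUnit (U w)
  norm : ∀ γ w i, ‖D γ w i‖ = 1
  eqv : ∀ (γ : Γ) (w : ℍ), U (γ • w) * (ρ γ).map Complex.ofReal = Matrix.diagonal (D γ w) * U w

variable {n : ℕ} {Γ : Subgroup SL(2, ℝ)} {ρ : Γ →* Matrix (Fin n) (Fin n) ℝ}
  {U : ℍ → Matrix (Fin n) (Fin n) ℂ} {D : Γ → ℍ → Fin n → ℂ}

/-- The entries of `U x (U w)⁻¹` have `Γ`-invariant modulus: `U(γx) (U(γw))⁻¹ =
D(γ,x) U(x) ρ(γ)⁻¹ ρ(γ) U(w)⁻¹ D(γ,w)⁻¹`. -/
lemma Fr.inv (F : Fr ρ U D) (γ : Γ) (x w : ℍ) (i j : Fin n) :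
    ‖(U (γ • x) * (U (γ • w))⁻¹) i j‖ = ‖(U x * (U w)⁻¹) i j‖ := by
  have hR : (ρ γ).map Complex.ofReal * (ρ γ⁻¹).map Complex.ofReal
      = (1 : Matrix (Fin n) (Fin n) ℂ) := by
    have h1 : ρ γ * ρ γ⁻¹ = 1 := by rw [← map_mul, mul_inv_cancel, map_one]
    have h2 := congrArg (fun M : Matrix (Fin n) (Fin n) ℝ => M.map (Complex.ofRealHom : ℝ →+* ℂ)) h1
    simp only [Matrix.map_mul] at h2
    have h3 : (1 : Matrix (Fin n) (Fin n) ℝ).map (Complex.ofRealHom : ℝ →+* ℂ) = 1 := by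
      exact Matrix.map_one _ (map_zero _) (map_one _)
    rw [h3] at h2
    exact h2
  have hU : ∀ y : ℍ, U (γ • y) = Matrix.diagonal (D γ y) * U y * (ρ γ⁻¹).map Complex.ofReal := by
    intro y
    rw [← F.eqv γ y, mul_assoc, hR, mul_one]
  have hne : ∀ k, D γ w k ≠ 0 := by
    intro k h0
    have := F.norm γ w k
    rw [h0, norm_zero] at this
    exact zero_ne_one this
  have hdd : Matrix.diagonal (fun k => (D γ w k)⁻¹) * Matrix.diagonal (D γ w)
      = (1 : Matrix (Fin n) (Fin n) ℂ) := by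
    rw [Matrix.diagonal_mul_diagonal]
    have : (fun k => (D γ w k)⁻¹ * D γ w k) = fun _ => (1 : ℂ) := by
      funext k
      exact inv_mul_cancel₀ (hne k)
    rw [this, Matrix.diagonal_one]
  have hdet : ∀ y : ℍ, IsUnit (U y).det := fun y => (Matrix.isUnit_iff_isUnit_det _).1 (F.unit y)
  have key : U (γ • x) * (U (γ • w))⁻¹ = Matrix.diagonal (D γ x) * (U x * (U w)⁻¹) *
      Matrix.diagonal (fun k => (D γ w k)⁻¹) := by
    have h1 : Matrix.diagonal (D γ x) * (U x * (U w)⁻¹) * Matrix.diagonal (fun k => (D γ w k)⁻¹) *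
        U (γ • w) = U (γ • x) := by
      rw [hU w, hU x]
      calc Matrix.diagonal (D γ x) * (U x * (U w)⁻¹) * Matrix.diagonal (fun k => (D γ w k)⁻¹) *
            (Matrix.diagonal (D γ w) * U w * (ρ γ⁻¹).map Complex.ofReal)
          = Matrix.diagonal (D γ x) * U x * ((U w)⁻¹ * ((Matrix.diagonal (fun k => (D γ w k)⁻¹) *
            Matrix.diagonal (D γ w)) * U w)) * (ρ γ⁻¹).map Complex.ofReal := by
            simp only [mul_assoc]
        _ = _ := by
            rw [hdd, one_mul, Matrix.nonsing_inv_mul _ (hdet w), mul_one]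
    rw [← h1, mul_assoc _ (U (γ • w)), Matrix.mul_nonsing_inv _ (hdet _), mul_one]
  rw [key, Matrix.mul_diagonal, Matrix.diagonal_mul, norm_mul, norm_mul, norm_inv, F.norm, F.norm]
  simp

/-- Closeness over a compact set (uniform continuity; no equivariance needed). -/
lemma U_close (hU : Continuous U) (hUu : ∀ w, IsUnit (U w)) {K : Set ℍ} (hK : IsCompact K)
    {ε : ℝ} (hε : 0 < ε) :
    ∃ η : ℝ, 0 < η ∧ ∀ x ∈ K, ∀ w : ℍ, dist x w ≤ η →
      ∀ i j, ‖(U x * (U w)⁻¹) i j - (1 : Matrix (Fin n) (Fin n) ℂ) i j‖ ≤ ε := by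
  have hdet : ∀ y : ℍ, IsUnit (U y).det := fun y => (Matrix.isUnit_iff_isUnit_det _).1 (hUu y)
  have hinv : Continuous fun w => (U w)⁻¹ := by
    have e : (fun w => (U w)⁻¹) = fun w => ((U w).det)⁻¹ • (U w).adjugate := by
      funext w
      rw [Matrix.inv_def, Ring.inverse_eq_inv']
    rw [e]
    exact (hU.matrix_det.inv₀ fun w => (hdet w).ne_zero).smul hU.matrix_adjugate
  let f : ℍ × ℍ → (Fin n → Fin n → ℂ) := fun p i j => (U p.1 * (U p.2)⁻¹) i j
  have hf : Continuous f := by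
    have h1 : Continuous fun p : ℍ × ℍ => U p.1 * (U p.2)⁻¹ :=
      (hU.comp continuous_fst).matrix_mul (hinv.comp continuous_snd)
    exact h1
  have hK' : IsCompact ((fun x : ℍ => (x, x)) '' K) :=
    hK.image (continuous_id.prodMk continuous_id)
  have hr : {p : (Fin n → Fin n → ℂ) × (Fin n → Fin n → ℂ) | dist p.1 p.2 < ε} ∈
      uniformity (Fin n → Fin n → ℂ) := Metric.dist_mem_uniformity hε
  have h2 := hK'.uniformContinuousAt_of_continuousAt f (fun a _ => hf.continuousAt) hr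
  obtain ⟨δ, hδ, h3⟩ := Metric.mem_uniformity_dist.1 h2
  refine ⟨δ / 2, by positivity, fun x hx w hxw i j => ?_⟩
  have h4 : dist ((x, x) : ℍ × ℍ) (x, w) < δ := by
    rw [Prod.dist_eq]
    simp only [dist_self]
    rw [max_eq_right dist_nonneg]
    linarith
  have h5 := h3 h4 ⟨x, hx, rfl⟩
  have h6 : dist (f (x, x)) (f (x, w)) < ε := h5
  have h7 : dist (f (x, x) i j) (f (x, w) i j) ≤ dist (f (x, x)) (f (x, w)) :=
    (dist_le_pi_dist (f (x, x) i) (f (x, w) i) j).trans (dist_le_pi_dist (f (x, x)) (f (x, w)) i)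
  have h8 : f (x, x) i j = (1 : Matrix (Fin n) (Fin n) ℂ) i j := by
    change (U x * (U x)⁻¹) i j = _
    rw [Matrix.mul_nonsing_inv _ (hdet x)]
  rw [h8, dist_comm, dist_eq_norm] at h7
  exact h7.trans h6.le

end Pool.Agent.SfBundle
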