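import Mathlib
import Pool.Agent.Lib.MP_1d980c_gt.Sf.GrowA

set_option autoImplicit false
open scoped UpperHalfPlane MatrixGroups Manifold ContDiff Matrix Topology
open Complex ComplexConjugate Pool.Agent.HypBundle

namespace Pool.Agent.SfBundle

variable {n : ℕ} {Γ : Subgroup SL(2, ℝ)} {ρ : Γ →* Matrix (Fin n) (Fin n) ℝ}
  {U : ℍ → Matrix (Fin n) (Fin n) ℂ} {D : Γ → ℍ → Fin n → ℂ} {N : ℕ} {O : Finset ℍ}

/-- `ρ(γ) = U(γw)⁻¹ D(γ,w) U(w)`, hence `(U(o) ρ(γ))_ij = ∑_k (U(o) U(γw)⁻¹)_ik D_k U(w)_kj`.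
Compare `VA_bound` in `Hyp/ExistsLH.lean`. -/
lemma EE_coeff (F : Fr ρ U D) (o w : ℍ) (γ : Γ) (i j : Fin n) :
    (U o * (ρ γ).map Complex.ofReal) i j =
      ∑ k, (U o * (U (γ • w))⁻¹) i k * D γ w k * U w k j := by
  have h1 : (ρ γ).map Complex.ofReal = (U (γ • w))⁻¹ * (Matrix.diagonal (D γ w) * U w) := by
    rw [← F.eqv γ w, ← Matrix.mul_assoc, Matrix.nonsing_inv_mul _
      ((Matrix.isUnit_iff_isUnit_det _).1 (F.unit _)), Matrix.one_mul]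
  rw [h1, ← Matrix.mul_assoc, Matrix.mul_apply]
  refine Finset.sum_congr rfl fun k _ => ?_
  rw [Matrix.diagonal_mul]
  ring

lemma EE_bound (F : Fr ρ U D) {C : ℝ}
    (hG : ∀ x w : ℍ, ∀ i j, ‖(U x * (U w)⁻¹) i j‖ ≤ C * Real.exp (C * dist x w))
    {c : ℍ → ℂ} (hc : ∀ o, ‖c o‖ ≤ 2) (i j : Fin n) (w : ℍ) (o : ℍ) (γ : Γ) :
    ‖c o * (U o * (ρ γ).map Complex.ofReal) i j‖ ≤
      (2 * ∑ k, C * ‖U w k j‖) * Real.exp (C * dist o (γ • w)) := by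
  rw [norm_mul, EE_coeff F o w γ i j, mul_assoc 2]
  refine mul_le_mul (hc o) ?_ (norm_nonneg _) (by norm_num)
  rw [Finset.sum_mul]
  refine (norm_sum_le _ _).trans (Finset.sum_le_sum fun k _ => ?_)
  rw [norm_mul, norm_mul, F.norm, mul_one]
  calc ‖(U o * (U (γ • w))⁻¹) i k‖ * ‖U w k j‖
      ≤ (C * Real.exp (C * dist o (γ • w))) * ‖U w k j‖ :=
        mul_le_mul_of_nonneg_right (hG _ _ _ _) (norm_nonneg _)
    _ = _ := by ring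

end Pool.Agent.SfBundle
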