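import Mathlib
import Pool.Agent.Lib.MP_1d980c_gt.Sf.Defs

set_option autoImplicit false
open scoped UpperHalfPlane MatrixGroups Manifold ContDiff Matrix Topology
open Complex ComplexConjugate Pool.Agent.HypBundle

namespace Pool.Agent.SfBundle

variable {Γ : Subgroup SL(2, ℝ)} {N : ℕ} {O : Finset ℍ} (T : Tw Γ)

/-- `‖κ γ w‖ = τ(γw)/τ(w)` and `τ(γw) ≤ τ(o) exp(C d(γw,o))`. -/
lemma kA_bound {A : ℍ → Γ → ℂ} {B C : ℝ} (hB : 0 ≤ B) (w o : ℍ) (γ : Γ)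
    (hA : ‖A o γ‖ ≤ B * Real.exp (C * dist o (γ • w))) :
    ‖kA T A w o γ‖ ≤ B / T.τ w * Real.exp ((C + T.C) * dist o (γ • w)) := by
  have hw := T.hτ w
  have ho := T.hτ o
  have h1 := T.hn γ w
  have h2 := T.hl (γ • w) o
  rw [dist_comm] at h2
  unfold kA
  rw [norm_div, norm_mul, h1, Complex.norm_real, Real.norm_of_nonneg ho.le]
  have h3 : ‖A o γ‖ * (T.τ (γ • w) / T.τ w) / T.τ o =
      ‖A o γ‖ * T.τ (γ • w) / (T.τ w * T.τ o) := by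
    field_simp
  rw [h3, div_le_iff₀ (by positivity)]
  have h4 : B / T.τ w * Real.exp ((C + T.C) * dist o (γ • w)) * (T.τ w * T.τ o) =
      (B * Real.exp (C * dist o (γ • w))) * (T.τ o * Real.exp (T.C * dist o (γ • w))) := by
    rw [add_mul, Real.exp_add]
    field_simp
  rw [h4]
  exact mul_le_mul hA h2 (T.hτ _).le (by positivity)

lemma kA_near {A : ℍ → Γ → ℂ} {ε η : ℝ} (hε : 0 ≤ ε) (w o : ℍ) (γ : Γ)
    (hA : ‖A o γ‖ ≤ ε) (hd : dist o (γ • w) ≤ η) :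
    ‖kA T A w o γ‖ ≤ ε * Real.exp (T.C * η) / T.τ w := by
  have h1 := kA_bound T (A := A) (B := ε) (C := 0) hε w o γ (by simpa using hA)
  refine h1.trans ?_
  rw [zero_add, div_mul_eq_mul_div]
  refine div_le_div_of_nonneg_right (mul_le_mul_of_nonneg_left (Real.exp_le_exp.mpr ?_) hε)
    (T.hτ w).le
  exact mul_le_mul_of_nonneg_left hd T.hC

/-- `summable_PS` and `kA_bound` -/
lemma PT_summable (hN : 256 ≤ N) (hO : IsNet Γ (1 / Real.sqrt N) O) {A : ℍ → Γ → ℂ} {B C : ℝ}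
    (hB : 0 ≤ B) (hC : 0 ≤ C) (hC2 : 2 * (C + T.C) ≤ Real.sqrt N) (w : ℍ)
    (hA : ∀ o ∈ O, ∀ γ : Γ, ‖A o γ‖ ≤ B * Real.exp (C * dist o (γ • w))) {o : ℍ} (ho : o ∈ O) :
    Summable (fun γ : Γ => ph N o (γ : SL(2, ℝ)) w * kA T A w o γ) :=
  summable_PS hN hO (add_nonneg hC T.hC) hC2 w (fun o ho γ => kA_bound T hB w o γ (hA o ho γ)) ho

/-- `norm_PS_le` and `kA_bound` -/
theorem norm_PT_le (hN : 256 ≤ N) (hO : IsNet Γ (1 / Real.sqrt N) O) {A : ℍ → Γ → ℂ} {B C : ℝ}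
    (hB : 0 ≤ B) (hC : 0 ≤ C) (hC2 : 2 * (C + T.C) ≤ Real.sqrt N) (w : ℍ)
    (hA : ∀ o ∈ O, ∀ γ : Γ, ‖A o γ‖ ≤ B * Real.exp (C * dist o (γ • w))) :
    ‖PT T N O A w‖ * Real.sqrt w.im ^ N * T.τ w ≤ CE * B := by
  have hw := T.hτ w
  have h := norm_PS_le hN hO (div_nonneg hB hw.le) (add_nonneg hC T.hC) hC2 w
    (fun o ho γ => kA_bound T hB w o γ (hA o ho γ))
  have h2 := mul_le_mul_of_nonneg_right h hw.le
  refine h2.trans (le_of_eq ?_)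
  field_simp

/-- `norm_PS_le_small`, `kA_bound` and `kA_near` -/
theorem norm_PT_le_small (hN : 256 ≤ N) (hO : IsNet Γ (1 / Real.sqrt N) O) {A : ℍ → Γ → ℂ}
    {B C ε η : ℝ} (hB : 0 ≤ B) (hε : 0 ≤ ε) (hη : 0 ≤ η)
    (hC : 0 ≤ C) (hC4 : 4 * (C + T.C) ≤ Real.sqrt N) (w : ℍ)
    (hA : ∀ o ∈ O, ∀ γ : Γ, ‖A o γ‖ ≤ B * Real.exp (C * dist o (γ • w)))
    (hA' : ∀ o ∈ O, ∀ γ : Γ, dist o (γ • w) ≤ η → ‖A o γ‖ ≤ ε) :
    ‖PT T N O A w‖ * Real.sqrt w.im ^ N * T.τ w ≤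
      CE * (ε * Real.exp (T.C * η) + B * Real.exp (-(Real.sqrt N / 4) * η)) := by
  have hw := T.hτ w
  have h := norm_PS_le_small (ε := ε * Real.exp (T.C * η) / T.τ w) hN hO
    (div_nonneg hB hw.le) (by positivity) hη
    (add_nonneg hC T.hC) hC4 w
    (fun o ho γ => kA_bound T hB w o γ (hA o ho γ))
    (fun o ho γ hd => kA_near T hε w o γ (hA' o ho γ hd) hd)
  have h2 := mul_le_mul_of_nonneg_right h hw.le
  refine h2.trans (le_of_eq ?_)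
  field_simp

private lemma PS_const (c : ℂ) (A : ℍ → Γ → ℂ) (w : ℂ) :
    PS Γ N O (fun o γ => c * A o γ) w = c * PS Γ N O A w := by
  unfold PS
  rw [Finset.mul_sum]
  refine Finset.sum_congr rfl fun o _ => ?_
  rw [← tsum_mul_left]
  exact tsum_congr fun γ => by ring

/-- automorphy; `PS_smul` and `κ(γ δ⁻¹, δ w) κ(δ, w) = κ(γ, w)`, `κ(δ,w) ≠ 0` (no convergence
needed) -/
theorem PT_smul (A : ℍ → Γ → ℂ) (δ : Γ) (w : ℍ) :
    PT T N O A ((δ • w : ℍ) : ℂ) = jf (δ : SL(2, ℝ)) w ^ N * (T.κ δ w)⁻¹ *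
      PT T N O (fun o γ => A o (γ * δ⁻¹)) w := by
  have h0 : T.κ δ w ≠ 0 := by
    have h1 := T.hn δ w
    have h2 : 0 < T.τ (δ • w) / T.τ w := div_pos (T.hτ _) (T.hτ _)
    intro h
    rw [h, norm_zero] at h1
    linarith
  unfold PT
  rw [PS_smul, mul_assoc]
  congr 1
  rw [← PS_const]
  congr 1
  funext o γ
  have h := T.hm (γ * δ⁻¹) δ w
  rw [inv_mul_cancel_right] at h
  unfold kA
  rw [h]
  field_simp

theorem PT_triv (A : ℍ → Γ → ℂ) (w : ℂ) : PT (Tw.triv Γ) N O A w = PS Γ N O A w := by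
  unfold PT
  congr 1
  funext o γ
  simp [kA, Tw.triv]

end Pool.Agent.SfBundle
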