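import Mathlib
import Pool.Agent.Lib.MP_1d980c_gt.Sf.PTb
import Pool.Agent.Lib.MP_1d980c_gt.Sf.EEa

set_option autoImplicit false
open scoped UpperHalfPlane MatrixGroups Manifold ContDiff Matrix Topology
open Complex ComplexConjugate Pool.Agent.HypBundle

namespace Pool.Agent.SfBundle

variable {n : ℕ} {Γ : Subgroup SL(2, ℝ)} {ρ : Γ →* Matrix (Fin n) (Fin n) ℝ}
  {U : ℍ → Matrix (Fin n) (Fin n) ℂ} {D : Γ → ℍ → Fin n → ℂ} {N : ℕ} {O : Finset ℍ}

private lemma PS_sum_mul' {ι : Type} (s : Finset ι) (A : ι → ℍ → Γ → ℂ) (x : ι → ℂ) (w : ℂ)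
    (h : ∀ k ∈ s, ∀ o ∈ O, Summable (fun γ : Γ => ph N o (γ : SL(2, ℝ)) w * A k o γ)) :
    ∑ k ∈ s, PS Γ N O (A k) w * x k = PS Γ N O (fun o γ => ∑ k ∈ s, A k o γ * x k) w := by
  unfold PS
  simp only [Finset.sum_mul]
  rw [Finset.sum_comm]
  refine Finset.sum_congr rfl fun o ho => ?_
  simp only [← tsum_mul_right]
  rw [← Summable.tsum_finsetSum (fun k hk => (h k hk o ho).mul_right (x k))]
  congr 1
  funext γ
  rw [Finset.mul_sum]
  exact Finset.sum_congr rfl fun k _ => by ring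

/-- The series in the frame `U(w)`. `(EE(w) U(w)⁻¹)_ia` is the Poincare series with coefficients
`c(o) κ(γ,w)/τ(o) (U(o) U(γw)⁻¹)_ia D_a(γ,w)` (sum over `j` of `EE_coeff` times `U(w)⁻¹_ja`). -/
lemma EE_frame (F : Fr ρ U D) (T : Tw Γ) {C : ℝ} (hC : 0 ≤ C)
    (hG : ∀ x w : ℍ, ∀ i j, ‖(U x * (U w)⁻¹) i j‖ ≤ C * Real.exp (C * dist x w))
    {c : ℍ → ℂ} (hc : ∀ o, ‖c o‖ ≤ 2) (hN : 256 ≤ N) (hO : IsNet Γ (1 / Real.sqrt N) O)
    (hC2 : 2 * (C + T.C) ≤ Real.sqrt N) (w : ℍ) (i a : Fin n) :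
    (EE ρ U T N O c w * (U w)⁻¹) i a =
      PS Γ N O (fun o γ => c o * (T.κ γ w / (T.τ o : ℂ)) *
        ((U o * (U (γ • w))⁻¹) i a * D γ w a)) w := by
  have hU : IsUnit (U w).det := (Matrix.isUnit_iff_isUnit_det _).1 (F.unit w)
  have hB : ∀ j, 0 ≤ 2 * ∑ k, C * ‖U w k j‖ := fun j =>
    mul_nonneg zero_le_two (Finset.sum_nonneg fun k _ => mul_nonneg hC (norm_nonneg _))
  rw [Matrix.mul_apply]
  unfold EE PT
  rw [PS_sum_mul' Finset.univ
    (fun j => kA T (fun o γ => c o * (U o * (ρ γ).map Complex.ofReal) i j) w)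
    (fun j => (U w)⁻¹ j a) w
    (fun j _ o ho => PT_summable T hN hO (hB j) hC hC2 w
      (fun o _ γ => EE_bound F hG hc i j w o γ) ho)]
  congr 1
  funext o γ
  have hγ : IsUnit (U (γ • w)).det := (Matrix.isUnit_iff_isUnit_det _).1 (F.unit (γ • w))
  have e : (U o * (ρ γ).map Complex.ofReal) * (U w)⁻¹ =
      (U o * (U (γ • w))⁻¹) * Matrix.diagonal (D γ w) := by
    have h1 : (ρ γ).map Complex.ofReal = (U (γ • w))⁻¹ * (Matrix.diagonal (D γ w) * U w) := by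
      rw [← F.eqv γ w, ← Matrix.mul_assoc, Matrix.nonsing_inv_mul _ hγ, Matrix.one_mul]
    rw [h1]
    simp only [Matrix.mul_assoc, Matrix.mul_nonsing_inv _ hU, Matrix.mul_one]
  have e2 := congrFun (congrFun e i) a
  rw [Matrix.mul_apply, Matrix.mul_diagonal] at e2
  rw [← e2, Finset.mul_sum]
  refine Finset.sum_congr rfl fun j _ => ?_
  unfold kA
  ring

end Pool.Agent.SfBundle
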