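import Mathlib
import Pool.Agent.Lib.MP_1d980c_gt.Sf.EEf

set_option autoImplicit false
open scoped UpperHalfPlane MatrixGroups Manifold ContDiff Matrix Topology
open Complex ComplexConjugate Pool.Agent.HypBundle

namespace Pool.Agent.SfBundle

variable {n : ℕ} {Γ : Subgroup SL(2, ℝ)} {ρ : Γ →* Matrix (Fin n) (Fin n) ℝ}
  {U : ℍ → Matrix (Fin n) (Fin n) ℂ} {D : Γ → ℍ → Fin n → ℂ} {N : ℕ} {O : Finset ℍ}

/-- **Closeness.** Suppose `D_i(γ,w) κ(γ,w) τ(w)/τ(γw) = κ'(γ,w) τ'(w)/τ'(γw)` for all `γ`, with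
`(κ,τ)` from `T` and `(κ',τ')` from `T'`. Then row `i` of `τ(w) EE_T(w) U(w)⁻¹` is close to
`τ'(w) PT_{T'}(c)(w)` times the `i`-th unit vector. Proof: by `EE_frame` the difference is the Poincare series (at this `w`) with coefficients
`x(o,γ) = c(o) [κ^ (τ(γw)/τ(o)) g_ia D_a - δ_ia κ'^ (τ'(γw)/τ'(o))]`, where
`κ^ = κ(γ,w) τ(w)/τ(γw)`, `κ'^ = κ'(γ,w) τ'(w)/τ'(γw)` (modulus one) and `g = U(o) U(γw)⁻¹`. For
`a = i` the hypothesis says `κ^ D_i = κ'^`. So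
`|x| ≤ 2 [(τ(γw)/τ(o)) |g_ia - δ_ia| + |τ(γw)/τ(o) - τ'(γw)/τ'(o)|]`. With `d = dist o (γw)`:
`τ(γw)/τ(o) ≤ exp(T.C d)` and `≥ exp(-T.C d)`, the same for `τ'`; so
`|x| ≤ 2 (C + 3) exp((C + T.C + T'.C) d)`, and for `d ≤ η` and `o ∈ K`:
`|x| ≤ 2 (ε exp(T.C η) + exp((T.C+T'.C) η) - exp(-(T.C+T'.C) η))`.
Now use `norm_PS_le_small` (with `C + T.C + T'.C` as growth constant). -/
theorem EE_close (F : Fr ρ U D) (T T' : Tw Γ) {C : ℝ} (hC : 0 ≤ C)
    (hG : ∀ x w : ℍ, ∀ i j, ‖(U x * (U w)⁻¹) i j‖ ≤ C * Real.exp (C * dist x w))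
    {c : ℍ → ℂ} (hc : ∀ o, ‖c o‖ ≤ 2) (hN : 256 ≤ N) (hO : IsNet Γ (1 / Real.sqrt N) O)
    {K : Set ℍ} (hOK : ∀ o ∈ O, o ∈ K)
    (hC4 : 4 * (C + T.C + T'.C) ≤ Real.sqrt N) {ε η : ℝ} (hε : 0 ≤ ε) (hη : 0 ≤ η)
    (hcl : ∀ x ∈ K, ∀ w : ℍ, dist x w ≤ η →
      ∀ i j, ‖(U x * (U w)⁻¹) i j - (1 : Matrix (Fin n) (Fin n) ℂ) i j‖ ≤ ε)
    (w : ℍ) (i : Fin n)
    (hi : ∀ γ : Γ, D γ w i * (T.κ γ w * (T.τ w / T.τ (γ • w) : ℝ)) =
      T'.κ γ w * (T'.τ w / T'.τ (γ • w) : ℝ)) (a : Fin n) :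
    ‖(T.τ w : ℂ) * (EE ρ U T N O c w * (U w)⁻¹) i a -
      (T'.τ w : ℂ) * PT T' N O (fun o _ => c o) w * (1 : Matrix (Fin n) (Fin n) ℂ) i a‖ *
      Real.sqrt w.im ^ N ≤
    CE * (2 * (ε * Real.exp (T.C * η) + Real.exp ((T.C + T'.C) * η) -
      Real.exp (-((T.C + T'.C) * η))) +
      2 * (C + 3) * Real.exp (-(Real.sqrt N / 4) * η)) := by
  have hT := T.hC
  have hT' := T'.hC
  have hs0 : 0 ≤ Real.sqrt N := Real.sqrt_nonneg _
  obtain ⟨C₁, hC₁⟩ : ∃ C₁, C₁ = C + T.C + T'.C := ⟨_, rfl⟩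
  have hC₁0 : 0 ≤ C₁ := by linarith
  have h4C₁ : 4 * C₁ ≤ Real.sqrt N := by rw [hC₁]; exact hC4
  have h2C₁ : 2 * C₁ ≤ Real.sqrt N := by linarith
  have h2C : 2 * (C + T.C) ≤ Real.sqrt N := by linarith
  -- ratios of weights
  have hr : ∀ (S : Tw Γ) (o : ℍ) (γ : Γ),
      S.τ (γ • w) / S.τ o ≤ Real.exp (S.C * dist o (γ • w)) ∧
      Real.exp (-(S.C * dist o (γ • w))) ≤ S.τ (γ • w) / S.τ o := by
    intro S o γ
    have h1 := S.hl (γ • w) o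
    have h2 := S.hl o (γ • w)
    rw [dist_comm] at h1
    have h3 := S.hτ o
    refine ⟨?_, ?_⟩
    · rw [div_le_iff₀ h3, mul_comm]
      exact h1
    · rw [Real.exp_neg, le_div_iff₀ h3, ← div_eq_inv_mul, div_le_iff₀ (Real.exp_pos _)]
      exact h2
  have hrp : ∀ (S : Tw Γ) (o : ℍ) (γ : Γ), 0 < S.τ (γ • w) / S.τ o := fun S o γ =>
    div_pos (S.hτ _) (S.hτ _)
  -- unimodular multipliers
  have hk1 : ∀ (S : Tw Γ) (γ : Γ), ‖S.κ γ w * ((S.τ w / S.τ (γ • w) : ℝ) : ℂ)‖ = 1 := by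
    intro S γ
    have h1 := S.hτ w
    have h2 := S.hτ (γ • w)
    rw [norm_mul, S.hn, Complex.norm_real, Real.norm_of_nonneg (div_pos h1 h2).le]
    field_simp
  -- the coefficients
  obtain ⟨A₁, hA₁⟩ : ∃ A₁ : ℍ → Γ → ℂ, ∀ o γ, A₁ o γ = c o * (T.κ γ w / (T.τ o : ℂ)) *
      ((U o * (U (γ • w))⁻¹) i a * D γ w a) := ⟨_, fun _ _ => rfl⟩
  obtain ⟨A₂, hA₂⟩ : ∃ A₂ : ℍ → Γ → ℂ, ∀ o γ, A₂ o γ = c o * T'.κ γ w / (T'.τ o : ℂ) :=
    ⟨_, fun _ _ => rfl⟩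
  have hA₁' : (EE ρ U T N O c w * (U w)⁻¹) i a = PS Γ N O A₁ w := by
    rw [EE_frame F T hC hG hc hN hO h2C w i a]
    congr 1
    funext o γ
    rw [hA₁]
  have hA₂' : PT T' N O (fun o _ => c o) w = PS Γ N O A₂ w := by
    unfold PT
    congr 1
    funext o γ
    rw [hA₂]
    rfl
  have hexp : ∀ (b : ℝ) (o : ℍ) (γ : Γ), b ≤ C₁ →
      Real.exp (b * dist o (γ • w)) ≤ Real.exp (C₁ * dist o (γ • w)) := fun b o γ hb =>
    Real.exp_le_exp.2 (mul_le_mul_of_nonneg_right hb dist_nonneg)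
  have hb1 : ∀ o ∈ O, ∀ γ : Γ, ‖A₁ o γ‖ ≤
      (2 * C / T.τ w) * Real.exp (C₁ * dist o (γ • w)) := by
    intro o _ γ
    have h1 := T.hτ w
    have h2 := T.hτ (γ • w)
    have h3 := T.hτ o
    have e1 : ‖T.κ γ w / (T.τ o : ℂ)‖ = (T.τ (γ • w) / T.τ o) / T.τ w := by
      rw [norm_div, T.hn, Complex.norm_real, Real.norm_of_nonneg h3.le]
      field_simp
    rw [hA₁, norm_mul, norm_mul, norm_mul, e1, F.norm, mul_one]
    have e2 : ‖c o‖ * (T.τ (γ • w) / T.τ o / T.τ w) ≤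
        2 * (Real.exp (T.C * dist o (γ • w)) / T.τ w) :=
      mul_le_mul (hc o) (div_le_div_of_nonneg_right (hr T o γ).1 h1.le)
        (div_nonneg (hrp T o γ).le h1.le) (by norm_num)
    calc ‖c o‖ * (T.τ (γ • w) / T.τ o / T.τ w) * ‖(U o * (U (γ • w))⁻¹) i a‖
        ≤ (2 * (Real.exp (T.C * dist o (γ • w)) / T.τ w)) *
          (C * Real.exp (C * dist o (γ • w))) :=
          mul_le_mul e2 (hG o (γ • w) i a) (norm_nonneg _)
            (mul_nonneg (by norm_num) (div_nonneg (Real.exp_pos _).le h1.le))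
      _ = (2 * C / T.τ w) * Real.exp ((C + T.C) * dist o (γ • w)) := by
          rw [add_mul, Real.exp_add]; ring
      _ ≤ _ := mul_le_mul_of_nonneg_left (hexp _ o γ (by linarith))
          (div_nonneg (by linarith) h1.le)
  have hb2 : ∀ o ∈ O, ∀ γ : Γ, ‖A₂ o γ‖ ≤
      (2 / T'.τ w) * Real.exp (C₁ * dist o (γ • w)) := by
    intro o _ γ
    have h1 := T'.hτ w
    have h2 := T'.hτ (γ • w)
    have h3 := T'.hτ o
    have e1 : ‖T'.κ γ w / (T'.τ o : ℂ)‖ = (T'.τ (γ • w) / T'.τ o) / T'.τ w := by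
      rw [norm_div, T'.hn, Complex.norm_real, Real.norm_of_nonneg h3.le]
      field_simp
    rw [hA₂, mul_div_assoc, norm_mul, e1]
    calc ‖c o‖ * (T'.τ (γ • w) / T'.τ o / T'.τ w)
        ≤ 2 * (Real.exp (T'.C * dist o (γ • w)) / T'.τ w) :=
          mul_le_mul (hc o) (div_le_div_of_nonneg_right (hr T' o γ).1 h1.le)
            (div_nonneg (hrp T' o γ).le h1.le) (by norm_num)
      _ = (2 / T'.τ w) * Real.exp (T'.C * dist o (γ • w)) := by ring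
      _ ≤ _ := mul_le_mul_of_nonneg_left (hexp _ o γ (by linarith))
          (div_nonneg (by norm_num) h1.le)
  obtain ⟨X, hX⟩ : ∃ X : ℍ → Γ → ℂ, ∀ o γ, X o γ = (T.τ w : ℂ) * A₁ o γ -
      (T'.τ w : ℂ) * A₂ o γ * (1 : Matrix (Fin n) (Fin n) ℂ) i a := ⟨_, fun _ _ => rfl⟩
  have hlin : (T.τ w : ℂ) * PS Γ N O A₁ w - (T'.τ w : ℂ) * PS Γ N O A₂ w *
      (1 : Matrix (Fin n) (Fin n) ℂ) i a = PS Γ N O X w := by
    unfold PS
    rw [Finset.mul_sum, Finset.mul_sum, Finset.sum_mul, ← Finset.sum_sub_distrib]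
    refine Finset.sum_congr rfl fun o ho => ?_
    have s1 := summable_PS hN hO hC₁0 h2C₁ w hb1 ho
    have s2 := summable_PS hN hO hC₁0 h2C₁ w hb2 ho
    rw [← tsum_mul_left, ← tsum_mul_left, ← tsum_mul_right,
      ← (s1.mul_left _).tsum_sub ((s2.mul_left _).mul_right _)]
    refine tsum_congr fun γ => ?_
    rw [hX]
    ring
  -- the main estimate of the coefficients
  have hmain : ∀ (o : ℍ) (γ : Γ), ‖X o γ‖ ≤ 2 * (T.τ (γ • w) / T.τ o *
      ‖(U o * (U (γ • w))⁻¹) i a - (1 : Matrix (Fin n) (Fin n) ℂ) i a‖ +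
      |T.τ (γ • w) / T.τ o - T'.τ (γ • w) / T'.τ o|) := by
    intro o γ
    have h1 : (T.τ w : ℂ) ≠ 0 := by exact_mod_cast (T.hτ w).ne'
    have h2 : (T.τ (γ • w) : ℂ) ≠ 0 := by exact_mod_cast (T.hτ (γ • w)).ne'
    have h3 : (T.τ o : ℂ) ≠ 0 := by exact_mod_cast (T.hτ o).ne'
    have h1' : (T'.τ w : ℂ) ≠ 0 := by exact_mod_cast (T'.hτ w).ne'
    have h2' : (T'.τ (γ • w) : ℂ) ≠ 0 := by exact_mod_cast (T'.hτ (γ • w)).ne'
    have h3' : (T'.τ o : ℂ) ≠ 0 := by exact_mod_cast (T'.hτ o).ne'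
    have hrn : ‖((T.τ (γ • w) / T.τ o : ℝ) : ℂ)‖ = T.τ (γ • w) / T.τ o := by
      rw [Complex.norm_real, Real.norm_of_nonneg (hrp T o γ).le]
    have f1 : (T.τ w : ℂ) * A₁ o γ = c o * (D γ w a *
        (T.κ γ w * ((T.τ w / T.τ (γ • w) : ℝ) : ℂ))) *
        (((T.τ (γ • w) / T.τ o : ℝ) : ℂ) * (U o * (U (γ • w))⁻¹) i a) := by
      rw [hA₁]
      push_cast
      field_simp
    have f2 : (T'.τ w : ℂ) * A₂ o γ = c o *
        (T'.κ γ w * ((T'.τ w / T'.τ (γ • w) : ℝ) : ℂ)) *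
        ((T'.τ (γ • w) / T'.τ o : ℝ) : ℂ) := by
      rw [hA₂]
      push_cast
      field_simp
    have hab : 0 ≤ |T.τ (γ • w) / T.τ o - T'.τ (γ • w) / T'.τ o| := abs_nonneg _
    rw [hX, f1, f2]
    by_cases hai : a = i
    · subst hai
      rw [← hi γ, Matrix.one_apply_eq, mul_one, ← mul_sub, norm_mul, norm_mul, norm_mul,
        F.norm, hk1, mul_one, mul_one]
      refine mul_le_mul (hc o) ?_ (norm_nonneg _) (by norm_num)
      have e3 : ((T.τ (γ • w) / T.τ o : ℝ) : ℂ) * (U o * (U (γ • w))⁻¹) a a -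
          ((T'.τ (γ • w) / T'.τ o : ℝ) : ℂ) =
          ((T.τ (γ • w) / T.τ o : ℝ) : ℂ) * ((U o * (U (γ • w))⁻¹) a a - 1) +
          ((T.τ (γ • w) / T.τ o - T'.τ (γ • w) / T'.τ o : ℝ) : ℂ) := by
        push_cast
        ring
      rw [e3]
      refine (norm_add_le _ _).trans ?_
      rw [norm_mul, hrn, Complex.norm_real, Real.norm_eq_abs]
    · rw [Matrix.one_apply_ne (Ne.symm hai), mul_zero, sub_zero, sub_zero, norm_mul, norm_mul,
        norm_mul, F.norm, hk1, mul_one, mul_one, norm_mul, hrn]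
      refine mul_le_mul (hc o) ?_ (mul_nonneg (hrp T o γ).le (norm_nonneg _)) (by norm_num)
      linarith
  have hX1 : ∀ o ∈ O, ∀ γ : Γ, ‖X o γ‖ ≤ (2 * (C + 3)) * Real.exp (C₁ * dist o (γ • w)) := by
    intro o _ γ
    have hd : 0 ≤ dist o (γ • w) := dist_nonneg
    have g1 := (hr T o γ).1
    have g2 := (hr T' o γ).1
    have g3 := hrp T o γ
    have g4 := hrp T' o γ
    have g5 : ‖(U o * (U (γ • w))⁻¹) i a - (1 : Matrix (Fin n) (Fin n) ℂ) i a‖ ≤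
        (C + 1) * Real.exp (C * dist o (γ • w)) := by
      refine (norm_sub_le _ _).trans ?_
      have e4 : ‖(1 : Matrix (Fin n) (Fin n) ℂ) i a‖ ≤ 1 := by
        rw [Matrix.one_apply]
        split_ifs
        · rw [norm_one]
        · rw [norm_zero]; norm_num
      have e5 := hG o (γ • w) i a
      have e6 : 1 ≤ Real.exp (C * dist o (γ • w)) := Real.one_le_exp (mul_nonneg hC hd)
      linarith
    have g6 : |T.τ (γ • w) / T.τ o - T'.τ (γ • w) / T'.τ o| ≤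
        Real.exp (C₁ * dist o (γ • w)) := by
      have e7 := hexp T.C o γ (by linarith)
      have e8 := hexp T'.C o γ (by linarith)
      rw [abs_le]
      constructor <;> linarith
    have g7 : T.τ (γ • w) / T.τ o *
        ‖(U o * (U (γ • w))⁻¹) i a - (1 : Matrix (Fin n) (Fin n) ℂ) i a‖ ≤
        (C + 1) * Real.exp (C₁ * dist o (γ • w)) := by
      calc _ ≤ Real.exp (T.C * dist o (γ • w)) * ((C + 1) * Real.exp (C * dist o (γ • w))) :=
            mul_le_mul g1 g5 (norm_nonneg _) (Real.exp_pos _).le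
        _ = (C + 1) * Real.exp ((C + T.C) * dist o (γ • w)) := by
            rw [show (C + T.C) * dist o (γ • w) = C * dist o (γ • w) + T.C * dist o (γ • w) by
              ring, Real.exp_add]
            ring
        _ ≤ _ := mul_le_mul_of_nonneg_left (hexp _ o γ (by linarith)) (by linarith)
    have g8 : 0 ≤ Real.exp (C₁ * dist o (γ • w)) := (Real.exp_pos _).le
    refine (hmain o γ).trans ?_
    nlinarith
  have hX2 : ∀ o ∈ O, ∀ γ : Γ, dist o (γ • w) ≤ η → ‖X o γ‖ ≤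
      2 * (ε * Real.exp (T.C * η) + Real.exp ((T.C + T'.C) * η) -
        Real.exp (-((T.C + T'.C) * η))) := by
    intro o ho γ hdη
    have hd : 0 ≤ dist o (γ • w) := dist_nonneg
    have g1 := hr T o γ
    have g2 := hr T' o γ
    have g3 := hrp T o γ
    have g4 := hcl o (hOK o ho) (γ • w) hdη i a
    have m1 : T.C * dist o (γ • w) ≤ T.C * η := mul_le_mul_of_nonneg_left hdη hT
    have m2 : T'.C * dist o (γ • w) ≤ T'.C * η := mul_le_mul_of_nonneg_left hdη hT'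
    have m3 : 0 ≤ T.C * dist o (γ • w) := mul_nonneg hT hd
    have m4 : 0 ≤ T'.C * dist o (γ • w) := mul_nonneg hT' hd
    have u1 : T.τ (γ • w) / T.τ o ≤ Real.exp (T.C * η) := g1.1.trans (Real.exp_le_exp.2 m1)
    have u2 : T.τ (γ • w) / T.τ o ≤ Real.exp ((T.C + T'.C) * η) :=
      g1.1.trans (Real.exp_le_exp.2 (by rw [add_mul]; linarith))
    have u3 : T'.τ (γ • w) / T'.τ o ≤ Real.exp ((T.C + T'.C) * η) :=
      g2.1.trans (Real.exp_le_exp.2 (by rw [add_mul]; linarith))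
    have u4 : Real.exp (-((T.C + T'.C) * η)) ≤ T.τ (γ • w) / T.τ o :=
      (Real.exp_le_exp.2 (by rw [add_mul]; linarith)).trans g1.2
    have u5 : Real.exp (-((T.C + T'.C) * η)) ≤ T'.τ (γ • w) / T'.τ o :=
      (Real.exp_le_exp.2 (by rw [add_mul]; linarith)).trans g2.2
    have u6 : |T.τ (γ • w) / T.τ o - T'.τ (γ • w) / T'.τ o| ≤
        Real.exp ((T.C + T'.C) * η) - Real.exp (-((T.C + T'.C) * η)) := by
      rw [abs_le]
      constructor <;> linarith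
    have u7 : T.τ (γ • w) / T.τ o *
        ‖(U o * (U (γ • w))⁻¹) i a - (1 : Matrix (Fin n) (Fin n) ℂ) i a‖ ≤
        Real.exp (T.C * η) * ε :=
      mul_le_mul u1 g4 (norm_nonneg _) (Real.exp_pos _).le
    refine (hmain o γ).trans ?_
    linarith
  have hε' : 0 ≤ 2 * (ε * Real.exp (T.C * η) + Real.exp ((T.C + T'.C) * η) -
        Real.exp (-((T.C + T'.C) * η))) := by
    have v1 : 0 ≤ ε * Real.exp (T.C * η) := mul_nonneg hε (Real.exp_pos _).le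
    have v2 : 0 ≤ (T.C + T'.C) * η := mul_nonneg (add_nonneg hT hT') hη
    have v3 : Real.exp (-((T.C + T'.C) * η)) ≤ Real.exp ((T.C + T'.C) * η) :=
      Real.exp_le_exp.2 (by linarith)
    linarith
  rw [hA₁', hA₂', hlin]
  exact norm_PS_le_small hN hO (by linarith) hε' hη hC₁0 h4C₁ w hX1 hX2

end Pool.Agent.SfBundle
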