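import Mathlib
import Pool.Agent.Lib.MP_1d980c_gt.Sf.Defs

set_option autoImplicit false
open scoped UpperHalfPlane MatrixGroups Manifold ContDiff Matrix Topology
open Complex ComplexConjugate Pool.Agent.HypBundle

namespace Pool.Agent.SfBundle

variable {Γ : Subgroup SL(2, ℝ)} {N : ℕ} {O : Finset ℍ} (T : Tw Γ)

private lemma kap_bound (o w w₁ : ℍ) (γ : Γ) (hw : dist w w₁ < 1) :
    ‖T.κ γ w‖ / T.τ o ≤ Real.exp T.C / T.τ w₁ * Real.exp (T.C * dist o (γ • w)) := by
  have h1 := T.hn γ w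
  have hτo := T.hτ o
  have hτw := T.hτ w
  have hτ1 := T.hτ w₁
  have h2 := T.hl (γ • w) o
  rw [dist_comm] at h2
  have h3 := T.hl w₁ w
  have h4 : T.τ w₁ ≤ T.τ w * Real.exp T.C := by
    refine h3.trans (mul_le_mul_of_nonneg_left (Real.exp_le_exp.mpr ?_) hτw.le)
    rw [dist_comm]
    have := mul_le_mul_of_nonneg_left hw.le T.hC
    linarith
  rw [h1, div_le_iff₀ hτo, div_le_iff₀ hτw]
  have h5 : 1 ≤ Real.exp T.C / T.τ w₁ * T.τ w := by
    rw [div_mul_eq_mul_div, le_div_iff₀ hτ1]
    linarith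
  calc T.τ (γ • w) ≤ T.τ o * Real.exp (T.C * dist o (γ • w)) * 1 := by rw [mul_one]; exact h2
    _ ≤ T.τ o * Real.exp (T.C * dist o (γ • w)) * (Real.exp T.C / T.τ w₁ * T.τ w) :=
        mul_le_mul_of_nonneg_left h5 (by positivity)
    _ = _ := by ring

/-- Twisted version of `differentiableOn_PS` (`Hyp/Poincare.lean`): copy that proof. On the ball
`dist w w₁ < 1` one has `‖κ(γ,w)‖ / τ(o) = τ(γw)/(τ(w) τ(o)) ≤ exp(T.C * dist o (γ w)) / τ(w)` and
`1/τ(w) ≤ exp(T.C) / τ(w₁)`; the coefficient bound is only assumed at one point `w₀`. -/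
theorem differentiableOn_PT (hN : 256 ≤ N) (hO : IsNet Γ (1 / Real.sqrt N) O) {A : ℍ → Γ → ℂ}
    {B C : ℝ} (hC : 0 ≤ C) (hC2 : 2 * (C + T.C) ≤ Real.sqrt N) (w₀ : ℍ)
    (hA : ∀ o ∈ O, ∀ γ : Γ, ‖A o γ‖ ≤ B * Real.exp (C * dist o (γ • w₀))) :
    DifferentiableOn ℂ (PT T N O A) HH := by
  intro z₁ hz₁
  set w₁ : ℍ := ⟨z₁, hz₁⟩ with hw₁
  set U : Set ℂ := (fun w : ℍ => (w : ℂ)) '' Metric.ball w₁ 1 with hU
  have hUo : IsOpen U := UpperHalfPlane.isOpenEmbedding_coe.isOpenMap _ Metric.isOpen_ball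
  have hzU : z₁ ∈ U := ⟨w₁, Metric.mem_ball_self one_pos, rfl⟩
  have hUH : U ⊆ HH := by
    rintro _ ⟨w, _, rfl⟩
    exact w.im_pos
  have key : DifferentiableOn ℂ (PT T N O A) U := by
    unfold PT PS kA
    refine DifferentiableOn.fun_sum fun o ho => ?_
    -- the constants
    set M : ℝ := dist w₀ w₁ + 1 with hM
    have hs1 := (e2_exp hN hO w₀).1
    have hs2 : Summable (fun γ : Γ => Real.exp (-(Real.sqrt N / 2) * dist o (γ • w₀))) :=
      hs1.comp_injective (i := fun γ : Γ => ((⟨o, ho⟩ : O), γ)) (fun a b h => by simpa using h)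
    set q : ℝ := Real.sqrt (w₁.im / Real.exp 1) ^ N with hq
    have hq0 : 0 < q := by
      have := w₁.im_pos
      positivity
    set K : ℝ := Real.exp T.C / T.τ w₁ with hK
    have hK0 : 0 < K := div_pos (Real.exp_pos _) (T.hτ w₁)
    refine Complex.differentiableOn_tsum_of_summable_norm
      (u := fun γ : Γ => (Real.exp 3 * Real.exp (Real.sqrt N * M) * B * K / q) *
        Real.exp (-(Real.sqrt N / 2) * dist o (γ • w₀)))
      (hs2.mul_left _) (fun γ => ?_) hUo (fun γ w hw => ?_)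
    · exact ((differentiableOn_ph N o _).mono hUH).mul
        ((((T.hd γ).mono hUH).const_mul _).div_const _)
    · obtain ⟨w, hw, rfl⟩ := hw
      have hwd : dist w w₁ < 1 := hw
      have h1 := norm_ph N o (γ : SL(2, ℝ)) w
      have h2 : q ≤ Real.sqrt w.im ^ N := by
        rw [hq]
        refine pow_le_pow_left₀ (Real.sqrt_nonneg _) (Real.sqrt_le_sqrt ?_) _
        refine le_trans ?_ (UpperHalfPlane.im_div_exp_dist_le w₁ w)
        refine div_le_div_of_nonneg_left w₁.im_pos.le (Real.exp_pos _) (Real.exp_le_exp.mpr ?_)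
        rw [dist_comm]
        exact hwd.le
      have h3 : dist o (γ • w₀) - M ≤ dist o (γ • w) := by
        have h4 : dist o (γ • w₀) ≤ dist o (γ • w) + dist (γ • w) (γ • w₀) := dist_triangle _ _ _
        rw [e2_dist] at h4
        have h5 : dist w w₀ ≤ dist w w₁ + dist w₁ w₀ := dist_triangle _ _ _
        rw [dist_comm w₁ w₀] at h5
        linarith
      have h6 : ((Real.cosh (dist o (γ • w) / 2))⁻¹) ^ N ≤
          Real.exp 3 * Real.exp (-Real.sqrt N * dist o (γ • w)) :=
        cosh_pow_le (by omega) dist_nonneg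
      have h7 : ‖ph N o (γ : SL(2, ℝ)) w‖ * q ≤
          Real.exp 3 * Real.exp (-Real.sqrt N * dist o (γ • w)) := by
        refine le_trans (mul_le_mul_of_nonneg_left h2 (norm_nonneg _)) ?_
        rw [h1]
        exact h6
      have h8 := kap_bound T o w w₁ γ hwd
      rw [← hK] at h8
      have hs := e2_sqrt hN
      have hTC := T.hC
      have hAo := hA o ho γ
      have hB0 : 0 ≤ B * Real.exp (C * dist o (γ • w₀)) := (norm_nonneg _).trans hAo
      have hB : 0 ≤ B := by
        by_contra hneg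
        push Not at hneg
        have : B * Real.exp (C * dist o (γ • w₀)) < 0 :=
          mul_neg_of_neg_of_pos hneg (Real.exp_pos _)
        linarith
      have hκ0 : 0 ≤ ‖T.κ γ w‖ / T.τ o := div_nonneg (norm_nonneg _) (T.hτ o).le
      have hn : ‖A o γ * T.κ γ (w : ℂ) / (T.τ o : ℂ)‖ = ‖A o γ‖ * (‖T.κ γ w‖ / T.τ o) := by
        rw [norm_div, norm_mul, Complex.norm_real, Real.norm_of_nonneg (T.hτ o).le]
        ring
      rw [norm_mul, hn, div_mul_eq_mul_div, le_div_iff₀ hq0]
      calc ‖ph N o (γ : SL(2, ℝ)) w‖ * (‖A o γ‖ * (‖T.κ γ w‖ / T.τ o)) * q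
          = ‖ph N o (γ : SL(2, ℝ)) w‖ * q * (‖A o γ‖ * (‖T.κ γ w‖ / T.τ o)) := by ring
        _ ≤ (Real.exp 3 * Real.exp (-Real.sqrt N * dist o (γ • w))) *
              ((B * Real.exp (C * dist o (γ • w₀))) *
                (K * Real.exp (T.C * dist o (γ • w)))) :=
            mul_le_mul h7 (mul_le_mul hAo h8 hκ0 hB0) (mul_nonneg (norm_nonneg _) hκ0)
              (by positivity)
        _ = Real.exp 3 * (B * K * (Real.exp (-Real.sqrt N * dist o (γ • w)) *
              Real.exp (C * dist o (γ • w₀)) * Real.exp (T.C * dist o (γ • w)))) := by ring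
        _ = Real.exp 3 * (B * K * Real.exp (-Real.sqrt N * dist o (γ • w) +
              C * dist o (γ • w₀) + T.C * dist o (γ • w))) := by
            rw [Real.exp_add, Real.exp_add]
        _ ≤ Real.exp 3 * (B * K * Real.exp (Real.sqrt N * M +
              -(Real.sqrt N / 2) * dist o (γ • w₀))) := by
            refine mul_le_mul_of_nonneg_left (mul_le_mul_of_nonneg_left
              (Real.exp_le_exp.mpr ?_) (mul_nonneg hB hK0.le)) (Real.exp_pos 3).le
            have hd0 : 0 ≤ dist o (γ • w₀) := dist_nonneg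
            have hM0 : 0 ≤ M := by positivity
            have e1 : 0 ≤ Real.sqrt N - T.C := by linarith
            have e2 : (Real.sqrt N - T.C) * (dist o (γ • w₀) - M) ≤
                (Real.sqrt N - T.C) * dist o (γ • w) := mul_le_mul_of_nonneg_left h3 e1
            have e3 : 0 ≤ (Real.sqrt N / 2 - T.C - C) * dist o (γ • w₀) :=
              mul_nonneg (by linarith) hd0
            have e4 : 0 ≤ T.C * M := mul_nonneg hTC hM0
            linarith
        _ = Real.exp 3 * Real.exp (Real.sqrt N * M) * B * K *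
              Real.exp (-(Real.sqrt N / 2) * dist o (γ • w₀)) := by rw [Real.exp_add]; ring
  exact ((key z₁ hzU).differentiableAt (hUo.mem_nhds hzU)).differentiableWithinAt

end Pool.Agent.SfBundle
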