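import Mathlib
import Pool.Agent.Lib.MP_1d980c_gt.Sf.PTb
import Pool.Agent.Lib.MP_1d980c_gt.Sf.PTd
import Pool.Agent.Lib.MP_1d980c_gt.Sf.EEa

set_option autoImplicit false
open scoped UpperHalfPlane MatrixGroups Manifold ContDiff Matrix Topology
open Complex ComplexConjugate Pool.Agent.HypBundle

namespace Pool.Agent.SfBundle

variable {n : ℕ} {Γ : Subgroup SL(2, ℝ)} {ρ : Γ →* Matrix (Fin n) (Fin n) ℝ}
  {U : ℍ → Matrix (Fin n) (Fin n) ℂ} {D : Γ → ℍ → Fin n → ℂ} {N : ℕ} {O : Finset ℍ}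

private lemma PT_sum_mul (T : Tw Γ) {ι : Type} (s : Finset ι) (A : ι → ℍ → Γ → ℂ) (x : ι → ℂ)
    (w : ℂ) (h : ∀ k ∈ s, ∀ o ∈ O,
      Summable (fun γ : Γ => ph N o (γ : SL(2, ℝ)) w * kA T (A k) w o γ)) :
    ∑ k ∈ s, PT T N O (A k) w * x k = PT T N O (fun o γ => ∑ k ∈ s, A k o γ * x k) w := by
  unfold PT PS
  simp only [Finset.sum_mul]
  rw [Finset.sum_comm]
  refine Finset.sum_congr rfl fun o ho => ?_
  simp only [← tsum_mul_right]
  rw [← Summable.tsum_finsetSum (fun k hk => (h k hk o ho).mul_right (x k))]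
  congr 1
  funext γ
  unfold kA
  rw [Finset.sum_mul, Finset.sum_div, Finset.mul_sum]
  exact Finset.sum_congr rfl fun k _ => by ring

/-- `PT_smul` entrywise, then `∑_k (U(o) ρ(γδ⁻¹))_ik ρ(δ)_kj = (U(o) ρ(γ))_ij`; the finite sum over
`k` is moved inside the series by summability (`PT_summable`, `EE_bound`). Compare `PV_smul` and
`PS_sum_mul` in `Hyp/ExistsLH.lean`. -/
lemma EE_smul (F : Fr ρ U D) (T : Tw Γ) {C : ℝ} (hC : 0 ≤ C)
    (hG : ∀ x w : ℍ, ∀ i j, ‖(U x * (U w)⁻¹) i j‖ ≤ C * Real.exp (C * dist x w))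
    {c : ℍ → ℂ} (hc : ∀ o, ‖c o‖ ≤ 2) (hN : 256 ≤ N) (hO : IsNet Γ (1 / Real.sqrt N) O)
    (hC2 : 2 * (C + T.C) ≤ Real.sqrt N) (δ : Γ) (w : ℍ) :
    EE ρ U T N O c ((δ • w : ℍ) : ℂ) * (ρ δ).map Complex.ofReal =
      (jf (δ : SL(2, ℝ)) w ^ N * (T.κ δ w)⁻¹) • EE ρ U T N O c w := by
  ext i j
  rw [Matrix.mul_apply, Matrix.smul_apply, smul_eq_mul]
  unfold EE
  rw [PT_sum_mul T Finset.univ
    (fun k o γ => c o * (U o * (ρ γ).map Complex.ofReal) i k)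
    (fun k => ((ρ δ).map Complex.ofReal) k j) _
    (fun k _ o ho => PT_summable T hN hO
      (B := 2 * ∑ l, C * ‖U (δ • w) l k‖) (by positivity) hC hC2 (δ • w)
      (fun o _ γ => EE_bound F hG hc i k (δ • w) o γ) ho), PT_smul]
  congr 1
  congr 1
  funext o γ
  have e : (U o * (ρ γ).map Complex.ofReal) i j =
      ∑ k, (U o * (ρ (γ * δ⁻¹)).map Complex.ofReal) i k * ((ρ δ).map Complex.ofReal) k j := by
    rw [← Matrix.mul_apply, Matrix.mul_assoc]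
    have e2 : (ρ γ).map Complex.ofReal =
        (ρ (γ * δ⁻¹)).map Complex.ofReal * (ρ δ).map Complex.ofReal := by
      have e3 : ρ γ = ρ (γ * δ⁻¹) * ρ δ := by
        rw [← map_mul, inv_mul_cancel_right]
      rw [e3]
      exact Matrix.map_mul (f := Complex.ofRealHom)
    rw [e2]
  rw [e, Finset.mul_sum]
  exact Finset.sum_congr rfl fun k _ => by ring

/-- `differentiableOn_PT` and `EE_bound` -/
lemma EE_diff (F : Fr ρ U D) (T : Tw Γ) {C : ℝ} (hC : 0 ≤ C)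
    (hG : ∀ x w : ℍ, ∀ i j, ‖(U x * (U w)⁻¹) i j‖ ≤ C * Real.exp (C * dist x w))
    {c : ℍ → ℂ} (hc : ∀ o, ‖c o‖ ≤ 2) (hN : 256 ≤ N) (hO : IsNet Γ (1 / Real.sqrt N) O)
    (hC2 : 2 * (C + T.C) ≤ Real.sqrt N) (i j : Fin n) :
    DifferentiableOn ℂ (fun z => EE ρ U T N O c z i j) HH := by
  unfold EE
  exact differentiableOn_PT T hN hO hC hC2 UpperHalfPlane.I
    (fun o _ γ => EE_bound F hG hc i j UpperHalfPlane.I o γ)

end Pool.Agent.SfBundle
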