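import Mathlib
import Pool.Agent.Lib.MP_1d980c_gt.Sf.GrowA
import Pool.Agent.Lib.MP_1d980c_gt.Hyp.Growth

set_option autoImplicit false
open scoped UpperHalfPlane MatrixGroups Manifold ContDiff Matrix Topology
open Complex ComplexConjugate Pool.Agent.HypBundle

namespace Pool.Agent.SfBundle

variable {n : ℕ} {Γ : Subgroup SL(2, ℝ)} {ρ : Γ →* Matrix (Fin n) (Fin n) ℝ}
  {U : ℍ → Matrix (Fin n) (Fin n) ℂ} {D : Γ → ℍ → Fin n → ℂ}

/-- Exponential growth, the analogue of `V_growth` in `Hyp/Growth.lean`: for `dist x w ≤ η`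
(`η` from `U_close` on a compact set meeting all orbits) the sums of the moduli of the entries of
the rows of `U x (U w)⁻¹` are at most `2` (by `Fr.inv` one may assume `x ∈ K`); then use `chain`. -/
theorem U_growth (hcoc : ∃ K : Set ℍ, IsCompact K ∧ ∀ w : ℍ, ∃ γ : Γ, γ • w ∈ K) (F : Fr ρ U D) :
    ∃ C : ℝ, 0 < C ∧ ∀ x w : ℍ, ∀ i j, ‖(U x * (U w)⁻¹) i j‖ ≤ C * Real.exp (C * dist x w) := by
  classical
  obtain ⟨K, hK, hcov⟩ := hcoc
  obtain ⟨η, hη, hclose⟩ := U_close F.cont F.unit hK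
    (ε := 1 / ((n : ℝ) + 1)) (by positivity)
  have hrow1 : ∀ x w : ℍ, dist x w ≤ η → ∀ i, ∑ j, ‖(U x * (U w)⁻¹) i j‖ ≤ 2 := by
    intro x w hxw i
    obtain ⟨γ, hγ⟩ := hcov x
    have hd : dist (γ • x) (γ • w) ≤ η := by
      have h0 : dist (γ • x) (γ • w) = dist x w := dist_smul (γ : SL(2, ℝ)) x w
      rw [h0]
      exact hxw
    have h1 : ∀ j, ‖(U x * (U w)⁻¹) i j‖ ≤ ‖(1 : Matrix (Fin n) (Fin n) ℂ) i j‖ +
        1 / ((n : ℝ) + 1) := by
      intro j
      rw [← F.inv γ x w i j]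
      have h2 := hclose (γ • x) hγ (γ • w) hd i j
      have h3 := norm_sub_norm_le ((U (γ • x) * (U (γ • w))⁻¹) i j)
        ((1 : Matrix (Fin n) (Fin n) ℂ) i j)
      linarith
    refine (Finset.sum_le_sum fun j _ => h1 j).trans ?_
    rw [Finset.sum_add_distrib]
    have h4 : ∑ j, ‖(1 : Matrix (Fin n) (Fin n) ℂ) i j‖ = 1 := by
      rw [Finset.sum_eq_single i]
      · simp
      · intro j _ hj
        rw [Matrix.one_apply_ne (Ne.symm hj), norm_zero]
      · intro h; exact absurd (Finset.mem_univ i) h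
    rw [h4, Finset.sum_const, Finset.card_univ, Fintype.card_fin, nsmul_eq_mul, mul_one_div]
    have : (n : ℝ) / (n + 1) ≤ 1 := by
      rw [div_le_one (by positivity)]
      linarith
    linarith
  have hcancel : ∀ x y w : ℍ, U x * (U w)⁻¹ = (U x * (U y)⁻¹) * (U y * (U w)⁻¹) := by
    intro x y w
    rw [Matrix.mul_assoc, ← Matrix.mul_assoc (U y)⁻¹,
      Matrix.nonsing_inv_mul _ ((Matrix.isUnit_iff_isUnit_det _).1 (F.unit y)), Matrix.one_mul]
  have hrow : ∀ (k : ℕ) (z : ℕ → ℍ), (∀ i < k, dist (z i) (z (i + 1)) ≤ η) →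
      ∀ i, ∑ j, ‖(U (z 0) * (U (z k))⁻¹) i j‖ ≤ 2 ^ k := by
    intro k z
    induction k with
    | zero =>
      intro _ i
      rw [Matrix.mul_nonsing_inv _ ((Matrix.isUnit_iff_isUnit_det _).1 (F.unit _)), pow_zero]
      apply le_of_eq
      rw [Finset.sum_eq_single i]
      · simp
      · intro j _ hj
        rw [Matrix.one_apply_ne (Ne.symm hj), norm_zero]
      · intro h; exact absurd (Finset.mem_univ i) h
    | succ k ih =>
      intro hz i
      have h1 := ih (fun i hi => hz i (by omega)) i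
      have h2 := hrow1 _ _ (hz k (by omega))
      rw [hcancel (z 0) (z k) (z (k + 1))]
      calc ∑ j, ‖((U (z 0) * (U (z k))⁻¹) * (U (z k) * (U (z (k + 1)))⁻¹)) i j‖
          ≤ ∑ j, ∑ l, ‖(U (z 0) * (U (z k))⁻¹) i l‖ * ‖(U (z k) * (U (z (k + 1)))⁻¹) l j‖ := by
            apply Finset.sum_le_sum
            intro j _
            rw [Matrix.mul_apply]
            refine (norm_sum_le _ _).trans ?_
            simp_rw [norm_mul]
            exact le_rfl
        _ = ∑ l, ‖(U (z 0) * (U (z k))⁻¹) i l‖ * ∑ j, ‖(U (z k) * (U (z (k + 1)))⁻¹) l j‖ := by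
            rw [Finset.sum_comm]
            simp_rw [Finset.mul_sum]
        _ ≤ ∑ l, ‖(U (z 0) * (U (z k))⁻¹) i l‖ * 2 := by
            apply Finset.sum_le_sum
            intro l _
            exact mul_le_mul_of_nonneg_left (h2 l) (norm_nonneg _)
        _ = (∑ l, ‖(U (z 0) * (U (z k))⁻¹) i l‖) * 2 := by rw [Finset.sum_mul]
        _ ≤ 2 ^ k * 2 := by gcongr
        _ = 2 ^ (k + 1) := by rw [pow_succ]
  refine ⟨Real.exp (2 / η + 3), Real.exp_pos _, ?_⟩
  intro x w i j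
  obtain ⟨k, z, hk, hz0, hzk, hz⟩ := chain x w hη
  have h1 : ‖(U x * (U w)⁻¹) i j‖ ≤ 2 ^ k := by
    have h2 := hrow k z hz i
    rw [hz0, hzk] at h2
    exact (Finset.single_le_sum (f := fun j => ‖(U x * (U w)⁻¹) i j‖)
      (fun _ _ => norm_nonneg _) (Finset.mem_univ j)).trans h2
  refine h1.trans ?_
  have h3 : (2 : ℝ) ^ k ≤ Real.exp k := by
    rw [← Real.exp_one_pow]
    have : (2 : ℝ) ≤ Real.exp 1 := by
      have := Real.add_one_le_exp (1 : ℝ)
      linarith
    gcongr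
  refine h3.trans ?_
  rw [← Real.exp_add]
  apply Real.exp_le_exp.2
  refine hk.trans ?_
  have h4 : 2 / η + 3 + 1 ≤ Real.exp (2 / η + 3) := Real.add_one_le_exp _
  have h5 : 2 / η ≤ Real.exp (2 / η + 3) := by linarith
  have h6 : 2 / η * dist x w ≤ Real.exp (2 / η + 3) * dist x w := by
    gcongr
  have h7 : (2 * dist x w + 2) / η + 3 = 2 / η + 3 + 2 / η * dist x w := by ring
  rw [h7]
  gcongr

end Pool.Agent.SfBundle
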