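import Mathlib
import Pool.Agent.Lib.MP_1d980c_gt.Sf.Defs

set_option autoImplicit false
open scoped UpperHalfPlane MatrixGroups Manifold ContDiff Matrix Topology
open Complex ComplexConjugate Pool.Agent.HypBundle

namespace Pool.Agent.SfBundle

/-- The algebra behind the nondegeneracy. Put `R = P/Q` etc. If `Q ≠ 0`: by induction
`ζ_i = (-P/Q)^i (-(S/Q)) conj ζ_{m-1}` for `i ≤ m-2`; insert into the last equation:
`ζ_{m-1} Q^{m-1} (1 + ∑_{j<m-1} |S|² |P|^{2j} / |Q|^{2(j+1)}) = 0`, so `ζ_{m-1} = 0`, so all are `0`.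
If `Q = 0`: then `S ≠ 0`, `P ≠ 0`; the first row gives `ζ_{m-1} = 0`, the rows `1 ≤ i ≤ m-2` give
`ζ_{i-1} = 0`, and the last (only `j = m-2` survives, `0^0 = 1`) gives `ζ_{m-2} = 0`.
Compare `TorusBundle.nondeg` in `Nondeg.lean` (the case `S = P`). -/
theorem nondegS {m : ℕ} (hm : 2 ≤ m) {P Q S : ℂ} (h1 : P ≠ 0 ∨ Q ≠ 0) (h2 : S ≠ 0 ∨ Q ≠ 0)
    (ζ : ℕ → ℂ) (h0 : Q * ζ 0 + S * conj (ζ (m - 1)) = 0)
    (hi : ∀ i, 1 ≤ i → i < m - 1 → Q * ζ i + P * ζ (i - 1) = 0)
    (hl : Q ^ (m - 1) * ζ (m - 1) + ∑ j ∈ Finset.range (m - 1),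
      ((-1) ^ (j + 1) * S * P ^ j * Q ^ (m - 2 - j)) * conj (ζ j) = 0) :
    ∀ k < m, ζ k = 0 := by
  by_cases hq : Q = 0
  · subst hq
    have hp : P ≠ 0 := by
      rcases h1 with h | h
      · exact h
      · exact absurd rfl h
    have hs : S ≠ 0 := by
      rcases h2 with h | h
      · exact h
      · exact absurd rfl h
    have hl1 : ζ (m - 1) = 0 := by
      rw [zero_mul, zero_add, mul_eq_zero, or_iff_right hs] at h0
      simpa using h0
    have hm2 : ζ (m - 2) = 0 := by
      rw [zero_pow (by omega), zero_mul, zero_add, Finset.sum_eq_single (m - 2)] at hl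
      · rw [Nat.sub_self, pow_zero, mul_one, mul_eq_zero] at hl
        rcases hl with h | h
        · exfalso
          exact (mul_ne_zero (mul_ne_zero (pow_ne_zero _ (by norm_num)) hs) (pow_ne_zero _ hp)) h
        · simpa using h
      · intro j hj hj2
        rw [Finset.mem_range] at hj
        rw [zero_pow (by omega), mul_zero, zero_mul]
      · intro h
        exfalso; apply h; rw [Finset.mem_range]; omega
    intro i hi'
    by_cases hi1 : i = m - 1
    · rw [hi1, hl1]
    by_cases hi2 : i = m - 2
    · rw [hi2, hm2]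
    · have := hi (i + 1) (by omega) (by omega)
      rw [zero_mul, zero_add, Nat.add_sub_cancel, mul_eq_zero, or_iff_right hp] at this
      exact this
  · obtain ⟨u, hu⟩ : ∃ u, u = P / Q := ⟨_, rfl⟩
    obtain ⟨s, hs⟩ : ∃ s, s = S / Q := ⟨_, rfl⟩
    have hp : P = u * Q := by rw [hu]; field_simp
    have hsS : S = s * Q := by rw [hs]; field_simp
    have key : ∀ i, i + 1 < m → ζ i = (-u) ^ i * (-s) * conj (ζ (m - 1)) := by
      intro i
      induction i with
      | zero =>
        intro _
        rw [hsS] at h0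
        have : Q * (ζ 0 + s * conj (ζ (m - 1))) = 0 := by linear_combination h0
        rw [mul_eq_zero, or_iff_right hq] at this
        rw [pow_zero]
        linear_combination this
      | succ i ih =>
        intro hi'
        have h := hi (i + 1) (by omega) (by omega)
        rw [Nat.add_sub_cancel, ih (by omega), hp] at h
        have : Q * (ζ (i + 1) + u * ((-u) ^ i * (-s) * conj (ζ (m - 1)))) = 0 := by
          linear_combination h
        rw [mul_eq_zero, or_iff_right hq] at this
        rw [pow_succ]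
        linear_combination this
    have hl1 : ζ (m - 1) = 0 := by
      have e : Q ^ (m - 1) * (ζ (m - 1) * (1 + ∑ j ∈ Finset.range (m - 1),
          ((normSq s * (normSq u) ^ j : ℝ) : ℂ))) = 0 := by
        rw [← hl, mul_add, mul_one, mul_add, Finset.mul_sum, Finset.mul_sum]
        congr 1
        apply Finset.sum_congr rfl
        intro j hj
        rw [Finset.mem_range] at hj
        rw [key j (by omega), hsS, hp]
        have e1 : Q ^ (m - 1) = Q * Q ^ j * Q ^ (m - 2 - j) := by
          rw [← pow_succ', ← pow_add]; congr 1; omega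
        rw [e1]
        simp only [map_mul, map_pow, map_neg, conj_conj]
        push_cast
        rw [← mul_conj, ← mul_conj]
        have e2 : ((-1 : ℂ) ^ (j + 1)) * ((-conj u) ^ j * -conj s) = conj u ^ j * conj s := by
          rw [neg_pow (conj u) j, pow_succ]
          have : ((-1 : ℂ) ^ j) * ((-1 : ℂ) ^ j) = 1 := by rw [← mul_pow]; simp
          linear_combination (conj u ^ j * conj s) * this
        rw [mul_pow u Q j, mul_pow u (conj u) j]
        linear_combination (-(s * Q * (u ^ j * Q ^ j) * Q ^ (m - 2 - j) * ζ (m - 1))) * e2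
      rw [mul_eq_zero, or_iff_right (pow_ne_zero _ hq), mul_eq_zero] at e
      rcases e with e | e
      · exact e
      · exfalso
        have e' : ((1 + ∑ j ∈ Finset.range (m - 1), (normSq s * (normSq u) ^ j) : ℝ) : ℂ) = 0 := by
          rw [← e]; push_cast; rfl
        rw [Complex.ofReal_eq_zero] at e'
        have : 0 ≤ ∑ j ∈ Finset.range (m - 1), (normSq s * (normSq u) ^ j) :=
          Finset.sum_nonneg fun j _ => mul_nonneg (normSq_nonneg _) (pow_nonneg (normSq_nonneg _) _)
        linarith
    intro i hi'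
    by_cases hi1 : i = m - 1
    · rw [hi1, hl1]
    · rw [key i (by omega), hl1]; simp

end Pool.Agent.SfBundle
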