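import Mathlib
import Pool.Agent.Lib.MP_1d980c_gt.Sf.NDa

set_option autoImplicit false
open scoped UpperHalfPlane MatrixGroups Manifold ContDiff Matrix Topology
open Complex ComplexConjugate Pool.Agent.HypBundle

namespace Pool.Agent.SfBundle

/-- `Wm` times a real vector is `(ζ, conj ζ)`, `ζ = TorusBundle.zeta m v`. -/
lemma Wm_mulVec {m : ℕ} (v : Fin (2 * m) → ℝ) (x : Fin (2 * m)) :
    (Wm m *ᵥ (fun k => (v k : ℂ))) x =
      if x.val < m then TorusBundle.zeta m v x.val else conj (TorusBundle.zeta m v (x.val - m)) := by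
  by_cases hx : x.val < m
  · rw [if_pos hx, ← TorusBundle.Zr_dot hx v]
    unfold Matrix.mulVec dotProduct Wm
    refine Finset.sum_congr rfl fun y _ => ?_
    rw [if_pos hx]
  · have hx2 : x.val - m < m := by have := x.isLt; omega
    rw [if_neg hx, ← TorusBundle.Zb_dot hx2 v]
    unfold Matrix.mulVec dotProduct Wm
    refine Finset.sum_congr rfl fun y _ => ?_
    rw [if_neg hx]

/-- `Wm m` is invertible: `Wm m = Sf` of the matrix with rows `Zr m k`, which is `ND` by
`eq_zero_of_zeta`; or directly by `Wm_mulVec`-type formulas for complex vectors. -/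
lemma Wm_unit (m : ℕ) : IsUnit (Wm m) := by
  have hS : TorusBundle.Sf (m := m) (fun i => TorusBundle.Zr m i.val) = Wm m := by
    funext x y
    unfold TorusBundle.Sf Wm
    by_cases hx : x.val < m
    · simp only [hx, dif_pos, if_pos]
    · simp only [hx, dif_neg, not_false_iff, if_neg]
      unfold TorusBundle.Zb TorusBundle.Zr
      split_ifs <;> simp
  have hN : TorusBundle.ND (m := m) (fun i => TorusBundle.Zr m i.val) := by
    intro v hv
    refine TorusBundle.eq_zero_of_zeta fun k hk => ?_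
    rw [← TorusBundle.Zr_dot hk v]
    exact congrFun hv ⟨k, hk⟩
  have h := TorusBundle.det_of_ND hN
  rw [hS] at h
  exact (Matrix.isUnit_iff_isUnit_det _).2 (isUnit_iff_ne_zero.2 h)

private lemma row_dot {m : ℕ} (c : ℂ) (x : Fin (2 * m)) (u : Fin (2 * m) → ℂ) :
    ((c • (1 : Matrix (Fin (2 * m)) (Fin (2 * m)) ℂ)) x) ⬝ᵥ u = c * u x := by
  unfold dotProduct
  rw [Finset.sum_eq_single x]
  · rw [Matrix.smul_apply, Matrix.one_apply_eq, smul_eq_mul, mul_one]
  · intro k _ hk
    rw [Matrix.smul_apply, Matrix.one_apply_ne hk.symm, smul_zero, zero_mul]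
  · intro h; exact absurd (Finset.mem_univ x) h

/-- The constant family is nondegenerate (`nondegS`, `Wm_mulVec`, `TorusBundle.eq_zero_of_zeta`). -/
theorem ND_LX0 {m : ℕ} (hm : 2 ≤ m) {P Q S : ℂ} (h1 : P ≠ 0 ∨ Q ≠ 0) (h2 : S ≠ 0 ∨ Q ≠ 0) :
    TorusBundle.ND (LX m P Q (P • 1) (Q • 1) (S • 1) (Q • 1) (S • 1) * Wm m) := by
  intro v hv
  apply TorusBundle.eq_zero_of_zeta
  set u : Fin (2 * m) → ℂ := Wm m *ᵥ (fun k => (v k : ℂ)) with hu
  have hrow : ∀ i : Fin m,
      (LX m P Q (P • 1) (Q • 1) (S • 1) (Q • 1) (S • 1) i) ⬝ᵥ u = 0 := by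
    intro i
    have h := congrFun hv i
    rw [← Matrix.mulVec_mulVec, ← hu] at h
    exact h
  have hlo : ∀ (k : ℕ) (hk : k < m) (h' : k < 2 * m), u ⟨k, h'⟩ = TorusBundle.zeta m v k := by
    intro k hk h'
    rw [hu, Wm_mulVec, if_pos hk]
  have hhi : ∀ (k : ℕ) (hk : k < m) (h' : m + k < 2 * m),
      u ⟨m + k, h'⟩ = conj (TorusBundle.zeta m v k) := by
    intro k hk h'
    rw [hu, Wm_mulVec, if_neg (by simp)]
    simp
  refine nondegS hm h1 h2 (TorusBundle.zeta m v) ?_ ?_ ?_
  · have h := hrow ⟨0, by omega⟩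
    unfold LX at h
    rw [if_neg (by simp; omega), if_pos rfl, add_dotProduct, row_dot, row_dot] at h
    rw [hlo 0 (by omega)] at h
    have e : (⟨2 * m - 1, by omega⟩ : Fin (2 * m)) = ⟨m + (m - 1), by omega⟩ := by
      apply Fin.ext; simp; omega
    rw [e, hhi (m - 1) (by omega)] at h
    exact h
  · intro i hi1 hi2
    have h := hrow ⟨i, by omega⟩
    unfold LX at h
    rw [if_neg (by simp; omega), if_neg (by simp; omega), add_dotProduct, row_dot, row_dot] at h
    rw [hlo i (by omega), hlo (i - 1) (by omega)] at h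
    exact h
  · have h := hrow ⟨m - 1, by omega⟩
    unfold LX at h
    rw [if_pos rfl, add_dotProduct, smul_dotProduct, row_dot, hlo (m - 1) (by omega),
      sum_dotProduct] at h
    rw [Finset.sum_range]
    rw [← h]
    congr 1
    · rw [smul_eq_mul, ← mul_assoc, ← pow_succ]
      congr 2
      omega
    · refine Finset.sum_congr rfl fun j _ => ?_
      rw [smul_dotProduct, row_dot, hhi j.val (by have := j.isLt; omega), smul_eq_mul]
      ring

end Pool.Agent.SfBundle
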