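import Mathlib
import Pool.Agent.Lib.MP_1d980c_gt.Sf.NDb

set_option autoImplicit false
open scoped UpperHalfPlane MatrixGroups Manifold ContDiff Matrix Topology
open Complex ComplexConjugate Pool.Agent.HypBundle

namespace Pool.Agent.SfBundle

private lemma NDc_LX_apply (m : ℕ) (P Q : ℂ) (Ea Eb Ed Fb Fd : Matrix (Fin (2 * m)) (Fin (2 * m)) ℂ)
    (i : Fin m) (x : Fin (2 * m)) :
    LX m P Q Ea Eb Ed Fb Fd i x = if i.val = m - 1 then
      Q ^ (m - 2) * Fb ⟨m - 1, by have := i.isLt; omega⟩ x +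
        ∑ j : Fin (m - 1), ((-1) ^ (j.val + 1) * P ^ j.val * Q ^ (m - 2 - j.val)) *
          Fd ⟨m + j.val, by have := j.isLt; omega⟩ x
    else Eb ⟨i.val, by have := i.isLt; omega⟩ x +
      (if i.val = 0 then Ed ⟨2 * m - 1, by have := i.isLt; omega⟩ x
        else Ea ⟨i.val - 1, by have := i.isLt; omega⟩ x) := by
  unfold LX
  split_ifs with h1 h2
  · rw [Pi.add_apply, Finset.sum_apply]
    rfl
  · rfl
  · rfl

private lemma NDc_cont {Z : Type} [TopologicalSpace Z] (m : ℕ) (p q : Z → ℂ)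
    (A B D F G : Z → Matrix (Fin (2 * m)) (Fin (2 * m)) ℂ) (hp : Continuous p) (hq : Continuous q)
    (hA : ∀ i j, Continuous fun z => A z i j) (hB : ∀ i j, Continuous fun z => B z i j)
    (hD : ∀ i j, Continuous fun z => D z i j) (hF : ∀ i j, Continuous fun z => F z i j)
    (hG : ∀ i j, Continuous fun z => G z i j) :
    Continuous fun z => (TorusBundle.Sf (LX m (p z) (q z) (A z) (B z) (D z) (F z) (G z) *
      Wm m)).det := by
  have hent0 : ∀ (i : Fin m) (x : Fin (2 * m)), Continuous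
      (fun z : Z => LX m (p z) (q z) (A z) (B z) (D z) (F z) (G z) i x) := by
    intro i x
    simp only [NDc_LX_apply]
    split_ifs with h1 h2
    · exact ((hq.pow _).mul (hF _ _)).add (continuous_finset_sum _ fun j _ =>
        ((continuous_const.mul (hp.pow _)).mul (hq.pow _)).mul (hG _ _))
    · exact (hB _ _).add (hD _ _)
    · exact (hB _ _).add (hA _ _)
  have hent : ∀ (i : Fin m) (x : Fin (2 * m)), Continuous
      (fun z : Z => (LX m (p z) (q z) (A z) (B z) (D z) (F z) (G z) * Wm m) i x) := by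
    intro i x
    simp only [Matrix.mul_apply]
    exact continuous_finset_sum _ fun k _ => (hent0 i k).mul continuous_const
  refine Continuous.matrix_det (continuous_matrix fun x y => ?_)
  unfold TorusBundle.Sf
  by_cases hx : x.val < m
  · simp only [hx, dif_pos]
    exact hent ⟨x.val, hx⟩ y
  · simp only [hx, dif_neg, not_false_iff]
    exact Complex.continuous_conj.comp (hent ⟨x.val - m, by omega⟩ y)

/-- `det (Sf (LX ... * Wm m))` is continuous in all entries (compare `continuous_det_LB`). -/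
lemma continuous_det_LX (m : ℕ) :
    Continuous (fun z : (ℂ × ℂ) × (Fin 5 → Fin (2 * m) → Fin (2 * m) → ℂ) =>
      (TorusBundle.Sf (LX m z.1.1 z.1.2 (z.2 0) (z.2 1) (z.2 2) (z.2 3) (z.2 4) * Wm m)).det) := by
  have h : ∀ (e : Fin 5) (i j : Fin (2 * m)), Continuous
      (fun z : (ℂ × ℂ) × (Fin 5 → Fin (2 * m) → Fin (2 * m) → ℂ) => z.2 e i j) := by
    intro e i j
    fun_prop
  exact NDc_cont m (fun z : (ℂ × ℂ) × (Fin 5 → Fin (2 * m) → Fin (2 * m) → ℂ) => z.1.1)
    (fun z => z.1.2) (fun z => z.2 0) (fun z => z.2 1) (fun z => z.2 2) (fun z => z.2 3)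
    (fun z => z.2 4) (continuous_fst.comp continuous_fst) (continuous_snd.comp continuous_fst)
    (h 0) (h 1) (h 2) (h 3) (h 4)

/-- Perturbation of `ND_LX0` by compactness, see the proof of `ND_LB` (`Hyp/NDLB.lean`). Only some
rows of the matrices enter in `LX` (first replace the others by those of `P • 1`, ...). -/
theorem ND_LX {m : ℕ} (hm : 2 ≤ m) {c C : ℝ} (hc : 0 < c) :
    ∃ ε : ℝ, 0 < ε ∧ ∀ (P Q S : ℂ) (Ea Eb Ed Fb Fd : Matrix (Fin (2 * m)) (Fin (2 * m)) ℂ),
      c ≤ max ‖P‖ ‖Q‖ → c ≤ max ‖S‖ ‖Q‖ → ‖P‖ ≤ C → ‖Q‖ ≤ C → ‖S‖ ≤ C →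
      (∀ i j, i.val < m - 1 → ‖Ea i j - P * (1 : Matrix (Fin (2 * m)) (Fin (2 * m)) ℂ) i j‖ ≤ ε) →
      (∀ i j, i.val < m - 1 → ‖Eb i j - Q * (1 : Matrix (Fin (2 * m)) (Fin (2 * m)) ℂ) i j‖ ≤ ε) →
      (∀ i j, i.val = 2 * m - 1 →
        ‖Ed i j - S * (1 : Matrix (Fin (2 * m)) (Fin (2 * m)) ℂ) i j‖ ≤ ε) →
      (∀ i j, i.val = m - 1 →
        ‖Fb i j - Q * (1 : Matrix (Fin (2 * m)) (Fin (2 * m)) ℂ) i j‖ ≤ ε) →
      (∀ i j, m ≤ i.val → i.val < 2 * m - 1 →
        ‖Fd i j - S * (1 : Matrix (Fin (2 * m)) (Fin (2 * m)) ℂ) i j‖ ≤ ε) →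
      TorusBundle.ND (LX m P Q Ea Eb Ed Fb Fd * Wm m) := by
  set K : Set (ℂ × ℂ × ℂ) := {z | (c ≤ max ‖z.1‖ ‖z.2.1‖ ∧ c ≤ max ‖z.2.2‖ ‖z.2.1‖) ∧
    ‖z.1‖ ≤ C ∧ ‖z.2.1‖ ≤ C ∧ ‖z.2.2‖ ≤ C} with hK
  have hKc : IsCompact K := by
    have hsub : K ⊆ Metric.closedBall (0 : ℂ) C ×ˢ (Metric.closedBall (0 : ℂ) C ×ˢ
        Metric.closedBall (0 : ℂ) C) := by
      rintro ⟨a, b, d⟩ ⟨-, h1, h2, h3⟩
      exact ⟨mem_closedBall_zero_iff.2 h1, mem_closedBall_zero_iff.2 h2,
        mem_closedBall_zero_iff.2 h3⟩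
    refine IsCompact.of_isClosed_subset
      ((isCompact_closedBall (0 : ℂ) C).prod
        ((isCompact_closedBall (0 : ℂ) C).prod (isCompact_closedBall (0 : ℂ) C))) ?_ hsub
    have hn1 : Continuous fun z : ℂ × ℂ × ℂ => ‖z.1‖ := continuous_fst.norm
    have hn2 : Continuous fun z : ℂ × ℂ × ℂ => ‖z.2.1‖ := (continuous_fst.comp continuous_snd).norm
    have hn3 : Continuous fun z : ℂ × ℂ × ℂ => ‖z.2.2‖ := (continuous_snd.comp continuous_snd).norm
    exact ((isClosed_le continuous_const (hn1.max hn2)).inter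
      (isClosed_le continuous_const (hn3.max hn2))).inter
      ((isClosed_le hn1 continuous_const).inter ((isClosed_le hn2 continuous_const).inter
        (isClosed_le hn3 continuous_const)))
  obtain ⟨q, hq0, hq1, hq2, hq3, hq4, hqc⟩ : ∃ q : ℂ × ℂ × ℂ → Fin 5 → ℂ,
      (∀ z, q z 0 = z.1) ∧ (∀ z, q z 1 = z.2.1) ∧ (∀ z, q z 2 = z.2.2) ∧ (∀ z, q z 3 = z.2.1) ∧
      (∀ z, q z 4 = z.2.2) ∧ ∀ e, Continuous fun z => q z e := by
    refine ⟨fun z => ![z.1, z.2.1, z.2.2, z.2.1, z.2.2], fun _ => rfl, fun _ => rfl,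
      fun _ => rfl, fun _ => rfl, fun _ => rfl, fun e => ?_⟩
    fin_cases e
    · exact continuous_fst
    · exact continuous_fst.comp continuous_snd
    · exact continuous_snd.comp continuous_snd
    · exact continuous_fst.comp continuous_snd
    · exact continuous_snd.comp continuous_snd
  obtain ⟨Y, hY⟩ : ∃ Y : (Fin 5 → Fin (2 * m) → Fin (2 * m) → ℂ) × (ℂ × ℂ × ℂ) → Fin 5 →
      Fin (2 * m) → Fin (2 * m) → ℂ, ∀ y e i j, Y y e i j =
        q y.2 e * (1 : Matrix (Fin (2 * m)) (Fin (2 * m)) ℂ) i j + y.1 e i j :=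
    ⟨_, fun _ _ _ _ => rfl⟩
  have hYc : ∀ e i j, Continuous (fun y => Y y e i j) := by
    intro e i j
    simp only [hY]
    exact (((hqc e).comp continuous_snd).mul continuous_const).add (by fun_prop)
  have hcont : Continuous (fun y : (Fin 5 → Fin (2 * m) → Fin (2 * m) → ℂ) × (ℂ × ℂ × ℂ) =>
      (TorusBundle.Sf (LX m y.2.1 y.2.2.1 (Y y 0) (Y y 1) (Y y 2) (Y y 3) (Y y 4)
          * Wm m)).det) :=
    NDc_cont m (fun y : (Fin 5 → Fin (2 * m) → Fin (2 * m) → ℂ) × (ℂ × ℂ × ℂ) => y.2.1)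
      (fun y => y.2.2.1) (fun y => Y y 0) (fun y => Y y 1) (fun y => Y y 2) (fun y => Y y 3)
      (fun y => Y y 4) (continuous_fst.comp continuous_snd)
      (continuous_fst.comp (continuous_snd.comp continuous_snd))
      (hYc 0) (hYc 1) (hYc 2) (hYc 3) (hYc 4)
  have hev := hKc.eventually_forall_of_forall_eventually
    (x₀ := (0 : Fin 5 → Fin (2 * m) → Fin (2 * m) → ℂ))
    (P := fun X z => (TorusBundle.Sf (LX m z.1 z.2.1 (Y (X, z) 0) (Y (X, z) 1) (Y (X, z) 2)
      (Y (X, z) 3) (Y (X, z) 4) * Wm m)).det ≠ 0)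
    (fun z hz => by
      refine hcont.continuousAt.eventually_ne ?_
      apply TorusBundle.det_of_ND
      have hz0 : z.1 ≠ 0 ∨ z.2.1 ≠ 0 := by
        by_contra hcon
        push Not at hcon
        have := hz.1.1
        rw [hcon.1, hcon.2] at this
        simp at this
        linarith
      have hz1 : z.2.2 ≠ 0 ∨ z.2.1 ≠ 0 := by
        by_contra hcon
        push Not at hcon
        have := hz.1.2
        rw [hcon.1, hcon.2] at this
        simp at this
        linarith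
      have hnd := ND_LX0 hm hz0 hz1
      have e : ∀ k : Fin 5, Y ((0 : Fin 5 → Fin (2 * m) → Fin (2 * m) → ℂ), z) k =
          (q z k • (1 : Matrix (Fin (2 * m)) (Fin (2 * m)) ℂ)) := by
        intro k
        funext i j
        rw [hY, Matrix.smul_apply, smul_eq_mul]
        simp only [Pi.zero_apply, add_zero]
      show TorusBundle.ND (LX m z.1 z.2.1 (Y (0, z) 0) (Y (0, z) 1) (Y (0, z) 2)
        (Y (0, z) 3) (Y (0, z) 4) * Wm m)
      rw [e 0, e 1, e 2, e 3, e 4, hq0, hq1, hq2, hq3, hq4]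
      exact hnd)
  rw [Metric.eventually_nhds_iff] at hev
  obtain ⟨ε, hε, hεP⟩ := hev
  refine ⟨ε / 2, by positivity, fun P Q S Ea Eb Ed Fb Fd h1 h1' h2 h3 h3' ha hb hd hfb hfd => ?_⟩
  apply TorusBundle.ND_of_det
  obtain ⟨X, x0, x1, x2, x3, x4⟩ : ∃ X : Fin 5 → Fin (2 * m) → Fin (2 * m) → ℂ,
      (∀ i j, X 0 i j = if i.val < m - 1 then
        Ea i j - P * (1 : Matrix (Fin (2 * m)) (Fin (2 * m)) ℂ) i j else 0) ∧
      (∀ i j, X 1 i j = if i.val < m - 1 then
        Eb i j - Q * (1 : Matrix (Fin (2 * m)) (Fin (2 * m)) ℂ) i j else 0) ∧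
      (∀ i j, X 2 i j = if i.val = 2 * m - 1 then
        Ed i j - S * (1 : Matrix (Fin (2 * m)) (Fin (2 * m)) ℂ) i j else 0) ∧
      (∀ i j, X 3 i j = if i.val = m - 1 then
        Fb i j - Q * (1 : Matrix (Fin (2 * m)) (Fin (2 * m)) ℂ) i j else 0) ∧
      (∀ i j, X 4 i j = if m ≤ i.val ∧ i.val < 2 * m - 1 then
        Fd i j - S * (1 : Matrix (Fin (2 * m)) (Fin (2 * m)) ℂ) i j else 0) :=
    ⟨![fun i j => if i.val < m - 1 then
        Ea i j - P * (1 : Matrix (Fin (2 * m)) (Fin (2 * m)) ℂ) i j else 0,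
      fun i j => if i.val < m - 1 then
        Eb i j - Q * (1 : Matrix (Fin (2 * m)) (Fin (2 * m)) ℂ) i j else 0,
      fun i j => if i.val = 2 * m - 1 then
        Ed i j - S * (1 : Matrix (Fin (2 * m)) (Fin (2 * m)) ℂ) i j else 0,
      fun i j => if i.val = m - 1 then
        Fb i j - Q * (1 : Matrix (Fin (2 * m)) (Fin (2 * m)) ℂ) i j else 0,
      fun i j => if m ≤ i.val ∧ i.val < 2 * m - 1 then
        Fd i j - S * (1 : Matrix (Fin (2 * m)) (Fin (2 * m)) ℂ) i j else 0],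
      fun _ _ => rfl, fun _ _ => rfl, fun _ _ => rfl, fun _ _ => rfl, fun _ _ => rfl⟩
  have hdist : dist X 0 < ε := by
    rw [dist_pi_lt_iff hε]
    intro e
    rw [dist_pi_lt_iff hε]
    intro i
    rw [dist_pi_lt_iff hε]
    intro j
    rw [dist_eq_norm]
    have key : ‖X e i j‖ < ε := by
      have hcase : e = 0 ∨ e = 1 ∨ e = 2 ∨ e = 3 ∨ e = 4 := by
        fin_cases e <;> simp
      rcases hcase with he | he | he | he | he
      · rw [he, x0]
        split_ifs with hi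
        · have := ha i j hi; linarith
        · rw [norm_zero]; exact hε
      · rw [he, x1]
        split_ifs with hi
        · have := hb i j hi; linarith
        · rw [norm_zero]; exact hε
      · rw [he, x2]
        split_ifs with hi
        · have := hd i j hi; linarith
        · rw [norm_zero]; exact hε
      · rw [he, x3]
        split_ifs with hi
        · have := hfb i j hi; linarith
        · rw [norm_zero]; exact hε
      · rw [he, x4]
        split_ifs with hi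
        · have := hfd i j hi.1 hi.2; linarith
        · rw [norm_zero]; exact hε
    simpa using key
  have hfin := hεP hdist (P, Q, S) ⟨⟨h1, h1'⟩, h2, h3, h3'⟩
  have hLX : LX m P Q Ea Eb Ed Fb Fd = LX m P Q (Y (X, (P, Q, S)) 0) (Y (X, (P, Q, S)) 1)
      (Y (X, (P, Q, S)) 2) (Y (X, (P, Q, S)) 3) (Y (X, (P, Q, S)) 4) := by
    funext i x
    rw [NDc_LX_apply, NDc_LX_apply]
    have hi := i.isLt
    by_cases h5 : i.val = m - 1
    · rw [if_pos h5, if_pos h5]
      congr 1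
      · have e3 : X 3 ⟨m - 1, by omega⟩ x = Fb ⟨m - 1, by omega⟩ x -
            Q * (1 : Matrix (Fin (2 * m)) (Fin (2 * m)) ℂ) ⟨m - 1, by omega⟩ x :=
          (x3 _ _).trans (if_pos rfl)
        rw [hY, hq3]
        dsimp only
        rw [e3]
        ring
      · refine Finset.sum_congr rfl fun j _ => ?_
        have hj := j.isLt
        have e4 : X 4 ⟨m + j.val, by omega⟩ x = Fd ⟨m + j.val, by omega⟩ x -
            S * (1 : Matrix (Fin (2 * m)) (Fin (2 * m)) ℂ) ⟨m + j.val, by omega⟩ x :=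
          (x4 _ _).trans (if_pos ⟨Nat.le_add_right _ _, by
            show m + j.val < 2 * m - 1; omega⟩)
        rw [hY, hq4]
        dsimp only
        rw [e4]
        ring
    · rw [if_neg h5, if_neg h5]
      congr 1
      · have e1 : X 1 ⟨i.val, by omega⟩ x = Eb ⟨i.val, by omega⟩ x -
            Q * (1 : Matrix (Fin (2 * m)) (Fin (2 * m)) ℂ) ⟨i.val, by omega⟩ x :=
          (x1 _ _).trans (if_pos (by show i.val < m - 1; omega))
        rw [hY, hq1]
        dsimp only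
        rw [e1]
        ring
      · by_cases h6 : i.val = 0
        · have e2 : X 2 ⟨2 * m - 1, by omega⟩ x = Ed ⟨2 * m - 1, by omega⟩ x -
              S * (1 : Matrix (Fin (2 * m)) (Fin (2 * m)) ℂ) ⟨2 * m - 1, by omega⟩ x :=
            (x2 _ _).trans (if_pos rfl)
          rw [if_pos h6, if_pos h6, hY, hq2]
          dsimp only
          rw [e2]
          ring
        · have e0 : X 0 ⟨i.val - 1, by omega⟩ x = Ea ⟨i.val - 1, by omega⟩ x -
              P * (1 : Matrix (Fin (2 * m)) (Fin (2 * m)) ℂ) ⟨i.val - 1, by omega⟩ x :=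
            (x0 _ _).trans (if_pos (by show i.val - 1 < m - 1; omega))
          rw [if_neg h6, if_neg h6, hY, hq0]
          dsimp only
          rw [e0]
          ring
  rw [hLX]
  exact hfin

end Pool.Agent.SfBundle
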