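import Mathlib
import Pool.Agent.Lib.MP_1d980c_gt.Sf.Defs

set_option autoImplicit false
open scoped UpperHalfPlane MatrixGroups Manifold ContDiff Matrix Topology
open Complex ComplexConjugate Pool.Agent.HypBundle

namespace Pool.Agent.SfBundle

private lemma LX_last {m : ℕ} (P Q : ℂ) (Ea Eb Ed Fb Fd : Matrix (Fin (2 * m)) (Fin (2 * m)) ℂ)
    (i : Fin m) (hi : i.val = m - 1) (j : Fin (2 * m)) :
    LX m P Q Ea Eb Ed Fb Fd i j =
      Q ^ (m - 2) * Fb ⟨m - 1, by have := i.isLt; omega⟩ j +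
        ∑ c : Fin (m - 1), ((-1) ^ (c.val + 1) * P ^ c.val * Q ^ (m - 2 - c.val)) *
          Fd ⟨m + c.val, by have := c.isLt; omega⟩ j := by
  unfold LX
  rw [if_pos hi]
  have e := Finset.sum_apply j (Finset.univ : Finset (Fin (m - 1)))
    (fun c : Fin (m - 1) => ((-1) ^ (c.val + 1) * P ^ c.val * Q ^ (m - 2 - c.val)) •
      (Fd ⟨m + c.val, by have := c.isLt; omega⟩ : Fin (2 * m) → ℂ))
  exact congrArg (fun x => Q ^ (m - 2) * Fb ⟨m - 1, by have := i.isLt; omega⟩ j + x) e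

private lemma LX_zero {m : ℕ} (P Q : ℂ) (Ea Eb Ed Fb Fd : Matrix (Fin (2 * m)) (Fin (2 * m)) ℂ)
    (i : Fin m) (hi : i.val ≠ m - 1) (h0 : i.val = 0) (j : Fin (2 * m)) :
    LX m P Q Ea Eb Ed Fb Fd i j =
      Eb ⟨i.val, by have := i.isLt; omega⟩ j + Ed ⟨2 * m - 1, by have := i.isLt; omega⟩ j := by
  unfold LX
  rw [if_neg hi, if_pos h0]
  rfl

private lemma LX_mid {m : ℕ} (P Q : ℂ) (Ea Eb Ed Fb Fd : Matrix (Fin (2 * m)) (Fin (2 * m)) ℂ)
    (i : Fin m) (hi : i.val ≠ m - 1) (h0 : i.val ≠ 0) (j : Fin (2 * m)) :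
    LX m P Q Ea Eb Ed Fb Fd i j =
      Eb ⟨i.val, by have := i.isLt; omega⟩ j + Ea ⟨i.val - 1, by have := i.isLt; omega⟩ j := by
  unfold LX
  rw [if_neg hi, if_neg h0]
  rfl

/-- scaling -/
theorem LX_smul_mul {m : ℕ} (hm : 2 ≤ m) (h f P Q : ℂ)
    (Ea Eb Ed Fb Fd X : Matrix (Fin (2 * m)) (Fin (2 * m)) ℂ) :
    LX m (h * P) (h * Q) (h • (Ea * X)) (h • (Eb * X)) (h • (Ed * X)) ((h * f) • (Fb * X))
      ((h * f) • (Fd * X)) =
    Matrix.diagonal (fun i : Fin m => if i.val = m - 1 then h ^ (m - 1) * f else h) *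
      (LX m P Q Ea Eb Ed Fb Fd * X) := by
  ext i j
  rw [Matrix.diagonal_mul, Matrix.mul_apply]
  by_cases hi : i.val = m - 1
  · rw [LX_last _ _ _ _ _ _ _ i hi j, if_pos hi]
    simp only [LX_last P Q Ea Eb Ed Fb Fd i hi, Matrix.smul_apply, Matrix.mul_apply, smul_eq_mul]
    simp only [add_mul, Finset.sum_mul, Finset.sum_add_distrib]
    rw [mul_add]
    congr 1
    · rw [Finset.mul_sum, Finset.mul_sum, Finset.mul_sum]
      refine Finset.sum_congr rfl fun x _ => ?_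
      have e : h ^ (m - 1) = h ^ (m - 2) * h := by
        rw [← pow_succ]
        congr 1
        omega
      rw [mul_pow, e]
      ring
    · rw [Finset.sum_comm, Finset.mul_sum]
      refine Finset.sum_congr rfl fun c _ => ?_
      rw [Finset.mul_sum, Finset.mul_sum, Finset.mul_sum]
      refine Finset.sum_congr rfl fun x _ => ?_
      have hh : h ^ (m - 1) = h ^ c.val * h ^ (m - 2 - c.val) * h := by
        rw [← pow_add, ← pow_succ]
        congr 1
        have := c.isLt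
        omega
      rw [mul_pow, mul_pow, hh]
      ring
  · rw [if_neg hi]
    by_cases h0 : i.val = 0
    · rw [LX_zero _ _ _ _ _ _ _ i hi h0 j]
      simp only [LX_zero P Q Ea Eb Ed Fb Fd i hi h0, Matrix.smul_apply, Matrix.mul_apply,
        smul_eq_mul]
      rw [← mul_add, ← Finset.sum_add_distrib]
      congr 1
      refine Finset.sum_congr rfl fun x _ => ?_
      ring
    · rw [LX_mid _ _ _ _ _ _ _ i hi h0 j]
      simp only [LX_mid P Q Ea Eb Ed Fb Fd i hi h0, Matrix.smul_apply, Matrix.mul_apply,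
        smul_eq_mul]
      rw [← mul_add, ← Finset.sum_add_distrib]
      congr 1
      refine Finset.sum_congr rfl fun x _ => ?_
      ring

lemma LX_diff {m : ℕ} {P Q : ℂ → ℂ} {Ea Eb Ed Fb Fd : ℂ → Matrix (Fin (2 * m)) (Fin (2 * m)) ℂ}
    (hP : DifferentiableOn ℂ P HH) (hQ : DifferentiableOn ℂ Q HH)
    (ha : ∀ i j, DifferentiableOn ℂ (fun w => Ea w i j) HH)
    (hb : ∀ i j, DifferentiableOn ℂ (fun w => Eb w i j) HH)
    (hd : ∀ i j, DifferentiableOn ℂ (fun w => Ed w i j) HH)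
    (hb' : ∀ i j, DifferentiableOn ℂ (fun w => Fb w i j) HH)
    (hd' : ∀ i j, DifferentiableOn ℂ (fun w => Fd w i j) HH) (i : Fin m) (j : Fin (2 * m)) :
    DifferentiableOn ℂ (fun w => LX m (P w) (Q w) (Ea w) (Eb w) (Ed w) (Fb w) (Fd w) i j) HH := by
  by_cases hi : i.val = m - 1
  · simp only [LX_last _ _ _ _ _ _ _ i hi j]
    refine ((hQ.pow _).mul (hb' _ _)).add ?_
    refine DifferentiableOn.fun_sum fun c _ => ?_
    exact (((differentiableOn_const _).mul (hP.pow _)).mul (hQ.pow _)).mul (hd' _ _)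
  · by_cases h0 : i.val = 0
    · simp only [LX_zero _ _ _ _ _ _ _ i hi h0 j]
      exact (hb _ _).add (hd _ _)
    · simp only [LX_mid _ _ _ _ _ _ _ i hi h0 j]
      exact (hb _ _).add (ha _ _)

end Pool.Agent.SfBundle
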