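import Mathlib
import Pool.Agent.Lib.MP_1d980c_gt.Sf.Defs
import Pool.Agent.Lib.MP_1d980c_gt.Hyp.Net

set_option autoImplicit false
open scoped UpperHalfPlane MatrixGroups Manifold ContDiff Matrix Topology
open Complex ComplexConjugate Pool.Agent.HypBundle

namespace Pool.Agent.SfBundle

/-- `exists_net` (`Hyp/Net.lean`) with the additional information that the net can be chosen in the
compact set `K`. Either copy the proof of `exists_net`, or use `exists_net` and replace every
`o ∈ O` by `g(o) • o ∈ K` (distinct points of `O` have distinct orbits by `sep`). -/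
theorem exists_netK (Γ : Subgroup SL(2, ℝ)) [DiscreteTopology Γ] {K : Set ℍ} (hK : IsCompact K)
    (hKc : ∀ w : ℍ, ∃ γ : Γ, γ • w ∈ K) {ι₀ r : ℝ}
    (hι : ∀ γ : Γ, γ ≠ 1 → ∀ w : ℍ, ι₀ ≤ dist w (γ • w)) (hr : 0 < r) (hrι : r ≤ ι₀) :
    ∃ O : Finset ℍ, IsNet Γ r O ∧ ∀ o ∈ O, o ∈ K := by
  classical
  have hcov := hKc
  have hr' := hrι
  let P : Finset ℍ → Prop := fun O => (∀ o ∈ O, o ∈ K) ∧
    ∀ o ∈ O, ∀ o' ∈ O, o ≠ o' → ∀ γ : Γ, r ≤ dist o (γ • o')
  let A : Set ℕ := {k | ∃ O : Finset ℍ, P O ∧ O.card = k}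
  have hAne : A.Nonempty := ⟨0, ∅, ⟨by simp, by simp⟩, rfl⟩
  obtain ⟨t, ht, htK⟩ := Metric.totallyBounded_iff.1 hK.totallyBounded (r / 2) (by positivity)
  have hAb : BddAbove A := by
    refine ⟨ht.toFinset.card, ?_⟩
    rintro k ⟨O, hO, rfl⟩
    have hf : ∀ o ∈ O, ∃ y ∈ t, o ∈ Metric.ball y (r / 2) := by
      intro o ho
      have := htK (hO.1 o ho)
      simpa using this
    choose! f hf1 hf2 using hf
    apply Finset.card_le_card_of_injOn f
    · intro o ho
      simpa using hf1 o ho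
    · intro o ho o' ho' hoo
      by_contra hne
      have h1 := hO.2 o ho o' ho' hne 1
      rw [one_smul] at h1
      have h2 := Metric.mem_ball.1 (hf2 o ho)
      have h3 := Metric.mem_ball.1 (hf2 o' ho')
      rw [← hoo] at h3
      have := dist_triangle_right o o' (f o)
      linarith
  obtain ⟨O, hO, hcard⟩ := Nat.sSup_mem hAne hAb
  have hsm : ∀ (γ : Γ) (x y : ℍ), dist (γ • x) (γ • y) = dist x y := fun γ x y =>
    dist_smul (γ : SL(2, ℝ)) x y
  refine ⟨O, ⟨?_, ?_⟩, hO.1⟩
  · intro o ho o' ho' γ h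
    by_cases hoo : o = o'
    · subst hoo
      have hγ : γ ≠ 1 := by
        rcases h with h | h
        · exact absurd rfl h
        · exact h
      exact hr'.trans (hι γ hγ o)
    · exact hO.2 o ho o' ho' hoo γ
  · intro w
    obtain ⟨γ₀, hγ₀⟩ := hcov w
    by_cases hmem : γ₀ • w ∈ O
    · exact ⟨_, hmem, γ₀, by rw [dist_self]; exact hr.le⟩
    · have hnP : ¬ P (insert (γ₀ • w) O) := by
        intro hP
        have h1 : (insert (γ₀ • w) O).card ∈ A := ⟨_, hP, rfl⟩
        have h2 := le_csSup hAb h1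
        rw [Finset.card_insert_of_notMem hmem, ← hcard] at h2
        omega
      have hK2 : ∀ o ∈ insert (γ₀ • w) O, o ∈ K := by
        intro o ho
        rcases Finset.mem_insert.1 ho with rfl | ho
        · exact hγ₀
        · exact hO.1 o ho
      have hex : ∃ o ∈ insert (γ₀ • w) O, ∃ o' ∈ insert (γ₀ • w) O, o ≠ o' ∧
          ∃ γ : Γ, dist o (γ • o') < r := by
        by_contra hcon
        push Not at hcon
        exact hnP ⟨hK2, fun o ho o' ho' hne γ => hcon o ho o' ho' hne γ⟩
      obtain ⟨o, ho, o', ho', hne, γ, hlt⟩ := hex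
      rcases Finset.mem_insert.1 ho with h1 | h1
      · rcases Finset.mem_insert.1 ho' with h2 | h2
        · exact absurd (h1.trans h2.symm) hne
        · refine ⟨o', h2, γ⁻¹ * γ₀, ?_⟩
          rw [mul_smul, ← h1, ← hsm γ, smul_inv_smul, dist_comm]
          exact hlt.le
      · rcases Finset.mem_insert.1 ho' with h2 | h2
        · refine ⟨o, h1, γ * γ₀, ?_⟩
          rw [mul_smul, ← h2]
          exact hlt.le
        · exact absurd hlt (not_lt.2 (hO.2 o h1 o' h2 hne γ))

end Pool.Agent.SfBundle
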