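import Mathlib
import Pool.Agent.Lib.MP_1d980c_gt.Sf.PTb

/-! Twisted versions of the lemmas of `Hyp/Pencil.lean`. -/

set_option autoImplicit false
open scoped UpperHalfPlane MatrixGroups Manifold ContDiff Matrix Topology
open Complex ComplexConjugate Pool.Agent.HypBundle

namespace Pool.Agent.SfBundle

/-- the normalised twisted series near `o` (twisted `FF`) -/
noncomputable def FT {Γ : Subgroup SL(2, ℝ)} (T : Tw Γ) (N : ℕ) (O : Finset ℍ) (a : ℍ → ℂ) (o : ℍ)
    (z : ℂ) : ℂ :=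
  (T.τ o : ℂ) * PT T N O (fun o' _ => a o') z / ph N o 1 z

/-- the normalised truncated twisted series (twisted `GG`) -/
noncomputable def GT {Γ : Subgroup SL(2, ℝ)} (T : Tw Γ) (N : ℕ) (O : Finset ℍ) (R : ℝ) (a : ℍ → ℂ)
    (o : ℍ) (z : ℂ) : ℂ :=
  (T.τ o : ℂ) * PT T N O (trc Γ R o a) z / ph N o 1 z

variable {Γ : Subgroup SL(2, ℝ)} {N : ℕ} {O : Finset ℍ} {R : ℝ} (T : Tw Γ)

/-- compare `pen_dep` -/
lemma PT_dep {o : ℍ} {a b : ℍ → ℂ} (h : ∀ o' ∈ nbs Γ R O o, a o' = b o') (t : ℂ) :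
    PT T N O (trc Γ R o a) t = PT T N O (trc Γ R o b) t := by
  unfold PT PS kA
  refine Finset.sum_congr rfl fun o' ho' => ?_
  congr 1
  funext γ
  unfold trc
  split_ifs with h1
  · rw [h o' (mem_nbs.2 ⟨ho', γ, h1⟩)]
  · rfl

open scoped Classical in
/-- compare `pen_upd`, `pen_GG`; the only term containing `a o` is the one with `o' = o`, `γ = 1`,
where `κ(1,t) = 1`. -/
lemma GT_upd {o : ℍ} (ho : o ∈ O) {ι₀ : ℝ} (hι : ∀ γ : Γ, γ ≠ 1 → ∀ w : ℍ, ι₀ ≤ dist w (γ • w))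
    (hR : R < ι₀) (hR0 : 0 ≤ R) (a : ℍ → ℂ) (x : ℂ) {t : ℂ} (ht : t ∈ HH) :
    GT T N O R (Function.update a o x) o t = x + GT T N O R (Function.update a o 0) o t := by
  have hκ : T.κ 1 t = 1 := T.h1 ⟨t, ht⟩
  have hτ : (T.τ o : ℂ) ≠ 0 := by
    have := (T.hτ o).ne'
    exact_mod_cast this
  have hph : ph N o 1 t ≠ 0 := ph_ne N ht
  have main : PT T N O (trc Γ R o (Function.update a o x)) t =
      ph N o 1 t * (x / (T.τ o : ℂ)) + PT T N O (trc Γ R o (Function.update a o 0)) t := by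
    unfold PT PS
    rw [← Finset.add_sum_erase O _ ho, ← Finset.add_sum_erase O _ ho, ← add_assoc]
    have key : ∀ y : ℂ, (∑' γ : Γ, ph N o (γ : SL(2, ℝ)) t *
        kA T (trc Γ R o (Function.update a o y)) t o γ) = ph N o 1 t * (y / (T.τ o : ℂ)) := by
      intro y
      rw [tsum_eq_single (1 : Γ)]
      · unfold kA trc
        rw [one_smul, dist_self, if_pos hR0, Function.update_self, Subgroup.coe_one, hκ, mul_one]
      · intro γ hγ
        unfold kA trc
        rw [if_neg, zero_mul, zero_div, mul_zero]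
        have := hι γ hγ o
        linarith
    rw [key, key, zero_div, mul_zero, add_zero]
    congr 1
    refine Finset.sum_congr rfl fun o' ho' => ?_
    have hne : o' ≠ o := (Finset.mem_erase.1 ho').1
    congr 1
    funext γ
    unfold kA trc
    rw [Function.update_of_ne hne, Function.update_of_ne hne]
  unfold GT
  rw [main]
  field_simp

/-- compare `pen_aut`: invariance of the normalised modulus. By `PT_smul`, `pen_im` and
`‖κ(δ,w)‖ = τ(δw)/τ(w)`. -/
lemma PT_aut (a : ℍ → ℂ) (δ : Γ) (w : ℍ) :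
    ‖PT T N O (fun o _ => a o) ((δ • w : ℍ) : ℂ)‖ * Real.sqrt (δ • w).im ^ N * T.τ (δ • w) =
      ‖PT T N O (fun o _ => a o) w‖ * Real.sqrt w.im ^ N * T.τ w := by
  rw [PT_smul, norm_mul, norm_mul, norm_pow, norm_inv, T.hn]
  have hj : ‖jf (δ : SL(2, ℝ)) w‖ * Real.sqrt (δ • w).im = Real.sqrt w.im := pen_im _ w
  have h1 := (T.hτ w).ne'
  have h2 := (T.hτ (δ • w)).ne'
  rw [← hj, mul_pow]
  field_simp

end Pool.Agent.SfBundle
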