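import Mathlib
import Pool.Agent.Lib.MP_1d980c_gt.Sf.PenA
import Pool.Agent.Lib.MP_1d980c_gt.Sf.PTd

set_option autoImplicit false
open scoped UpperHalfPlane MatrixGroups Manifold ContDiff Matrix Topology
open Complex ComplexConjugate Pool.Agent.HypBundle

namespace Pool.Agent.SfBundle

variable {Γ : Subgroup SL(2, ℝ)} {N : ℕ} {O : Finset ℍ} {R : ℝ} (T : Tw Γ)

/-- compare `pen_diff`; `differentiableOn_PT` -/
lemma FT_diff (hN : 256 ≤ N) (hO : IsNet Γ (1 / Real.sqrt N) O) {a : ℍ → ℂ}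
    (ha : ∀ o, ‖a o‖ ≤ 2) (hC4 : 4 * T.C ≤ Real.sqrt N) (o : ℍ) :
    DifferentiableOn ℂ (FT T N O a o) HH := by
  have hC := T.hC
  have h1 : DifferentiableOn ℂ (PT T N O (fun o' _ => a o')) HH := by
    refine differentiableOn_PT T (B := 2) (C := 0) hN hO le_rfl (by linarith) UpperHalfPlane.I ?_
    intro o _ γ
    rw [zero_mul, Real.exp_zero, mul_one]
    exact ha o
  exact (h1.const_mul (T.τ o : ℂ)).div (differentiableOn_ph N o 1) fun z hz => ph_ne N hz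

/-- compare `pen_bound`; `norm_PT_le`, `pen_inv`, `τ(o) ≤ τ(z) exp 1` -/
lemma FT_bound (hN : 256 ≤ N) (hO : IsNet Γ (1 / Real.sqrt N) O) {a : ℍ → ℂ}
    (ha : ∀ o, ‖a o‖ ≤ 2) (hC4 : 4 * T.C ≤ Real.sqrt N) {o : ℍ} {z : ℂ}
    (hz : ‖z - o‖ ≤ 3 * (1 / Real.sqrt N) * o.im) :
    z ∈ HH ∧ ‖FT T N O a o z‖ ≤ K0 * Real.exp 1 := by
  have hC := T.hC
  obtain ⟨hr, hr1⟩ := pen_r hN
  have hs : 0 < Real.sqrt N := by
    have h := hr
    rw [one_div, inv_pos] at h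
    exact h
  obtain ⟨z', rfl, hz'⟩ := pen_geo hr hr1 hz
  refine ⟨z'.im_pos, ?_⟩
  have hd : dist o z' ≤ 4 / Real.sqrt N := by
    rw [show (4 : ℝ) / Real.sqrt N = 4 * (1 / Real.sqrt N) by ring]; exact hz'
  have hb : ‖PT T N O (fun o' _ => a o') z'‖ * Real.sqrt z'.im ^ N * T.τ z' ≤ CE * 2 := by
    refine norm_PT_le T (B := 2) (C := 0) hN hO (by norm_num) le_rfl (by linarith) z' ?_
    intro o _ γ
    rw [zero_mul, Real.exp_zero, mul_one]
    exact ha o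
  have hτ : T.τ o ≤ T.τ z' * Real.exp 1 := by
    refine (T.hl o z').trans ?_
    refine mul_le_mul_of_nonneg_left (Real.exp_le_exp.2 ?_) (T.hτ z').le
    calc T.C * dist o z' ≤ T.C * (4 / Real.sqrt N) := mul_le_mul_of_nonneg_left hd hC
      _ = 4 * T.C / Real.sqrt N := by ring
      _ ≤ 1 := by rw [div_le_one hs]; exact hC4
  have hX : ‖(T.τ o : ℂ) * PT T N O (fun o' _ => a o') z'‖ * Real.sqrt z'.im ^ N ≤
      CE * 2 * Real.exp 1 := by
    rw [norm_mul, Complex.norm_real, Real.norm_eq_abs, abs_of_pos (T.hτ o)]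
    have h0 : 0 ≤ ‖PT T N O (fun o' _ => a o') z'‖ * Real.sqrt z'.im ^ N := by positivity
    calc T.τ o * ‖PT T N O (fun o' _ => a o') z'‖ * Real.sqrt z'.im ^ N
        = (‖PT T N O (fun o' _ => a o') z'‖ * Real.sqrt z'.im ^ N) * T.τ o := by ring
      _ ≤ (‖PT T N O (fun o' _ => a o') z'‖ * Real.sqrt z'.im ^ N) * (T.τ z' * Real.exp 1) :=
          mul_le_mul_of_nonneg_left hτ h0
      _ = (‖PT T N O (fun o' _ => a o') z'‖ * Real.sqrt z'.im ^ N * T.τ z') * Real.exp 1 := by ring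
      _ ≤ CE * 2 * Real.exp 1 := mul_le_mul_of_nonneg_right hb (Real.exp_pos 1).le
  have h := pen_inv hN hd hX
  unfold FT
  refine h.trans (le_of_eq ?_)
  unfold K0
  ring

/-- compare `pen_lip` (same proof with `FT_bound`, `FT_diff`) -/
lemma FT_lip (hN : 256 ≤ N) (hO : IsNet Γ (1 / Real.sqrt N) O) {a : ℍ → ℂ}
    (ha : ∀ o, ‖a o‖ ≤ 2) (hC4 : 4 * T.C ≤ Real.sqrt N) {o : ℍ} {z t : ℂ}
    (hz : ‖z - o‖ ≤ 2 * (1 / Real.sqrt N) * o.im) (ht : ‖t - o‖ ≤ 2 * (1 / Real.sqrt N) * o.im) :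
    ‖FT T N O a o z - FT T N O a o t‖ ≤
      K0 * Real.exp 1 / (1 / Real.sqrt N * o.im) * ‖z - t‖ := by
  obtain ⟨hr, hr1⟩ := pen_r hN
  set r := 1 / Real.sqrt N with hrdef
  have ho := o.im_pos
  have hro : 0 < r * o.im := mul_pos hr ho
  have hs : Convex ℝ (Metric.closedBall (o : ℂ) (2 * r * o.im)) := convex_closedBall _ _
  have hsub : ∀ x ∈ Metric.closedBall (o : ℂ) (2 * r * o.im), ∀ y ∈ Metric.closedBall x (r * o.im),
      y ∈ HH ∧ ‖FT T N O a o y‖ ≤ K0 * Real.exp 1 := by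
    intro x hx y hy
    apply FT_bound T hN hO ha hC4
    rw [Metric.mem_closedBall, Complex.dist_eq] at hx hy
    calc ‖y - o‖ = ‖(y - x) + (x - o)‖ := by congr 1; ring
      _ ≤ ‖y - x‖ + ‖x - o‖ := norm_add_le _ _
      _ ≤ r * o.im + 2 * r * o.im := add_le_add hy hx
      _ = 3 * (1 / Real.sqrt N) * o.im := by rw [← hrdef]; ring
  have hdiff : ∀ x ∈ Metric.closedBall (o : ℂ) (2 * r * o.im),
      DifferentiableAt ℂ (FT T N O a o) x := by
    intro x hx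
    have := (hsub x hx x (Metric.mem_closedBall_self hro.le)).1
    exact (FT_diff T hN hO ha hC4 o).differentiableAt (pen_isOpen_HH.mem_nhds this)
  refine Convex.norm_image_sub_le_of_norm_deriv_le hdiff ?_ hs ?_ ?_
  · intro x hx
    refine Complex.norm_deriv_le_of_forall_mem_sphere_norm_le hro ?_ ?_
    · refine DifferentiableOn.diffContOnCl ?_
      rw [closure_ball x hro.ne']
      exact (FT_diff T hN hO ha hC4 o).mono fun y hy => (hsub x hx y hy).1
    · intro y hy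
      exact (hsub x hx y (Metric.sphere_subset_closedBall hy)).2
  · rw [Metric.mem_closedBall, Complex.dist_eq]; exact ht
  · rw [Metric.mem_closedBall, Complex.dist_eq]; exact hz

end Pool.Agent.SfBundle
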