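import Mathlib
import Pool.Agent.Lib.MP_1d980c_gt.Sf.PenA

set_option autoImplicit false
open scoped UpperHalfPlane MatrixGroups Manifold ContDiff Matrix Topology
open Complex ComplexConjugate Pool.Agent.HypBundle

namespace Pool.Agent.SfBundle

/-- The bad event at `o` for three series: `Q` (first component), `P` (second), and the twisted `S`
(third): at some test point `Q` is small, and `P` or `S` is small. -/
def BadT {Γ : Subgroup SL(2, ℝ)} (T : Tw Γ) (N : ℕ) (O : Finset ℍ) (R : ℝ) (n n₁ : ℕ) (o : ℍ) :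
    Set (ℍ → (Fin n × Fin n) × ((Fin n × Fin n) × (Fin n × Fin n))) :=
  {f | ∃ s ∈ SS n₁, ‖GG Γ N O R (fun x => pen_val n (f x).1) o (tp N n₁ o s)‖ < 1 / n ∧
    (‖GG Γ N O R (fun x => pen_val n (f x).2.1) o (tp N n₁ o s)‖ < 1 / n ∨
      ‖GT T N O R (fun x => pen_val n (f x).2.2) o (tp N n₁ o s)‖ < 1 / n)}

variable {Γ : Subgroup SL(2, ℝ)} {N : ℕ} {O : Finset ℍ} {R : ℝ} {n n₁ : ℕ} (T : Tw Γ)

open scoped Classical in
/-- compare `pen_M`: for each of the `(4 n₁ + 1)²` test points there are at most `4` values of the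
first component and `4 n² + 4 n²` values of the pair (second, third). -/
lemma penT_M (hN : 256 ≤ N) (hn : 0 < n) (hn₁ : 0 < n₁) {o : ℍ} (ho : o ∈ O) {ι₀ : ℝ}
    (hι : ∀ γ : Γ, γ ≠ 1 → ∀ w : ℍ, ι₀ ≤ dist w (γ • w)) (hR : R < ι₀) (hR0 : 0 ≤ R)
    (f : ℍ → (Fin n × Fin n) × ((Fin n × Fin n) × (Fin n × Fin n))) :
    Set.ncard {t | Function.update f o t ∈ BadT T N O R n n₁ o} ≤
      32 * n ^ 2 * (4 * n₁ + 1) ^ 2 := by
  obtain ⟨hr, hr1⟩ := pen_r hN
  have hHH : ∀ s ∈ SS n₁, tp N n₁ o s ∈ HH := by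
    intro s hs
    obtain ⟨z', hz', -⟩ := pen_geo hr hr1 (tp_dist hN hn₁ o hs)
    rw [← hz']
    exact z'.im_pos
  have hsub : {t | Function.update f o t ∈ BadT T N O R n n₁ o} ⊆
      ⋃ s ∈ SS n₁,
        {k : Fin n × Fin n | ‖pen_val n k +
          GG Γ N O R (Function.update (fun x => pen_val n (f x).1) o 0) o (tp N n₁ o s)‖ < 1 / n} ×ˢ
        (({k : Fin n × Fin n | ‖pen_val n k +
          GG Γ N O R (Function.update (fun x => pen_val n (f x).2.1) o 0) o (tp N n₁ o s)‖ < 1 / n} ×ˢ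
            (Set.univ : Set (Fin n × Fin n))) ∪
          ((Set.univ : Set (Fin n × Fin n)) ×ˢ {k : Fin n × Fin n | ‖pen_val n k +
          GT T N O R (Function.update (fun x => pen_val n (f x).2.2) o 0) o (tp N n₁ o s)‖ <
            1 / n})) := by
    rintro t ⟨s, hs, h1, h2⟩
    simp only [Set.mem_iUnion]
    refine ⟨s, hs, ?_⟩
    have e1 : (fun x => pen_val n ((Function.update f o t) x).1) =
        Function.update (fun x => pen_val n (f x).1) o (pen_val n t.1) := by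
      funext x
      by_cases hx : x = o
      · subst hx; simp
      · simp [Function.update_of_ne hx]
    have e2 : (fun x => pen_val n (Function.update f o t x).2.1) =
        Function.update (fun x => pen_val n (f x).2.1) o (pen_val n t.2.1) := by
      funext x
      by_cases hx : x = o
      · subst hx; simp
      · simp [Function.update_of_ne hx]
    have e3 : (fun x => pen_val n (Function.update f o t x).2.2) =
        Function.update (fun x => pen_val n (f x).2.2) o (pen_val n t.2.2) := by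
      funext x
      by_cases hx : x = o
      · subst hx; simp
      · simp [Function.update_of_ne hx]
    rw [e1, pen_GG ho hι hR hR0 _ _ (hHH s hs)] at h1
    rw [e2, pen_GG ho hι hR hR0 _ _ (hHH s hs), e3, GT_upd T ho hι hR hR0 _ _ (hHH s hs)] at h2
    refine ⟨h1, ?_⟩
    rcases h2 with h2 | h2
    · exact Or.inl ⟨h2, Set.mem_univ _⟩
    · exact Or.inr ⟨Set.mem_univ _, h2⟩
  have hu : Set.ncard (Set.univ : Set (Fin n × Fin n)) = n ^ 2 := by
    rw [Set.ncard_univ, Nat.card_eq_fintype_card, Fintype.card_prod, Fintype.card_fin, sq]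
  calc _ ≤ _ := Set.ncard_le_ncard hsub (Set.toFinite _)
    _ ≤ _ := Finset.set_ncard_biUnion_le _ _
    _ ≤ ∑ s ∈ SS n₁, 32 * n ^ 2 := by
        refine Finset.sum_le_sum fun s _ => ?_
        rw [Set.ncard_prod]
        calc _ ≤ 4 * (4 * n ^ 2 + n ^ 2 * 4) := by
              refine Nat.mul_le_mul (pen_card_val hn _) ((Set.ncard_union_le _ _).trans ?_)
              rw [Set.ncard_prod, Set.ncard_prod, hu]
              exact add_le_add (Nat.mul_le_mul (pen_card_val hn _) le_rfl)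
                (Nat.mul_le_mul le_rfl (pen_card_val hn _))
          _ = 32 * n ^ 2 := by ring
    _ = 32 * n ^ 2 * (4 * n₁ + 1) ^ 2 := by
        rw [Finset.sum_const, card_SS, smul_eq_mul, mul_comm]

/-- compare `pen_poly` -/
lemma penT_poly {C D : ℕ} (hC : 1 ≤ C) (hD : 2000 * C ≤ D) :
    4 * (9 * (2 * D + 9) ^ 2) * (32 * (D ^ 2) ^ 2 * (4 * (C * D ^ 2) + 1) ^ 2) ≤ (D ^ 2) ^ 6 := by
  have hD1 : 1 ≤ D := by omega
  have h1 : 2 * D + 9 ≤ 11 * D := by omega
  have h2 : 4 * (C * D ^ 2) + 1 ≤ 5 * (C * D ^ 2) := by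
    have : 1 ≤ C * D ^ 2 := Nat.one_le_iff_ne_zero.2 (by positivity)
    omega
  calc 4 * (9 * (2 * D + 9) ^ 2) * (32 * (D ^ 2) ^ 2 * (4 * (C * D ^ 2) + 1) ^ 2)
      ≤ 4 * (9 * (11 * D) ^ 2) * (32 * (D ^ 2) ^ 2 * (5 * (C * D ^ 2)) ^ 2) := by gcongr
    _ = 3484800 * C ^ 2 * D ^ 10 := by ring
    _ ≤ 4000000 * C ^ 2 * D ^ 10 := by gcongr; norm_num
    _ = (2000 * C) ^ 2 * D ^ 10 := by ring
    _ ≤ D ^ 2 * D ^ 10 := by gcongr
    _ = (D ^ 2) ^ 6 := by ring

end Pool.Agent.SfBundle
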