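import Mathlib
import Pool.Agent.Lib.MP_1d980c_gt.Sf.PenA

set_option autoImplicit false
open scoped UpperHalfPlane MatrixGroups Manifold ContDiff Matrix Topology
open Complex ComplexConjugate Pool.Agent.HypBundle

namespace Pool.Agent.SfBundle

variable {Γ : Subgroup SL(2, ℝ)} {N : ℕ} {O : Finset ℍ} {R : ℝ} (T : Tw Γ)

private lemma PT_sub_aux (hN : 256 ≤ N) (hO : IsNet Γ (1 / Real.sqrt N) O) {A B : ℍ → Γ → ℂ}
    (hA : ∀ o γ, ‖A o γ‖ ≤ 2) (hB : ∀ o γ, ‖B o γ‖ ≤ 2) (hC4 : 4 * T.C ≤ Real.sqrt N) (w : ℍ) :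
    PT T N O A w - PT T N O B w = PT T N O (fun o γ => A o γ - B o γ) w := by
  have hC2 : 2 * ((0 : ℝ) + T.C) ≤ Real.sqrt N := by
    have := T.hC
    linarith
  have sum : ∀ (A : ℍ → Γ → ℂ), (∀ o γ, ‖A o γ‖ ≤ 2) → ∀ o ∈ O,
      Summable (fun γ : Γ => ph N o (γ : SL(2, ℝ)) w * kA T A w o γ) := by
    intro A hA o ho
    refine PT_summable (B := 2) (C := 0) T hN hO (by norm_num) le_rfl hC2 w ?_ ho
    intro o _ γ
    rw [zero_mul, Real.exp_zero, mul_one]
    exact hA o γ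
  unfold PT PS
  rw [← Finset.sum_sub_distrib]
  refine Finset.sum_congr rfl fun o ho => ?_
  rw [← (sum A hA o ho).tsum_sub (sum B hB o ho)]
  congr 1
  funext γ
  unfold kA
  ring

/-- compare `pen_tail`, `pen_sub`; use `norm_PT_le_small` with `A = a - trc a`, `B = 2`, `C = 0`,
`ε = 0`, `η = D / √N`. -/
lemma PT_tail (hN : 256 ≤ N) (hO : IsNet Γ (1 / Real.sqrt N) O) {a : ℍ → ℂ}
    (ha : ∀ o, ‖a o‖ ≤ 2) (hC4 : 4 * T.C ≤ Real.sqrt N) {o t : ℍ}
    (hot : dist o t ≤ 4 / Real.sqrt N) {D : ℝ} (hD : 0 ≤ D) :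
    ‖PT T N O (fun o' _ => a o') t - PT T N O (trc Γ ((D + 4) / Real.sqrt N) o a) t‖ *
      Real.sqrt t.im ^ N * T.τ t ≤ CE * (2 * Real.exp (-(D / 4))) := by
  have hN0 : (0 : ℝ) < N := by
    have : 0 < N := by omega
    exact_mod_cast this
  have hs : 0 < Real.sqrt N := Real.sqrt_pos.2 hN0
  rw [PT_sub_aux T hN hO (fun o _ => ha o) (fun o γ => trc_norm ha o γ) hC4 t]
  have h := norm_PT_le_small (A := fun o' γ => a o' - trc Γ ((D + 4) / Real.sqrt N) o a o' γ)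
    (B := 2) (C := 0) (ε := 0) (η := D / Real.sqrt N) T hN hO (by norm_num) le_rfl (by positivity)
    le_rfl (by rw [zero_add]; exact hC4) t ?_ ?_
  · refine h.trans (le_of_eq ?_)
    rw [zero_mul, zero_add]
    congr 3
    field_simp
  · intro o' _ γ
    rw [zero_mul, Real.exp_zero, mul_one]
    unfold trc
    split_ifs
    · simp
    · simpa using ha o'
  · intro o' _ γ hd
    unfold trc
    rw [if_pos]
    · simp
    · calc dist o' (γ • o) ≤ dist o' (γ • t) + dist (γ • t) (γ • o) := dist_triangle _ _ _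
        _ ≤ D / Real.sqrt N + 4 / Real.sqrt N := by
            rw [pen_dist_smul, dist_comm t o]
            exact add_le_add hd hot
        _ = (D + 4) / Real.sqrt N := by ring

/-- from `PT_tail` and `pen_inv`, with `τ(o) ≤ τ(t) exp(T.C * 4/√N) ≤ τ(t) exp 1` -/
lemma FT_sub_GT (hN : 256 ≤ N) (hO : IsNet Γ (1 / Real.sqrt N) O) {a : ℍ → ℂ}
    (ha : ∀ o, ‖a o‖ ≤ 2) (hC4 : 4 * T.C ≤ Real.sqrt N) {o t : ℍ}
    (hot : dist o t ≤ 4 / Real.sqrt N) {D : ℝ} (hD : 0 ≤ D) :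
    ‖FT T N O a o t - GT T N O ((D + 4) / Real.sqrt N) a o t‖ ≤
      CE * (2 * Real.exp (-(D / 4))) * Real.exp 3 := by
  have hN0 : (0 : ℝ) < N := by
    have : 0 < N := by omega
    exact_mod_cast this
  have hs : 0 < Real.sqrt N := Real.sqrt_pos.2 hN0
  have h := PT_tail T hN hO ha hC4 hot hD
  set X : ℂ := PT T N O (fun o' _ => a o') t - PT T N O (trc Γ ((D + 4) / Real.sqrt N) o a) t
    with hX
  have hτt := T.hτ t
  have hτo := T.hτ o
  have hK : ‖X‖ * Real.sqrt t.im ^ N ≤ CE * (2 * Real.exp (-(D / 4))) / T.τ t := by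
    rw [le_div_iff₀ hτt]
    exact h
  have h2 := pen_inv hN hot hK
  have e : FT T N O a o t - GT T N O ((D + 4) / Real.sqrt N) a o t = (T.τ o : ℂ) * (X / ph N o 1 t) := by
    unfold FT GT
    rw [hX]
    ring
  have h3 : T.τ o ≤ T.τ t * Real.exp 1 := by
    refine (T.hl o t).trans ?_
    refine mul_le_mul_of_nonneg_left (Real.exp_le_exp.2 ?_) hτt.le
    calc T.C * dist o t ≤ T.C * (4 / Real.sqrt N) := mul_le_mul_of_nonneg_left hot T.hC
      _ = 4 * T.C / Real.sqrt N := by ring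
      _ ≤ 1 := by rw [div_le_one hs]; exact hC4
  have hCE : 0 ≤ CE * (2 * Real.exp (-(D / 4))) := by
    have := CE_pos
    positivity
  rw [e, norm_mul, Complex.norm_real, Real.norm_eq_abs, abs_of_pos hτo]
  calc T.τ o * ‖X / ph N o 1 t‖
      ≤ (T.τ t * Real.exp 1) * (CE * (2 * Real.exp (-(D / 4))) / T.τ t * Real.exp 2) :=
        mul_le_mul h3 h2 (norm_nonneg _) (by positivity)
    _ = CE * (2 * Real.exp (-(D / 4))) * (Real.exp 1 * Real.exp 2) := by
        field_simp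
    _ = CE * (2 * Real.exp (-(D / 4))) * Real.exp 3 := by
        rw [← Real.exp_add]
        norm_num

end Pool.Agent.SfBundle
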