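import Mathlib
import Pool.Agent.Lib.MP_1d980c_gt.Sf.PenM
import Pool.Agent.Lib.MP_1d980c_gt.Sf.PenT
import Pool.Agent.Lib.MP_1d980c_gt.Sf.PenL
import Pool.Agent.Lib.MP_1d980c_gt.Hyp.Count

set_option autoImplicit false
open scoped UpperHalfPlane MatrixGroups Manifold ContDiff Matrix Topology
open Complex ComplexConjugate Pool.Agent.HypBundle

namespace Pool.Agent.SfBundle

variable {Γ : Subgroup SL(2, ℝ)} {N : ℕ} {O : Finset ℍ} {R : ℝ} {n n₁ : ℕ} (T : Tw Γ)

/-- Three series without common zeros, uniformly. Copy the proof of `pencils` (`Hyp/Pencil.lean`)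
with `BadT`, `penT_M`, `penT_poly`, and for the twisted series `PT_dep`, `FT_sub_GT`, `FT_lip`,
`PT_aut` (constants: `C₀ ≥ 4 K0 exp 1 + 2`, `D ≥ 2000 C₀`, `D` large for `pen_exp` with constant
`8 * (CE * exp 3)`, `N` also so large that `4 T.C ≤ √N`; final constant
`1/(2n) * exp(-2) * exp(-1)`, since `τ(w') ≥ τ(o) exp(-1)`). -/
theorem pencils3 {ι₀ : ℝ} (hι0 : 0 < ι₀)
    (hι : ∀ γ : Γ, γ ≠ 1 → ∀ w : ℍ, ι₀ ≤ dist w (γ • w)) :
    ∃ (c : ℝ) (N₀ : ℕ), 0 < c ∧ ∀ N : ℕ, N₀ ≤ N → ∀ O : Finset ℍ, IsNet Γ (1 / Real.sqrt N) O →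
      ∃ a b d : ℍ → ℂ, (∀ o, ‖a o‖ ≤ 2) ∧ (∀ o, ‖b o‖ ≤ 2) ∧ (∀ o, ‖d o‖ ≤ 2) ∧ ∀ w : ℍ,
        c ≤ max (‖PS Γ N O (fun o _ => a o) w‖ * Real.sqrt w.im ^ N)
          (‖PS Γ N O (fun o _ => b o) w‖ * Real.sqrt w.im ^ N) ∧
        c ≤ max (‖PT T N O (fun o _ => d o) w‖ * Real.sqrt w.im ^ N * T.τ w)
          (‖PS Γ N O (fun o _ => b o) w‖ * Real.sqrt w.im ^ N) := by
  classical
  -- the constants
  obtain ⟨C₀, hC₀⟩ := exists_nat_ge (4 * (K0 * Real.exp 1) + 2)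
  have hK0 := K0_pos
  have hCE := CE_pos
  have he1 := Real.exp_pos 1
  have hKe : 0 < K0 * Real.exp 1 := mul_pos hK0 he1
  have hC₀2 : 2 ≤ C₀ := by
    have : (2 : ℝ) ≤ C₀ := by linarith
    exact_mod_cast this
  have hC₀3 : 4 * K0 ≤ 4 * (K0 * Real.exp 1) := by
    have := Real.one_le_exp (show (0 : ℝ) ≤ 1 by norm_num)
    nlinarith
  obtain ⟨D₁, hD₁⟩ := pen_exp (8 * (CE * Real.exp 3))
  obtain ⟨D, hD⟩ : ∃ D, D = max (2000 * C₀) D₁ := ⟨_, rfl⟩
  have hDC : 2000 * C₀ ≤ D := by rw [hD]; exact le_max_left _ _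
  have hDe := hD₁ D (by rw [hD]; exact le_max_right _ _)
  have hD1 : 1 ≤ D := by omega
  have hDr : (1 : ℝ) ≤ D := by exact_mod_cast hD1
  set n := D ^ 2 with hn
  set n₁ := C₀ * n with hn₁
  have hn0 : 0 < n := by positivity
  have hn1 : 1 ≤ n := hn0
  have hn₁2 : 2 ≤ n₁ := by
    calc 2 = 2 * 1 := rfl
      _ ≤ C₀ * n := Nat.mul_le_mul hC₀2 hn1
  have hnr : (0 : ℝ) < n := by exact_mod_cast hn0
  have hn₁r : (0 : ℝ) < n₁ := by
    have : 0 < n₁ := by omega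
    exact_mod_cast this
  -- the threshold for `N`
  obtain ⟨N₀, hN₀⟩ := exists_nat_ge
    (256 + (4 * (D + 4)) ^ 2 + ((D + 4) / ι₀ + 1) ^ 2 + (4 * T.C) ^ 2 : ℝ)
  refine ⟨1 / (2 * n) * Real.exp (-2) * Real.exp (-1), N₀, by positivity, ?_⟩
  intro N hN O hO
  have hNr : (256 + (4 * (D + 4)) ^ 2 + ((D + 4) / ι₀ + 1) ^ 2 + (4 * T.C) ^ 2 : ℝ) ≤ N :=
    hN₀.trans (by exact_mod_cast hN)
  have q1 : (0 : ℝ) ≤ (4 * ((D : ℝ) + 4)) ^ 2 := sq_nonneg _
  have q2 : (0 : ℝ) ≤ (((D : ℝ) + 4) / ι₀ + 1) ^ 2 := sq_nonneg _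
  have q3 : (0 : ℝ) ≤ (4 * T.C) ^ 2 := sq_nonneg _
  have hN256 : 256 ≤ N := by
    have : (256 : ℝ) ≤ N := by linarith
    exact_mod_cast this
  obtain ⟨hr, hr1⟩ := pen_r hN256
  have hs : 0 < Real.sqrt N := by
    have := hr; rw [one_div, inv_pos] at this; exact this
  have hs1 : 4 * ((D : ℝ) + 4) ≤ Real.sqrt N := by
    apply Real.le_sqrt_of_sq_le
    linarith
  have hs2 : ((D : ℝ) + 4) / ι₀ + 1 ≤ Real.sqrt N := by
    apply Real.le_sqrt_of_sq_le
    linarith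
  have hC4 : 4 * T.C ≤ Real.sqrt N := by
    apply Real.le_sqrt_of_sq_le
    linarith
  set R : ℝ := ((D : ℝ) + 4) / Real.sqrt N with hR
  have hR0 : 0 ≤ R := by positivity
  have hRι : R < ι₀ := by
    rw [hR, div_lt_iff₀ hs]
    have h1 : ((D : ℝ) + 4) / ι₀ < Real.sqrt N := by linarith
    rw [div_lt_iff₀ hι0] at h1
    linarith
  have hR4 : 4 * R ≤ 1 := by
    rw [hR, ← mul_div_assoc, div_le_one hs]
    exact hs1
  -- the number of neighbours
  have hDn : 3 * (1 + 2 * R / (1 / Real.sqrt N)) ^ 2 * Real.exp (4 * R) ≤ ((9 * (2 * D + 9) ^ 2 : ℕ) : ℝ) := by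
    have e1 : 1 + 2 * R / (1 / Real.sqrt N) = 2 * D + 9 := by
      rw [hR]; field_simp; ring
    rw [e1]
    have e2 : Real.exp (4 * R) ≤ 3 :=
      (Real.exp_le_exp.2 hR4).trans (by have := Real.exp_one_lt_d9; linarith)
    push_cast
    have : (0 : ℝ) ≤ (2 * D + 9) ^ 2 := sq_nonneg _
    nlinarith
  have : Nonempty ((Fin n × Fin n) × ((Fin n × Fin n) × (Fin n × Fin n))) :=
    ⟨((⟨0, hn0⟩, ⟨0, hn0⟩), ((⟨0, hn0⟩, ⟨0, hn0⟩), (⟨0, hn0⟩, ⟨0, hn0⟩)))⟩
  obtain ⟨f, hf⟩ := counting (α := ℍ) (Ω := (Fin n × Fin n) × ((Fin n × Fin n) × (Fin n × Fin n))) O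
    (fun o => BadT T N O R n n₁ o) (fun o => nbs Γ R O o)
    (by
      rintro o ho f g hfg ⟨s, hs, h1, h2⟩
      refine ⟨s, hs, ?_, ?_⟩
      · have e : GG Γ N O R (fun x => pen_val n (g x).1) o (tp N n₁ o s) =
            GG Γ N O R (fun x => pen_val n (f x).1) o (tp N n₁ o s) := by
          unfold GG
          rw [pen_dep (a := fun x => pen_val n (g x).1) (b := fun x => pen_val n (f x).1)
            (fun o' ho' => by simp only [hfg o' ho'])]
        rw [e]; exact h1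
      · rcases h2 with h2 | h2
        · left
          have e : GG Γ N O R (fun x => pen_val n (g x).2.1) o (tp N n₁ o s) =
              GG Γ N O R (fun x => pen_val n (f x).2.1) o (tp N n₁ o s) := by
            unfold GG
            rw [pen_dep (a := fun x => pen_val n (g x).2.1) (b := fun x => pen_val n (f x).2.1)
              (fun o' ho' => by simp only [hfg o' ho'])]
          rw [e]; exact h2
        · right
          have e : GT T N O R (fun x => pen_val n (g x).2.2) o (tp N n₁ o s) =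
              GT T N O R (fun x => pen_val n (f x).2.2) o (tp N n₁ o s) := by
            unfold GT
            rw [PT_dep T (a := fun x => pen_val n (g x).2.2) (b := fun x => pen_val n (f x).2.2)
              (fun o' ho' => by simp only [hfg o' ho'])]
          rw [e]; exact h2)
    (fun o ho => mem_nbs.2 ⟨ho, 1, by rw [one_smul, dist_self]; exact hR0⟩)
    (32 * n ^ 2 * (4 * n₁ + 1) ^ 2) (9 * (2 * D + 9) ^ 2)
    (fun o ho f => by
      have h := penT_M T (n₁ := n₁) hN256 hn0 (by omega) ho hι hRι hR0 f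
      convert h)
    (fun o _ => pen_nb hr (by linarith) hR0 hO o hDn)
    (by
      simp only [Fintype.card_prod, Fintype.card_fin]
      calc _ ≤ (D ^ 2) ^ 6 := penT_poly (by omega) hDC
        _ = n * n * (n * n * (n * n)) := by rw [← hn]; ring)
  refine ⟨fun x => pen_val n (f x).2.1, fun x => pen_val n (f x).1, fun x => pen_val n (f x).2.2,
    fun o => pen_val_norm _, fun o => pen_val_norm _, fun o => pen_val_norm _, fun w => ?_⟩
  obtain ⟨o, ho, γ₀, hγ₀⟩ := hO.cover w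
  rw [← pen_aut _ γ₀ w, ← pen_aut _ γ₀ w, ← PT_aut T _ γ₀ w]
  set w' := γ₀ • w with hw'
  obtain ⟨hw1, s, hs', hs1', hs2'⟩ := pen_near hN256 hn₁2 hγ₀
  have hro : 0 < 1 / Real.sqrt N * o.im := mul_pos hr o.im_pos
  have hww : dist o w' ≤ 4 / Real.sqrt N := by
    refine hγ₀.trans ?_
    gcongr
    norm_num
  have h8 := pen_ph hN256 hww
  obtain ⟨t, ht, hot⟩ := pen_geo hr hr1 (tp_dist hN256 (by omega) o hs')
  have hot' : dist o t ≤ 4 / Real.sqrt N := by rw [div_eq_mul_one_div]; exact hot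
  have hn₁' : (n₁ : ℝ) = C₀ * n := by rw [hn₁]; push_cast; ring
  have hexp32 : 8 * (CE * Real.exp 2) * (D : ℝ) ^ 2 * Real.exp (-((D : ℝ) / 4)) ≤ 1 := by
    refine le_trans ?_ hDe
    have h23 : Real.exp 2 ≤ Real.exp 3 := Real.exp_le_exp.2 (by norm_num)
    gcongr
  -- the general estimate
  have key : ∀ a : ℍ → ℂ, (∀ o, ‖a o‖ ≤ 2) → 1 / (n : ℝ) ≤ ‖GG Γ N O R a o (tp N n₁ o s)‖ →
      1 / (2 * n) * Real.exp (-2) * Real.exp (-1) ≤
        ‖PS Γ N O (fun o _ => a o) w'‖ * Real.sqrt w'.im ^ N := by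
    intro a ha hG
    -- truncation
    have h1 : ‖FF Γ N O a o (tp N n₁ o s) - GG Γ N O R a o (tp N n₁ o s)‖ ≤ 1 / (4 * n) := by
      have h2 := pen_tail hN256 hO ha hot' (D := (D : ℝ)) (by positivity)
      rw [← hR] at h2
      have h3 := pen_inv hN256 hot' h2
      rw [sub_div] at h3
      unfold FF GG
      rw [← ht]
      refine h3.trans ?_
      rw [le_div_iff₀ (by positivity)]
      calc CE * (2 * Real.exp (-((D : ℝ) / 4))) * Real.exp 2 * (4 * n)
          = 8 * (CE * Real.exp 2) * (D : ℝ) ^ 2 * Real.exp (-((D : ℝ) / 4)) := by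
            rw [hn]; push_cast; ring
        _ ≤ 1 := hexp32
    -- Lipschitz
    have h4 : ‖FF Γ N O a o w' - FF Γ N O a o (tp N n₁ o s)‖ ≤ 1 / (4 * n) := by
      refine (pen_lip hN256 hO ha hw1 hs1').trans ?_
      calc K0 / (1 / Real.sqrt N * o.im) * ‖(w' : ℂ) - tp N n₁ o s‖
          ≤ K0 / (1 / Real.sqrt N * o.im) * (1 / Real.sqrt N * o.im / n₁) := by
            exact mul_le_mul_of_nonneg_left hs2' (by positivity)
        _ = K0 / n₁ := by field_simp
        _ ≤ 1 / (4 * n) := by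
            rw [div_le_div_iff₀ hn₁r (by positivity), one_mul, hn₁']
            nlinarith
    have h5 : 1 / (2 * (n : ℝ)) ≤ ‖FF Γ N O a o w'‖ := by
      have h6 : ‖GG Γ N O R a o (tp N n₁ o s)‖ ≤ ‖FF Γ N O a o w'‖ +
          ‖FF Γ N O a o w' - FF Γ N O a o (tp N n₁ o s)‖ +
          ‖FF Γ N O a o (tp N n₁ o s) - GG Γ N O R a o (tp N n₁ o s)‖ := by
        calc ‖GG Γ N O R a o (tp N n₁ o s)‖ = ‖FF Γ N O a o w' -
            (FF Γ N O a o w' - FF Γ N O a o (tp N n₁ o s)) -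
            (FF Γ N O a o (tp N n₁ o s) - GG Γ N O R a o (tp N n₁ o s))‖ := by congr 1; ring
          _ ≤ _ := (norm_sub_le _ _).trans (add_le_add_left (norm_sub_le _ _) _)
      have h7 : 1 / (n : ℝ) = 1 / (2 * n) + 1 / (4 * n) + 1 / (4 * n) := by field_simp; norm_num
      linarith
    -- conclusion
    have h9 : ‖PS Γ N O (fun o _ => a o) w'‖ = ‖FF Γ N O a o w'‖ * ‖ph N o 1 w'‖ := by
      rw [← norm_mul]
      unfold FF
      rw [div_mul_cancel₀ _ (ph_ne N w'.im_pos)]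
    rw [h9, mul_assoc (‖FF Γ N O a o w'‖)]
    have h10 : 1 / (2 * (n : ℝ)) * Real.exp (-2) ≤
        ‖FF Γ N O a o w'‖ * (‖ph N o 1 w'‖ * Real.sqrt w'.im ^ N) :=
      mul_le_mul h5 h8 (Real.exp_pos _).le (norm_nonneg _)
    refine le_trans ?_ h10
    have h11 : Real.exp (-1) ≤ 1 := Real.exp_le_one_iff.2 (by norm_num)
    have h12 : 0 ≤ 1 / (2 * (n : ℝ)) * Real.exp (-2) := by positivity
    calc _ ≤ 1 / (2 * (n : ℝ)) * Real.exp (-2) * 1 := mul_le_mul_of_nonneg_left h11 h12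
      _ = _ := mul_one _
  -- the twisted estimate
  have keyT : ∀ a : ℍ → ℂ, (∀ o, ‖a o‖ ≤ 2) → 1 / (n : ℝ) ≤ ‖GT T N O R a o (tp N n₁ o s)‖ →
      1 / (2 * n) * Real.exp (-2) * Real.exp (-1) ≤
        ‖PT T N O (fun o _ => a o) w'‖ * Real.sqrt w'.im ^ N * T.τ w' := by
    intro a ha hG
    have h1 : ‖FT T N O a o (tp N n₁ o s) - GT T N O R a o (tp N n₁ o s)‖ ≤ 1 / (4 * n) := by
      have h3 := FT_sub_GT T hN256 hO ha hC4 hot' (D := (D : ℝ)) (by positivity)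
      rw [← hR] at h3
      rw [← ht]
      refine h3.trans ?_
      rw [le_div_iff₀ (by positivity)]
      calc CE * (2 * Real.exp (-((D : ℝ) / 4))) * Real.exp 3 * (4 * n)
          = 8 * (CE * Real.exp 3) * (D : ℝ) ^ 2 * Real.exp (-((D : ℝ) / 4)) := by
            rw [hn]; push_cast; ring
        _ ≤ 1 := hDe
    have h4 : ‖FT T N O a o w' - FT T N O a o (tp N n₁ o s)‖ ≤ 1 / (4 * n) := by
      refine (FT_lip T hN256 hO ha hC4 hw1 hs1').trans ?_
      calc K0 * Real.exp 1 / (1 / Real.sqrt N * o.im) * ‖(w' : ℂ) - tp N n₁ o s‖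
          ≤ K0 * Real.exp 1 / (1 / Real.sqrt N * o.im) * (1 / Real.sqrt N * o.im / n₁) := by
            exact mul_le_mul_of_nonneg_left hs2' (by positivity)
        _ = K0 * Real.exp 1 / n₁ := by field_simp
        _ ≤ 1 / (4 * n) := by
            rw [div_le_div_iff₀ hn₁r (by positivity), one_mul, hn₁']
            nlinarith
    have h5 : 1 / (2 * (n : ℝ)) ≤ ‖FT T N O a o w'‖ := by
      have h6 : ‖GT T N O R a o (tp N n₁ o s)‖ ≤ ‖FT T N O a o w'‖ +
          ‖FT T N O a o w' - FT T N O a o (tp N n₁ o s)‖ +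
          ‖FT T N O a o (tp N n₁ o s) - GT T N O R a o (tp N n₁ o s)‖ := by
        calc ‖GT T N O R a o (tp N n₁ o s)‖ = ‖FT T N O a o w' -
            (FT T N O a o w' - FT T N O a o (tp N n₁ o s)) -
            (FT T N O a o (tp N n₁ o s) - GT T N O R a o (tp N n₁ o s))‖ := by congr 1; ring
          _ ≤ _ := (norm_sub_le _ _).trans (add_le_add_left (norm_sub_le _ _) _)
      have h7 : 1 / (n : ℝ) = 1 / (2 * n) + 1 / (4 * n) + 1 / (4 * n) := by field_simp; norm_num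
      linarith
    have hτo := T.hτ o
    have hτw := T.hτ w'
    have h9 : ‖PT T N O (fun o _ => a o) w'‖ * T.τ o = ‖FT T N O a o w'‖ * ‖ph N o 1 w'‖ := by
      rw [← norm_mul]
      unfold FT
      rw [div_mul_cancel₀ _ (ph_ne N w'.im_pos), norm_mul, Complex.norm_real, Real.norm_eq_abs,
        abs_of_pos hτo, mul_comm]
    have h13 : T.τ o ≤ T.τ w' * Real.exp 1 := by
      refine (T.hl o w').trans ?_
      refine mul_le_mul_of_nonneg_left (Real.exp_le_exp.2 ?_) hτw.le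
      have h14 : T.C * dist o w' ≤ T.C * (1 / Real.sqrt N) :=
        mul_le_mul_of_nonneg_left hγ₀ T.hC
      have h15 : T.C * (1 / Real.sqrt N) ≤ 1 := by
        rw [mul_one_div, div_le_one hs]
        have := T.hC
        linarith
      exact h14.trans h15
    have h10 : 1 / (2 * (n : ℝ)) * Real.exp (-2) ≤
        ‖FT T N O a o w'‖ * (‖ph N o 1 w'‖ * Real.sqrt w'.im ^ N) :=
      mul_le_mul h5 h8 (Real.exp_pos _).le (norm_nonneg _)
    have hsq : 0 ≤ Real.sqrt w'.im ^ N := pow_nonneg (Real.sqrt_nonneg _) N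
    have h16 : 1 / (2 * (n : ℝ)) * Real.exp (-2) ≤
        ‖PT T N O (fun o _ => a o) w'‖ * Real.sqrt w'.im ^ N * T.τ w' * Real.exp 1 := by
      calc _ ≤ ‖FT T N O a o w'‖ * (‖ph N o 1 w'‖ * Real.sqrt w'.im ^ N) := h10
        _ = ‖PT T N O (fun o _ => a o) w'‖ * Real.sqrt w'.im ^ N * T.τ o := by
            rw [← mul_assoc, ← h9]; ring
        _ ≤ ‖PT T N O (fun o _ => a o) w'‖ * Real.sqrt w'.im ^ N * (T.τ w' * Real.exp 1) :=
            mul_le_mul_of_nonneg_left h13 (mul_nonneg (norm_nonneg _) hsq)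
        _ = _ := by ring
    calc _ ≤ ‖PT T N O (fun o _ => a o) w'‖ * Real.sqrt w'.im ^ N * T.τ w' * Real.exp 1 *
          Real.exp (-1) := mul_le_mul_of_nonneg_right h16 (Real.exp_pos _).le
      _ = _ := by
          rw [mul_assoc _ (Real.exp 1), ← Real.exp_add]
          norm_num
  have hnot := hf o ho
  by_cases hQ : 1 / (n : ℝ) ≤ ‖GG Γ N O R (fun x => pen_val n (f x).1) o (tp N n₁ o s)‖
  · have h := key _ (fun o => pen_val_norm _) hQ
    exact ⟨h.trans (le_max_right _ _), h.trans (le_max_right _ _)⟩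
  · have hand : 1 / (n : ℝ) ≤ ‖GG Γ N O R (fun x => pen_val n (f x).2.1) o (tp N n₁ o s)‖ ∧
        1 / (n : ℝ) ≤ ‖GT T N O R (fun x => pen_val n (f x).2.2) o (tp N n₁ o s)‖ := by
      push Not at hQ
      constructor
      · by_contra hcon
        push Not at hcon
        exact hnot ⟨s, hs', hQ, Or.inl hcon⟩
      · by_contra hcon
        push Not at hcon
        exact hnot ⟨s, hs', hQ, Or.inr hcon⟩
    exact ⟨(key _ (fun o => pen_val_norm _) hand.1).trans (le_max_left _ _),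
      (keyT _ (fun o => pen_val_norm _) hand.2).trans (le_max_left _ _)⟩

end Pool.Agent.SfBundle
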