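import Mathlib
import Pool.Agent.Lib.MP_1d980c_gt.Sf.EEc
import Pool.Agent.Lib.MP_1d980c_gt.Sf.EEs
import Pool.Agent.Lib.MP_1d980c_gt.Sf.GrowB
import Pool.Agent.Lib.MP_1d980c_gt.Sf.NDc
import Pool.Agent.Lib.MP_1d980c_gt.Sf.NDd
import Pool.Agent.Lib.MP_1d980c_gt.Sf.PenB
import Pool.Agent.Lib.MP_1d980c_gt.Sf.NetK
import Pool.Agent.Lib.MP_1d980c_gt.Hyp.Assembly

set_option autoImplicit false
open scoped UpperHalfPlane MatrixGroups Manifold ContDiff Matrix Topology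
open Complex ComplexConjugate Pool.Agent.HypBundle

namespace Pool.Agent.SfBundle

variable {Γ : Subgroup SL(2, ℝ)}

/-- the phase `κ(γ,w) τ(w)/τ(γw)` -/
noncomputable def kh (T : Tw Γ) (γ : Γ) (w : ℍ) : ℂ := T.κ γ w * ((T.τ w / T.τ (γ • w) : ℝ) : ℂ)

/-- The phases of the frame: row `m-1` has the inverse phase, row `2m-1` the phase. -/
noncomputable def DT (m : ℕ) (T : Tw Γ) (γ : Γ) (w : ℍ) (i : Fin (2 * m)) : ℂ :=
  if i.val = m - 1 then (kh T γ w)⁻¹ else if i.val = 2 * m - 1 then kh T γ w else 1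

/-- the automorphy factors of the rows -/
noncomputable def eT (m : ℕ) (T : Tw Γ) (N : ℕ) (γ : Γ) (w : ℂ) (i : Fin m) : ℂ :=
  if i.val = m - 1 then (jf (γ : SL(2, ℝ)) w ^ N) ^ (m - 1) * (T.κ γ w)⁻¹
  else jf (γ : SL(2, ℝ)) w ^ N

lemma kh_norm (T : Tw Γ) (γ : Γ) (w : ℍ) : ‖kh T γ w‖ = 1 := by
  have h1 := T.hτ w
  have h2 := T.hτ (γ • w)
  unfold kh
  rw [norm_mul, T.hn, Complex.norm_real, Real.norm_eq_abs, abs_of_pos (by positivity)]
  field_simp

lemma κ_ne (T : Tw Γ) (γ : Γ) {w : ℂ} (hw : w ∈ HH) : T.κ γ w ≠ 0 := by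
  have h := T.hn γ ⟨w, hw⟩
  have h1 := T.hτ ⟨w, hw⟩
  have h2 := T.hτ (γ • ⟨w, hw⟩)
  intro h0
  have h3 : ‖T.κ γ ((⟨w, hw⟩ : ℍ) : ℂ)‖ = 0 := by
    have : ((⟨w, hw⟩ : ℍ) : ℂ) = w := rfl
    rw [this, h0, norm_zero]
  rw [h] at h3
  have : 0 < T.τ (γ • ⟨w, hw⟩) / T.τ ⟨w, hw⟩ := by positivity
  linarith

lemma PS_smul_const (N : ℕ) (O : Finset ℍ) (c : ℍ → ℂ) (δ : Γ) (w : ℍ) :
    PS Γ N O (fun o _ => c o) ((δ • w : ℍ) : ℂ) =
      jf (δ : SL(2, ℝ)) w ^ N * PS Γ N O (fun o _ => c o) w := by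
  rw [PS_smul]

lemma exists_eta_small {A ε : ℝ} (hε : 0 < ε) (K : ℝ) (hK : 0 < K) :
    ∃ ε' η₀ : ℝ, 0 < ε' ∧ 0 < η₀ ∧ ∀ η, 0 ≤ η → η ≤ η₀ →
      K * (2 * (ε' * Real.exp (A * η) + Real.exp (A * η) - Real.exp (-(A * η)))) ≤ ε := by
  obtain ⟨ε', hε'⟩ : ∃ ε', ε' = ε / (4 * K) := ⟨_, rfl⟩
  have h0 : 0 < ε' := by rw [hε']; positivity
  have hc : Continuous fun η : ℝ =>
      K * (2 * (ε' * Real.exp (A * η) + Real.exp (A * η) - Real.exp (-(A * η)))) := by fun_prop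
  have h1 : K * (2 * (ε' * Real.exp (A * 0) + Real.exp (A * 0) - Real.exp (-(A * 0)))) < ε := by
    simp only [mul_zero, Real.exp_zero, neg_zero, mul_one]
    rw [hε']
    have : K * (2 * (ε / (4 * K) + 1 - 1)) = ε / 2 := by field_simp; ring
    rw [this]; linarith
  have h2 := hc.continuousAt.eventually_lt (continuousAt_const (y := ε) (x := (0 : ℝ))) h1
  obtain ⟨δ, hδ, hb⟩ := Metric.eventually_nhds_iff.1 h2
  refine ⟨ε', δ / 2, h0, by positivity, fun η h3 h4 => (hb ?_).le⟩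
  rw [Real.dist_eq, sub_zero, abs_of_nonneg h3]
  linarith

lemma Uc_eq {m : ℕ} {U : Matrix (Fin (2 * m)) (Fin (2 * m)) ℝ} (hU : IsUnit U) :
    (Wm m * U.map Complex.ofReal)⁻¹ * Wm m = (U⁻¹).map Complex.ofReal := by
  have hW := Wm_unit m
  have hWd := (Matrix.isUnit_iff_isUnit_det _).1 hW
  have h4 := Matrix.nonsing_inv_mul U ((Matrix.isUnit_iff_isUnit_det _).1 hU)
  have h5 : (U⁻¹ * U).map Complex.ofReal =
      (1 : Matrix (Fin (2 * m)) (Fin (2 * m)) ℝ).map Complex.ofReal :=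
    congrArg (fun M => Matrix.map M Complex.ofReal) h4
  have h6 : (U⁻¹).map Complex.ofReal * U.map Complex.ofReal = 1 := by
    rw [Matrix.map_one _ (by simp) (by simp)] at h5
    rw [← h5]
    exact (Matrix.map_mul (f := Complex.ofRealHom)).symm
  have h7 : (U.map Complex.ofReal)⁻¹ = (U⁻¹).map Complex.ofReal :=
    Matrix.inv_eq_left_inv h6
  rw [Matrix.mul_inv_rev, h7, Matrix.mul_assoc, Matrix.nonsing_inv_mul _ hWd, Matrix.mul_one]

lemma Uc_unit {m : ℕ} {U : Matrix (Fin (2 * m)) (Fin (2 * m)) ℝ} (hU : IsUnit U) :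
    IsUnit (Wm m * U.map Complex.ofReal) := by
  refine (Wm_unit m).mul ?_
  have h := hU.map (Complex.ofRealHom.mapMatrix (m := Fin (2 * m)))
  exact h

theorem exists_LS (m : ℕ) (hm : 2 ≤ m) [DiscreteTopology Γ]
    (hfree : ∀ γ : Γ, γ ≠ 1 → ∀ w : ℍ, γ • w ≠ w)
    (hcoc : ∃ K : Set ℍ, IsCompact K ∧ ∀ w : ℍ, ∃ γ : Γ, γ • w ∈ K)
    (ρ : Γ →* Matrix (Fin (2 * m)) (Fin (2 * m)) ℝ) (T : Tw Γ)
    (U : ℍ → Matrix (Fin (2 * m)) (Fin (2 * m)) ℝ)
    (hU : Continuous U) (hUu : ∀ w, IsUnit (U w))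
    (hUe : ∀ (γ : Γ) (w : ℍ), (Wm m * (U (γ • w)).map Complex.ofReal) * (ρ γ).map Complex.ofReal =
      Matrix.diagonal (DT m T γ w) * (Wm m * (U w).map Complex.ofReal)) :
    ∃ (L : ℂ → Matrix (Fin m) (Fin (2 * m)) ℂ) (N : ℕ),
      (∀ i j, DifferentiableOn ℂ (fun w => L w i j) HH) ∧
      (∀ (γ : Γ) (w : ℍ), L ((γ • w : ℍ) : ℂ) * (ρ γ).map Complex.ofReal =
        Matrix.diagonal (eT m T N γ w) * L w) ∧
      ∀ w : ℍ, TorusBundle.ND (L w) := by
  obtain ⟨Uc, hUc⟩ : ∃ Uc : ℍ → Matrix (Fin (2 * m)) (Fin (2 * m)) ℂ,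
    Uc = fun w => Wm m * (U w).map Complex.ofReal := ⟨_, rfl⟩
  have F : Fr ρ Uc (DT m T) := by
    refine ⟨?_, fun w => ?_, fun γ w i => ?_, fun γ w => ?_⟩
    · rw [hUc]
      exact continuous_const.matrix_mul (hU.matrix_map Complex.continuous_ofReal)
    · rw [hUc]
      exact Uc_unit (hUu w)
    · unfold DT
      split_ifs
      · rw [norm_inv, kh_norm, inv_one]
      · exact kh_norm T γ w
      · exact norm_one
    · rw [hUc]
      exact hUe γ w
  obtain ⟨ι₀, hι0, hι⟩ := exists_inj Γ hfree hcoc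
  obtain ⟨c, N₁, hc, hpen⟩ := pencils3 T hι0 hι
  have hCE := CE_pos
  obtain ⟨ε, hε, hND⟩ := ND_LX hm (c := c) (C := CE * 2) hc
  obtain ⟨C, hC0, hG⟩ := U_growth hcoc F
  obtain ⟨K, hK, hKc⟩ := hcoc
  have hTC := T.hC
  have htC : (Tw.triv Γ).C = 0 := rfl
  obtain ⟨ε', η₀, hε'0, hη₀, hsmall⟩ := exists_eta_small (A := 2 * T.C) (ε := ε / 2) (by positivity) CE hCE
  obtain ⟨η₁, hη₁, hcl⟩ := U_close F.cont F.unit hK hε'0
  obtain ⟨η, hη⟩ : ∃ η, η = min η₀ η₁ := ⟨_, rfl⟩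
  have hη0 : 0 < η := by rw [hη]; exact lt_min hη₀ hη₁
  have hηη₀ : η ≤ η₀ := by rw [hη]; exact min_le_left _ _
  have hηη₁ : η ≤ η₁ := by rw [hη]; exact min_le_right _ _
  -- the choice of `N`
  have hlim : Filter.Tendsto (fun N : ℕ => CE * (2 * (C + 3)) * Real.exp (-(Real.sqrt N / 4) * η))
      Filter.atTop (𝓝 (CE * (2 * (C + 3)) * 0)) := by
    refine Filter.Tendsto.const_mul _ ?_
    have h1 : Filter.Tendsto (fun N : ℕ => Real.sqrt N) Filter.atTop Filter.atTop :=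
      Real.tendsto_sqrt_atTop.comp tendsto_natCast_atTop_atTop
    have h2 : Filter.Tendsto (fun N : ℕ => Real.sqrt N / 4 * η) Filter.atTop Filter.atTop :=
      (h1.atTop_div_const (by norm_num)).atTop_mul_const hη0
    refine (Real.tendsto_exp_neg_atTop_nhds_zero.comp h2).congr fun N => ?_
    simp only [Function.comp_apply, neg_mul]
  rw [mul_zero] at hlim
  have hev := hlim.eventually (ge_mem_nhds (show (0 : ℝ) < ε / 2 by positivity))
  have hsq : Filter.Tendsto (fun N : ℕ => Real.sqrt N) Filter.atTop Filter.atTop :=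
    Real.tendsto_sqrt_atTop.comp tendsto_natCast_atTop_atTop
  obtain ⟨N, ⟨⟨⟨⟨hNε, hN1⟩, hN256⟩, hN4⟩, hNι⟩⟩ := ((((hev.and (Filter.eventually_ge_atTop N₁)).and
    (Filter.eventually_ge_atTop 256)).and (hsq.eventually_ge_atTop (4 * (C + 2 * T.C)))).and
    (hsq.eventually_ge_atTop (1 / ι₀))).exists
  have hs16 := e2_sqrt hN256
  have hr0 : 0 < 1 / Real.sqrt N := by positivity
  have hrι : 1 / Real.sqrt N ≤ ι₀ := by
    rw [div_le_iff₀ (by positivity)]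
    rw [div_le_iff₀ hι0] at hNι
    linarith
  obtain ⟨O, hO, hOK⟩ := exists_netK Γ hK hKc hι hr0 hrι
  obtain ⟨a, b, d, ha, hb, hd, hab⟩ := hpen N hN1 O hO
  have hC2t : 2 * (C + (Tw.triv Γ).C) ≤ Real.sqrt N := by rw [htC]; linarith
  have hC2 : 2 * (C + T.C) ≤ Real.sqrt N := by linarith
  -- the family
  refine ⟨fun w => LX m (PS Γ N O (fun o _ => a o) w) (PS Γ N O (fun o _ => b o) w)
    (EE ρ Uc (Tw.triv Γ) N O a w) (EE ρ Uc (Tw.triv Γ) N O b w) (EE ρ Uc (Tw.triv Γ) N O d w)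
    (EE ρ Uc T N O b w) (EE ρ Uc T N O d w), N, ?_, ?_, ?_⟩
  · have hconst : ∀ {a : ℍ → ℂ}, (∀ o, ‖a o‖ ≤ 2) →
        DifferentiableOn ℂ (PS Γ N O (fun o _ => a o)) HH := by
      intro a ha
      refine differentiableOn_PS (B := 2) (C := 0) hN256 hO le_rfl (by simp) UpperHalfPlane.I ?_
      intro o _ γ
      rw [zero_mul, Real.exp_zero, mul_one]
      exact ha o
    exact LX_diff (hconst ha) (hconst hb) (EE_diff F _ hC0.le hG ha hN256 hO hC2t)
      (EE_diff F _ hC0.le hG hb hN256 hO hC2t) (EE_diff F _ hC0.le hG hd hN256 hO hC2t)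
      (EE_diff F T hC0.le hG hb hN256 hO hC2) (EE_diff F T hC0.le hG hd hN256 hO hC2)
  · intro γ w
    have h1 := LX_smul_mul (m := m) hm 1 1 (PS Γ N O (fun o _ => a o) ((γ • w : ℍ) : ℂ))
      (PS Γ N O (fun o _ => b o) ((γ • w : ℍ) : ℂ)) (EE ρ Uc (Tw.triv Γ) N O a ((γ • w : ℍ) : ℂ))
      (EE ρ Uc (Tw.triv Γ) N O b ((γ • w : ℍ) : ℂ)) (EE ρ Uc (Tw.triv Γ) N O d ((γ • w : ℍ) : ℂ))
      (EE ρ Uc T N O b ((γ • w : ℍ) : ℂ)) (EE ρ Uc T N O d ((γ • w : ℍ) : ℂ))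
      ((ρ γ).map Complex.ofReal)
    simp only [one_mul, one_smul, one_pow, mul_one, ite_self, Matrix.diagonal_one,
      Matrix.one_mul] at h1
    have h2 := LX_smul_mul (m := m) hm (jf (γ : SL(2, ℝ)) w ^ N) ((T.κ γ w)⁻¹)
      (PS Γ N O (fun o _ => a o) w)
      (PS Γ N O (fun o _ => b o) w) (EE ρ Uc (Tw.triv Γ) N O a w) (EE ρ Uc (Tw.triv Γ) N O b w)
      (EE ρ Uc (Tw.triv Γ) N O d w) (EE ρ Uc T N O b w) (EE ρ Uc T N O d w) 1
    simp only [Matrix.mul_one] at h2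
    have ht : jf (γ : SL(2, ℝ)) w ^ N * ((Tw.triv Γ).κ γ w)⁻¹ = jf (γ : SL(2, ℝ)) w ^ N := by
      show jf (γ : SL(2, ℝ)) w ^ N * (1 : ℂ)⁻¹ = _
      rw [inv_one, mul_one]
    rw [← h1, EE_smul F _ hC0.le hG ha hN256 hO hC2t, EE_smul F _ hC0.le hG hb hN256 hO hC2t,
      EE_smul F _ hC0.le hG hd hN256 hO hC2t, EE_smul F _ hC0.le hG hb hN256 hO hC2,
      EE_smul F _ hC0.le hG hd hN256 hO hC2, ht, PS_smul_const, PS_smul_const]
    exact h2
  · intro w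
    obtain ⟨h, hh⟩ : ∃ h : ℝ, h = Real.sqrt w.im ^ N := ⟨_, rfl⟩
    have hh0 : 0 < h := by rw [hh]; exact pow_pos (Real.sqrt_pos.2 w.im_pos) N
    have hτ := T.hτ w
    have hnorm : ∀ z : ℂ, ‖(h : ℂ) * z‖ = ‖z‖ * h := by
      intro z
      rw [norm_mul, Complex.norm_real, Real.norm_eq_abs, abs_of_pos hh0, mul_comm]
    have hup : ∀ {a : ℍ → ℂ}, (∀ o, ‖a o‖ ≤ 2) → ‖(h : ℂ) * PS Γ N O (fun o _ => a o) w‖ ≤ CE * 2 := by
      intro a ha
      rw [hnorm, hh]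
      refine norm_PS_le (B := 2) (C := 0) hN256 hO (by norm_num) le_rfl (by simp) w ?_
      intro o _ γ
      rw [zero_mul, Real.exp_zero, mul_one]
      exact ha o
    have hupT : ‖(h : ℂ) * (T.τ w * PT T N O (fun o _ => d o) w)‖ ≤ CE * 2 := by
      rw [hnorm, norm_mul, Complex.norm_real, Real.norm_eq_abs, abs_of_pos hτ, hh]
      have h1 := norm_PT_le (T := T) (A := fun o _ => d o) (B := 2) (C := 0) hN256 hO (by norm_num)
        le_rfl (by rw [zero_add]; linarith) w (fun o _ γ => by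
          rw [zero_mul, Real.exp_zero, mul_one]
          exact hd o)
      calc T.τ w * ‖PT T N O (fun o _ => d o) w‖ * Real.sqrt w.im ^ N
          = ‖PT T N O (fun o _ => d o) w‖ * Real.sqrt w.im ^ N * T.τ w := by ring
        _ ≤ CE * 2 := h1
    have hclose : ∀ (T₁ T₂ : Tw Γ), T₁.C ≤ T.C → T₂.C ≤ T.C → ∀ (x : ℍ → ℂ), (∀ o, ‖x o‖ ≤ 2) →
        ∀ i, (∀ γ : Γ, DT m T γ w i * (T₁.κ γ w * (T₁.τ w / T₁.τ (γ • w) : ℝ)) =
          T₂.κ γ w * (T₂.τ w / T₂.τ (γ • w) : ℝ)) → ∀ j,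
        ‖(h : ℂ) * ((T₁.τ w : ℂ) * (EE ρ Uc T₁ N O x w * (Uc w)⁻¹) i j) -
          (h : ℂ) * ((T₂.τ w : ℂ) * PT T₂ N O (fun o _ => x o) w) *
            (1 : Matrix (Fin (2 * m)) (Fin (2 * m)) ℂ) i j‖ ≤ ε := by
      intro T₁ T₂ h1 h2 x hx i hi j
      have e := EE_close F T₁ T₂ hC0.le hG hx hN256 hO hOK
        (by linarith) hε'0.le hη0.le
        (fun x hx w hw => hcl x hx w (hw.trans hηη₁)) w i hi j
      rw [mul_assoc, ← mul_sub, hnorm, hh]
      refine e.trans ?_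
      have hA : T₁.C + T₂.C ≤ 2 * T.C := by linarith
      have hA0 : 0 ≤ T₁.C + T₂.C := add_nonneg T₁.hC T₂.hC
      have hA1 : T₁.C ≤ 2 * T.C := by linarith
      have e1 : Real.exp (T₁.C * η) ≤ Real.exp (2 * T.C * η) :=
        Real.exp_le_exp.2 (mul_le_mul_of_nonneg_right hA1 hη0.le)
      have e2 : Real.exp ((T₁.C + T₂.C) * η) ≤ Real.exp (2 * T.C * η) :=
        Real.exp_le_exp.2 (mul_le_mul_of_nonneg_right hA hη0.le)
      have e3 : Real.exp (-(2 * T.C * η)) ≤ Real.exp (-((T₁.C + T₂.C) * η)) :=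
        Real.exp_le_exp.2 (neg_le_neg (mul_le_mul_of_nonneg_right hA hη0.le))
      have e4 := hsmall η hη0.le hηη₀
      have e5 : ε' * Real.exp (T₁.C * η) ≤ ε' * Real.exp (2 * T.C * η) :=
        mul_le_mul_of_nonneg_left e1 hε'0.le
      have e7 : CE * (2 * (ε' * Real.exp (T₁.C * η) + Real.exp ((T₁.C + T₂.C) * η) -
          Real.exp (-((T₁.C + T₂.C) * η)))) ≤
          CE * (2 * (ε' * Real.exp (2 * T.C * η) + Real.exp (2 * T.C * η) -
            Real.exp (-(2 * T.C * η)))) := by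
        refine mul_le_mul_of_nonneg_left ?_ hCE.le
        linarith
      rw [mul_add]
      have e8 : CE * (2 * (C + 3) * Real.exp (-(Real.sqrt N / 4) * η)) ≤ ε / 2 := by
        rw [← mul_assoc]
        exact hNε
      linarith
    have htr : ∀ x : ℍ → ℂ, PT (Tw.triv Γ) N O (fun o _ => x o) w = PS Γ N O (fun o _ => x o) w :=
      fun x => PT_triv _ _
    have hτ1 : ∀ w : ℍ, (Tw.triv Γ).τ w = 1 := fun _ => rfl
    have hκ1 : ∀ (γ : Γ) (w : ℂ), (Tw.triv Γ).κ γ w = 1 := fun _ _ => rfl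
    have htCl : (Tw.triv Γ).C ≤ T.C := by rw [htC]; exact hTC
    have hkh : ∀ γ : Γ, T.κ γ w * ((T.τ w / T.τ (γ • w) : ℝ) : ℂ) = kh T γ w := fun γ => rfl
    have hkn : ∀ γ : Γ, kh T γ w ≠ 0 := by
      intro γ h0
      have := kh_norm T γ w
      rw [h0, norm_zero] at this
      exact zero_ne_one this
    have hlow := hab w
    have h1 := hND ((h : ℂ) * PS Γ N O (fun o _ => a o) w) ((h : ℂ) * PS Γ N O (fun o _ => b o) w)
      ((h : ℂ) * (T.τ w * PT T N O (fun o _ => d o) w))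
      ((h : ℂ) • (EE ρ Uc (Tw.triv Γ) N O a w * (Uc w)⁻¹))
      ((h : ℂ) • (EE ρ Uc (Tw.triv Γ) N O b w * (Uc w)⁻¹))
      ((h : ℂ) • (EE ρ Uc (Tw.triv Γ) N O d w * (Uc w)⁻¹))
      (((h : ℂ) * (T.τ w : ℂ)) • (EE ρ Uc T N O b w * (Uc w)⁻¹))
      (((h : ℂ) * (T.τ w : ℂ)) • (EE ρ Uc T N O d w * (Uc w)⁻¹))
      (by rw [hnorm, hnorm, hh]; exact hlow.1)
      (by
        rw [hnorm, hnorm, norm_mul, Complex.norm_real, Real.norm_eq_abs, abs_of_pos hτ, hh]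
        refine hlow.2.trans (le_of_eq ?_)
        congr 1
        ring)
      (hup ha) (hup hb) hupT
      (fun i j hi => by
        have e := hclose (Tw.triv Γ) (Tw.triv Γ) htCl htCl a ha i (fun γ => by
          unfold DT
          rw [if_neg (by omega), if_neg (by omega), one_mul]) j
        rw [hτ1, htr, Complex.ofReal_one, one_mul, one_mul] at e
        rw [Matrix.smul_apply, smul_eq_mul]
        exact e)
      (fun i j hi => by
        have e := hclose (Tw.triv Γ) (Tw.triv Γ) htCl htCl b hb i (fun γ => by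
          unfold DT
          rw [if_neg (by omega), if_neg (by omega), one_mul]) j
        rw [hτ1, htr, Complex.ofReal_one, one_mul, one_mul] at e
        rw [Matrix.smul_apply, smul_eq_mul]
        exact e)
      (fun i j hi => by
        have e := hclose (Tw.triv Γ) T htCl le_rfl d hd i (fun γ => by
          unfold DT
          rw [if_neg (by omega), if_pos hi, hkh, hκ1, hτ1, hτ1]
          simp) j
        rw [hτ1, Complex.ofReal_one, one_mul] at e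
        rw [Matrix.smul_apply, smul_eq_mul]
        exact e)
      (fun i j hi => by
        have e := hclose T (Tw.triv Γ) le_rfl htCl b hb i (fun γ => by
          unfold DT
          rw [if_pos hi, hkh, hκ1, hτ1, hτ1, inv_mul_cancel₀ (hkn γ)]
          simp) j
        rw [hτ1, htr, Complex.ofReal_one, one_mul, ← mul_assoc] at e
        rw [Matrix.smul_apply, smul_eq_mul]
        exact e)
      (fun i j hi hi' => by
        have e := hclose T T le_rfl le_rfl d hd i (fun γ => by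
          unfold DT
          rw [if_neg (by omega), if_neg (by omega), one_mul]) j
        rw [← mul_assoc] at e
        rw [Matrix.smul_apply, smul_eq_mul]
        exact e)
    rw [LX_smul_mul hm] at h1
    set L := LX m (PS Γ N O (fun o _ => a o) w) (PS Γ N O (fun o _ => b o) w)
      (EE ρ Uc (Tw.triv Γ) N O a w) (EE ρ Uc (Tw.triv Γ) N O b w) (EE ρ Uc (Tw.triv Γ) N O d w)
      (EE ρ Uc T N O b w) (EE ρ Uc T N O d w) with hL
    have hhc : (h : ℂ) ≠ 0 := Complex.ofReal_ne_zero.2 hh0.ne'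
    have hτc : (T.τ w : ℂ) ≠ 0 := Complex.ofReal_ne_zero.2 hτ.ne'
    have hgn : ∀ i : Fin m, (if i.val = m - 1 then (h : ℂ) ^ (m - 1) * (T.τ w : ℂ) else (h : ℂ)) ≠ 0 := by
      intro i
      split_ifs
      · exact mul_ne_zero (pow_ne_zero _ hhc) hτc
      · exact hhc
    rw [Matrix.mul_assoc, Matrix.mul_assoc] at h1
    have h2 := TorusBundle.ND_diagonal h1
      (d := fun i : Fin m => (if i.val = m - 1 then (h : ℂ) ^ (m - 1) * (T.τ w : ℂ) else (h : ℂ))⁻¹)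
      (fun i => inv_ne_zero (hgn i))
    rw [← Matrix.mul_assoc, Matrix.diagonal_mul_diagonal] at h2
    have e2 : (fun i : Fin m =>
        (if i.val = m - 1 then (h : ℂ) ^ (m - 1) * (T.τ w : ℂ) else (h : ℂ))⁻¹ *
        (if i.val = m - 1 then (h : ℂ) ^ (m - 1) * (T.τ w : ℂ) else (h : ℂ))) = fun _ => 1 := by
      funext i
      exact inv_mul_cancel₀ (hgn i)
    rw [e2, Matrix.diagonal_one, Matrix.one_mul, hUc] at h2
    simp only [Uc_eq (hUu w)] at h2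
    have h3 := TorusBundle.ND_mul_real h2 (hUu w)
    have e3 : ((U w)⁻¹).map Complex.ofReal * (U w).map Complex.ofReal = 1 := by
      have h4 := Matrix.nonsing_inv_mul (U w) ((Matrix.isUnit_iff_isUnit_det _).1 (hUu w))
      have h5 : ((U w)⁻¹ * U w).map Complex.ofReal =
          (1 : Matrix (Fin (2 * m)) (Fin (2 * m)) ℝ).map Complex.ofReal :=
        congrArg (fun M => Matrix.map M Complex.ofReal) h4
      rw [Matrix.map_one _ (by simp) (by simp)] at h5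
      rw [← h5]
      exact (Matrix.map_mul (f := Complex.ofRealHom)).symm
    rw [Matrix.mul_assoc, e3, Matrix.mul_one] at h3
    exact h3

end Pool.Agent.SfBundle
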