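import Mathlib
import Pool.Agent.Lib.MP_1d980c_gt.Sf.Defs

set_option autoImplicit false
open scoped UpperHalfPlane MatrixGroups Manifold ContDiff Matrix Topology
open Complex ComplexConjugate Pool.Agent.HypBundle

namespace Pool.Agent.SfBundle

/-- the square matrix with rows those of `S` and `X` -/
noncomputable def stk {k : ℕ} (S : Matrix (Fin k) (Fin (k + 2)) ℝ)
    (X : Matrix (Fin 2) (Fin (k + 2)) ℝ) : Matrix (Fin (k + 2)) (Fin (k + 2)) ℝ :=
  Matrix.of (Fin.append (fun i => S i) (fun i => X i))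

private lemma stk_castAdd {k : ℕ} (S : Matrix (Fin k) (Fin (k + 2)) ℝ)
    (X : Matrix (Fin 2) (Fin (k + 2)) ℝ) (i : Fin k) (j : Fin (k + 2)) :
    stk S X (Fin.castAdd 2 i) j = S i j := by
  unfold stk
  rw [Matrix.of_apply, Fin.append_left]

private lemma stk_natAdd {k : ℕ} (S : Matrix (Fin k) (Fin (k + 2)) ℝ)
    (X : Matrix (Fin 2) (Fin (k + 2)) ℝ) (i : Fin 2) (j : Fin (k + 2)) :
    stk S X (Fin.natAdd k i) j = X i j := by
  unfold stk
  rw [Matrix.of_apply, Fin.append_right]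

private lemma stk_ext {k : ℕ} {A B : Matrix (Fin (k + 2)) (Fin (k + 2)) ℝ}
    (h1 : ∀ i j, A (Fin.castAdd 2 i) j = B (Fin.castAdd 2 i) j)
    (h2 : ∀ i j, A (Fin.natAdd k i) j = B (Fin.natAdd k i) j) : A = B := by
  ext i j
  refine Fin.addCases (fun i => h1 i j) (fun i => h2 i j) i

/-- a vector killed by `S` and `X` on the left is zero, as rows -/
private lemma stk_vecMul {k : ℕ} (S : Matrix (Fin k) (Fin (k + 2)) ℝ)
    (X : Matrix (Fin 2) (Fin (k + 2)) ℝ) (v : Fin (k + 2) → ℝ) :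
    v ᵥ* stk S X = (fun i => v (Fin.castAdd 2 i)) ᵥ* S + (fun i => v (Fin.natAdd k i)) ᵥ* X := by
  funext j
  simp only [Matrix.vecMul, dotProduct, Pi.add_apply]
  rw [Fin.sum_univ_add]
  simp only [stk_castAdd, stk_natAdd]

private lemma stk_mulVec_eq_zero {k : ℕ} (S : Matrix (Fin k) (Fin (k + 2)) ℝ)
    (X : Matrix (Fin 2) (Fin (k + 2)) ℝ) (v : Fin (k + 2) → ℝ) (h1 : S *ᵥ v = 0)
    (h2 : X *ᵥ v = 0) : stk S X *ᵥ v = 0 := by
  funext i
  refine Fin.addCases (fun i => ?_) (fun i => ?_) i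
  · have h := congrFun h1 i
    simp only [Matrix.mulVec, dotProduct, stk_castAdd] at h ⊢
    exact h
  · have h := congrFun h2 i
    simp only [Matrix.mulVec, dotProduct, stk_natAdd] at h ⊢
    exact h

/-- `M = stk S X`: `M H Mᵀ` is block diagonal with blocks `S H Sᵀ` (positive definite) and `1`. -/
lemma stk_unit {k : ℕ} {S : Matrix (Fin k) (Fin (k + 2)) ℝ} (hS : LinearIndependent ℝ S.row)
    {H : Matrix (Fin (k + 2)) (Fin (k + 2)) ℝ} (hH : H.PosDef)
    {X : Matrix (Fin 2) (Fin (k + 2)) ℝ} (h1 : X * H * Sᵀ = 0) (h2 : X * H * Xᵀ = 1) :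
    (stk S X).det ≠ 0 := by
  intro hdet
  obtain ⟨v, hv, hv0⟩ := Matrix.exists_vecMul_eq_zero_iff.2 hdet
  rw [stk_vecMul] at hv0
  set a : Fin k → ℝ := fun i => v (Fin.castAdd 2 i) with ha
  set b : Fin 2 → ℝ := fun i => v (Fin.natAdd k i) with hb
  have hHt : Hᵀ = H := by
    have := hH.isHermitian.eq
    rwa [Matrix.conjTranspose_eq_transpose_of_trivial] at this
  have h3 : S * H * Xᵀ = 0 := by
    have h4 : (X * H * Sᵀ)ᵀ = 0 := by rw [h1, Matrix.transpose_zero]
    rw [Matrix.transpose_mul, Matrix.transpose_mul, Matrix.transpose_transpose, hHt,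
      ← Matrix.mul_assoc] at h4
    exact h4
  have hb0 : b = 0 := by
    have h5 : (a ᵥ* S + b ᵥ* X) ᵥ* (H * Xᵀ) = 0 := by rw [hv0, Matrix.zero_vecMul]
    rw [Matrix.add_vecMul, Matrix.vecMul_vecMul, Matrix.vecMul_vecMul, ← Matrix.mul_assoc,
      ← Matrix.mul_assoc, h3, h2, Matrix.vecMul_zero, Matrix.vecMul_one, zero_add] at h5
    exact h5
  rw [hb0, Matrix.zero_vecMul, add_zero] at hv0
  have ha0 : a = 0 := by
    have h6 := Matrix.vecMul_injective_iff.2 hS
    exact h6 (by simpa using hv0)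
  apply hv
  funext i
  refine Fin.addCases (fun i => ?_) (fun i => ?_) i
  · exact congrFun ha0 i
  · exact congrFun hb0 i

lemma stk_mul {k : ℕ} (S : Matrix (Fin k) (Fin (k + 2)) ℝ) (X : Matrix (Fin 2) (Fin (k + 2)) ℝ)
    (A : Matrix (Fin (k + 2)) (Fin (k + 2)) ℝ) : stk S X * A = stk (S * A) (X * A) := by
  refine stk_ext (fun i j => ?_) (fun i j => ?_)
  · rw [stk_castAdd, Matrix.mul_apply, Matrix.mul_apply]
    simp only [stk_castAdd]
  · rw [stk_natAdd, Matrix.mul_apply, Matrix.mul_apply]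
    simp only [stk_natAdd]

/-- `det (stk S (R X)) = det R * det (stk S X)` -/
lemma stk_rot {k : ℕ} (S : Matrix (Fin k) (Fin (k + 2)) ℝ) (X : Matrix (Fin 2) (Fin (k + 2)) ℝ)
    (R : Matrix (Fin 2) (Fin 2) ℝ) : (stk S (R * X)).det = R.det * (stk S X).det := by
  have h : stk S (R * X) =
      (Matrix.reindex finSumFinEquiv finSumFinEquiv
        (Matrix.fromBlocks (1 : Matrix (Fin k) (Fin k) ℝ) 0 0 R)) * stk S X := by
    refine stk_ext (fun i j => ?_) (fun i j => ?_)
    · rw [stk_castAdd, Matrix.mul_apply, Fin.sum_univ_add]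
      simp [stk_castAdd, stk_natAdd, Matrix.one_apply]
    · rw [stk_natAdd, Matrix.mul_apply, Matrix.mul_apply, Fin.sum_univ_add]
      simp [stk_castAdd, stk_natAdd]
  rw [h, Matrix.det_mul, Matrix.det_reindex_self, Matrix.det_fromBlocks_zero₂₁, Matrix.det_one,
    one_mul]

/-- If `X'` satisfies the same equations as `X` then `X' = R X` with `R = X' H Xᵀ`, `R Rᵀ = 1`.
(`(X' - R X) H (stk S X)ᵀ = 0`.) -/
lemma rot_eq {k : ℕ} {S : Matrix (Fin k) (Fin (k + 2)) ℝ} (hS : LinearIndependent ℝ S.row)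
    {H : Matrix (Fin (k + 2)) (Fin (k + 2)) ℝ} (hH : H.PosDef)
    {X X' : Matrix (Fin 2) (Fin (k + 2)) ℝ} (h1 : X * H * Sᵀ = 0) (h2 : X * H * Xᵀ = 1)
    (h1' : X' * H * Sᵀ = 0) (h2' : X' * H * X'ᵀ = 1) :
    X' = (X' * H * Xᵀ) * X ∧ (X' * H * Xᵀ) * (X' * H * Xᵀ)ᵀ = 1 := by
  have hHt : Hᵀ = H := by
    have := hH.isHermitian.eq
    rwa [Matrix.conjTranspose_eq_transpose_of_trivial] at this
  set R := X' * H * Xᵀ with hR
  set D := X' - R * X with hD
  have hDS : D * H * Sᵀ = 0 := by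
    rw [hD, Matrix.sub_mul, Matrix.sub_mul, h1', Matrix.mul_assoc R X H, Matrix.mul_assoc R (X * H),
      h1, Matrix.mul_zero, sub_zero]
  have hDX : D * H * Xᵀ = 0 := by
    rw [hD, Matrix.sub_mul, Matrix.sub_mul, ← hR, Matrix.mul_assoc R X H,
      Matrix.mul_assoc R (X * H), h2, Matrix.mul_one, sub_self]
  have hDH : D * H = 0 := by
    have hdet := stk_unit hS hH h1 h2
    have hinj : ∀ v : Fin (k + 2) → ℝ, stk S X *ᵥ v = 0 → v = 0 := by
      intro v hv
      by_contra hne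
      exact hdet (Matrix.exists_mulVec_eq_zero_iff.1 ⟨v, hne, hv⟩)
    have hT1 : S * (D * H)ᵀ = 0 := by
      have h := congrArg Matrix.transpose hDS
      rwa [Matrix.transpose_mul, Matrix.transpose_transpose, Matrix.transpose_zero] at h
    have hT2 : X * (D * H)ᵀ = 0 := by
      have h := congrArg Matrix.transpose hDX
      rwa [Matrix.transpose_mul, Matrix.transpose_transpose, Matrix.transpose_zero] at h
    ext i j
    have hrow : (D * H) i = 0 := by
      apply hinj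
      apply stk_mulVec_eq_zero
      · funext l
        have h := congrFun (congrFun hT1 l) i
        rw [Matrix.mul_apply] at h
        exact h
      · funext l
        have h := congrFun (congrFun hT2 l) i
        rw [Matrix.mul_apply] at h
        exact h
    rw [hrow]
    rfl
  have hD0 : D = 0 := by
    have hu : IsUnit H.det := hH.det_pos.ne'.isUnit
    calc D = D * (H * H⁻¹) := by rw [Matrix.mul_nonsing_inv _ hu, Matrix.mul_one]
      _ = (D * H) * H⁻¹ := by rw [Matrix.mul_assoc]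
      _ = 0 := by rw [hDH, Matrix.zero_mul]
  have hX' : X' = R * X := sub_eq_zero.1 hD0
  refine ⟨hX', ?_⟩
  have h3 : R * (X * H * Xᵀ) * Rᵀ = 1 := by
    rw [← h2', hX', Matrix.transpose_mul R X]
    simp only [Matrix.mul_assoc]
  rw [h2, Matrix.mul_one] at h3
  exact h3

end Pool.Agent.SfBundle
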