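import Mathlib
import Pool.Agent.Lib.MP_1d980c_gt.Sf.Defs

set_option autoImplicit false
open scoped UpperHalfPlane MatrixGroups Manifold ContDiff Matrix Topology
open Complex ComplexConjugate Pool.Agent.HypBundle

namespace Pool.Agent.SfBundle

/-- orthogonal `2 × 2` matrices of positive determinant are rotations -/
lemma rot_two {R : Matrix (Fin 2) (Fin 2) ℝ} (h : R * Rᵀ = 1) (hd : 0 < R.det) :
    R 1 0 = -R 0 1 ∧ R 1 1 = R 0 0 ∧ R 0 0 ^ 2 + R 0 1 ^ 2 = 1 := by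
  have e00 : R 0 0 ^ 2 + R 0 1 ^ 2 = 1 := by
    have := congrFun (congrFun h 0) 0
    simp [Matrix.mul_apply, Fin.sum_univ_two] at this
    nlinarith
  have e11 : R 1 0 ^ 2 + R 1 1 ^ 2 = 1 := by
    have := congrFun (congrFun h 1) 1
    simp [Matrix.mul_apply, Fin.sum_univ_two] at this
    nlinarith
  have e01 : R 0 0 * R 1 0 + R 0 1 * R 1 1 = 0 := by
    have := congrFun (congrFun h 0) 1
    simpa [Matrix.mul_apply, Fin.sum_univ_two] using this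
  rw [Matrix.det_fin_two] at hd
  have e2 : (R 0 0 * R 1 1 - R 0 1 * R 1 0) ^ 2 = 1 := by
    have : (R 0 0 * R 1 1 - R 0 1 * R 1 0) ^ 2 = (R 0 0 ^ 2 + R 0 1 ^ 2) *
        (R 1 0 ^ 2 + R 1 1 ^ 2) - (R 0 0 * R 1 0 + R 0 1 * R 1 1) ^ 2 := by ring
    rw [this, e00, e11, e01]
    norm_num
  have e3 : R 0 0 * R 1 1 - R 0 1 * R 1 0 = 1 := by nlinarith
  have e4 : (R 0 0 - R 1 1) ^ 2 + (R 0 1 + R 1 0) ^ 2 = 0 := by nlinarith
  have s1 := sq_nonneg (R 0 0 - R 1 1)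
  have s2 := sq_nonneg (R 0 1 + R 1 0)
  have e5 : (R 0 0 - R 1 1) ^ 2 = 0 := by linarith
  have e6 : (R 0 1 + R 1 0) ^ 2 = 0 := by linarith
  have e7 : R 0 0 - R 1 1 = 0 := pow_eq_zero_iff two_ne_zero |>.1 e5
  have e8 : R 0 1 + R 1 0 = 0 := pow_eq_zero_iff two_ne_zero |>.1 e6
  exact ⟨by linarith, by linarith, e00⟩

/-- A continuous nonvanishing real function on `ℍ` has constant sign. -/
lemma sign_const {f : ℍ → ℝ} (hf : Continuous f) (h0 : ∀ w, f w ≠ 0) (x w : ℍ) :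
    0 < f x * f w := by
  rcases lt_or_gt_of_ne (h0 x) with h1 | h1 <;> rcases lt_or_gt_of_ne (h0 w) with h2 | h2
  · exact mul_pos_of_neg_of_neg h1 h2
  · obtain ⟨z, hz⟩ := mem_range_of_exists_le_of_exists_ge hf ⟨x, h1.le⟩ ⟨w, h2.le⟩
    exact absurd hz (h0 z)
  · obtain ⟨z, hz⟩ := mem_range_of_exists_le_of_exists_ge hf ⟨w, h2.le⟩ ⟨x, h1.le⟩
    exact absurd hz (h0 z)
  · exact mul_pos h1 h2

end Pool.Agent.SfBundle
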