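import Mathlib
import Pool.Agent.Lib.MP_1d980c_gt.Sf.RotA
import Pool.Agent.Lib.MP_1d980c_gt.Sf.RotB

set_option autoImplicit false
open scoped UpperHalfPlane MatrixGroups Manifold ContDiff Matrix Topology
open Complex ComplexConjugate Pool.Agent.HypBundle

namespace Pool.Agent.SfBundle

/-- the complex row `X_0 + i X_1` -/
noncomputable def zr {n : ℕ} (X : Matrix (Fin 2) (Fin n) ℝ) : Fin n → ℂ :=
  fun j => (X 0 j : ℂ) + Complex.I * (X 1 j : ℂ)

private lemma zr_mul {n : ℕ} (X : Matrix (Fin 2) (Fin n) ℝ) (A : Matrix (Fin n) (Fin n) ℝ) :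
    zr X ᵥ* A.map Complex.ofReal = zr (X * A) := by
  funext j
  simp only [Matrix.vecMul, dotProduct, zr, Matrix.map_apply, Matrix.mul_apply]
  push_cast
  rw [Finset.mul_sum, ← Finset.sum_add_distrib]
  refine Finset.sum_congr rfl fun x _ => ?_
  ring

private lemma zr_rot {n : ℕ} (X : Matrix (Fin 2) (Fin n) ℝ) {R : Matrix (Fin 2) (Fin 2) ℝ}
    (h1 : R 1 0 = -R 0 1) (h2 : R 1 1 = R 0 0) :
    zr (R * X) = ((R 0 0 : ℂ) - Complex.I * (R 0 1 : ℂ)) • zr X := by
  funext j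
  simp only [zr, Matrix.mul_apply, Fin.sum_univ_two, Pi.smul_apply, smul_eq_mul, h1, h2]
  push_cast
  linear_combination ((R 0 1 : ℂ) * (X 1 j : ℂ)) * Complex.I_sq

private lemma det_pos_aux {k : ℕ} {S S' : Matrix (Fin k) (Fin (k + 2)) ℝ}
    {X X' : Matrix (Fin 2) (Fin (k + 2)) ℝ} {A : Matrix (Fin (k + 2)) (Fin (k + 2)) ℝ}
    {R : Matrix (Fin 2) (Fin 2) ℝ} (hA : 0 < A.det) (hS : S' * A = S) (hX : X' * A = R * X)
    (hf : 0 < (stk S' X').det * (stk S X).det) : 0 < R.det := by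
  have e1 : (stk S' X').det * A.det = R.det * (stk S X).det := by
    rw [← Matrix.det_mul, stk_mul, hS, hX, stk_rot]
  have e2 : R.det * ((stk S X).det * (stk S X).det) = ((stk S' X').det * (stk S X).det) * A.det := by
    linear_combination (-(stk S X).det) * e1
  have h3 : 0 < R.det * ((stk S X).det * (stk S X).det) := by
    rw [e2]
    exact mul_pos hf hA
  have h4 : 0 ≤ (stk S X).det * (stk S X).det := mul_self_nonneg _
  by_contra hc
  push Not at hc
  have := mul_nonpos_of_nonpos_of_nonneg hc h4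
  linarith

/-- **The rotation cocycle.** Apply `rot_eq` at `w` to `X' = X(γw) ρ(γ)` (equations:
`S(γw) ρ(γ) = S(w)`, `H(γw) = ρ(γ) H(w) ρ(γ)ᵀ`); `det R > 0` because
`det (stk S X)(γw) det ρ(γ) = det (stk (S w) (R X w)) = det R det (stk S X)(w)` and `sign_const`.
Put `u γ w = R 0 0 - i R 0 1`. -/
theorem exists_u {k n : ℕ} (hn : n = k + 2) {Γ : Subgroup SL(2, ℝ)}
    (ρ : Γ →* Matrix (Fin n) (Fin n) ℝ) (hdet : ∀ γ, 0 < (ρ γ).det)
    (S : ℍ → Matrix (Fin k) (Fin n) ℝ) (hS : Continuous S)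
    (hSi : ∀ w, LinearIndependent ℝ (S w).row)
    (hSe : ∀ (γ : Γ) (w : ℍ), S (γ • w) * ρ γ = S w)
    (H : ℍ → Matrix (Fin n) (Fin n) ℝ) (hH : Continuous H) (hp : ∀ w, (H w).PosDef)
    (hHe : ∀ (γ : Γ) (w : ℍ), H (γ • w) = ρ γ * H w * (ρ γ)ᵀ)
    (X : ℍ → Matrix (Fin 2) (Fin n) ℝ) (hX : Continuous X)
    (h1 : ∀ w, X w * H w * (S w)ᵀ = 0) (h2 : ∀ w, X w * H w * (X w)ᵀ = 1) :
    ∃ u : Γ → ℍ → ℂ, (∀ γ, Continuous (u γ)) ∧ (∀ γ w, ‖u γ w‖ = 1) ∧
      ∀ (γ : Γ) (w : ℍ), zr (X (γ • w)) ᵥ* (ρ γ).map Complex.ofReal = u γ w • zr (X w) := by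
  subst hn
  have hcs : Continuous fun w => (stk (S w) (X w)).det := by
    refine Continuous.matrix_det ?_
    refine continuous_pi fun i => continuous_pi fun j => ?_
    refine Fin.addCases (fun a => ?_) (fun b => ?_) i
    · have e : (fun w => stk (S w) (X w) (Fin.castAdd 2 a) j) = fun w => S w a j := by
        funext w
        simp [stk]
      rw [e]
      exact (continuous_apply j).comp ((continuous_apply a).comp hS)
    · have e : (fun w => stk (S w) (X w) (Fin.natAdd k b) j) = fun w => X w b j := by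
        funext w
        simp [stk]
      rw [e]
      exact (continuous_apply j).comp ((continuous_apply b).comp hX)
  have hne : ∀ w, (stk (S w) (X w)).det ≠ 0 := fun w => stk_unit (hSi w) (hp w) (h1 w) (h2 w)
  have e1 : ∀ (γ : Γ) (w : ℍ), X (γ • w) * ρ γ * H w * (S w)ᵀ = 0 := by
    intro γ w
    have := h1 (γ • w)
    rw [hHe] at this
    rw [← hSe γ w, Matrix.transpose_mul]
    simpa only [Matrix.mul_assoc] using this
  have e2 : ∀ (γ : Γ) (w : ℍ), X (γ • w) * ρ γ * H w * (X (γ • w) * ρ γ)ᵀ = 1 := by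
    intro γ w
    have := h2 (γ • w)
    rw [hHe] at this
    rw [Matrix.transpose_mul]
    simpa only [Matrix.mul_assoc] using this
  set R : Γ → ℍ → Matrix (Fin 2) (Fin 2) ℝ := fun γ w => X (γ • w) * ρ γ * H w * (X w)ᵀ with hR
  have hrot : ∀ (γ : Γ) (w : ℍ), X (γ • w) * ρ γ = R γ w * X w ∧ R γ w * (R γ w)ᵀ = 1 :=
    fun γ w => rot_eq (hSi w) (hp w) (h1 w) (h2 w) (e1 γ w) (e2 γ w)
  have hpos : ∀ (γ : Γ) (w : ℍ), 0 < (R γ w).det := fun γ w =>
    det_pos_aux (hdet γ) (hSe γ w) (hrot γ w).1 (sign_const hcs hne (γ • w) w)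
  have htwo := fun (γ : Γ) (w : ℍ) => rot_two (hrot γ w).2 (hpos γ w)
  have hcR : ∀ γ, Continuous (R γ) := by
    intro γ
    have hsm : Continuous fun w : ℍ => γ • w := by
      change Continuous fun w : ℍ => (γ : SL(2, ℝ)) • w
      exact continuous_const_smul _
    exact (((hX.comp hsm).matrix_mul continuous_const).matrix_mul hH).matrix_mul
      hX.matrix_transpose
  refine ⟨fun γ w => (R γ w 0 0 : ℂ) - Complex.I * (R γ w 0 1 : ℂ), ?_, ?_, ?_⟩
  · intro γ
    have c0 : Continuous fun w => R γ w 0 0 :=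
      (continuous_apply 0).comp ((continuous_apply 0).comp (hcR γ))
    have c1 : Continuous fun w => R γ w 0 1 :=
      (continuous_apply 1).comp ((continuous_apply 0).comp (hcR γ))
    exact (Complex.continuous_ofReal.comp c0).sub
      (continuous_const.mul (Complex.continuous_ofReal.comp c1))
  · intro γ w
    have h := (htwo γ w).2.2
    have e : Complex.normSq ((R γ w 0 0 : ℂ) - Complex.I * (R γ w 0 1 : ℂ)) = 1 := by
      rw [Complex.normSq_apply]
      simp
      nlinarith [h]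
    rw [Complex.normSq_eq_norm_sq] at e
    have hn := norm_nonneg ((R γ w 0 0 : ℂ) - Complex.I * (R γ w 0 1 : ℂ))
    nlinarith
  · intro γ w
    rw [zr_mul, (hrot γ w).1, zr_rot _ (htwo γ w).1 (htwo γ w).2.1]

end Pool.Agent.SfBundle
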