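import Mathlib
import Pool.Agent.Lib.MP_1d980c_gt.Sf.LS
import Pool.Agent.Lib.MP_1d980c_gt.Sf.RotC

set_option autoImplicit false
open scoped UpperHalfPlane MatrixGroups Manifold ContDiff Matrix Topology
open Complex ComplexConjugate Pool.Agent.HypBundle

namespace Pool.Agent.SfBundle

/-- The real frame: rows `S_x` (`x < m-1`), `Re (e^{-if} z)`, `S_{x-1}` (`m ≤ x < 2m-1`),
`Im (e^{-if} z)`, where `z = X_0 + i X_1`. -/
noncomputable def Uf (m : ℕ) (S : Matrix (Fin (2 * m - 2)) (Fin (2 * m)) ℝ)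
    (X : Matrix (Fin 2) (Fin (2 * m)) ℝ) (f : ℝ) : Matrix (Fin (2 * m)) (Fin (2 * m)) ℝ :=
  fun (x : Fin (2 * m)) (j : Fin (2 * m)) =>
    if h : (x : ℕ) < m - 1 then S ⟨(x : ℕ), (by omega : (x : ℕ) < 2 * m - 2)⟩ j
    else if h1 : (x : ℕ) = m - 1 then Real.cos f * X 0 j + Real.sin f * X 1 j
    else if h' : (x : ℕ) < 2 * m - 1 then S ⟨(x : ℕ) - 1, (by omega : (x : ℕ) - 1 < 2 * m - 2)⟩ j
    else Real.cos f * X 1 j - Real.sin f * X 0 j

lemma Uf_cont (m : ℕ) {S : ℍ → Matrix (Fin (2 * m - 2)) (Fin (2 * m)) ℝ}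
    {X : ℍ → Matrix (Fin 2) (Fin (2 * m)) ℝ} {f : ℍ → ℝ} (hS : Continuous S) (hX : Continuous X)
    (hf : Continuous f) : Continuous (fun w => Uf m (S w) (X w) (f w)) := by
  have hSe : ∀ i j, Continuous fun w => S w i j := fun i j =>
    (continuous_apply j).comp ((continuous_apply i).comp hS)
  have hXe : ∀ i j, Continuous fun w => X w i j := fun i j =>
    (continuous_apply j).comp ((continuous_apply i).comp hX)
  have hc : Continuous fun w => Real.cos (f w) := Real.continuous_cos.comp hf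
  have hs : Continuous fun w => Real.sin (f w) := Real.continuous_sin.comp hf
  refine continuous_pi fun x => continuous_pi fun j => ?_
  by_cases h : (x : ℕ) < m - 1
  · simp only [Uf, h, dif_pos]
    exact hSe _ _
  by_cases h1 : (x : ℕ) = m - 1
  · have e : (fun w => Uf m (S w) (X w) (f w) x j) =
        fun w => Real.cos (f w) * X w 0 j + Real.sin (f w) * X w 1 j := by
      funext w
      simp only [Uf]
      rw [dif_neg h, dif_pos h1]
    rw [e]
    exact (hc.mul (hXe 0 j)).add (hs.mul (hXe 1 j))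
  by_cases h' : (x : ℕ) < 2 * m - 1
  · have e : (fun w => Uf m (S w) (X w) (f w) x j) =
        fun w => S w ⟨(x : ℕ) - 1, (by omega : (x : ℕ) - 1 < 2 * m - 2)⟩ j := by
      funext w
      simp only [Uf]
      rw [dif_neg h, dif_neg h1, dif_pos h']
    rw [e]
    exact hSe _ _
  · have e : (fun w => Uf m (S w) (X w) (f w) x j) =
        fun w => Real.cos (f w) * X w 1 j - Real.sin (f w) * X w 0 j := by
      funext w
      simp only [Uf]
      rw [dif_neg h, dif_neg h1, dif_neg h']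
    rw [e]
    exact (hc.mul (hXe 1 j)).sub (hs.mul (hXe 0 j))

private lemma stk_mv {k : ℕ} (S : Matrix (Fin k) (Fin (k + 2)) ℝ)
    (X : Matrix (Fin 2) (Fin (k + 2)) ℝ) (v : Fin (k + 2) → ℝ) (h1 : S *ᵥ v = 0)
    (h2 : X *ᵥ v = 0) : stk S X *ᵥ v = 0 := by
  funext i
  refine Fin.addCases (fun i => ?_) (fun i => ?_) i
  · have h := congrFun h1 i
    have e : ∀ j, stk S X (Fin.castAdd 2 i) j = S i j := fun j => by
      unfold stk
      rw [Matrix.of_apply, Fin.append_left]
    simp only [Matrix.mulVec, dotProduct, e] at h ⊢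
    exact h
  · have h := congrFun h2 i
    have e : ∀ j, stk S X (Fin.natAdd k i) j = X i j := fun j => by
      unfold stk
      rw [Matrix.of_apply, Fin.append_right]
    simp only [Matrix.mulVec, dotProduct, e] at h ⊢
    exact h

private lemma ker_zero {n k : ℕ} (hn : n = k + 2) {S : Matrix (Fin k) (Fin n) ℝ}
    (hS : LinearIndependent ℝ S.row) {H : Matrix (Fin n) (Fin n) ℝ} (hH : H.PosDef)
    {X : Matrix (Fin 2) (Fin n) ℝ} (h1 : X * H * Sᵀ = 0) (h2 : X * H * Xᵀ = 1)
    {v : Fin n → ℝ} (hv1 : S *ᵥ v = 0) (hv2 : X *ᵥ v = 0) : v = 0 := by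
  subst hn
  have h := stk_unit hS hH h1 h2
  by_contra hne
  exact h (Matrix.exists_mulVec_eq_zero_iff.1 ⟨v, hne, stk_mv S X v hv1 hv2⟩)

/-- Invertible: a vector killed by `Uf` is killed by `S` and `X`; if `v` is such a vector then the
functional `y ↦ y ⬝ v` vanishes on the rows of `S` and `X`, which span (`stk_unit`, or directly: the
rows of `Uf` are `2m` vectors; `S H⁻¹`-free argument: use `stk_unit` after `obtain rfl`-style cast
`2*m = (2*m-2)+2`). -/
lemma Uf_unit {m : ℕ} (hm : 2 ≤ m) {S : Matrix (Fin (2 * m - 2)) (Fin (2 * m)) ℝ}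
    (hS : LinearIndependent ℝ S.row) {H : Matrix (Fin (2 * m)) (Fin (2 * m)) ℝ} (hH : H.PosDef)
    {X : Matrix (Fin 2) (Fin (2 * m)) ℝ} (h1 : X * H * Sᵀ = 0) (h2 : X * H * Xᵀ = 1) (f : ℝ) :
    IsUnit (Uf m S X f) := by
  rw [Matrix.isUnit_iff_isUnit_det, isUnit_iff_ne_zero]
  intro hdet
  obtain ⟨v, hne, hv⟩ := Matrix.exists_mulVec_eq_zero_iff.2 hdet
  apply hne
  have hrow : ∀ x, ∑ j, Uf m S X f x j * v j = 0 := fun x => congrFun hv x
  have hv1 : S *ᵥ v = 0 := by
    funext i
    have hi := i.isLt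
    show ∑ j, S i j * v j = 0
    by_cases h : (i : ℕ) < m - 1
    · have h3 := hrow ⟨(i : ℕ), by omega⟩
      have e : ∀ j, Uf m S X f ⟨(i : ℕ), by omega⟩ j = S i j := fun j => by
        simp only [Uf]
        rw [dif_pos h]
      simpa only [e] using h3
    · have h3 := hrow ⟨(i : ℕ) + 1, by omega⟩
      have e : ∀ j, Uf m S X f ⟨(i : ℕ) + 1, by omega⟩ j = S i j := fun j => by
        simp only [Uf]
        rw [dif_neg (by omega), dif_neg (by omega), dif_pos (by omega)]
        rfl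
      simpa only [e] using h3
  have ha := hrow ⟨m - 1, by omega⟩
  have hb := hrow ⟨2 * m - 1, by omega⟩
  have ea : ∀ j, Uf m S X f ⟨m - 1, by omega⟩ j = Real.cos f * X 0 j + Real.sin f * X 1 j :=
    fun j => by
      simp only [Uf]
      rw [dif_neg (lt_irrefl _), dif_pos trivial]
  have eb : ∀ j, Uf m S X f ⟨2 * m - 1, by omega⟩ j =
      Real.cos f * X 1 j - Real.sin f * X 0 j :=
    fun j => by
      simp only [Uf]
      rw [dif_neg (by omega), dif_neg (by omega), dif_neg (by omega)]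
  simp only [ea, eb, add_mul, sub_mul, mul_assoc, Finset.sum_add_distrib,
    Finset.sum_sub_distrib, ← Finset.mul_sum] at ha hb
  have hcs := Real.cos_sq_add_sin_sq f
  have hv2 : X *ᵥ v = 0 := by
    have g0 : ∑ j, X 0 j * v j = 0 := by
      linear_combination (Real.cos f) * ha - (Real.sin f) * hb - (∑ j, X 0 j * v j) * hcs
    have g1 : ∑ j, X 1 j * v j = 0 := by
      linear_combination (Real.sin f) * ha + (Real.cos f) * hb - (∑ j, X 1 j * v j) * hcs
    funext i
    fin_cases i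
    · exact g0
    · exact g1
  exact ker_zero (by omega) hS hH h1 h2 hv1 hv2

end Pool.Agent.SfBundle
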