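import Mathlib
import Pool.Agent.Lib.MP_1d980c_gt.Sf.FinA

set_option autoImplicit false
open scoped UpperHalfPlane MatrixGroups Manifold ContDiff Matrix Topology
open Complex ComplexConjugate Pool.Agent.HypBundle

namespace Pool.Agent.SfBundle

/-- The complex rows of `Wm m * Uf`: `S_k + i S_{m-1+k}` (`k < m-1`), `e^{-if} z` (`k = m-1`), and
their conjugates. -/
lemma Wm_Uf {m : ℕ} (hm : 2 ≤ m) (S : Matrix (Fin (2 * m - 2)) (Fin (2 * m)) ℝ)
    (X : Matrix (Fin 2) (Fin (2 * m)) ℝ) (f : ℝ) (x : Fin (2 * m)) :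
    (Wm m * (Uf m S X f).map Complex.ofReal) x =
      if h : (x : ℕ) < m - 1 then
        fun j => (S ⟨(x : ℕ), (by omega : (x : ℕ) < 2 * m - 2)⟩ j : ℂ) +
          Complex.I * (S ⟨m - 1 + (x : ℕ), (by omega : m - 1 + (x : ℕ) < 2 * m - 2)⟩ j : ℂ)
      else if (x : ℕ) = m - 1 then Complex.exp (-(f * Complex.I)) • zr X
      else if h' : (x : ℕ) < 2 * m - 1 then
        fun j => (S ⟨(x : ℕ) - m, (by omega : (x : ℕ) - m < 2 * m - 2)⟩ j : ℂ) -
          Complex.I * (S ⟨(x : ℕ) - 1, (by omega : (x : ℕ) - 1 < 2 * m - 2)⟩ j : ℂ)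
      else fun j => conj ((Complex.exp (-(f * Complex.I)) • zr X) j) := by
  have e : ∀ j, (Wm m * (Uf m S X f).map Complex.ofReal) x j =
      if x.val < m then TorusBundle.zeta m (fun y => Uf m S X f y j) x.val
      else conj (TorusBundle.zeta m (fun y => Uf m S X f y j) (x.val - m)) := by
    intro j
    by_cases hx : x.val < m
    · rw [if_pos hx, ← TorusBundle.Zr_dot hx, Matrix.mul_apply]
      refine Finset.sum_congr rfl fun y _ => ?_
      rw [Matrix.map_apply]
      unfold Wm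
      rw [if_pos hx]
    · have hx2 : x.val - m < m := by have := x.isLt; omega
      rw [if_neg hx, ← TorusBundle.Zb_dot hx2, Matrix.mul_apply]
      refine Finset.sum_congr rfl fun y _ => ?_
      rw [Matrix.map_apply]
      unfold Wm
      rw [if_neg hx]
  have hxl := x.isLt
  have eA : Complex.exp (-(f * Complex.I)) = (Real.cos f : ℂ) - (Real.sin f : ℂ) * Complex.I := by
    rw [← neg_mul, Complex.exp_mul_I, Complex.cos_neg, Complex.sin_neg, Complex.ofReal_cos,
      Complex.ofReal_sin]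
    ring
  have eB : ∀ j, (Complex.exp (-(f * Complex.I)) • zr X) j =
      ((Real.cos f * X 0 j + Real.sin f * X 1 j : ℝ) : ℂ) +
        Complex.I * ((Real.cos f * X 1 j - Real.sin f * X 0 j : ℝ) : ℂ) := by
    intro j
    rw [Pi.smul_apply, smul_eq_mul, eA, zr]
    push_cast
    linear_combination (-(Complex.sin f : ℂ) * (X 1 j : ℂ)) * Complex.I_mul_I
  have U1 : ∀ (y : Fin (2 * m)) (j : Fin (2 * m)) (h : (y : ℕ) < m - 1),
      Uf m S X f y j = S ⟨(y : ℕ), (by omega : (y : ℕ) < 2 * m - 2)⟩ j := by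
    intro y j h
    unfold Uf
    rw [dif_pos h]
  have U2 : ∀ (y : Fin (2 * m)) (j : Fin (2 * m)), (y : ℕ) = m - 1 →
      Uf m S X f y j = Real.cos f * X 0 j + Real.sin f * X 1 j := by
    intro y j h
    unfold Uf
    rw [dif_neg (by omega), dif_pos h]
  have U3 : ∀ (y : Fin (2 * m)) (j : Fin (2 * m)), m ≤ (y : ℕ) → ∀ h : (y : ℕ) < 2 * m - 1,
      Uf m S X f y j = S ⟨(y : ℕ) - 1, (by omega : (y : ℕ) - 1 < 2 * m - 2)⟩ j := by
    intro y j h1 h
    unfold Uf
    rw [dif_neg (by omega), dif_neg (by omega), dif_pos h]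
  have U4 : ∀ (y : Fin (2 * m)) (j : Fin (2 * m)), 2 * m - 1 ≤ (y : ℕ) →
      Uf m S X f y j = Real.cos f * X 1 j - Real.sin f * X 0 j := by
    intro y j h
    unfold Uf
    rw [dif_neg (by omega), dif_neg (by omega), dif_neg (by omega)]
  funext j
  rw [e j]
  by_cases h : (x : ℕ) < m - 1
  · rw [dif_pos h, if_pos (by omega), TorusBundle.zeta, dif_pos (by omega)]
    rw [U1 _ j (show ((⟨(x : ℕ), _⟩ : Fin (2 * m)) : ℕ) < m - 1 from h),
      U3 ⟨m + (x : ℕ), by omega⟩ j (by simp) (by simp; omega)]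
    have : (⟨m + (x : ℕ) - 1, by omega⟩ : Fin (2 * m - 2)) = ⟨m - 1 + (x : ℕ), by omega⟩ :=
      Fin.ext (by simp; omega)
    simp only [this]
  · rw [dif_neg h]
    by_cases h1 : (x : ℕ) = m - 1
    · rw [if_pos h1, if_pos (by omega), TorusBundle.zeta, dif_pos (by omega)]
      rw [U2 _ j (show ((⟨(x : ℕ), _⟩ : Fin (2 * m)) : ℕ) = m - 1 from h1),
        U4 ⟨m + (x : ℕ), by omega⟩ j (by simp; omega), eB]
    · rw [if_neg h1, if_neg (by omega), TorusBundle.zeta, dif_pos (by omega)]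
      by_cases h2 : (x : ℕ) < 2 * m - 1
      · rw [dif_pos h2, U1 ⟨(x : ℕ) - m, by omega⟩ j (by simp; omega),
          U3 ⟨m + ((x : ℕ) - m), by omega⟩ j (by simp) (by simp; omega)]
        have : (⟨m + ((x : ℕ) - m) - 1, by omega⟩ : Fin (2 * m - 2)) = ⟨(x : ℕ) - 1, by omega⟩ :=
          Fin.ext (by simp; omega)
        simp only [this]
        simp [sub_eq_add_neg]
      · rw [dif_neg h2, U2 ⟨(x : ℕ) - m, by omega⟩ j (by simp; omega),
          U4 ⟨m + ((x : ℕ) - m), by omega⟩ j (by simp; omega)]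
        rw [eB]

end Pool.Agent.SfBundle
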