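import Mathlib
import Pool.Agent.Lib.MP_1d980c_gt.Sf.FinB

set_option autoImplicit false
open scoped UpperHalfPlane MatrixGroups Manifold ContDiff Matrix Topology
open Complex ComplexConjugate Pool.Agent.HypBundle

namespace Pool.Agent.SfBundle

private lemma real_row {k n : ℕ} {S S' : Matrix (Fin k) (Fin n) ℝ} {A : Matrix (Fin n) (Fin n) ℝ}
    (hS : S' * A = S) (r : Fin k) (j : Fin n) :
    ∑ i, (S' r i : ℂ) * (A i j : ℂ) = (S r j : ℂ) := by
  rw [← hS, Matrix.mul_apply]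
  push_cast
  rfl

private lemma conj_row {n : ℕ} (v : Fin n → ℂ) (A : Matrix (Fin n) (Fin n) ℝ) (j : Fin n) :
    ∑ i, conj (v i) * (A i j : ℂ) = conj (∑ i, v i * (A i j : ℂ)) := by
  rw [map_sum]
  refine Finset.sum_congr rfl fun i _ => ?_
  rw [map_mul, Complex.conj_ofReal]

/-- Equivariance of the frame. `S(γw) ρ(γ) = S(w)`; `zr (X(γw)) ρ(γ) = e^{iθ} zr (X w)` with
`θ = phase + f(γw) - f(w)`; so the row `m-1` is multiplied by
`e^{-i f(γw)} e^{iθ} e^{i f(w)} = e^{i phase} = (kh T γ w)⁻¹`. -/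
lemma Uf_eqv {m : ℕ} (hm : 2 ≤ m) {Γ : Subgroup SL(2, ℝ)} (T : Tw Γ)
    {S S' : Matrix (Fin (2 * m - 2)) (Fin (2 * m)) ℝ} {X X' : Matrix (Fin 2) (Fin (2 * m)) ℝ}
    {A : Matrix (Fin (2 * m)) (Fin (2 * m)) ℝ} {f f' p : ℝ} (γ : Γ) (w : ℍ)
    (hS : S' * A = S) (hX : zr X' ᵥ* A.map Complex.ofReal =
      Complex.exp (((p + f' - f : ℝ) : ℂ) * Complex.I) • zr X)
    (hT : kh T γ w = Complex.exp (-(p * Complex.I))) :
    (Wm m * (Uf m S' X' f').map Complex.ofReal) * A.map Complex.ofReal =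
      Matrix.diagonal (DT m T γ w) * (Wm m * (Uf m S X f).map Complex.ofReal) := by
  have hXj : ∀ j, ∑ i, zr X' i * (A i j : ℂ) =
      Complex.exp (((p + f' - f : ℝ) : ℂ) * Complex.I) * zr X j := fun j => congrFun hX j
  have hE : ∀ j, ∑ i, (Complex.exp (-(f' * Complex.I)) • zr X') i * (A i j : ℂ) =
      (kh T γ w)⁻¹ * (Complex.exp (-(f * Complex.I)) • zr X) j := by
    intro j
    simp only [Pi.smul_apply, smul_eq_mul]
    have e1 : ∑ i, Complex.exp (-(f' * Complex.I)) * zr X' i * (A i j : ℂ) =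
        Complex.exp (-(f' * Complex.I)) * ∑ i, zr X' i * (A i j : ℂ) := by
      rw [Finset.mul_sum]
      exact Finset.sum_congr rfl fun i _ => mul_assoc _ _ _
    rw [e1, hXj, hT, ← Complex.exp_neg, ← mul_assoc, ← mul_assoc, ← Complex.exp_add, ← Complex.exp_add]
    congr 2
    push_cast
    ring
  have hkc : conj ((kh T γ w)⁻¹) = kh T γ w := by
    rw [hT, ← Complex.exp_neg, ← Complex.exp_conj]
    congr 1
    simp
  have hC : ∀ j, ∑ i, conj ((Complex.exp (-(f' * Complex.I)) • zr X') i) * (A i j : ℂ) =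
      kh T γ w * conj ((Complex.exp (-(f * Complex.I)) • zr X) j) := by
    intro j
    rw [conj_row, hE, map_mul, hkc]
  ext x j
  rw [Matrix.diagonal_mul, Matrix.mul_apply]
  have hL := Wm_Uf hm S' X' f' x
  have hR := congrFun (Wm_Uf hm S X f x) j
  simp only [hL, Matrix.map_apply]
  rw [hR]
  have hx := x.isLt
  by_cases h1 : (x : ℕ) < m - 1
  · have hD : DT m T γ w x = 1 := by
      unfold DT
      rw [if_neg (by omega), if_neg (by omega)]
    simp only [h1, dif_pos, hD, one_mul]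
    have e1 : ∀ i : Fin (2 * m), ((S' ⟨(x : ℕ), (by omega : (x : ℕ) < 2 * m - 2)⟩ i : ℂ) +
          Complex.I * (S' ⟨m - 1 + (x : ℕ), (by omega : m - 1 + (x : ℕ) < 2 * m - 2)⟩ i : ℂ)) *
          (A i j : ℂ) = (S' ⟨(x : ℕ), (by omega : (x : ℕ) < 2 * m - 2)⟩ i : ℂ) * (A i j : ℂ) +
          Complex.I * ((S' ⟨m - 1 + (x : ℕ), (by omega : m - 1 + (x : ℕ) < 2 * m - 2)⟩ i : ℂ) *
          (A i j : ℂ)) := fun i => by ring
    simp only [e1, Finset.sum_add_distrib, ← Finset.mul_sum, real_row hS]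
  · by_cases h2 : (x : ℕ) = m - 1
    · have hD : DT m T γ w x = (kh T γ w)⁻¹ := by
        unfold DT
        rw [if_pos h2]
      rw [hD]
      rw [dif_neg h1, dif_neg h1, if_pos h2, if_pos h2]
      exact hE j
    · by_cases h3 : (x : ℕ) < 2 * m - 1
      · have hD : DT m T γ w x = 1 := by
          unfold DT
          rw [if_neg h2, if_neg (by omega)]
        simp only [h1, dif_neg, not_false_eq_true, h2, if_false, h3, dif_pos, hD, one_mul]
        have e1 : ∀ i : Fin (2 * m), ((S' ⟨(x : ℕ) - m, (by omega : (x : ℕ) - m < 2 * m - 2)⟩ i : ℂ) -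
              Complex.I * (S' ⟨(x : ℕ) - 1, (by omega : (x : ℕ) - 1 < 2 * m - 2)⟩ i : ℂ)) *
              (A i j : ℂ) = (S' ⟨(x : ℕ) - m, (by omega : (x : ℕ) - m < 2 * m - 2)⟩ i : ℂ) * (A i j : ℂ) -
              Complex.I * ((S' ⟨(x : ℕ) - 1, (by omega : (x : ℕ) - 1 < 2 * m - 2)⟩ i : ℂ) *
              (A i j : ℂ)) := fun i => by ring
        simp only [e1, Finset.sum_sub_distrib, ← Finset.mul_sum, real_row hS]
      · have hD : DT m T γ w x = kh T γ w := by
          unfold DT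
          rw [if_neg h2, if_pos (by omega)]
        simp only [h1, dif_neg, not_false_eq_true, h2, if_false, h3, hD]
        exact hC j

end Pool.Agent.SfBundle
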