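import Mathlib
import Pool.Agent.Lib.MP_1d980c_gt.Sf.Defs

set_option autoImplicit false
open scoped UpperHalfPlane MatrixGroups Manifold ContDiff Matrix Topology
open Complex ComplexConjugate Pool.Agent.HypBundle

namespace Pool.Agent.SfBundle

/-- The Gram matrix of independent rows is invertible (positive definite). -/
lemma gram_unit {k n : ℕ} {S : Matrix (Fin k) (Fin n) ℝ} (hS : LinearIndependent ℝ S.row)
    {H : Matrix (Fin n) (Fin n) ℝ} (hH : H.PosDef) : (S * H * Sᵀ).PosDef := by
  have h1 : Function.Injective S.vecMul := Matrix.vecMul_injective_iff.2 hS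
  have h2 := hH.mul_mul_conjTranspose_same h1
  rwa [Matrix.conjTranspose_eq_transpose_of_trivial] at h2

/-- two independent solutions of `x H Sᵀ = 0` (rank-nullity, `n = k + 2`) -/
lemma exists_two {k n : ℕ} (hn : n = k + 2) (S : Matrix (Fin k) (Fin n) ℝ)
    (H : Matrix (Fin n) (Fin n) ℝ) :
    ∃ x y : Fin n → ℝ, LinearIndependent ℝ ![x, y] ∧ x ᵥ* (H * Sᵀ) = 0 ∧ y ᵥ* (H * Sᵀ) = 0 := by
  set M : Matrix (Fin n) (Fin k) ℝ := H * Sᵀ with hM
  have h1 := LinearMap.finrank_range_add_finrank_ker (Matrix.vecMulLinear M)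
  have h2 : Module.finrank ℝ (LinearMap.range (Matrix.vecMulLinear M)) ≤ k := by
    have h3 := Submodule.finrank_le (LinearMap.range (Matrix.vecMulLinear M))
    rwa [Module.finrank_fin_fun] at h3
  rw [Module.finrank_fin_fun] at h1
  have h3 : 2 ≤ Module.finrank ℝ (LinearMap.ker (Matrix.vecMulLinear M)) := by omega
  obtain ⟨f, hf⟩ := exists_linearIndependent_of_le_finrank h3
  refine ⟨(f 0 : Fin n → ℝ), (f 1 : Fin n → ℝ), ?_, ?_, ?_⟩
  · have h4 := hf.map' (LinearMap.ker (Matrix.vecMulLinear M)).subtype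
      (Submodule.ker_subtype _)
    have h5 : ![(f 0 : Fin n → ℝ), (f 1 : Fin n → ℝ)] =
        (LinearMap.ker (Matrix.vecMulLinear M)).subtype ∘ f := by
      funext i
      fin_cases i <;> rfl
    rw [h5]
    exact h4
  · have := (f 0).2
    rwa [LinearMap.mem_ker] at this
  · have := (f 1).2
    rwa [LinearMap.mem_ker] at this

end Pool.Agent.SfBundle
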