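import Mathlib
import Pool.Agent.Lib.MP_1d980c_gt.Sf.Defs

set_option autoImplicit false
open scoped UpperHalfPlane MatrixGroups Manifold ContDiff Matrix Topology
open Complex ComplexConjugate Pool.Agent.HypBundle

namespace Pool.Agent.SfBundle

/-- The bilinear form `p H qᵀ` at the point `w`. -/
private noncomputable def bf {n : ℕ} (H : ℍ → Matrix (Fin n) (Fin n) ℝ) (w : ℍ)
    (p q : Fin n → ℝ) : ℝ := p ⬝ᵥ (H w *ᵥ q)

/-- Gram-Schmidt for two vectors depending continuously on `w`: `x/|x|`, then `y` minus its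
projection, normalised; `|x|² = x H xᵀ`. The two new vectors are combinations of `x w` and `y w`. -/
lemma exists_gs {n : ℕ} (H : ℍ → Matrix (Fin n) (Fin n) ℝ) (hH : Continuous H)
    (hp : ∀ w, (H w).PosDef) (x y : ℍ → Fin n → ℝ) (hx : Continuous x) (hy : Continuous y)
    (hxy : ∀ w, LinearIndependent ℝ ![x w, y w]) :
    ∃ X : ℍ → Matrix (Fin 2) (Fin n) ℝ, Continuous X ∧ (∀ w, X w * H w * (X w)ᵀ = 1) ∧
      ∀ w i, ∃ a b : ℝ, X w i = a • x w + b • y w := by
  -- the bilinear form
  have hpos : ∀ w (p : Fin n → ℝ), p ≠ 0 → 0 < bf H w p p := by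
    intro w p hp0
    have := (hp w).dotProduct_mulVec_pos hp0
    simpa [bf] using this
  have hsymm : ∀ w (p q : Fin n → ℝ), bf H w p q = bf H w q p := by
    intro w p q
    unfold bf
    have hT : (H w)ᵀ = H w := by
      have h0 : (H w)ᴴ = H w := (hp w).isHermitian
      rwa [Matrix.conjTranspose_eq_transpose_of_trivial] at h0
    calc p ⬝ᵥ (H w *ᵥ q) = (p ᵥ* H w) ⬝ᵥ q := Matrix.dotProduct_mulVec _ _ _
      _ = q ⬝ᵥ (p ᵥ* H w) := dotProduct_comm _ _
      _ = q ⬝ᵥ ((H w)ᵀ *ᵥ p) := by rw [Matrix.mulVec_transpose]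
      _ = q ⬝ᵥ (H w *ᵥ p) := by rw [hT]
  have hbl : ∀ w (r : ℝ) (p q : Fin n → ℝ), bf H w (r • p) q = r * bf H w p q := by
    intro w r p q; simp [bf, smul_dotProduct]
  have hbr : ∀ w (r : ℝ) (p q : Fin n → ℝ), bf H w p (r • q) = r * bf H w p q := by
    intro w r p q; rw [hsymm, hbl, hsymm]
  have hsl : ∀ w (p p' q : Fin n → ℝ), bf H w (p - p') q = bf H w p q - bf H w p' q := by
    intro w p p' q; simp [bf, sub_dotProduct]
  have hsr : ∀ w (p q q' : Fin n → ℝ), bf H w p (q - q') = bf H w p q - bf H w p q' := by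
    intro w p q q'; rw [hsymm, hsl, hsymm w q, hsymm w q']
  have hcont : ∀ (p q : ℍ → Fin n → ℝ), Continuous p → Continuous q →
      Continuous (fun w => bf H w (p w) (q w)) := by
    intro p q hcp hcq
    unfold bf
    exact hcp.dotProduct (hH.matrix_mulVec hcq)
  have hx0 : ∀ w, x w ≠ 0 := by
    intro w
    have := (hxy w).ne_zero 0
    simpa using this
  set u : ℍ → Fin n → ℝ := fun w => (Real.sqrt (bf H w (x w) (x w)))⁻¹ • x w with hu
  have hapos : ∀ w, 0 < Real.sqrt (bf H w (x w) (x w)) :=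
    fun w => Real.sqrt_pos.2 (hpos w _ (hx0 w))
  have hucont : Continuous u := by
    have h1 : Continuous (fun w => (Real.sqrt (bf H w (x w) (x w)))⁻¹) := by
      apply Continuous.inv₀ _ (fun w => (hapos w).ne')
      exact Real.continuous_sqrt.comp (hcont x x hx hx)
    exact h1.smul hx
  have huu : ∀ w, bf H w (u w) (u w) = 1 := by
    intro w
    rw [hu]
    simp only
    rw [hbl, hbr]
    have h1 : Real.sqrt (bf H w (x w) (x w)) * Real.sqrt (bf H w (x w) (x w))
        = bf H w (x w) (x w) := Real.mul_self_sqrt (hpos w _ (hx0 w)).le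
    have h2 := (hapos w).ne'
    field_simp
    rw [sq]
    exact h1.symm
  set z : ℍ → Fin n → ℝ := fun w => y w - (bf H w (u w) (y w)) • u w with hz
  have hzcont : Continuous z := by
    apply hy.sub
    exact (hcont u y hucont hy).smul hucont
  have hz0 : ∀ w, z w ≠ 0 := by
    intro w hzw
    have hli := hxy w
    rw [LinearIndependent.pair_iff] at hli
    have h1 := hli (-(bf H w (u w) (y w) * (Real.sqrt (bf H w (x w) (x w)))⁻¹)) 1 (by
      rw [hz] at hzw
      simp only [hu] at hzw ⊢
      rw [smul_smul] at hzw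
      rw [neg_smul, one_smul, neg_add_eq_sub]
      exact hzw)
    exact one_ne_zero h1.2
  have huz : ∀ w, bf H w (u w) (z w) = 0 := by
    intro w
    rw [hz]
    simp only
    rw [hsr, hbr, huu, mul_one, sub_self]
  set v : ℍ → Fin n → ℝ := fun w => (Real.sqrt (bf H w (z w) (z w)))⁻¹ • z w with hv
  have hbpos : ∀ w, 0 < Real.sqrt (bf H w (z w) (z w)) :=
    fun w => Real.sqrt_pos.2 (hpos w _ (hz0 w))
  have hvcont : Continuous v := by
    have h1 : Continuous (fun w => (Real.sqrt (bf H w (z w) (z w)))⁻¹) := by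
      apply Continuous.inv₀ _ (fun w => (hbpos w).ne')
      exact Real.continuous_sqrt.comp (hcont z z hzcont hzcont)
    exact h1.smul hzcont
  have hvv : ∀ w, bf H w (v w) (v w) = 1 := by
    intro w
    rw [hv]
    simp only
    rw [hbl, hbr]
    have h1 : Real.sqrt (bf H w (z w) (z w)) * Real.sqrt (bf H w (z w) (z w))
        = bf H w (z w) (z w) := Real.mul_self_sqrt (hpos w _ (hz0 w)).le
    have h2 := (hbpos w).ne'
    field_simp
    rw [sq]
    exact h1.symm
  have huv : ∀ w, bf H w (u w) (v w) = 0 := by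
    intro w
    rw [hv]
    simp only
    rw [hbr, huz, mul_zero]
  have hvu : ∀ w, bf H w (v w) (u w) = 0 := fun w => by rw [hsymm, huv]
  refine ⟨fun w => Matrix.of ![u w, v w], ?_, ?_, ?_⟩
  · apply continuous_matrix
    intro i j
    fin_cases i
    · exact (continuous_apply j).comp hucont
    · exact (continuous_apply j).comp hvcont
  · intro w
    have hent : ∀ i j, ((Matrix.of ![u w, v w]) * H w * (Matrix.of ![u w, v w])ᵀ) i j
        = bf H w (![u w, v w] i) (![u w, v w] j) := by
      intro i j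
      unfold bf
      rw [Matrix.mul_assoc, Matrix.mul_apply]
      simp only [dotProduct, Matrix.of_apply, Matrix.mulVec, Matrix.mul_apply,
        Matrix.transpose_apply]
    ext i j
    rw [hent]
    fin_cases i <;> fin_cases j <;> simp [huu, hvv, huv, hvu]
  · intro w i
    have hu' : u w = (Real.sqrt (bf H w (x w) (x w)))⁻¹ • x w + (0 : ℝ) • y w := by
      rw [zero_smul, add_zero]
    fin_cases i
    · exact ⟨_, _, hu'⟩
    · refine ⟨-((Real.sqrt (bf H w (z w) (z w)))⁻¹ * (bf H w (u w) (y w)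
        * (Real.sqrt (bf H w (x w) (x w)))⁻¹)), (Real.sqrt (bf H w (z w) (z w)))⁻¹, ?_⟩
      have key : ∀ (a b c : ℝ) (X Y : Fin n → ℝ),
          c • (Y - b • (a • X)) = (-(c * (b * a))) • X + c • Y := by
        intro a b c X Y
        ext k
        simp only [Pi.smul_apply, Pi.sub_apply, Pi.add_apply, smul_eq_mul]
        ring
      exact key _ _ _ _ _

end Pool.Agent.SfBundle
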