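import Mathlib
import Pool.Agent.Lib.MP_1d980c_gt.Hyp.CocycleH

set_option autoImplicit false
open scoped UpperHalfPlane MatrixGroups Manifold ContDiff Matrix Topology
open Complex ComplexConjugate Pool.Agent.HypBundle

namespace Pool.Agent.SfBundle

/-- the point at time `t ∈ [0,1]` on the segment from `w₀` to `w` -/
noncomputable def seg (w₀ w : ℂ) (t : ℝ) : ℂ := w₀ + (t : ℂ) * (w - w₀)

lemma seg_mem {w₀ w : ℂ} (h₀ : w₀ ∈ HH) (hw : w ∈ HH) {t : ℝ} (h0 : 0 ≤ t) (h1 : t ≤ 1) :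
    seg w₀ w t ∈ HH := by
  have h0' : 0 < w₀.im := h₀
  have hw' : 0 < w.im := hw
  have e : (seg w₀ w t).im = (1 - t) * w₀.im + t * w.im := by
    simp [seg]
    ring
  show 0 < (seg w₀ w t).im
  rw [e]
  rcases h1.lt_or_eq with h | h
  · have := mul_pos (sub_pos.2 h) h0'
    have := mul_nonneg h0 hw'.le
    linarith
  · subst h
    linarith

/-- A continuous choice of a step size. By `exists_continuous_forall_mem_convex_of_local_const`
(target `ℝ`, the convex sets `{s | 0 < s ∧ s ≤ 1 ∧ ∀ t t' ∈ [0,1], |t - t'| ≤ s → ...}`, which are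
intervals), it suffices to have near each `w` a constant step size; this is uniform continuity of
`(w, t) ↦ P (seg w₀ w t)` on a compact neighbourhood times `[0,1]`. -/
theorem exists_step {n : ℕ} (P : ℂ → Matrix (Fin n) (Fin n) ℝ)
    (hP : ∀ i j, ContinuousOn (fun z => P z i j) HH) {w₀ : ℂ} (h₀ : w₀ ∈ HH) :
    ∃ s : ℍ → ℝ, Continuous s ∧ (∀ w, 0 < s w ∧ s w ≤ 1) ∧
      ∀ (w : ℍ) (t t' : ℝ), 0 ≤ t → t ≤ 1 → 0 ≤ t' → t' ≤ 1 → |t - t'| ≤ s w →
        ∀ i j, |P (seg w₀ w t) i j - P (seg w₀ w t') i j| ≤ 1 / (2 * ((n : ℝ) + 1)) := by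
  set I : ℍ → Set ℝ := fun w => {s | 0 < s ∧ s ≤ 1 ∧
      ∀ (t t' : ℝ), 0 ≤ t → t ≤ 1 → 0 ≤ t' → t' ≤ 1 → |t - t'| ≤ s →
        ∀ i j, |P (seg w₀ w t) i j - P (seg w₀ w t') i j| ≤ 1 / (2 * ((n : ℝ) + 1))} with hI
  have hconv : ∀ w, Convex ℝ (I w) := by
    intro w
    apply Set.OrdConnected.convex
    refine ⟨fun a ha b hb c hc => ⟨ha.1.trans_le hc.1, hc.2.trans hb.2.1, ?_⟩⟩
    intro t t' h0 h1 h0' h1' htt
    exact hb.2.2 t t' h0 h1 h0' h1' (htt.trans hc.2)
  have hloc : ∀ w : ℍ, ∃ c : ℝ, ∀ᶠ y in 𝓝 w, c ∈ I y := by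
    intro w
    let K : Set (ℍ × ℝ) := Metric.closedBall w 1 ×ˢ Set.Icc (0 : ℝ) 1
    have hK : IsCompact K := (isCompact_closedBall w 1).prod isCompact_Icc
    let F : ℍ × ℝ → (Fin n → Fin n → ℝ) := fun p i j => P (seg w₀ p.1 p.2) i j
    have hF : ContinuousOn F K := by
      refine continuousOn_pi.2 fun i => continuousOn_pi.2 fun j => ?_
      refine (hP i j).comp (Continuous.continuousOn ?_) ?_
      · unfold seg
        exact continuous_const.add ((Complex.continuous_ofReal.comp continuous_snd).mul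
          ((UpperHalfPlane.continuous_coe.comp continuous_fst).sub continuous_const))
      · rintro ⟨y, t⟩ ⟨-, ht⟩
        exact seg_mem h₀ y.im_pos ht.1 ht.2
    have hu := hK.uniformContinuousOn_of_continuous hF
    rw [Metric.uniformContinuousOn_iff] at hu
    obtain ⟨δ, hδ, hd⟩ := hu (1 / (2 * ((n : ℝ) + 1))) (by positivity)
    refine ⟨min 1 (δ / 2), ?_⟩
    filter_upwards [Metric.closedBall_mem_nhds w one_pos] with y hy
    refine ⟨lt_min one_pos (by positivity), min_le_left _ _, ?_⟩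
    intro t t' h0 h1 h0' h1' htt i j
    have h2 : dist ((y, t) : ℍ × ℝ) (y, t') < δ := by
      rw [Prod.dist_eq, dist_self, Real.dist_eq]
      have : |t - t'| < δ := by
        have := htt.trans (min_le_right _ _)
        linarith
      exact max_lt hδ this
    have h3 := hd (y, t) ⟨hy, h0, h1⟩ (y, t') ⟨hy, h0', h1'⟩ h2
    have h4 : dist (F (y, t) i j) (F (y, t') i j) ≤ dist (F (y, t)) (F (y, t')) :=
      (dist_le_pi_dist (F (y, t) i) (F (y, t') i) j).trans
        (dist_le_pi_dist (F (y, t)) (F (y, t')) i)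
    rw [Real.dist_eq] at h4
    exact (h4.trans h3.le)
  obtain ⟨g, hg⟩ := exists_continuous_forall_mem_convex_of_local_const hconv hloc
  exact ⟨g, g.continuous, fun w => ⟨(hg w).1, (hg w).2.1⟩, fun w t t' h0 h1 h0' h1' h i j =>
    (hg w).2.2 t t' h0 h1 h0' h1' h i j⟩

end Pool.Agent.SfBundle
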