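import Mathlib
import Pool.Agent.Lib.MP_1d980c_gt.Sf.TrA

set_option autoImplicit false
open scoped UpperHalfPlane MatrixGroups Manifold ContDiff Matrix Topology
open Complex ComplexConjugate Pool.Agent.HypBundle

namespace Pool.Agent.SfBundle

/-- the discrete parallel transport: product of the projectors at the times `min 1 (j s)`,
`j = 1, ..., k` (the one for `j = k` on the right) -/
noncomputable def trp {n : ℕ} (P : ℂ → Matrix (Fin n) (Fin n) ℝ) (w₀ w : ℂ) (s : ℝ) :
    ℕ → Matrix (Fin n) (Fin n) ℝ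
  | 0 => 1
  | k + 1 => trp P w₀ w s k * P (seg w₀ w (min 1 (((k + 1 : ℕ) : ℝ) * s)))

private lemma seg_one (w₀ w : ℂ) : seg w₀ w 1 = w := by
  simp [seg]

private lemma seg_zero (w₀ w : ℂ) : seg w₀ w 0 = w₀ := by
  simp [seg]

/-- for `1 ≤ k s` and `k ≤ l` the products agree up to `P w`, `w ∈ HH`, if `P w` is idempotent:
all later factors are `P w` (`seg w₀ w 1 = w`). -/
lemma trp_const {n : ℕ} (P : ℂ → Matrix (Fin n) (Fin n) ℝ) {w₀ w : ℂ} {s : ℝ} (hs : 0 < s)
    (hw : P w * P w = P w) {k l : ℕ} (hk : 1 ≤ (k : ℝ) * s) (hkl : k ≤ l) :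
    trp P w₀ w s l = trp P w₀ w s k := by
  have hk0 : k ≠ 0 := by
    rintro rfl
    norm_num at hk
  obtain ⟨k', rfl⟩ := Nat.exists_eq_succ_of_ne_zero hk0
  -- `trp (k'+1) * P w = trp (k'+1)`
  have h1 : trp P w₀ w s (k' + 1) * P w = trp P w₀ w s (k' + 1) := by
    have hm : min 1 (((k' + 1 : ℕ) : ℝ) * s) = 1 := min_eq_left (by simpa using hk)
    rw [trp, hm, seg_one, Matrix.mul_assoc, hw]
  induction l, hkl using Nat.le_induction with
  | base => rfl
  | succ l hl ih =>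
    have hl' : 1 ≤ ((l + 1 : ℕ) : ℝ) * s := by
      refine hk.trans (mul_le_mul_of_nonneg_right ?_ hs.le)
      exact_mod_cast (Nat.le_succ_of_le hl)
    have hm : min 1 (((l + 1 : ℕ) : ℝ) * s) = 1 := min_eq_left hl'
    rw [trp, hm, seg_one, ih]
    exact h1

/-- One step is injective on the range: if `x P(t) = x`, `x ≠ 0` and the entries of `P(t)` and
`P(t')` differ by at most `1/(2(n+1))`, then `x P(t') ≠ 0` (sup norm: `|x - x P(t')| ≤ |x|/2`).
The transport of `x` starts at time `0` (`x P(w₀) = x`), steps have length at most `s`, and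
`x P(t') P(t') = x P(t')`. -/
lemma trp_ne {n : ℕ} (P : ℂ → Matrix (Fin n) (Fin n) ℝ) {w₀ w : ℂ} {s : ℝ} (hs : 0 < s)
    (hi : ∀ t : ℝ, 0 ≤ t → t ≤ 1 → P (seg w₀ w t) * P (seg w₀ w t) = P (seg w₀ w t))
    (hstep : ∀ (t t' : ℝ), 0 ≤ t → t ≤ 1 → 0 ≤ t' → t' ≤ 1 → |t - t'| ≤ s →
        ∀ i j, |P (seg w₀ w t) i j - P (seg w₀ w t') i j| ≤ 1 / (2 * ((n : ℝ) + 1)))
    {x : Fin n → ℝ} (hx : x ᵥ* P w₀ = x) (hx0 : x ≠ 0) (k : ℕ) :
    x ᵥ* trp P w₀ w s k ≠ 0 := by
  -- one step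
  have step : ∀ (A B : Matrix (Fin n) (Fin n) ℝ) (y : Fin n → ℝ),
      (∀ i j, |A i j - B i j| ≤ 1 / (2 * ((n : ℝ) + 1))) → y ᵥ* A = y → y ≠ 0 →
      y ᵥ* B ≠ 0 := by
    intro A B y hAB hyA hy0 hB
    have hn : (0 : ℝ) < 2 * ((n : ℝ) + 1) := by positivity
    have hle : ‖y‖ ≤ ‖y‖ / 2 := by
      refine (pi_norm_le_iff_of_nonneg (by positivity)).2 fun j => ?_
      have h1 : y j = ∑ i, y i * (A i j - B i j) := by
        have hA : y j = ∑ i, y i * A i j := by
          have := congrFun hyA j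
          rw [Matrix.vecMul, dotProduct] at this
          exact this.symm
        have hB' : (0 : ℝ) = ∑ i, y i * B i j := by
          have := congrFun hB j
          rw [Matrix.vecMul, dotProduct] at this
          exact this.symm
        simp only [mul_sub, Finset.sum_sub_distrib]
        rw [← hA, ← hB', sub_zero]
      rw [h1, Real.norm_eq_abs]
      calc |∑ i, y i * (A i j - B i j)| ≤ ∑ i, |y i * (A i j - B i j)| :=
            Finset.abs_sum_le_sum_abs _ _
        _ ≤ ∑ _i : Fin n, ‖y‖ * (1 / (2 * ((n : ℝ) + 1))) := by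
            refine Finset.sum_le_sum fun i _ => ?_
            rw [abs_mul]
            exact mul_le_mul (norm_le_pi_norm y i) (hAB i j) (abs_nonneg _) (norm_nonneg _)
        _ = ‖y‖ * ((n : ℝ) / (2 * ((n : ℝ) + 1))) := by
            rw [Finset.sum_const, Finset.card_univ, Fintype.card_fin, nsmul_eq_mul]
            ring
        _ ≤ ‖y‖ * (1 / 2) := by
            refine mul_le_mul_of_nonneg_left ?_ (norm_nonneg _)
            rw [div_le_div_iff₀ hn (by norm_num)]
            linarith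
        _ = ‖y‖ / 2 := by ring
    have hpos : 0 < ‖y‖ := norm_pos_iff.2 hy0
    linarith
  -- the induction
  have key : ∀ k : ℕ, x ᵥ* trp P w₀ w s k ≠ 0 ∧
      (x ᵥ* trp P w₀ w s k) ᵥ* P (seg w₀ w (min 1 ((k : ℝ) * s))) = x ᵥ* trp P w₀ w s k := by
    intro k
    induction k with
    | zero =>
      have hm : min 1 (((0 : ℕ) : ℝ) * s) = 0 := by
        simp
      rw [hm, seg_zero, trp, Matrix.vecMul_one]
      exact ⟨hx0, hx⟩
    | succ k ih =>
      obtain ⟨ih0, ih1⟩ := ih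
      have h0 : (0 : ℝ) ≤ min 1 ((k : ℝ) * s) := le_min zero_le_one (by positivity)
      have h1 : min 1 ((k : ℝ) * s) ≤ 1 := min_le_left _ _
      have h0' : (0 : ℝ) ≤ min 1 (((k + 1 : ℕ) : ℝ) * s) := le_min zero_le_one (by positivity)
      have h1' : min 1 (((k + 1 : ℕ) : ℝ) * s) ≤ 1 := min_le_left _ _
      have hd : |min 1 ((k : ℝ) * s) - min 1 (((k + 1 : ℕ) : ℝ) * s)| ≤ s := by
        have := abs_min_sub_min_le_max (1 : ℝ) ((k : ℝ) * s) 1 (((k + 1 : ℕ) : ℝ) * s)
        refine this.trans ?_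
        rw [sub_self, abs_zero]
        refine max_le hs.le ?_
        push_cast
        rw [show (k : ℝ) * s - ((k : ℝ) + 1) * s = -s by ring, abs_neg, abs_of_pos hs]
      rw [trp, ← Matrix.vecMul_vecMul]
      refine ⟨step _ _ _ (hstep _ _ h0 h1 h0' h1' hd) ih1 ih0, ?_⟩
      rw [Matrix.vecMul_vecMul, hi _ h0' h1']
  exact (key k).1

end Pool.Agent.SfBundle
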