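import Mathlib
import Pool.Agent.Lib.MP_1d980c_gt.Sf.TrB

set_option autoImplicit false
open scoped UpperHalfPlane MatrixGroups Manifold ContDiff Matrix Topology
open Complex ComplexConjugate Pool.Agent.HypBundle

namespace Pool.Agent.SfBundle

/-- extension by zero -/
private noncomputable def extP {n : ℕ} (P : ℍ → Matrix (Fin n) (Fin n) ℝ) (z : ℂ) :
    Matrix (Fin n) (Fin n) ℝ :=
  open Classical in if h : 0 < z.im then P ⟨z, h⟩ else 0

private lemma extP_eq {n : ℕ} (P : ℍ → Matrix (Fin n) (Fin n) ℝ) {z : ℂ} (h : 0 < z.im) :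
    extP P z = P ⟨z, h⟩ := by
  unfold extP
  rw [dif_pos h]

private lemma extP_coe {n : ℕ} (P : ℍ → Matrix (Fin n) (Fin n) ℝ) (w : ℍ) :
    extP P (w : ℂ) = P w := by
  rw [extP_eq P w.im_pos]

private lemma extP_cont {n : ℕ} (P : ℍ → Matrix (Fin n) (Fin n) ℝ) (hP : Continuous P) :
    ContinuousOn (extP P) HH := by
  rw [continuousOn_iff_continuous_domRestrict]
  have h1 : Continuous (fun z : HH => (⟨(z : ℂ), z.2⟩ : ℍ)) := by
    rw [UpperHalfPlane.isOpenEmbedding_coe.isEmbedding.continuous_iff]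
    exact continuous_subtype_val
  refine (hP.comp h1).congr fun z => ?_
  exact (extP_eq P z.2).symm

private lemma seg_one (w₀ w : ℂ) : seg w₀ w 1 = w := by
  unfold seg
  push_cast
  ring

private lemma trp_cont {n : ℕ} (P : ℍ → Matrix (Fin n) (Fin n) ℝ) (hP : Continuous P) (w₀ : ℍ)
    {s : ℍ → ℝ} (hs : Continuous s) (hs0 : ∀ w, 0 < s w) (k : ℕ) :
    Continuous (fun w : ℍ => trp (extP P) w₀ w (s w) k) := by
  induction k with
  | zero => exact continuous_const
  | succ k ih =>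
    refine Continuous.matrix_mul ih ?_
    have h1 : Continuous (fun w : ℍ =>
        seg (w₀ : ℂ) (w : ℂ) (min 1 (((k + 1 : ℕ) : ℝ) * s w))) := by
      unfold seg
      have h2 : Continuous (fun w : ℍ => (w : ℂ)) := UpperHalfPlane.continuous_coe
      fun_prop
    refine (extP_cont P hP).comp_continuous h1 fun w => ?_
    refine seg_mem w₀.im_pos w.im_pos ?_ (min_le_left _ _)
    have := hs0 w
    positivity

/-- **Transport.** Take `A w = trp P w₀ w (s w) k` with `k = ⌈1/s w⌉₊` and `s` from `exists_step`;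
near a point one may use one fixed large `k` (`trp_const`), and `trp` with fixed `k` is continuous
in `w`. -/
theorem transport {n : ℕ} (P : ℍ → Matrix (Fin n) (Fin n) ℝ) (hP : Continuous P)
    (hi : ∀ w, P w * P w = P w) (w₀ : ℍ) :
    ∃ A : ℍ → Matrix (Fin n) (Fin n) ℝ, Continuous A ∧ (∀ w, A w * P w = A w) ∧
      ∀ (w : ℍ) (x : Fin n → ℝ), x ᵥ* P w₀ = x → x ≠ 0 → x ᵥ* A w ≠ 0 := by
  have hPc := extP_cont P hP
  have hid : ∀ z ∈ HH, extP P z * extP P z = extP P z := by
    intro z hz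
    rw [extP_eq P hz]
    exact hi _
  obtain ⟨s, hsc, hs, hst⟩ := exists_step (extP P)
    (fun i j => (continuous_apply_apply i j).comp_continuousOn hPc) (w₀ := (w₀ : ℂ)) w₀.im_pos
  have hk : ∀ w, 1 ≤ ((⌈1 / s w⌉₊ : ℕ) : ℝ) * s w := by
    intro w
    have h1 := Nat.le_ceil (1 / s w)
    have h2 := (hs w).1
    calc (1 : ℝ) = 1 / s w * s w := by field_simp
      _ ≤ _ := mul_le_mul_of_nonneg_right h1 h2.le
  refine ⟨fun w => trp (extP P) w₀ w (s w) ⌈1 / s w⌉₊, ?_, ?_, ?_⟩
  · rw [continuous_iff_continuousAt]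
    intro w₁
    set K : ℕ := ⌈1 / s w₁⌉₊ + 1 with hK
    have hKs : 1 < (K : ℝ) * s w₁ := by
      have h2 := hk w₁
      have h3 := (hs w₁).1
      rw [hK]
      push_cast
      linarith
    have hev : ∀ᶠ w in 𝓝 w₁, 1 < (K : ℝ) * s w :=
      ((continuous_const.mul hsc).tendsto w₁).eventually (lt_mem_nhds hKs)
    refine (trp_cont P hP w₀ hsc (fun w => (hs w).1) K).continuousAt.congr ?_
    filter_upwards [hev] with w hw
    refine trp_const (extP P) (hs w).1 (hid _ w.im_pos) (hk w) ?_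
    rw [Nat.ceil_le, div_le_iff₀ (hs w).1]
    exact hw.le
  · intro w
    have h1 := trp_const (extP P) (w₀ := (w₀ : ℂ)) (w := (w : ℂ)) (hs w).1 (hid _ w.im_pos) (hk w)
      (Nat.le_succ ⌈1 / s w⌉₊)
    have h2 : trp (extP P) (w₀ : ℂ) (w : ℂ) (s w) (⌈1 / s w⌉₊ + 1) =
        trp (extP P) (w₀ : ℂ) (w : ℂ) (s w) ⌈1 / s w⌉₊ * P w := by
      have h3 : min 1 (((⌈1 / s w⌉₊ + 1 : ℕ) : ℝ) * s w) = 1 := by
        refine min_eq_left ?_
        have h4 := hk w
        have h5 := (hs w).1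
        push_cast
        linarith
      simp only [trp]
      rw [h3, seg_one, extP_coe]
    rw [← h2]
    exact h1
  · intro w x hx hx0
    refine trp_ne (extP P) (hs w).1 (fun t h0 h1 => hid _ (seg_mem w₀.im_pos w.im_pos h0 h1))
      (hst w) ?_ hx0 _
    rw [extP_coe]
    exact hx

end Pool.Agent.SfBundle
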