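import Mathlib
import Pool.Agent.Lib.MP_1d980c_gt.Sf.FrmA
import Pool.Agent.Lib.MP_1d980c_gt.Sf.FrmB
import Pool.Agent.Lib.MP_1d980c_gt.Sf.TrC

set_option autoImplicit false
open scoped UpperHalfPlane MatrixGroups Manifold ContDiff Matrix Topology
open Complex ComplexConjugate Pool.Agent.HypBundle

namespace Pool.Agent.SfBundle

/-- the idempotent -/
private noncomputable def prj {k n : ℕ} (S : Matrix (Fin k) (Fin n) ℝ)
    (H : Matrix (Fin n) (Fin n) ℝ) : Matrix (Fin n) (Fin n) ℝ :=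
  1 - H * Sᵀ * (S * H * Sᵀ)⁻¹ * S

private lemma prj_mul {k n : ℕ} {S : Matrix (Fin k) (Fin n) ℝ}
    {H : Matrix (Fin n) (Fin n) ℝ} (hS : LinearIndependent ℝ S.row) (hH : H.PosDef) :
    prj S H * (H * Sᵀ) = 0 := by
  have hG : IsUnit (S * H * Sᵀ).det := (gram_unit hS hH).det_pos.ne'.isUnit
  have h1 : (S * H * Sᵀ)⁻¹ * (S * H * Sᵀ) = 1 := Matrix.nonsing_inv_mul _ hG
  rw [prj, Matrix.sub_mul, Matrix.one_mul]
  have h2 : H * Sᵀ * (S * H * Sᵀ)⁻¹ * S * (H * Sᵀ) =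
      H * Sᵀ * ((S * H * Sᵀ)⁻¹ * (S * H * Sᵀ)) := by
    simp only [Matrix.mul_assoc]
  rw [h2, h1, Matrix.mul_one, sub_self]

private lemma prj_idem {k n : ℕ} {S : Matrix (Fin k) (Fin n) ℝ}
    {H : Matrix (Fin n) (Fin n) ℝ} (hS : LinearIndependent ℝ S.row) (hH : H.PosDef) :
    prj S H * prj S H = prj S H := by
  have h1 : prj S H * prj S H =
      prj S H - prj S H * (H * Sᵀ) * ((S * H * Sᵀ)⁻¹ * S) := by
    conv_lhs => rw [show prj S H * prj S H =
      prj S H * (1 - H * Sᵀ * (S * H * Sᵀ)⁻¹ * S) from rfl]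
    rw [Matrix.mul_sub, Matrix.mul_one]
    simp only [Matrix.mul_assoc]
  rw [h1, prj_mul hS hH, Matrix.zero_mul, sub_zero]

private lemma vecMul_prj {k n : ℕ} {S : Matrix (Fin k) (Fin n) ℝ}
    {H : Matrix (Fin n) (Fin n) ℝ} {x : Fin n → ℝ} (hx : x ᵥ* (H * Sᵀ) = 0) :
    x ᵥ* prj S H = x := by
  have h2 : H * Sᵀ * (S * H * Sᵀ)⁻¹ * S = H * Sᵀ * ((S * H * Sᵀ)⁻¹ * S) := by
    rw [Matrix.mul_assoc]
  rw [prj, Matrix.vecMul_sub, Matrix.vecMul_one, h2, ← Matrix.vecMul_vecMul, hx,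
    Matrix.zero_vecMul, sub_zero]

/-- **The orthonormal frame of the complement.** `P w = 1 - H Sᵀ (S H Sᵀ)⁻¹ S` is a continuous
family of idempotents with `P w * H w * (S w)ᵀ = 0` and `x P w = x` if `x H Sᵀ = 0`; transport two
independent vectors of `exists_two` at the point `I` (`transport`: they stay independent, since a
nonzero combination stays nonzero), then `exists_gs`. -/
theorem exists_X {k n : ℕ} (hn : n = k + 2) (S : ℍ → Matrix (Fin k) (Fin n) ℝ)
    (hS : Continuous S) (hSi : ∀ w, LinearIndependent ℝ (S w).row)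
    (H : ℍ → Matrix (Fin n) (Fin n) ℝ) (hH : Continuous H) (hp : ∀ w, (H w).PosDef) :
    ∃ X : ℍ → Matrix (Fin 2) (Fin n) ℝ, Continuous X ∧ (∀ w, X w * H w * (S w)ᵀ = 0) ∧
      ∀ w, X w * H w * (X w)ᵀ = 1 := by
  have hPc : Continuous fun w => prj (S w) (H w) := by
    have hSt : Continuous fun w => (S w)ᵀ := hS.matrix_transpose
    have hG : Continuous fun w => S w * H w * (S w)ᵀ := (hS.matrix_mul hH).matrix_mul hSt
    have hGi : Continuous fun w => (S w * H w * (S w)ᵀ)⁻¹ := by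
      have h : (fun w => (S w * H w * (S w)ᵀ)⁻¹) =
          fun w => (S w * H w * (S w)ᵀ).det⁻¹ • (S w * H w * (S w)ᵀ).adjugate := by
        funext w
        rw [Matrix.inv_def, Ring.inverse_eq_inv']
      rw [h]
      refine Continuous.smul (Continuous.inv₀ hG.matrix_det fun w => ?_) hG.matrix_adjugate
      exact (gram_unit (hSi w) (hp w)).det_pos.ne'
    exact continuous_const.sub ((((hH.matrix_mul hSt).matrix_mul hGi)).matrix_mul hS)
  obtain ⟨A, hA, hAP, hAx⟩ := transport (fun w => prj (S w) (H w)) hPc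
    (fun w => prj_idem (hSi w) (hp w)) UpperHalfPlane.I
  obtain ⟨x, y, hxy, hx, hy⟩ := exists_two hn (S UpperHalfPlane.I) (H UpperHalfPlane.I)
  have hAS : ∀ (w : ℍ) (v : Fin n → ℝ), (v ᵥ* A w) ᵥ* (H w * (S w)ᵀ) = 0 := by
    intro w v
    rw [Matrix.vecMul_vecMul, ← hAP w, Matrix.mul_assoc, prj_mul (hSi w) (hp w), Matrix.mul_zero,
      Matrix.vecMul_zero]
  have hcx : ∀ v : Fin n → ℝ, Continuous fun w : ℍ => v ᵥ* A w := fun v =>
    continuous_const.matrix_vecMul hA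
  have hli : ∀ w, LinearIndependent ℝ ![x ᵥ* A w, y ᵥ* A w] := by
    intro w
    rw [LinearIndependent.pair_iff] at hxy ⊢
    intro a b hab
    refine hxy a b ?_
    by_contra hne
    refine hAx w (a • x + b • y) ?_ hne ?_
    · refine vecMul_prj ?_
      rw [Matrix.add_vecMul, Matrix.smul_vecMul, Matrix.smul_vecMul, hx, hy, smul_zero,
        smul_zero, add_zero]
    · rw [Matrix.add_vecMul, Matrix.smul_vecMul, Matrix.smul_vecMul, hab]
  obtain ⟨X, hX, hX1, hX2⟩ := exists_gs H hH hp (fun w => x ᵥ* A w) (fun w => y ᵥ* A w)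
    (hcx x) (hcx y) hli
  refine ⟨X, hX, fun w => ?_, hX1⟩
  rw [Matrix.mul_assoc]
  funext i
  obtain ⟨a, b, hab⟩ := hX2 w i
  have h1 : (X w * (H w * (S w)ᵀ)) i = (X w i) ᵥ* (H w * (S w)ᵀ) := rfl
  rw [h1, hab, Matrix.add_vecMul, Matrix.smul_vecMul, Matrix.smul_vecMul, hAS, hAS, smul_zero,
    smul_zero, add_zero]
  rfl

end Pool.Agent.SfBundle
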