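import Mathlib
import Pool.Agent.Lib.MP_1d980c_gt.Hyp.CocycleH

set_option autoImplicit false
open scoped UpperHalfPlane MatrixGroups Manifold ContDiff Matrix Topology
open Complex ComplexConjugate Pool.Agent.HypBundle

namespace Pool.Agent.SfBundle

/-- `χ` is smooth, supported in the compact set `L ⊆ HH`, and its `Γ`-translates sum up to one.
(`CH.T γ w` is the Moebius transformation `γ w`, for `w ∈ HH`.) -/
structure PU (Γ : Subgroup SL(2, ℝ)) (χ : ℂ → ℝ) (L : Set ℂ) : Prop where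
  cpt : IsCompact L
  sub : L ⊆ HH
  smooth : ContDiff ℝ ∞ χ
  zero : ∀ z, z ∉ L → χ z = 0
  nonneg : ∀ z, 0 ≤ χ z
  sum : ∀ w ∈ HH, ∑ᶠ γ : Γ, χ (CH.T (γ : SL(2, ℝ)) w) = 1

/-- Take `χ₀` as in the proof of `exists_psi` (`Hyp/CocycleH.lean`) and `χ = χ₀ / Dn Γ χ₀`
(`contDiffOn_Dn`, `Dn_pos`, `Dn_T`); `χ` is smooth on `ℂ` because `χ₀` vanishes near every point
outside a compact subset of `HH` (take the support of `χ₀` in the interior of `L₀` and `L`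
a compact neighbourhood of `L₀` in `HH`). -/
theorem exists_PU (Γ : Subgroup SL(2, ℝ)) [DiscreteTopology Γ]
    (hcoc : ∃ K : Set ℍ, IsCompact K ∧ ∀ w : ℍ, ∃ γ : Γ, γ • w ∈ K) :
    ∃ (χ : ℂ → ℝ) (L : Set ℂ), PU Γ χ L := by
  obtain ⟨K, hK, hKc⟩ := hcoc
  have hK' : IsCompact (((↑) : ℍ → ℂ) '' K) := hK.image UpperHalfPlane.continuous_coe
  obtain ⟨L, hL, hKL, hLH⟩ := exists_compact_between hK' CH.isOpen_HH
    (by rintro z ⟨x, -, rfl⟩; exact x.im_pos)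
  obtain ⟨χ, hχs, hχd, hχr⟩ := (isOpen_interior (s := L)).exists_contDiff_support_eq (n := ⊤)
  have hχ : ∀ z, z ∉ L → χ z = 0 := by
    intro z hz
    by_contra h
    have h1 : z ∈ Function.support χ := h
    rw [hχs] at h1
    exact hz (interior_subset h1)
  have h0 : ∀ z, 0 ≤ χ z := fun z => (hχr (Set.mem_range_self z)).1
  have hD : ∀ w ∈ HH, 0 < CH.Dn Γ χ w := by
    intro w hw
    obtain ⟨γ, hγ⟩ := hKc ⟨w, hw⟩
    have h2 : CH.T (γ : SL(2, ℝ)) w = ((γ • (⟨w, hw⟩ : ℍ) : ℍ) : ℂ) :=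
      CH.T_coe (γ : SL(2, ℝ)) ⟨w, hw⟩
    have h3 : CH.T (γ : SL(2, ℝ)) w ∈ ((↑) : ℍ → ℂ) '' K := by
      rw [h2]
      exact Set.mem_image_of_mem _ hγ
    have h4 : CH.T (γ : SL(2, ℝ)) w ∈ Function.support χ := by
      rw [hχs]
      exact hKL h3
    have h5 : 0 < χ (CH.T (γ : SL(2, ℝ)) w) := lt_of_le_of_ne (h0 _) (Ne.symm h4)
    exact CH.Dn_pos Γ hL hLH hχ h0 hw h5
  refine ⟨fun z => (CH.Dn Γ χ z)⁻¹ * χ z, L, ⟨hL, hLH, ?_, ?_, ?_, ?_⟩⟩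
  · rw [contDiff_iff_contDiffAt]
    intro z
    by_cases hz : z ∈ HH
    · have h1 : ContDiffAt ℝ ∞ (CH.Dn Γ χ) z :=
        (CH.contDiffOn_Dn Γ hL hLH hχ hχd).contDiffAt (CH.isOpen_HH.mem_nhds hz)
      exact (h1.inv (hD z hz).ne').mul hχd.contDiffAt
    · have h1 : Lᶜ ∈ 𝓝 z := hL.isClosed.isOpen_compl.mem_nhds fun h => hz (hLH h)
      have h2 : (fun z => (CH.Dn Γ χ z)⁻¹ * χ z) =ᶠ[𝓝 z] fun _ => (0 : ℝ) := by
        filter_upwards [h1] with y hy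
        rw [hχ y hy, mul_zero]
      exact contDiffAt_const.congr_of_eventuallyEq h2
  · intro z hz
    simp only [hχ z hz, mul_zero]
  · intro z
    by_cases hz : z ∈ HH
    · exact mul_nonneg (inv_nonneg.2 (hD z hz).le) (h0 z)
    · simp only [hχ z fun h => hz (hLH h), mul_zero, le_refl]
  · intro w hw
    have h1 : ∑ᶠ γ : Γ, (CH.Dn Γ χ (CH.T (γ : SL(2, ℝ)) w))⁻¹ * χ (CH.T (γ : SL(2, ℝ)) w) =
        ∑ᶠ γ : Γ, (CH.Dn Γ χ w)⁻¹ • χ (CH.T (γ : SL(2, ℝ)) w) := by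
      refine finsum_congr fun γ => ?_
      rw [CH.Dn_T, smul_eq_mul]
    have h2 : ∑ᶠ γ : Γ, (CH.Dn Γ χ w)⁻¹ • χ (CH.T (γ : SL(2, ℝ)) w) =
        (CH.Dn Γ χ w)⁻¹ • CH.Dn Γ χ w := by
      rw [CH.Dn, ← smul_finsum]
    rw [h1, h2, smul_eq_mul, inv_mul_cancel₀ (hD w hw).ne']

end Pool.Agent.SfBundle
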