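import Mathlib
import Pool.Agent.Lib.MP_1d980c_gt.Sf.PUa

set_option autoImplicit false
open scoped UpperHalfPlane MatrixGroups Manifold ContDiff Matrix Topology
open Complex ComplexConjugate Pool.Agent.HypBundle

namespace Pool.Agent.SfBundle

variable {Γ : Subgroup SL(2, ℝ)} [DiscreteTopology Γ] {χ : ℂ → ℝ} {L : Set ℂ}
  {E : Type} [NormedAddCommGroup E] [NormedSpace ℝ E]

/-- only finitely many terms are nonzero (`CH.loc_fin`) -/
lemma gsum_fin (hL : IsCompact L) (hLH : L ⊆ HH) (hχ : ∀ z, z ∉ L → χ z = 0) {w : ℂ}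
    (hw : w ∈ HH) (F : Γ → E) :
    (Function.support fun γ : Γ => χ (CH.T (γ : SL(2, ℝ)) w) • F γ).Finite := by
  obtain ⟨U, hU, S, hS⟩ := CH.loc_fin Γ hL hLH hw
  refine S.finite_toSet.subset fun γ hγ => ?_
  by_contra h
  refine hγ ?_
  simp only [hχ _ (hS w (mem_of_mem_nhds hU) γ h), zero_smul]

/-- smoothness of `Γ`-sums; compare `CH.contDiffOn_Nm` -/
lemma gsum_smooth (hL : IsCompact L) (hLH : L ⊆ HH) (hχ : ∀ z, z ∉ L → χ z = 0)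
    (hs : ContDiff ℝ ∞ χ) (F : Γ → ℂ → E) (hF : ∀ γ, ContDiffOn ℝ ∞ (F γ) HH) :
    ContDiffOn ℝ ∞ (fun w => ∑ᶠ γ : Γ, χ (CH.T (γ : SL(2, ℝ)) w) • F γ w) HH := by
  intro w hw
  obtain ⟨U, hU, S, hS⟩ := CH.loc_fin Γ hL hLH hw
  have h1 : (fun z => ∑ᶠ γ : Γ, χ (CH.T (γ : SL(2, ℝ)) z) • F γ z) =ᶠ[𝓝 w]
      fun z => ∑ γ ∈ S, χ (CH.T (γ : SL(2, ℝ)) z) • F γ z := by
    filter_upwards [hU] with z hz
    refine finsum_eq_sum_of_support_subset _ fun γ hγ => ?_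
    by_contra h
    refine hγ ?_
    simp only [hχ _ (hS z hz γ h), zero_smul]
  have h2 : ContDiffAt ℝ ∞ (fun z => ∑ γ ∈ S, χ (CH.T (γ : SL(2, ℝ)) z) • F γ z) w := by
    refine ContDiffAt.sum fun γ _ => ?_
    have h3 : ContDiffAt ℝ ∞ (fun z => χ (CH.T (γ : SL(2, ℝ)) z)) w :=
      hs.contDiffAt.comp w ((CH.contDiffOn_T _).contDiffAt (CH.isOpen_HH.mem_nhds hw))
    exact h3.smul ((hF γ).contDiffAt (CH.isOpen_HH.mem_nhds hw))
  exact (h2.congr_of_eventuallyEq h1).contDiffWithinAt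

/-- continuity of `Γ`-sums -/
lemma gsum_cont (hL : IsCompact L) (hLH : L ⊆ HH) (hχ : ∀ z, z ∉ L → χ z = 0)
    (hs : Continuous χ) (F : Γ → ℂ → E) (hF : ∀ γ, ContinuousOn (F γ) HH) :
    ContinuousOn (fun w => ∑ᶠ γ : Γ, χ (CH.T (γ : SL(2, ℝ)) w) • F γ w) HH := by
  intro w hw
  obtain ⟨U, hU, S, hS⟩ := CH.loc_fin Γ hL hLH hw
  have h1 : (fun z => ∑ᶠ γ : Γ, χ (CH.T (γ : SL(2, ℝ)) z) • F γ z) =ᶠ[𝓝 w]
      fun z => ∑ γ ∈ S, χ (CH.T (γ : SL(2, ℝ)) z) • F γ z := by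
    filter_upwards [hU] with z hz
    refine finsum_eq_sum_of_support_subset _ fun γ hγ => ?_
    by_contra h
    refine hγ ?_
    simp only [hχ _ (hS z hz γ h), zero_smul]
  have h2 : ContinuousAt (fun z => ∑ γ ∈ S, χ (CH.T (γ : SL(2, ℝ)) z) • F γ z) w := by
    refine tendsto_finsetSum _ fun γ _ => ?_
    have h3 : ContinuousAt (fun z => χ (CH.T (γ : SL(2, ℝ)) z)) w :=
      hs.continuousAt.comp
        ((CH.contDiffOn_T _).contDiffAt (CH.isOpen_HH.mem_nhds hw)).continuousAt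
    exact h3.smul ((hF γ).continuousAt (CH.isOpen_HH.mem_nhds hw))
  exact (h2.congr h1.symm).continuousWithinAt

omit [DiscreteTopology Γ] in
/-- reindexing `γ ↦ γ δ` (`CH.T_mul`, `finsum_comp_equiv (Equiv.mulRight δ)`) -/
lemma gsum_shift (F : Γ → E) (δ : Γ) (w : ℂ) :
    ∑ᶠ γ : Γ, χ (CH.T (γ : SL(2, ℝ)) (CH.T (δ : SL(2, ℝ)) w)) • F γ =
      ∑ᶠ γ : Γ, χ (CH.T (γ : SL(2, ℝ)) w) • F (γ * δ⁻¹) := by
  have h := finsum_comp_equiv (Equiv.mulRight δ)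
    (f := fun γ : Γ => χ (CH.T (γ : SL(2, ℝ)) w) • F (γ * δ⁻¹))
  rw [← h]
  refine finsum_congr fun γ => ?_
  rw [← CH.T_mul]
  simp only [Equiv.coe_mulRight, mul_inv_cancel_right]
  rfl

/-- with `PU`: the sum of a constant is the constant -/
lemma PU.const (hχ : PU Γ χ L) {w : ℂ} (hw : w ∈ HH) (x : E) :
    ∑ᶠ γ : Γ, χ (CH.T (γ : SL(2, ℝ)) w) • x = x := by
  have h := hχ.sum w hw
  have hf : (Function.support fun γ : Γ => χ (CH.T (γ : SL(2, ℝ)) w)).Finite := by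
    obtain ⟨U, hU, S, hS⟩ := CH.loc_fin Γ hχ.cpt hχ.sub hw
    refine S.finite_toSet.subset fun γ hγ => ?_
    by_contra h'
    exact hγ (hχ.zero _ (hS w (mem_of_mem_nhds hU) γ h'))
  rw [← finsum_smul' hf, h, one_smul]

end Pool.Agent.SfBundle
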