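import Mathlib
import Pool.Agent.Lib.MP_1d980c_gt.Sf.PU

set_option autoImplicit false
open scoped UpperHalfPlane MatrixGroups Manifold ContDiff Matrix Topology
open Complex ComplexConjugate Pool.Agent.HypBundle

namespace Pool.Agent.SfBundle

/-- An equivariant metric on the dual bundle: `H(w) = ∑_γ χ(γw) ρ(γ⁻¹) ρ(γ⁻¹)ᵀ` with `χ` from
`exists_PU` (use `gsum_cont`, `gsum_shift` entrywise or for `Fin n → Fin n → ℝ`; positive definite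
because the finitely many terms are positive semidefinite and one of them, with `χ(γw) > 0`, is
definite: `ρ(γ⁻¹)` is invertible). -/
theorem exists_H (Γ : Subgroup SL(2, ℝ)) [DiscreteTopology Γ]
    (hcoc : ∃ K : Set ℍ, IsCompact K ∧ ∀ w : ℍ, ∃ γ : Γ, γ • w ∈ K) {n : ℕ}
    (ρ : Γ →* Matrix (Fin n) (Fin n) ℝ) :
    ∃ H : ℍ → Matrix (Fin n) (Fin n) ℝ, Continuous H ∧ (∀ w, (H w).PosDef) ∧
      ∀ (γ : Γ) (w : ℍ), H (γ • w) = ρ γ * H w * (ρ γ)ᵀ := by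
  classical
  obtain ⟨χ, L, hχ⟩ := exists_PU Γ hcoc
  let Fm : Γ → Matrix (Fin n) (Fin n) ℝ := fun γ => ρ γ⁻¹ * (ρ γ⁻¹)ᵀ
  let F : Γ → (Fin n → Fin n → ℝ) := Fm
  let G : ℂ → (Fin n → Fin n → ℝ) := fun w => ∑ᶠ γ : Γ, χ (CH.T (γ : SL(2, ℝ)) w) • F γ
  have hfin : ∀ w : ℍ,
      (Function.support fun γ : Γ => χ (CH.T (γ : SL(2, ℝ)) (w : ℂ)) • F γ).Finite :=
    fun w => gsum_fin hχ.cpt hχ.sub hχ.zero w.im_pos F
  refine ⟨fun w => G w, ?_, ?_, ?_⟩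
  · have h1 : ContinuousOn G HH :=
      gsum_cont hχ.cpt hχ.sub hχ.zero hχ.smooth.continuous (fun γ _ => F γ)
        (fun γ => continuousOn_const)
    exact h1.comp_continuous UpperHalfPlane.continuous_coe (fun w => w.im_pos)
  · intro w
    have hf1 : (Function.support fun γ : Γ =>
        χ (CH.T (γ : SL(2, ℝ)) (w : ℂ)) • (1 : ℝ)).Finite :=
      gsum_fin hχ.cpt hχ.sub hχ.zero w.im_pos (fun _ => (1 : ℝ))
    have hsub : (Function.support fun γ : Γ => χ (CH.T (γ : SL(2, ℝ)) (w : ℂ)) • F γ) ⊆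
        (hf1.toFinset : Set Γ) := by
      intro γ hγ
      rw [Set.Finite.coe_toFinset, Function.mem_support]
      rw [Function.mem_support] at hγ
      intro h0
      rw [smul_eq_mul, mul_one] at h0
      apply hγ
      rw [h0, zero_smul]
    have e1 : G w = ∑ γ ∈ hf1.toFinset, χ (CH.T (γ : SL(2, ℝ)) (w : ℂ)) • F γ :=
      finsum_eq_sum_of_support_subset _ hsub
    obtain ⟨γ₀, h0⟩ : ∃ γ : Γ, χ (CH.T (γ : SL(2, ℝ)) (w : ℂ)) ≠ 0 := by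
      by_contra hcon
      push Not at hcon
      have := hχ.sum w w.im_pos
      rw [finsum_eq_zero_of_forall_eq_zero hcon] at this
      exact zero_ne_one this
    have hmem : γ₀ ∈ hf1.toFinset := by
      rw [Set.Finite.mem_toFinset, Function.mem_support, smul_eq_mul, mul_one]
      exact h0
    have hpos : 0 < χ (CH.T (γ₀ : SL(2, ℝ)) (w : ℂ)) :=
      lt_of_le_of_ne (hχ.nonneg _) (Ne.symm h0)
    have hcon : ∀ A : Matrix (Fin n) (Fin n) ℝ, Aᴴ = Aᵀ := fun A =>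
      Matrix.conjTranspose_eq_transpose_of_trivial A
    have hsemi : ∀ γ : Γ, (Fm γ).PosSemidef := by
      intro γ
      show (ρ γ⁻¹ * (ρ γ⁻¹)ᵀ).PosSemidef
      rw [← hcon]
      exact Matrix.posSemidef_self_mul_conjTranspose _
    have hdef : (Fm γ₀).PosDef := by
      show (ρ γ₀⁻¹ * (ρ γ₀⁻¹)ᵀ).PosDef
      rw [← hcon]
      refine Matrix.PosDef.mul_conjTranspose_self _ ?_
      intro x y hxy
      have h1 : ρ γ₀⁻¹ * ρ γ₀ = 1 := by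
        rw [← map_mul, inv_mul_cancel, map_one]
      have h2 := congrArg (fun v => v ᵥ* (ρ γ₀)) hxy
      simp only [Matrix.vecMul_vecMul, h1, Matrix.vecMul_one] at h2
      exact h2
    have e2 : (G w : Matrix (Fin n) (Fin n) ℝ) =
        χ (CH.T (γ₀ : SL(2, ℝ)) (w : ℂ)) • Fm γ₀ +
          ∑ γ ∈ hf1.toFinset.erase γ₀, χ (CH.T (γ : SL(2, ℝ)) (w : ℂ)) • Fm γ := by
      rw [e1]
      exact (Finset.add_sum_erase hf1.toFinset
        (fun γ : Γ => χ (CH.T (γ : SL(2, ℝ)) (w : ℂ)) • F γ) hmem).symm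
    show Matrix.PosDef (G w : Matrix (Fin n) (Fin n) ℝ)
    rw [e2]
    exact (hdef.smul hpos).add_posSemidef
      (Matrix.posSemidef_sum _ fun γ _ => (hsemi γ).smul (hχ.nonneg _))
  · intro γ w
    have e0 : ((γ • w : ℍ) : ℂ) = CH.T (γ : SL(2, ℝ)) (w : ℂ) := (CH.T_coe _ w).symm
    have e1 : G ((γ • w : ℍ) : ℂ) =
        ∑ᶠ δ : Γ, χ (CH.T (δ : SL(2, ℝ)) (w : ℂ)) • F (δ * γ⁻¹) := by
      rw [e0]
      exact gsum_shift F γ (w : ℂ)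
    have e2 : ∀ δ : Γ, Fm (δ * γ⁻¹) = ρ γ * Fm δ * (ρ γ)ᵀ := by
      intro δ
      show ρ (δ * γ⁻¹)⁻¹ * (ρ (δ * γ⁻¹)⁻¹)ᵀ = ρ γ * (ρ δ⁻¹ * (ρ δ⁻¹)ᵀ) * (ρ γ)ᵀ
      rw [mul_inv_rev, inv_inv, map_mul, Matrix.transpose_mul]
      simp only [Matrix.mul_assoc]
    let φ : Matrix (Fin n) (Fin n) ℝ →+ Matrix (Fin n) (Fin n) ℝ :=
      { toFun := fun M => ρ γ * M * (ρ γ)ᵀ
        map_zero' := by rw [Matrix.mul_zero, Matrix.zero_mul]
        map_add' := fun A B => by rw [Matrix.mul_add, Matrix.add_mul] }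
    have e3 : φ (∑ᶠ δ : Γ, χ (CH.T (δ : SL(2, ℝ)) (w : ℂ)) • Fm δ) =
        ∑ᶠ δ : Γ, φ (χ (CH.T (δ : SL(2, ℝ)) (w : ℂ)) • Fm δ) :=
      φ.map_finsum (hfin w)
    have e4 : ∀ δ : Γ, φ (χ (CH.T (δ : SL(2, ℝ)) (w : ℂ)) • Fm δ) =
        χ (CH.T (δ : SL(2, ℝ)) (w : ℂ)) • Fm (δ * γ⁻¹) := by
      intro δ
      rw [e2]
      show ρ γ * (χ (CH.T (δ : SL(2, ℝ)) (w : ℂ)) • Fm δ) * (ρ γ)ᵀ = _
      rw [Matrix.mul_smul, Matrix.smul_mul]
    have e5 : (G ((γ • w : ℍ) : ℂ) : Matrix (Fin n) (Fin n) ℝ) =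
        φ (∑ᶠ δ : Γ, χ (CH.T (δ : SL(2, ℝ)) (w : ℂ)) • Fm δ) := by
      rw [e3, e1]
      exact finsum_congr fun δ => (e4 δ).symm
    exact e5

end Pool.Agent.SfBundle
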