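import Mathlib
import Pool.Agent.Lib.MP_1d980c_gt.Hyp.Defs

set_option autoImplicit false
open scoped UpperHalfPlane MatrixGroups Manifold ContDiff Matrix Topology
open Complex ComplexConjugate Pool.Agent.HypBundle

namespace Pool.Agent.SfBundle

/-- Continuous logarithm on the simply connected `ℍ` (`Circle.isCoveringMap_exp`,
`IsCoveringMap.existsUnique_continuousMap_lifts`). -/
theorem exists_log (u : ℍ → ℂ) (hu : Continuous u) (h1 : ∀ w, ‖u w‖ = 1) :
    ∃ θ : ℍ → ℝ, Continuous θ ∧ ∀ w, u w = Complex.exp (θ w * Complex.I) := by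
  have hm : ∀ w, u w ∈ Submonoid.unitSphere ℂ := fun w => by
    exact mem_sphere_zero_iff_norm.2 (h1 w)
  let f : C(ℍ, Circle) := ⟨fun w => ⟨u w, hm w⟩, hu.subtype_mk hm⟩
  obtain ⟨t, ht⟩ := Circle.exp_surjective (f UpperHalfPlane.I)
  obtain ⟨F, ⟨-, hF⟩, -⟩ :=
    Circle.isCoveringMap_exp.existsUnique_continuousMap_lifts f UpperHalfPlane.I t ht
  refine ⟨F, F.continuous, fun w => ?_⟩
  have h2 : Circle.exp (F w) = f w := congrFun hF w
  have h3 : ((Circle.exp (F w) : Circle) : ℂ) = (f w : ℂ) := congrArg _ h2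
  rw [Circle.coe_exp] at h3
  exact h3.symm

/-- A continuous real function `f` on `ℍ` with `exp (i f) = 1` everywhere is constant. -/
lemma const_of_exp {f : ℍ → ℝ} (hf : Continuous f)
    (h : ∀ w, Complex.exp (f w * Complex.I) = 1) : ∃ c : ℝ, ∀ w, f w = c := by
  obtain ⟨F, -, hF⟩ := Circle.isCoveringMap_exp.existsUnique_continuousMap_lifts
    (ContinuousMap.const ℍ (1 : Circle)) UpperHalfPlane.I (f UpperHalfPlane.I)
    (by
      apply Circle.ext
      rw [Circle.coe_exp]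
      simpa using! h UpperHalfPlane.I)
  have h1 := hF ⟨f, hf⟩ ⟨rfl, by
    funext w
    apply Circle.ext
    simpa using! h w⟩
  have h2 := hF (ContinuousMap.const ℍ (f UpperHalfPlane.I)) ⟨rfl, by
    funext w
    apply Circle.ext
    simpa using! h UpperHalfPlane.I⟩
  refine ⟨f UpperHalfPlane.I, fun w => ?_⟩
  have h3 := DFunLike.congr_fun (h1.trans h2.symm) w
  exact h3

/-- logarithm of a cocycle -/
theorem log_cocycle {Γ : Subgroup SL(2, ℝ)} (u : Γ → ℍ → ℂ) (hu : ∀ γ, Continuous (u γ))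
    (h1 : ∀ γ w, ‖u γ w‖ = 1)
    (hc : ∀ (γ δ : Γ) (w : ℍ), u (γ * δ) w = u γ (δ • w) * u δ w) :
    ∃ (θ : Γ → ℍ → ℝ) (c : Γ → Γ → ℝ), (∀ γ, Continuous (θ γ)) ∧
      (∀ γ w, u γ w = Complex.exp (θ γ w * Complex.I)) ∧
      ∀ (γ δ : Γ) (w : ℍ), θ (γ * δ) w = θ γ (δ • w) + θ δ w + c γ δ := by
  choose θ hθ hθu using fun γ => exists_log (u γ) (hu γ) (h1 γ)
  have hk : ∀ γ δ : Γ, ∃ c : ℝ, ∀ w : ℍ, θ (γ * δ) w - (θ γ (δ • w) + θ δ w) = c := by
    intro γ δ
    refine const_of_exp ?_ fun w => ?_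
    · have h2 : Continuous fun w : ℍ => θ γ (δ • w) := (hθ γ).comp (continuous_const_smul δ)
      exact (hθ (γ * δ)).sub (h2.add (hθ δ))
    · have h3 := hc γ δ w
      rw [hθu (γ * δ) w, hθu γ (δ • w), hθu δ w, ← Complex.exp_add] at h3
      push_cast
      rw [sub_mul, Complex.exp_sub, h3, add_mul, div_self (Complex.exp_ne_zero _)]
  choose c hc' using hk
  exact ⟨θ, c, hθ, hθu, fun γ δ w => by linarith [hc' γ δ w]⟩

end Pool.Agent.SfBundle
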