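import Mathlib
import Pool.Agent.Lib.MP_1d980c_gt.Sf.Defs

set_option autoImplicit false
open scoped UpperHalfPlane MatrixGroups Manifold ContDiff Matrix Topology
open Complex ComplexConjugate Pool.Agent.HypBundle

namespace Pool.Agent.SfBundle

/-- the multiplier `exp (-(r log j(γ,z) + i k(γ)))` -/
noncomputable def muI {Γ : Subgroup SL(2, ℝ)} (r : ℝ) (k : Γ → ℝ) (γ : Γ) (z : ℂ) : ℂ :=
  Complex.exp (-((r : ℂ) * Complex.log (jf (γ : SL(2, ℝ)) z) + Complex.I * (k γ : ℂ)))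

/-- the phase `r arg j(γ,w) + k(γ)` -/
noncomputable def phs {Γ : Subgroup SL(2, ℝ)} (r : ℝ) (k : Γ → ℝ) (γ : Γ) (w : ℍ) : ℝ :=
  r * (Complex.log (jf (γ : SL(2, ℝ)) w)).im + k γ

/-- `jf γ z = c z + d` lies in `slitPlane` if `c ≠ 0` and is a nonzero constant if `c = 0`. -/
lemma muI_diff {Γ : Subgroup SL(2, ℝ)} (r : ℝ) (k : Γ → ℝ) (γ : Γ) :
    DifferentiableOn ℂ (muI r k γ) HH := by
  by_cases hc : (γ : SL(2, ℝ)) 1 0 = 0
  · have h : muI r k γ = fun _ : ℂ => Complex.exp (-((r : ℂ) *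
        Complex.log (((γ : SL(2, ℝ)) 1 1 : ℝ) : ℂ) + Complex.I * (k γ : ℂ))) := by
      funext z
      simp [muI, jf, hc]
    rw [h]
    exact differentiableOn_const _
  · intro z hz
    have hs : jf (γ : SL(2, ℝ)) z ∈ Complex.slitPlane := by
      rw [Complex.mem_slitPlane_iff]
      right
      unfold jf
      have hz' : z.im ≠ 0 := ne_of_gt hz
      simpa using ⟨hc, hz'⟩
    have hj : DifferentiableAt ℂ (jf (γ : SL(2, ℝ))) z := by
      unfold jf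
      fun_prop
    exact ((((hj.clog hs).const_mul (r : ℂ)).add_const _).neg.cexp).differentiableWithinAt

private lemma log_norm_jf (γ : SL(2, ℝ)) (w : ℍ) :
    Real.log ‖jf γ w‖ = (Real.log w.im - Real.log (γ • w).im) / 2 := by
  have h := congrArg Real.log (pen_im γ w)
  have h1 : ‖jf γ w‖ ≠ 0 := by
    rw [norm_ne_zero_iff]; exact jf_ne w.im_pos
  have h2 : Real.sqrt (γ • w).im ≠ 0 := (Real.sqrt_pos.2 (γ • w).im_pos).ne'
  rw [Real.log_mul h1 h2, Real.log_sqrt (γ • w).im_pos.le, Real.log_sqrt w.im_pos.le] at h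
  linarith

private lemma rat_eq (r : ℝ) (γ : SL(2, ℝ)) (w : ℍ) :
    Real.exp (-(r * Real.log ‖jf γ w‖)) = (γ • w).im ^ (r / 2) / w.im ^ (r / 2) := by
  rw [log_norm_jf, Real.rpow_def_of_pos (γ • w).im_pos, Real.rpow_def_of_pos w.im_pos,
    ← Real.exp_sub]
  congr 1
  ring

/-- `muI` is its modulus times `exp(-i phs)` -/
lemma muI_eq {Γ : Subgroup SL(2, ℝ)} (r : ℝ) (k : Γ → ℝ) (γ : Γ) (w : ℍ) :
    muI r k γ w = (((γ • w).im ^ (r / 2) / w.im ^ (r / 2) : ℝ) : ℂ) *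
      Complex.exp (-(phs r k γ w * Complex.I)) := by
  have h : (((γ • w).im ^ (r / 2) / w.im ^ (r / 2) : ℝ)) =
      Real.exp (-(r * Real.log ‖jf (γ : SL(2, ℝ)) w‖)) := (rat_eq r (γ : SL(2, ℝ)) w).symm
  rw [h, Complex.ofReal_exp, ← Complex.exp_add]
  unfold muI phs
  congr 1
  conv_lhs => rw [← Complex.re_add_im (Complex.log (jf (γ : SL(2, ℝ)) w))]
  rw [Complex.log_re]
  push_cast
  ring

/-- `|exp(-r log j)| = |j|^{-r} = (im γw / im w)^{r/2}` (`pen_im`: `|j| √(im γw) = √(im w)`). -/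
lemma muI_norm {Γ : Subgroup SL(2, ℝ)} (r : ℝ) (k : Γ → ℝ) (γ : Γ) (w : ℍ) :
    ‖muI r k γ w‖ = (γ • w).im ^ (r / 2) / w.im ^ (r / 2) := by
  have h0 : 0 ≤ (γ • w).im ^ (r / 2) / w.im ^ (r / 2) :=
    div_nonneg (Real.rpow_nonneg (γ • w).im_pos.le _) (Real.rpow_nonneg w.im_pos.le _)
  rw [muI_eq, norm_mul, Complex.norm_real, Real.norm_of_nonneg h0, ← neg_mul, ← Complex.ofReal_neg,
    Complex.norm_exp_ofReal_mul_I, mul_one]

end Pool.Agent.SfBundle
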