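import Mathlib
import Pool.Agent.Lib.MP_1d980c_gt.Sf.Mu

set_option autoImplicit false
open scoped UpperHalfPlane MatrixGroups Manifold ContDiff Matrix Topology
open Complex ComplexConjugate Pool.Agent.HypBundle

namespace Pool.Agent.SfBundle

/-- `|log im x - log im w| ≤ dist x w` (`UpperHalfPlane.dist_log_im_le`) -/
lemma im_lip (r : ℝ) (x w : ℍ) :
    x.im ^ (r / 2) ≤ w.im ^ (r / 2) * Real.exp (|r| / 2 * dist x w) := by
  rw [Real.rpow_def_of_pos x.im_pos, Real.rpow_def_of_pos w.im_pos, ← Real.exp_add]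
  apply Real.exp_le_exp.2
  have h := UpperHalfPlane.dist_log_im_le x w
  rw [Real.dist_eq] at h
  have h1 : (Real.log x.im - Real.log w.im) * (r / 2) ≤ |r| / 2 * dist x w := by
    calc (Real.log x.im - Real.log w.im) * (r / 2)
        ≤ |(Real.log x.im - Real.log w.im) * (r / 2)| := le_abs_self _
      _ = |Real.log x.im - Real.log w.im| * (|r| / 2) := by
          rw [abs_mul, abs_div, abs_two]
      _ ≤ dist x w * (|r| / 2) := by gcongr
      _ = |r| / 2 * dist x w := mul_comm _ _
  linarith

/-- The multiplier as a `Tw`, if the phases are multiplicative: `τ(w) = (im w)^{r/2}`, `C = |r|/2`. -/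
theorem exists_Tw {Γ : Subgroup SL(2, ℝ)} (r : ℝ) (k : Γ → ℝ)
    (hc : ∀ (γ δ : Γ) (w : ℍ), Complex.exp (phs r k (γ * δ) w * Complex.I) =
      Complex.exp (phs r k γ (δ • w) * Complex.I) * Complex.exp (phs r k δ w * Complex.I)) :
    ∃ T : Tw Γ, ∀ (γ : Γ) (w : ℍ), T.κ γ w * ((T.τ w / T.τ (γ • w) : ℝ) : ℂ) =
      Complex.exp (-(phs r k γ w * Complex.I)) := by
  have hpos : ∀ w : ℍ, 0 < w.im ^ (r / 2) := fun w => Real.rpow_pos_of_pos w.im_pos _
  have hne : ∀ w : ℍ, ((w.im ^ (r / 2) : ℝ) : ℂ) ≠ 0 := fun w => by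
    exact_mod_cast (hpos w).ne'
  refine ⟨{ κ := muI r k
            τ := fun w => w.im ^ (r / 2)
            C := |r| / 2
            hC := by positivity
            hτ := hpos
            hd := muI_diff r k
            h1 := ?_
            hm := ?_
            hn := muI_norm r k
            hl := im_lip r }, ?_⟩
  · intro w
    have h := hc 1 1 w
    rw [mul_one, one_smul] at h
    have h2 : Complex.exp (phs r k 1 w * Complex.I) = 1 := by
      have h3 := Complex.exp_ne_zero (phs r k 1 w * Complex.I)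
      exact (mul_left_cancel₀ h3 (by rw [mul_one]; exact h)).symm
    rw [muI_eq, Complex.exp_neg, h2, one_smul, div_self (hpos w).ne']
    simp
  · intro γ δ w
    rw [muI_eq, muI_eq, muI_eq, Complex.exp_neg, hc, mul_smul, Complex.exp_neg, Complex.exp_neg,
      mul_inv]
    push_cast
    have h1 := hne w
    have h2 := hne (δ • w)
    field_simp
  · intro γ w
    change muI r k γ w * ((w.im ^ (r / 2) / (γ • w).im ^ (r / 2) : ℝ) : ℂ) = _
    rw [muI_eq]
    push_cast
    have h1 := hne w
    have h2 := hne (γ • w)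
    field_simp

end Pool.Agent.SfBundle
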