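import Mathlib
import Pool.Agent.Lib.MP_1d980c_gt.Sf.PU
import Pool.Agent.Lib.MP_1d980c_gt.Sf.DzB
import Pool.Agent.Lib.MP_1d980c_gt.Sf.CuB

set_option autoImplicit false
open scoped UpperHalfPlane MatrixGroups Manifold ContDiff Matrix Topology
open Complex ComplexConjugate Pool.Agent.HypBundle

namespace Pool.Agent.SfBundle

variable {Γ : Subgroup SL(2, ℝ)} [DiscreteTopology Γ]

omit [DiscreteTopology Γ] in
/-- derivative of the cocycle identity -/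
private lemma Dz_coc (θ : Γ → ℂ → ℝ) (c : Γ → Γ → ℝ) (hθ : ∀ γ, ContDiffOn ℝ ∞ (θ γ) HH)
    (hc : ∀ (γ δ : Γ), ∀ z ∈ HH, θ (γ * δ) z = θ γ (CH.T (δ : SL(2, ℝ)) z) + θ δ z + c γ δ)
    (δ γ : Γ) {z : ℂ} (hz : z ∈ HH) :
    Dz (θ δ) (CH.T (γ : SL(2, ℝ)) z) * deriv (CH.T (γ : SL(2, ℝ))) z =
      Dz (θ (δ * γ)) z - Dz (θ γ) z := by
  have hd : ∀ (η : Γ) {x : ℂ}, x ∈ HH → DifferentiableAt ℝ (θ η) x := by
    intro η x hx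
    exact ((hθ η).contDiffAt (CH.isOpen_HH.mem_nhds hx)).differentiableAt (by simp)
  have hT : HasDerivAt (CH.T (γ : SL(2, ℝ))) (deriv (CH.T (γ : SL(2, ℝ))) z) z :=
    (CH.hasDerivAt_T (γ : SL(2, ℝ)) hz).differentiableAt.hasDerivAt
  have hfT : DifferentiableAt ℝ (θ δ) (CH.T (γ : SL(2, ℝ)) z) := hd δ (CH.T_mem _ _)
  have hTR : DifferentiableAt ℝ (CH.T (γ : SL(2, ℝ))) z := hT.differentiableAt.restrictScalars ℝ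
  have hcomp : DifferentiableAt ℝ (fun x => θ δ (CH.T (γ : SL(2, ℝ)) x)) z :=
    DifferentiableAt.comp z hfT hTR
  have h1 := Dz_comp hfT hT
  have h2 : Dz (θ (δ * γ)) z =
      Dz (fun x => (θ δ (CH.T (γ : SL(2, ℝ)) x) + θ γ x) + c δ γ) z := by
    apply Dz_congr
    filter_upwards [CH.isOpen_HH.mem_nhds hz] with x hx
    exact hc δ γ x hx
  have h3 : Dz (fun _ : ℂ => c δ γ) z = 0 := by
    simp [Dz]
  have h4 := Dz_add (hcomp.add (hd γ hz)) (differentiableAt_const (c δ γ) (x := z) (𝕜 := ℝ))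
  have h5 := Dz_add hcomp (hd γ hz)
  rw [h2, ← h1]
  refine Eq.trans ?_ (congrArg (fun t => t - Dz (θ γ) z) h4.symm)
  rw [h3]
  refine Eq.trans ?_ (congrArg (fun t => t + 0 - Dz (θ γ) z) h5.symm)
  ring

/-- **The primitive of the cocycle `dθ_γ`.** `β = - ∑_δ χ(δz) Dz θ_δ(z)` with `χ` from `exists_PU`
(`gsum_smooth`). From `θ_{δγ} = θ_δ ∘ γ + θ_γ + c` on `HH`: `Dz θ_δ(γz) γ'(z) = Dz θ_{δγ}(z) - Dz θ_γ(z)`
(`Dz_comp`, `Dz_add`, `Dz_congr`), hence `β(γz) γ'(z) = -∑_δ χ(δγz) (Dz θ_{δγ}(z) - Dz θ_γ(z)) =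
β(z) + Dz θ_γ(z)` (`gsum_shift`, `PU.const`, `gsum_fin`). -/
theorem exists_beta (hcoc : ∃ K : Set ℍ, IsCompact K ∧ ∀ w : ℍ, ∃ γ : Γ, γ • w ∈ K)
    (θ : Γ → ℂ → ℝ) (c : Γ → Γ → ℝ) (hθ : ∀ γ, ContDiffOn ℝ ∞ (θ γ) HH)
    (hc : ∀ (γ δ : Γ), ∀ z ∈ HH, θ (γ * δ) z = θ γ (CH.T (δ : SL(2, ℝ)) z) + θ δ z + c γ δ) :
    ∃ β : ℂ → ℂ, ContDiffOn ℝ ∞ β HH ∧ ∀ (γ : Γ), ∀ z ∈ HH,
      β (CH.T (γ : SL(2, ℝ)) z) * deriv (CH.T (γ : SL(2, ℝ))) z - β z = Dz (θ γ) z := by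
  obtain ⟨χ, L, hχ⟩ := exists_PU Γ hcoc
  refine ⟨fun z => -∑ᶠ δ : Γ, χ (CH.T (δ : SL(2, ℝ)) z) • Dz (θ δ) z, ?_, ?_⟩
  · exact (gsum_smooth hχ.cpt hχ.sub hχ.zero hχ.smooth (fun δ => Dz (θ δ))
      (fun δ => Dz_smooth (hθ δ))).neg
  · intro γ z hz
    have hw : CH.T (γ : SL(2, ℝ)) z ∈ HH := CH.T_mem _ _
    set g' := deriv (CH.T (γ : SL(2, ℝ))) z with hg'
    have s0 := gsum_fin hχ.cpt hχ.sub hχ.zero hw
      (fun δ : Γ => Dz (θ δ) (CH.T (γ : SL(2, ℝ)) z))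
    have s1 := gsum_fin hχ.cpt hχ.sub hχ.zero hw (fun δ : Γ => Dz (θ (δ * γ)) z)
    have s2 := gsum_fin hχ.cpt hχ.sub hχ.zero hw (fun _ : Γ => Dz (θ γ) z)
    have t1 := gsum_shift (χ := χ) (fun δ : Γ => Dz (θ (δ * γ)) z) γ z
    have t2 := PU.const hχ hw (Dz (θ γ) z)
    simp only [inv_mul_cancel_right] at t1
    have key : (∑ᶠ δ : Γ, χ (CH.T (δ : SL(2, ℝ)) (CH.T (γ : SL(2, ℝ)) z)) •
          Dz (θ δ) (CH.T (γ : SL(2, ℝ)) z)) * g' =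
        ∑ᶠ δ : Γ, χ (CH.T (δ : SL(2, ℝ)) (CH.T (γ : SL(2, ℝ)) z)) • Dz (θ (δ * γ)) z -
        ∑ᶠ δ : Γ, χ (CH.T (δ : SL(2, ℝ)) (CH.T (γ : SL(2, ℝ)) z)) • Dz (θ γ) z := by
      rw [← finsum_sub_distrib s1 s2]
      have e1 := (AddMonoidHom.mulRight g').map_finsum s0
      simp only [AddMonoidHom.coe_mulRight] at e1
      rw [e1]
      refine finsum_congr fun δ => ?_
      rw [smul_mul_assoc, Dz_coc θ c hθ hc δ γ hz, smul_sub]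
    rw [t1, t2] at key
    simp only [neg_mul]
    rw [key]
    ring

end Pool.Agent.SfBundle
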