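import Mathlib
import Pool.Agent.Lib.MP_1d980c_gt.Sf.PU
import Pool.Agent.Lib.MP_1d980c_gt.Sf.DzB
import Pool.Agent.Lib.MP_1d980c_gt.Sf.CuB

set_option autoImplicit false
open scoped UpperHalfPlane MatrixGroups Manifold ContDiff Matrix Topology
open Complex ComplexConjugate Pool.Agent.HypBundle

namespace Pool.Agent.SfBundle

variable {Γ : Subgroup SL(2, ℝ)} [DiscreteTopology Γ]

private lemma cu_zero_of_notMem {g : ℂ → ℂ} {L : Set ℂ} (hL : IsCompact L)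
    (h0 : ∀ z, z ∉ L → g z = 0) {z : ℂ} (hz : z ∉ L) : cu g z = 0 := by
  have h1 : g =ᶠ[𝓝 z] fun _ => (0 : ℂ) := by
    filter_upwards [hL.isClosed.isOpen_compl.mem_nhds hz] with x hx
    exact h0 x hx
  rw [cu_congr h1]
  simp [cu, dbar]

private lemma cu_sum {ι : Type} (s : Finset ι) {f : ι → ℂ → ℂ} {w : ℂ}
    (hf : ∀ i ∈ s, DifferentiableAt ℝ (f i) w) :
    cu (fun z => ∑ i ∈ s, f i z) w = ∑ i ∈ s, cu (f i) w := by
  simp only [cu, CH.dbar_sum s hf, Complex.im_sum, Finset.mul_sum]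

/-- **Averaging a compactly supported form.** `η(z) = ∑_γ g(γz) γ'(z)` is smooth and invariant,
and `(im z)² cu η (z) = ∑_γ (im γz)² cu g (γz)` (`CH.loc_fin`: near a point both sums are finite;
`cu_pull`, `deriv_T_mul`, reindexing). -/
theorem exists_eta {g : ℂ → ℂ} (hg : ContDiff ℝ ∞ g) {L : Set ℂ} (hL : IsCompact L) (hLH : L ⊆ HH)
    (h0 : ∀ z, z ∉ L → g z = 0) :
    ∃ η : ℂ → ℂ, ContDiffOn ℝ ∞ η HH ∧
      (∀ (γ : Γ), ∀ z ∈ HH, η (CH.T (γ : SL(2, ℝ)) z) * deriv (CH.T (γ : SL(2, ℝ))) z = η z) ∧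
      ∀ z ∈ HH, z.im ^ 2 * cu η z =
        ∑ᶠ γ : Γ, (CH.T (γ : SL(2, ℝ)) z).im ^ 2 * cu g (CH.T (γ : SL(2, ℝ)) z) := by
  set B : Γ → ℂ → ℂ := fun γ z => g (CH.T (γ : SL(2, ℝ)) z) * deriv (CH.T (γ : SL(2, ℝ))) z with hB
  have hBs : ∀ γ, ContDiffOn ℝ ∞ (B γ) HH := fun γ => pull_smooth hg.contDiffOn _
  -- local finiteness
  have hloc : ∀ w ∈ HH, ∃ U ∈ 𝓝 w, ∃ S : Finset Γ, ∀ z ∈ U, ∀ δ : Γ, δ ∉ S →
      CH.T (δ : SL(2, ℝ)) z ∉ L := fun w hw => CH.loc_fin Γ hL hLH hw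
  have hev : ∀ w ∈ HH, ∃ S : Finset Γ, (∀ δ : Γ, δ ∉ S → CH.T (δ : SL(2, ℝ)) w ∉ L) ∧
      (fun z => ∑ᶠ γ : Γ, B γ z) =ᶠ[𝓝 w] fun z => ∑ γ ∈ S, B γ z := by
    intro w hw
    obtain ⟨U, hU, S, hS⟩ := hloc w hw
    refine ⟨S, hS w (mem_of_mem_nhds hU), ?_⟩
    filter_upwards [hU] with z hz
    refine finsum_eq_sum_of_support_subset _ fun γ hγ => ?_
    by_contra h
    refine hγ ?_
    simp only [hB, h0 _ (hS z hz γ h), zero_mul]
  refine ⟨fun z => ∑ᶠ γ : Γ, B γ z, ?_, ?_, ?_⟩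
  · intro w hw
    obtain ⟨S, -, h1⟩ := hev w hw
    have h2 : ContDiffAt ℝ ∞ (fun z => ∑ γ ∈ S, B γ z) w :=
      ContDiffAt.sum fun γ _ => (hBs γ).contDiffAt (CH.isOpen_HH.mem_nhds hw)
    exact (h2.congr_of_eventuallyEq h1).contDiffWithinAt
  · intro δ z hz
    simp only [hB]
    rw [finsum_mul]
    have h := finsum_comp_equiv (Equiv.mulRight δ) (f := fun γ : Γ => B γ z)
    rw [show (∑ᶠ γ : Γ, g (CH.T (γ : SL(2, ℝ)) z) * deriv (CH.T (γ : SL(2, ℝ))) z)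
      = ∑ᶠ γ : Γ, B γ z from rfl, ← h]
    refine finsum_congr fun γ => ?_
    simp only [hB, Equiv.coe_mulRight]
    rw [mul_assoc, ← deriv_T_mul _ _ hz, ← CH.T_mul]
    rfl
  · intro w hw
    obtain ⟨S, hS, h1⟩ := hev w hw
    rw [cu_congr h1, cu_sum S fun γ _ =>
      ((hBs γ).contDiffAt (CH.isOpen_HH.mem_nhds hw)).differentiableAt (by simp), Finset.mul_sum]
    rw [finsum_eq_sum_of_support_subset (s := S)]
    · refine Finset.sum_congr rfl fun γ _ => ?_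
      exact cu_pull hg.contDiffOn _ hw
    · intro γ hγ
      by_contra h
      refine hγ ?_
      simp only [cu_zero_of_notMem hL h0 (hS γ h), mul_zero]

end Pool.Agent.SfBundle
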