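import Mathlib
import Pool.Agent.Lib.MP_1d980c_gt.Sf.NfC
import Pool.Agent.Lib.MP_1d980c_gt.Sf.CPb

set_option autoImplicit false
open scoped UpperHalfPlane MatrixGroups Manifold ContDiff Matrix Topology
open Complex ComplexConjugate Pool.Agent.HypBundle MeasureTheory

namespace Pool.Agent.SfBundle

variable {Γ : Subgroup SL(2, ℝ)} [DiscreteTopology Γ]

omit [DiscreteTopology Γ] in
private lemma nfb_smooth {χ : ℂ → ℝ} {L : Set ℂ} (hχ : PU Γ χ L) {G : ℂ → ℝ}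
    (hG : ContDiffOn ℝ ∞ G HH) : ContDiff ℝ ∞ (fun z => χ z * G z) := by
  rw [contDiff_iff_contDiffAt]
  intro z
  by_cases hz : z ∈ HH
  · exact hχ.smooth.contDiffAt.mul (hG.contDiffAt (CH.isOpen_HH.mem_nhds hz))
  · have h1 : Lᶜ ∈ 𝓝 z := hχ.cpt.isClosed.isOpen_compl.mem_nhds fun h => hz (hχ.sub h)
    have h2 : (fun z => χ z * G z) =ᶠ[𝓝 z] fun _ => (0 : ℝ) := by
      filter_upwards [h1] with y hy
      rw [hχ.zero y hy, zero_mul]
    exact contDiffAt_const.congr_of_eventuallyEq h2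

omit [DiscreteTopology Γ] in
private lemma nfb_int {χ : ℂ → ℝ} {L : Set ℂ} (hχ : PU Γ χ L) {G : ℂ → ℝ}
    (hG : ContDiffOn ℝ ∞ G HH) : Integrable (fun z => χ z * G z) := by
  refine (nfb_smooth hχ hG).continuous.integrable_of_hasCompactSupport ?_
  refine HasCompactSupport.intro hχ.cpt fun z hz => ?_
  rw [hχ.zero z hz, zero_mul]

private lemma nfb_im : ContDiffOn ℝ ∞ (fun z : ℂ => (z.im ^ 2)⁻¹) HH := by
  refine ContDiffOn.inv ?_ ?_
  · exact (Complex.imCLM.contDiff.pow 2).contDiffOn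
  · intro z hz
    have : 0 < z.im := hz
    positivity

/-- **An invariant function is constant plus an exact one.** Let `F` be smooth and invariant, `χ`
from `exists_PU`, `I = ∫ χ(z)/(im z)² > 0`, `s = (∫ χ F/(im z)²)/I`, and
`h(z) = χ(z) (F(z) - s)/(im z)²` (extended by `0`; smooth, compact support in `HH`, integral `0`).
`compact_poincare` gives `g` with `cu g = h`, `exists_eta` gives `η` with
`(im z)² cu η = ∑_γ χ(γz) (F(γz) - s) = F(z) - s`. -/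
theorem exists_exact (hcoc : ∃ K : Set ℍ, IsCompact K ∧ ∀ w : ℍ, ∃ γ : Γ, γ • w ∈ K)
    (F : ℂ → ℝ) (hF : ContDiffOn ℝ ∞ F HH)
    (hFi : ∀ (γ : Γ), ∀ z ∈ HH, F (CH.T (γ : SL(2, ℝ)) z) = F z) :
    ∃ (s : ℝ) (η : ℂ → ℂ), ContDiffOn ℝ ∞ η HH ∧
      (∀ (γ : Γ), ∀ z ∈ HH, η (CH.T (γ : SL(2, ℝ)) z) * deriv (CH.T (γ : SL(2, ℝ))) z = η z) ∧
      ∀ z ∈ HH, z.im ^ 2 * cu η z = F z - s := by
  obtain ⟨χ, L, hχ⟩ := exists_PU Γ hcoc
  have hG1 := nfb_im
  have hG2 : ContDiffOn ℝ ∞ (fun z : ℂ => F z * (z.im ^ 2)⁻¹) HH := hF.mul hG1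
  -- the total mass is positive
  have hI : 0 < ∫ z, χ z * (z.im ^ 2)⁻¹ := by
    have hc : Continuous (fun z : ℂ => χ z * (z.im ^ 2)⁻¹) := (nfb_smooth hχ hG1).continuous
    obtain ⟨γ, hγ⟩ : ∃ γ : Γ, χ (CH.T (γ : SL(2, ℝ)) Complex.I) ≠ 0 := by
      by_contra hcon
      push Not at hcon
      have h1 := hχ.sum Complex.I (show (0 : ℝ) < Complex.I.im by simp)
      rw [finsum_congr hcon, finsum_zero] at h1
      exact zero_ne_one h1
    refine hc.integral_pos_of_hasCompactSupport_nonneg_nonzero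
      (x := CH.T (γ : SL(2, ℝ)) Complex.I) ?_ ?_ ?_
    · refine HasCompactSupport.intro hχ.cpt fun z hz => ?_
      rw [hχ.zero z hz, zero_mul]
    · intro z
      have := hχ.nonneg z
      show 0 ≤ χ z * (z.im ^ 2)⁻¹
      positivity
    · have hT : 0 < (CH.T (γ : SL(2, ℝ)) Complex.I).im := CH.T_mem _ _
      exact mul_ne_zero hγ (by positivity)
  set s : ℝ := (∫ z, χ z * (F z * (z.im ^ 2)⁻¹)) / ∫ z, χ z * (z.im ^ 2)⁻¹ with hs
  have hG : ContDiffOn ℝ ∞ (fun z : ℂ => (F z - s) * (z.im ^ 2)⁻¹) HH :=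
    (hF.sub contDiffOn_const).mul hG1
  have h0 : ∫ z, χ z * ((F z - s) * (z.im ^ 2)⁻¹) = 0 := by
    have h1 : (fun z : ℂ => χ z * ((F z - s) * (z.im ^ 2)⁻¹)) =
        fun z => χ z * (F z * (z.im ^ 2)⁻¹) - s * (χ z * (z.im ^ 2)⁻¹) := by
      funext z
      ring
    rw [h1, integral_sub (nfb_int hχ hG2) ((nfb_int hχ hG1).const_mul s), integral_const_mul, hs,
      div_mul_cancel₀ _ hI.ne', sub_self]
  obtain ⟨g, L', hL', hLH', hg, hg0, hcu⟩ := compact_poincare (nfb_smooth hχ hG) hχ.cpt hχ.sub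
    (fun z hz => by rw [hχ.zero z hz, zero_mul]) h0
  obtain ⟨η, hη, hηi, hηc⟩ := exists_eta (Γ := Γ) hg hL' hLH' hg0
  refine ⟨s, η, hη, hηi, fun z hz => ?_⟩
  rw [hηc z hz]
  have h2 := hχ.const hz (F z - s)
  rw [← h2]
  refine finsum_congr fun γ => ?_
  have hT : 0 < (CH.T (γ : SL(2, ℝ)) z).im := CH.T_mem _ z
  rw [hcu, hFi γ z hz, smul_eq_mul]
  field_simp

end Pool.Agent.SfBundle
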