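import Mathlib
import Pool.Agent.Lib.MP_1d980c_gt.Sf.NfA
import Pool.Agent.Lib.MP_1d980c_gt.Sf.NfB
import Pool.Agent.Lib.MP_1d980c_gt.Sf.CuC
import Pool.Agent.Lib.MP_1d980c_gt.Sf.DzC

set_option autoImplicit false
open scoped UpperHalfPlane MatrixGroups Manifold ContDiff Matrix Topology
open Complex ComplexConjugate Pool.Agent.HypBundle MeasureTheory

namespace Pool.Agent.SfBundle

variable {Γ : Subgroup SL(2, ℝ)} [DiscreteTopology Γ]

private lemma nfD_diffAt {β : ℂ → ℂ} (h : ContDiffOn ℝ ∞ β HH) {z : ℂ} (hz : z ∈ HH) :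
    DifferentiableAt ℝ β z := CH.diffAt h hz

private lemma nfD_smooth_cu {β : ℂ → ℂ} (h : ContDiffOn ℝ ∞ β HH) :
    ContDiffOn ℝ ∞ (fun z => z.im ^ 2 * cu β z) HH := by
  have h1 : ContDiffOn ℝ ∞ (fun z : ℂ => (dbar β z).im) HH :=
    Complex.imCLM.contDiff.comp_contDiffOn (CH.contDiffOn_dbar h)
  have h2 : ContDiffOn ℝ ∞ (fun z : ℂ => z.im ^ 2) HH :=
    (Complex.imCLM.contDiff.pow 2).contDiffOn
  exact h2.mul (contDiffOn_const.mul h1)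

private lemma nfD_smooth_inv : ContDiffOn ℝ ∞ (fun x : ℂ => (((x.im)⁻¹ : ℝ) : ℂ)) HH := by
  have h1 : ContDiffOn ℝ ∞ (fun x : ℂ => (x.im)⁻¹) HH :=
    (Complex.imCLM.contDiff.contDiffOn (s := HH)).inv (fun x hx => (ne_of_gt hx : x.im ≠ 0))
  exact Complex.ofRealCLM.contDiff.comp_contDiffOn h1

/-- **Normal form of a smooth cocycle modulo constants** (`H²(Γ;ℝ) = ℝ`). Take `β` from
`exists_beta`; `F(z) = (im z)² cu β(z)` is invariant: `cu` of `β(γz)γ'(z) - β(z) = Dz (θ γ)` vanishes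
(`cu_Dz`, `cu_pull`, `cu_sub`). Take `s, η` from `exists_exact`. Then
`B(z) = β(z) - η(z) - s (im z)⁻¹` has `cu B = 0` (`beta0`), so `B = Dz f` (`exists_primitive`), and
`Dz (θ γ) = B(γz)γ'(z) - B(z) + s (β₀(γz)γ'(z) - β₀(z)) = Dz (f ∘ γ - f + 2 s arg j(γ,·))` by
`Dz_comp`, `beta0`, `Dz_arg`. `const_of_Dz`. -/
theorem normal_form (hcoc : ∃ K : Set ℍ, IsCompact K ∧ ∀ w : ℍ, ∃ γ : Γ, γ • w ∈ K)
    (θ : Γ → ℂ → ℝ) (c : Γ → Γ → ℝ) (hθ : ∀ γ, ContDiffOn ℝ ∞ (θ γ) HH)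
    (hc : ∀ (γ δ : Γ), ∀ z ∈ HH, θ (γ * δ) z = θ γ (CH.T (δ : SL(2, ℝ)) z) + θ δ z + c γ δ) :
    ∃ (r : ℝ) (κ : Γ → ℝ) (f : ℂ → ℝ), ContinuousOn f HH ∧ ∀ (γ : Γ), ∀ z ∈ HH,
      θ γ z = r * (Complex.log (jf (γ : SL(2, ℝ)) z)).im + κ γ +
        f (CH.T (γ : SL(2, ℝ)) z) - f z := by
  obtain ⟨β, hβs, hβ⟩ := exists_beta hcoc θ c hθ hc
  have hFi : ∀ (γ : Γ), ∀ z ∈ HH, (CH.T (γ : SL(2, ℝ)) z).im ^ 2 * cu β (CH.T (γ : SL(2, ℝ)) z) =
      z.im ^ 2 * cu β z := by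
    intro γ z hz
    rw [← cu_pull hβs (γ : SL(2, ℝ)) hz]
    congr 1
    have h1 : (fun x => β (CH.T (γ : SL(2, ℝ)) x) * deriv (CH.T (γ : SL(2, ℝ))) x) =ᶠ[𝓝 z]
        fun x => β x + Dz (θ γ) x := by
      filter_upwards [CH.isOpen_HH.mem_nhds hz] with x hx
      have := hβ γ x hx
      linear_combination this
    rw [cu_congr h1, cu_add (nfD_diffAt hβs hz) (nfD_diffAt (Dz_smooth (hθ γ)) hz),
      cu_Dz (hθ γ) hz, add_zero]
  obtain ⟨s, η, hηs, hηi, hη⟩ := exists_exact hcoc (fun z => z.im ^ 2 * cu β z)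
    (nfD_smooth_cu hβs) hFi
  obtain ⟨B, hBdef⟩ : ∃ B : ℂ → ℂ, B = fun x => (β x - η x) - (s : ℂ) * (((x.im)⁻¹ : ℝ) : ℂ) :=
    ⟨_, rfl⟩
  have hBs : ContDiffOn ℝ ∞ B HH := by
    rw [hBdef]
    exact (hβs.sub hηs).sub (contDiffOn_const.mul nfD_smooth_inv)
  have hcuB : ∀ z ∈ HH, cu B z = 0 := by
    intro z hz
    have hinv : DifferentiableAt ℝ (fun x : ℂ => (((x.im)⁻¹ : ℝ) : ℂ)) z :=
      nfD_diffAt nfD_smooth_inv hz
    have h1 : cu B z = cu β z - cu η z - s * cu (fun x => (((x.im)⁻¹ : ℝ) : ℂ)) z := by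
      have e1 : DifferentiableAt ℝ (fun x => β x - η x) z :=
        (nfD_diffAt hβs hz).sub (nfD_diffAt hηs hz)
      have e2 : DifferentiableAt ℝ (fun x : ℂ => (s : ℂ) * (((x.im)⁻¹ : ℝ) : ℂ)) z :=
        hinv.const_mul _
      rw [hBdef, cu_sub e1 e2,
        cu_sub (nfD_diffAt hβs hz) (nfD_diffAt hηs hz), cu_const_mul s hinv]
    have h2 := (beta0 1 hz).1
    have h3 := hη z hz
    have hz0 : z.im ^ 2 ≠ 0 := pow_ne_zero 2 (ne_of_gt hz : z.im ≠ 0)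
    have h4 : z.im ^ 2 * cu B z = 0 := by
      rw [h1]
      linear_combination -h3 - s * h2
    exact (mul_eq_zero.mp h4).resolve_left hz0
  obtain ⟨f, hfd, hf⟩ := exists_primitive hBs hcuB
  have hfat : ∀ z ∈ HH, DifferentiableAt ℝ f z := fun z hz =>
    hfd.differentiableAt (CH.isOpen_HH.mem_nhds hz)
  have key : ∀ γ : Γ, ∃ κ : ℝ, ∀ z ∈ HH, θ γ z - ((f (CH.T (γ : SL(2, ℝ)) z) - f z) +
      (2 * s) * (Complex.log (jf (γ : SL(2, ℝ)) z)).im) = κ := by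
    intro γ
    have hTd : ∀ z ∈ HH, HasDerivAt (CH.T (γ : SL(2, ℝ))) (deriv (CH.T (γ : SL(2, ℝ))) z) z :=
      fun z hz => (CH.hasDerivAt_T (γ : SL(2, ℝ)) hz).differentiableAt.hasDerivAt
    have hd1 : ∀ z ∈ HH, DifferentiableAt ℝ (fun x => f (CH.T (γ : SL(2, ℝ)) x)) z := by
      intro z hz
      exact (hfat _ (CH.T_mem _ z)).comp z (CH.diffAt (CH.contDiffOn_T _) hz)
    have hdθ : ∀ z ∈ HH, DifferentiableAt ℝ (θ γ) z := fun z hz =>
      ((hθ γ).contDiffAt (CH.isOpen_HH.mem_nhds hz)).differentiableAt (by simp)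
    have hda : ∀ z ∈ HH, DifferentiableAt ℝ
        (fun x => (Complex.log (jf (γ : SL(2, ℝ)) x)).im) z := fun z hz => (Dz_arg _ hz).1
    refine const_of_Dz (f := fun z => θ γ z - ((f (CH.T (γ : SL(2, ℝ)) z) - f z) +
      (2 * s) * (Complex.log (jf (γ : SL(2, ℝ)) z)).im)) ?_ ?_
    · intro z hz
      exact ((hdθ z hz).sub (((hd1 z hz).sub (hfat z hz)).add
        ((hda z hz).const_mul _))).differentiableWithinAt
    · intro z hz
      have e1 : DifferentiableAt ℝ (fun x => f (CH.T (γ : SL(2, ℝ)) x) - f x) z :=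
        (hd1 z hz).sub (hfat z hz)
      have e2 : DifferentiableAt ℝ
          (fun x => (2 * s) * (Complex.log (jf (γ : SL(2, ℝ)) x)).im) z :=
        (hda z hz).const_mul _
      have e3 : DifferentiableAt ℝ (fun x => (f (CH.T (γ : SL(2, ℝ)) x) - f x) +
          (2 * s) * (Complex.log (jf (γ : SL(2, ℝ)) x)).im) z := e1.add e2
      rw [Dz_sub (hdθ z hz) e3, Dz_add e1 e2,
        Dz_sub (hd1 z hz) (hfat z hz), Dz_const_mul _ (hda z hz),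
        Dz_comp (hfat _ (CH.T_mem _ z)) (hTd z hz), hf _ (CH.T_mem _ z), hf z hz,
        (Dz_arg (γ : SL(2, ℝ)) hz).2, ← hβ γ z hz, hBdef]
      have h5 := hηi γ z hz
      have h6 := (beta0 (γ : SL(2, ℝ)) hz).2
      push_cast at h6 ⊢
      linear_combination h5 + (s : ℂ) * h6
  choose κ hκ using key
  refine ⟨2 * s, κ, f, fun z hz => (hfat z hz).continuousAt.continuousWithinAt, ?_⟩
  intro γ z hz
  have := hκ γ z hz
  linarith

end Pool.Agent.SfBundle
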