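import Mathlib
import Pool.Agent.Lib.MP_1d980c_gt.Sf.PU
import Pool.Agent.Lib.MP_1d980c_gt.Hyp.Net

set_option autoImplicit false
open scoped UpperHalfPlane MatrixGroups Manifold ContDiff Matrix Topology
open Complex ComplexConjugate Pool.Agent.HypBundle

namespace Pool.Agent.SfBundle

/-- the parametrisation of the bad translates with row `i₀` dependent on the others -/
private noncomputable def gPhi {k n : ℕ} (F : ℂ → (Fin k → Fin n → ℝ)) (i₀ : Fin k)
    (p : ℂ × (({i : Fin k // i ≠ i₀} → ℝ) × ({i : Fin k // i ≠ i₀} → Fin n → ℝ))) :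
    Fin k → Fin n → ℝ := by
  classical
  exact fun i => if h : i = i₀ then ∑ j, p.2.1 j • p.2.2 j - F p.1 i₀ else p.2.2 ⟨i, h⟩ - F p.1 i

private lemma gPhi_smooth {k n : ℕ} {s : Set ℂ} (F : ℂ → (Fin k → Fin n → ℝ))
    (hF : ContDiffOn ℝ 1 F s) (i₀ : Fin k) :
    ContDiffOn ℝ 1 (gPhi F i₀) (s ×ˢ Set.univ) := by
  classical
  have hFi : ∀ i, ContDiffOn ℝ 1 (fun p : ℂ × (({i : Fin k // i ≠ i₀} → ℝ) ×
      ({i : Fin k // i ≠ i₀} → Fin n → ℝ)) => F p.1 i) (s ×ˢ Set.univ) := by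
    intro i
    exact (contDiffOn_pi.1 hF i).comp contDiffOn_fst (fun p hp => hp.1)
  refine contDiffOn_pi.2 fun i => ?_
  by_cases h : i = i₀
  · have e : (fun p => gPhi F i₀ p i) = fun p => ∑ j, p.2.1 j • p.2.2 j - F p.1 i₀ := by
      funext p
      simp only [gPhi, dif_pos h]
    rw [e]
    refine ContDiffOn.sub ?_ (hFi i₀)
    refine ContDiffOn.sum fun j _ => ContDiff.contDiffOn ?_
    fun_prop
  · have e : (fun p => gPhi F i₀ p i) = fun p => p.2.2 ⟨i, h⟩ - F p.1 i := by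
      funext p
      simp only [gPhi, dif_neg h]
    rw [e]
    refine ContDiffOn.sub (ContDiff.contDiffOn ?_) (hFi i)
    fun_prop

private lemma gPhi_surj {k n : ℕ} {s : Set ℂ} (F : ℂ → (Fin k → Fin n → ℝ))
    (τ : Fin k → Fin n → ℝ) {w : ℂ} (hw : w ∈ s)
    (h : ¬ LinearIndependent ℝ (fun i => F w i + τ i)) :
    ∃ i₀ : Fin k, τ ∈ gPhi F i₀ '' (s ×ˢ Set.univ) := by
  classical
  rw [linearIndependent_iff_notMem_span] at h
  push Not at h
  obtain ⟨i₀, hi⟩ := h
  have hset : ((fun i => F w i + τ i) '' (Set.univ \ {i₀})) =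
      Set.range (fun j : {i : Fin k // i ≠ i₀} => F w j + τ j) := by
    ext v
    simp only [Set.mem_image, Set.mem_sdiff, Set.mem_univ, true_and, Set.mem_singleton_iff,
      Set.mem_range, Subtype.exists, exists_prop]
  rw [hset, Submodule.mem_span_range_iff_exists_fun] at hi
  obtain ⟨c, hc⟩ := hi
  refine ⟨i₀, (w, (c, fun j => F w j + τ j)), ⟨hw, Set.mem_univ _⟩, ?_⟩
  funext i
  by_cases hii : i = i₀
  · subst hii
    simp only [gPhi]
    rw [hc]
    simp
  · simp only [gPhi, dif_neg hii]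
    simp

/-- General position. For `k + 2 ≤ n` a small translate of a family of `k × n` matrices with two
real parameters has independent rows everywhere.
Proof: if the rows of `F w + τ` are dependent, then for some `i₀` the row `i₀` is a linear
combination of the others, so `τ = Φ_{i₀}(w, c, M)` where `c : {i // i ≠ i₀} → ℝ`,
`M : {i // i ≠ i₀} → Fin n → ℝ` and `Φ_{i₀}(w,c,M)` has the rows `M i - F w i` (`i ≠ i₀`) and
`∑ c_i M_i - F w i₀`. `Φ_{i₀}` is `C¹` on `s × univ` (convex) in a space of dimension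
`2 + (k-1) + (k-1) n < k n`. So the set of bad `τ` has Hausdorff dimension `< k n`
(`ContDiffOn.dimH_image_le`, `dimH_iUnion`, `dimH_univ_eq_finrank`), and its complement is dense by
`Real.dense_compl_of_dimH_lt_finrank`. (`k = 0` is trivial.) -/
theorem exists_generic {k n : ℕ} (hkn : k + 2 ≤ n) {s : Set ℂ} (hs : Convex ℝ s)
    (F : ℂ → (Fin k → Fin n → ℝ)) (hF : ContDiffOn ℝ 1 F s) {ε : ℝ} (hε : 0 < ε) :
    ∃ τ : Fin k → Fin n → ℝ, (∀ i j, |τ i j| < ε) ∧
      ∀ w ∈ s, LinearIndependent ℝ (fun i => F w i + τ i) := by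
  classical
  rcases Nat.eq_zero_or_pos k with hk | hk
  · subst hk
    exact ⟨fun i => i.elim0, fun i => i.elim0, fun w _ => linearIndependent_empty_type⟩
  set B : Set (Fin k → Fin n → ℝ) :=
    ⋃ i₀ : Fin k, gPhi F i₀ '' (s ×ˢ Set.univ) with hB
  have hdim : dimH B < (Module.finrank ℝ (Fin k → Fin n → ℝ) : ENNReal) := by
    have h1 : ∀ i₀ : Fin k, dimH (gPhi F i₀ '' (s ×ˢ Set.univ)) ≤
        ((2 + ((k - 1) + (k - 1) * n) : ℕ) : ENNReal) := by
      intro i₀
      have hconv : Convex ℝ (s ×ˢ (Set.univ : Set (({i : Fin k // i ≠ i₀} → ℝ) ×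
          ({i : Fin k // i ≠ i₀} → Fin n → ℝ)))) := hs.prod convex_univ
      refine ((gPhi_smooth F hF i₀).dimH_image_le hconv le_rfl).trans ?_
      refine (dimH_mono (Set.subset_univ _)).trans ?_
      rw [Real.dimH_univ_eq_finrank]
      have hcard : Fintype.card {i : Fin k // i ≠ i₀} = k - 1 := by
        rw [Fintype.card_subtype_compl]
        simp
      have : Module.finrank ℝ (ℂ × (({i : Fin k // i ≠ i₀} → ℝ) ×
          ({i : Fin k // i ≠ i₀} → Fin n → ℝ))) = 2 + ((k - 1) + (k - 1) * n) := by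
        rw [Module.finrank_prod, Module.finrank_prod, Complex.finrank_real_complex,
          Module.finrank_pi, Module.finrank_pi_fintype]
        simp [hcard]
      rw [this]
    have h2 : dimH B ≤ ((2 + ((k - 1) + (k - 1) * n) : ℕ) : ENNReal) := by
      rw [hB, dimH_iUnion]
      exact iSup_le h1
    refine lt_of_le_of_lt h2 ?_
    have h3 : Module.finrank ℝ (Fin k → Fin n → ℝ) = k * n := by
      rw [Module.finrank_pi_fintype]
      simp
    rw [h3]
    have h4 : 2 + ((k - 1) + (k - 1) * n) < k * n := by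
      obtain ⟨m, rfl⟩ : ∃ m, k = m + 1 := ⟨k - 1, by omega⟩
      simp only [Nat.add_sub_cancel]
      nlinarith
    exact_mod_cast h4
  have hdense := dense_compl_of_dimH_lt_finrank hdim
  obtain ⟨τ, hτ, hd⟩ := hdense.exists_dist_lt 0 hε
  refine ⟨τ, fun i j => ?_, fun w hw => ?_⟩
  · rw [dist_zero_left] at hd
    calc |τ i j| = ‖τ i j‖ := rfl
      _ ≤ ‖τ i‖ := norm_le_pi_norm (τ i) j
      _ ≤ ‖τ‖ := norm_le_pi_norm τ i
      _ < ε := hd
  · by_contra hcon
    obtain ⟨i₀, hi⟩ := gPhi_surj F τ hw hcon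
    exact hτ (Set.mem_iUnion.2 ⟨i₀, hi⟩)

end Pool.Agent.SfBundle
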