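import Mathlib
import Pool.Agent.Lib.MP_1d980c_gt.Sf.PU
import Pool.Agent.Lib.MP_1d980c_gt.Hyp.Net

set_option autoImplicit false
open scoped UpperHalfPlane MatrixGroups Manifold ContDiff Matrix Topology
open Complex ComplexConjugate Pool.Agent.HypBundle

namespace Pool.Agent.SfBundle

/-- A finite cover modulo `Γ` by small Euclidean discs: `exists_inj` gives `ι₀ > 0` with
`ι₀ ≤ dist w (γ w)` for `γ ≠ 1`; every `x ∈ HH` has a disc `closedBall x (2 r)` inside the image of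
the hyperbolic ball of radius `ι₀/3`; compactness of `K`. -/
theorem exists_cover (Γ : Subgroup SL(2, ℝ)) [DiscreteTopology Γ]
    (hfree : ∀ γ : Γ, γ ≠ 1 → ∀ w : ℍ, γ • w ≠ w)
    (hcoc : ∃ K : Set ℍ, IsCompact K ∧ ∀ w : ℍ, ∃ γ : Γ, γ • w ∈ K) :
    ∃ (N : ℕ) (x : Fin N → ℂ) (r : Fin N → ℝ), (∀ i, 0 < r i) ∧
      (∀ i, Metric.closedBall (x i) (2 * r i) ⊆ HH) ∧
      (∀ i, ∀ γ : Γ, γ ≠ 1 → ∀ w ∈ Metric.closedBall (x i) (2 * r i),
        CH.T (γ : SL(2, ℝ)) w ∉ Metric.closedBall (x i) (2 * r i)) ∧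
      ∀ w ∈ HH, ∃ (γ : Γ) (i : Fin N), CH.T (γ : SL(2, ℝ)) w ∈ Metric.closedBall (x i) (r i) := by
  classical
  obtain ⟨ι₀, hι0, hι⟩ := exists_inj Γ hfree hcoc
  obtain ⟨K, hK, hcov⟩ := hcoc
  have hball : ∀ x : ℍ, ∃ r : ℝ, 0 < r ∧ ∀ z ∈ Metric.closedBall (x : ℂ) (2 * r),
      ∃ y : ℍ, dist y x < ι₀ / 3 ∧ (y : ℂ) = z := by
    intro x
    have ho : IsOpen (((↑) : ℍ → ℂ) '' Metric.ball x (ι₀ / 3)) :=
      UpperHalfPlane.isOpenEmbedding_coe.isOpenMap _ Metric.isOpen_ball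
    have hx : (x : ℂ) ∈ ((↑) : ℍ → ℂ) '' Metric.ball x (ι₀ / 3) :=
      ⟨x, Metric.mem_ball_self (by positivity), rfl⟩
    obtain ⟨e, he, hsub⟩ := Metric.isOpen_iff.1 ho _ hx
    refine ⟨e / 4, by positivity, fun z hz => ?_⟩
    have hz' : z ∈ Metric.ball (x : ℂ) e := by
      rw [Metric.mem_ball]
      rw [Metric.mem_closedBall] at hz
      linarith
    obtain ⟨y, hy, hyz⟩ := hsub hz'
    exact ⟨y, Metric.mem_ball.1 hy, hyz⟩
  choose r hr0 hr using hball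
  obtain ⟨t, htK, ht⟩ := hK.elim_nhds_subcover
    (fun x : ℍ => ((↑) : ℍ → ℂ) ⁻¹' Metric.ball (x : ℂ) (r x)) (fun x _ =>
      (UpperHalfPlane.isOpenEmbedding_coe.continuous.continuousAt).preimage_mem_nhds
        (Metric.ball_mem_nhds _ (hr0 x)))
  refine ⟨t.card, fun i => ((t.equivFin.symm i : ℍ) : ℂ), fun i => r (t.equivFin.symm i : ℍ),
    fun i => hr0 _, ?_, ?_, ?_⟩
  · intro i z hz
    obtain ⟨y, -, hy⟩ := hr _ z hz
    rw [← hy]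
    exact y.im_pos
  · intro i γ hγ w hw hTw
    obtain ⟨y, hy1, hy2⟩ := hr _ w hw
    obtain ⟨y', hy1', hy2'⟩ := hr _ _ hTw
    rw [← hy2, CH.T_coe] at hy2'
    have h1 : y' = (γ : SL(2, ℝ)) • y := UpperHalfPlane.ext hy2'
    have h2 : ι₀ ≤ dist y (γ • y) := hι γ hγ y
    have h3 : γ • y = y' := h1.symm
    rw [h3] at h2
    have h4 := dist_triangle_right y y' (t.equivFin.symm i : ℍ)
    linarith
  · intro w hw
    obtain ⟨γ, hγ⟩ := hcov ⟨w, hw⟩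
    have h1 := ht hγ
    simp only [Set.mem_iUnion, Set.mem_preimage, exists_prop] at h1
    obtain ⟨x, hxt, hx⟩ := h1
    refine ⟨γ, t.equivFin ⟨x, hxt⟩, ?_⟩
    have h2 : CH.T (γ : SL(2, ℝ)) w = ((γ • (⟨w, hw⟩ : ℍ) : ℍ) : ℂ) :=
      CH.T_coe (γ : SL(2, ℝ)) ⟨w, hw⟩
    rw [h2]
    simp only [Equiv.symm_apply_apply]
    exact Metric.ball_subset_closedBall hx

end Pool.Agent.SfBundle
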