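import Mathlib
import Pool.Agent.Lib.MP_1d980c_gt.Sf.SecA
import Pool.Agent.Lib.MP_1d980c_gt.Sf.SecB

set_option autoImplicit false
open scoped UpperHalfPlane MatrixGroups Manifold ContDiff Matrix Topology
open Complex ComplexConjugate Pool.Agent.HypBundle

namespace Pool.Agent.SfBundle

/-- smooth equivariant families of `k` covectors -/
structure Eqv {Γ : Subgroup SL(2, ℝ)} {k n : ℕ} (ρ : Γ →* Matrix (Fin n) (Fin n) ℝ)
    (S : ℂ → (Fin k → Fin n → ℝ)) : Prop where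
  smooth : ContDiffOn ℝ ∞ S HH
  eqv : ∀ (γ : Γ), ∀ w ∈ HH, ∀ i, S (CH.T (γ : SL(2, ℝ)) w) i ᵥ* ρ γ = S w i

variable {Γ : Subgroup SL(2, ℝ)} [DiscreteTopology Γ] {k n : ℕ}
  {ρ : Γ →* Matrix (Fin n) (Fin n) ℝ}

/-- the periodisation `∑_γ χ(γw) τ ρ(γ)` -/
noncomputable def Per (ρ : Γ →* Matrix (Fin n) (Fin n) ℝ) (χ : ℂ → ℝ) (τ : Fin k → Fin n → ℝ)
    (w : ℂ) : Fin k → Fin n → ℝ :=
  ∑ᶠ γ : Γ, χ (CH.T (γ : SL(2, ℝ)) w) • (fun i => τ i ᵥ* ρ γ)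

/-- `gsum_smooth`, `gsum_shift`; `ρ(γδ⁻¹) ρ(δ) = ρ(γ)` -/
lemma Per_eqv {χ : ℂ → ℝ} {L : Set ℂ} (hL : IsCompact L) (hLH : L ⊆ HH)
    (hχ : ∀ z, z ∉ L → χ z = 0) (hs : ContDiff ℝ ∞ χ) (τ : Fin k → Fin n → ℝ) :
    Eqv ρ (Per ρ χ τ) := by
  constructor
  · exact gsum_smooth hL hLH hχ hs (fun (γ : Γ) (_ : ℂ) => (fun i => τ i ᵥ* ρ γ))
      (fun γ => contDiffOn_const)
  · intro δ w hw i
    let Λ : (Fin k → Fin n → ℝ) →+ (Fin k → Fin n → ℝ) :=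
      { toFun := fun x i => x i ᵥ* ρ δ
        map_zero' := by
          funext i
          simp
        map_add' := by
          intro x y
          funext i
          simp [Matrix.add_vecMul] }
    have h1 : Per ρ χ τ (CH.T (δ : SL(2, ℝ)) w) =
        ∑ᶠ γ : Γ, χ (CH.T (γ : SL(2, ℝ)) w) • (fun i => τ i ᵥ* ρ (γ * δ⁻¹)) :=
      gsum_shift (fun γ : Γ => (fun i => τ i ᵥ* ρ γ : Fin k → Fin n → ℝ)) δ w
    have h2 : Λ (Per ρ χ τ (CH.T (δ : SL(2, ℝ)) w)) = Per ρ χ τ w := by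
      rw [h1, Λ.map_finsum (gsum_fin hL hLH hχ hw
        (fun γ : Γ => (fun i => τ i ᵥ* ρ (γ * δ⁻¹) : Fin k → Fin n → ℝ)))]
      unfold Per
      refine finsum_congr fun γ => ?_
      show (fun i => (χ (CH.T (γ : SL(2, ℝ)) w) • (τ i ᵥ* ρ (γ * δ⁻¹))) ᵥ* ρ δ) = _
      funext i
      rw [Matrix.smul_vecMul, Matrix.vecMul_vecMul, ← map_mul, inv_mul_cancel_right]
      rfl
    exact congrFun h2 i

omit [DiscreteTopology Γ] in
private theorem T_one {w : ℂ} (hw : w ∈ HH) : CH.T ((1 : Γ) : SL(2, ℝ)) w = w := by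
  rw [CH.T, OneMemClass.coe_one, one_smul, UpperHalfPlane.ofComplex_apply_of_im_pos hw]

/-- if `L` meets none of its translates, then on `L` only `γ = 1` contributes -/
lemma Per_on {χ : ℂ → ℝ} {L : Set ℂ} (hLH : L ⊆ HH) (hχ : ∀ z, z ∉ L → χ z = 0)
    (hdis : ∀ γ : Γ, γ ≠ 1 → ∀ w ∈ L, CH.T (γ : SL(2, ℝ)) w ∉ L) (τ : Fin k → Fin n → ℝ)
    {w : ℂ} (hw : w ∈ L) : Per ρ χ τ w = χ w • τ := by
  unfold Per
  rw [finsum_eq_single _ (1 : Γ) (fun γ hγ => by rw [hχ _ (hdis γ hγ w hw), zero_smul]),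
    T_one (hLH hw), map_one]
  simp only [Matrix.vecMul_one]

/-- joint continuity at `(0, w)`; near `w` the sum is finite (`CH.loc_fin`) -/
lemma Per_cont {χ : ℂ → ℝ} {L : Set ℂ} (hL : IsCompact L) (hLH : L ⊆ HH)
    (hχ : ∀ z, z ∉ L → χ z = 0) (hs : Continuous χ) {w : ℂ} (hw : w ∈ HH) :
    ContinuousAt (fun p : (Fin k → Fin n → ℝ) × ℂ => Per ρ χ p.1 p.2) (0, w) := by
  classical
  obtain ⟨U, hU, S, hS⟩ := CH.loc_fin Γ hL hLH hw
  have h1 : (fun p : (Fin k → Fin n → ℝ) × ℂ => Per ρ χ p.1 p.2) =ᶠ[𝓝 (0, w)]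
      fun p => ∑ δ ∈ S, χ (CH.T (δ : SL(2, ℝ)) p.2) • (fun i => p.1 i ᵥ* ρ δ) := by
    have h2 : ∀ᶠ p : (Fin k → Fin n → ℝ) × ℂ in 𝓝 (0, w), p.2 ∈ U :=
      continuous_snd.continuousAt.eventually hU
    filter_upwards [h2] with p hp
    refine finsum_eq_sum_of_support_subset _ fun δ hδ => ?_
    by_contra h
    refine hδ ?_
    simp only [hχ _ (hS p.2 hp δ h), zero_smul]
  refine ContinuousAt.congr ?_ h1.symm
  refine tendsto_finsetSum _ fun δ _ => ?_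
  have hT : ContinuousAt (CH.T (δ : SL(2, ℝ))) w :=
    (CH.contDiffOn_T _).continuousOn.continuousAt (CH.isOpen_HH.mem_nhds hw)
  have h3 : ContinuousAt (fun p : (Fin k → Fin n → ℝ) × ℂ => χ (CH.T (δ : SL(2, ℝ)) p.2)) (0, w) :=
    hs.continuousAt.comp (ContinuousAt.comp (f := fun p : (Fin k → Fin n → ℝ) × ℂ => p.2)
      (x := ((0 : Fin k → Fin n → ℝ), w)) hT continuous_snd.continuousAt)
  have h4 : Continuous (fun p : (Fin k → Fin n → ℝ) × ℂ => (fun i => p.1 i ᵥ* ρ δ)) := by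
    refine continuous_pi fun i => ?_
    exact Continuous.matrix_vecMul ((continuous_apply i).comp continuous_fst) continuous_const
  exact h3.smul h4.continuousAt

end Pool.Agent.SfBundle
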