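import Mathlib
import Pool.Agent.Lib.MP_1d980c_gt.Sf.SecC

set_option autoImplicit false
open scoped UpperHalfPlane MatrixGroups Manifold ContDiff Matrix Topology
open Complex ComplexConjugate Pool.Agent.HypBundle

namespace Pool.Agent.SfBundle

variable {Γ : Subgroup SL(2, ℝ)} [DiscreteTopology Γ] {k n : ℕ}
  {ρ : Γ →* Matrix (Fin n) (Fin n) ℝ}

/-- One step. Let `χ` be smooth with support in `closedBall x (2r)` and `= 1` on `closedBall x r`
(a `ContDiffBump`), and `S' = S + Per ρ χ τ`. On `closedBall x r` it is `S + τ` (`Per_on`), so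
independent for `τ` arbitrarily small by `exists_generic`; on the compact set `K₀` it is independent
for all small `τ`, because linear independence is an open condition (`LinearIndependent` of the rows
is `isOpen_setOf_linearIndependent`), by `Per_cont` (with `Per ρ χ 0 = 0`) and
`IsCompact.eventually_forall_of_forall_eventually`. -/
theorem Sec_step (hkn : k + 2 ≤ n) {S : ℂ → (Fin k → Fin n → ℝ)} (hS : Eqv ρ S) {K₀ : Set ℂ}
    (hK : IsCompact K₀) (hKH : K₀ ⊆ HH) (hSK : ∀ w ∈ K₀, LinearIndependent ℝ (S w))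
    {x : ℂ} {r : ℝ} (hr : 0 < r) (hb : Metric.closedBall x (2 * r) ⊆ HH)
    (hdis : ∀ γ : Γ, γ ≠ 1 → ∀ w ∈ Metric.closedBall x (2 * r),
        CH.T (γ : SL(2, ℝ)) w ∉ Metric.closedBall x (2 * r)) :
    ∃ S' : ℂ → (Fin k → Fin n → ℝ), Eqv ρ S' ∧
      ∀ w ∈ K₀ ∪ Metric.closedBall x r, LinearIndependent ℝ (S' w) := by
  classical
  let f : ContDiffBump x := ⟨r, 2 * r, hr, by linarith⟩
  have hL : IsCompact (Metric.closedBall x (2 * r)) := isCompact_closedBall x (2 * r)
  have hχ : ∀ z, z ∉ Metric.closedBall x (2 * r) → (f : ℂ → ℝ) z = 0 := by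
    intro z hz
    refine f.zero_of_le_dist ?_
    rw [Metric.mem_closedBall, not_le] at hz
    exact hz.le
  have hsm : ContDiff ℝ ∞ (f : ℂ → ℝ) := f.contDiff
  have hsub : Metric.closedBall x r ⊆ Metric.closedBall x (2 * r) :=
    Metric.closedBall_subset_closedBall (by linarith)
  have hP0 : ∀ w, Per ρ (f : ℂ → ℝ) (0 : Fin k → Fin n → ℝ) w = 0 := by
    intro w
    unfold Per
    have : (fun γ : Γ => (f : ℂ → ℝ) (CH.T (γ : SL(2, ℝ)) w) •
        (fun i => (0 : Fin k → Fin n → ℝ) i ᵥ* ρ γ)) = fun _ => 0 := by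
      funext γ
      have h0 : (fun i => (0 : Fin k → Fin n → ℝ) i ᵥ* ρ γ) = 0 := by
        funext i
        simp
      rw [h0, smul_zero]
    rw [this, finsum_zero]
  have hev : ∀ᶠ τ : Fin k → Fin n → ℝ in 𝓝 0, ∀ w ∈ K₀,
      LinearIndependent ℝ (S w + Per ρ (f : ℂ → ℝ) τ w) := by
    apply hK.eventually_forall_of_forall_eventually
      (P := fun (τ : Fin k → Fin n → ℝ) w => LinearIndependent ℝ (S w + Per ρ (f : ℂ → ℝ) τ w))
    intro w hw
    have hc : ContinuousAt (fun p : (Fin k → Fin n → ℝ) × ℂ =>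
        S p.2 + Per ρ (f : ℂ → ℝ) p.1 p.2) (0, w) := by
      refine ContinuousAt.add ?_ (Per_cont hL hb hχ hsm.continuous (hKH hw))
      exact ContinuousAt.comp (f := fun p : (Fin k → Fin n → ℝ) × ℂ => p.2)
        (x := ((0 : Fin k → Fin n → ℝ), w))
        (hS.smooth.continuousOn.continuousAt (CH.isOpen_HH.mem_nhds (hKH hw)))
        continuous_snd.continuousAt
    have ho : IsOpen {g : Fin k → Fin n → ℝ | LinearIndependent ℝ g} :=
      isOpen_setOfPred_linearIndependent
    refine hc (ho.mem_nhds ?_)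
    simp only [Set.mem_ofPred_eq, hP0, add_zero]
    exact hSK w hw
  obtain ⟨ε, hε, hball⟩ := Metric.eventually_nhds_iff.1 hev
  obtain ⟨τ, hτ, hτ'⟩ := exists_generic hkn (convex_closedBall x r) S
    ((hS.smooth.mono (hsub.trans hb)).of_le (by exact_mod_cast le_top)) hε
  have hτd : dist τ 0 < ε := by
    rw [dist_pi_lt_iff hε]
    intro i
    rw [dist_pi_lt_iff hε]
    intro j
    rw [Real.dist_eq]
    simpa using hτ i j
  have hPe := Per_eqv (ρ := ρ) hL hb hχ hsm τ
  refine ⟨fun w => S w + Per ρ (f : ℂ → ℝ) τ w, ⟨hS.smooth.add hPe.smooth, ?_⟩, ?_⟩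
  · intro γ w hw i
    have h1 := hS.eqv γ w hw i
    have h2 := hPe.eqv γ w hw i
    simp only [Pi.add_apply]
    rw [Matrix.add_vecMul, h1, h2]
  · rintro w (hw | hw)
    · exact hball hτd w hw
    · have h1 : Per ρ (f : ℂ → ℝ) τ w = τ := by
        rw [Per_on hb hχ hdis τ (hsub hw), f.one_of_mem_closedBall hw, one_smul]
      show LinearIndependent ℝ (S w + Per ρ (f : ℂ → ℝ) τ w)
      rw [h1]
      exact hτ' w hw

end Pool.Agent.SfBundle
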