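import Mathlib
import Pool.Agent.Lib.MP_1d980c_gt.Sf.SecD

set_option autoImplicit false
open scoped UpperHalfPlane MatrixGroups Manifold ContDiff Matrix Topology
open Complex ComplexConjugate Pool.Agent.HypBundle

namespace Pool.Agent.SfBundle

variable {Γ : Subgroup SL(2, ℝ)} [DiscreteTopology Γ] {k n : ℕ}
  {ρ : Γ →* Matrix (Fin n) (Fin n) ℝ}

/-- `k ≤ n - 2` everywhere independent invariant covector fields: start with `S = 0` and apply
`Sec_step` along the discs of `exists_cover`; at the end `S` is independent on all discs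
`closedBall (x i) (r i)`, so everywhere by equivariance (`ρ γ` is invertible). -/
theorem exists_S (hkn : k + 2 ≤ n) (hfree : ∀ γ : Γ, γ ≠ 1 → ∀ w : ℍ, γ • w ≠ w)
    (hcoc : ∃ K : Set ℍ, IsCompact K ∧ ∀ w : ℍ, ∃ γ : Γ, γ • w ∈ K)
    (ρ : Γ →* Matrix (Fin n) (Fin n) ℝ) :
    ∃ S : ℍ → Matrix (Fin k) (Fin n) ℝ, Continuous S ∧
      (∀ (γ : Γ) (w : ℍ), S (γ • w) * ρ γ = S w) ∧ ∀ w, LinearIndependent ℝ (S w).row := by
  classical
  obtain ⟨N, x, r, hr, hb, hdis, hcov⟩ := exists_cover Γ hfree hcoc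
  have hsub : ∀ i, Metric.closedBall (x i) (r i) ⊆ HH := fun i =>
    (Metric.closedBall_subset_closedBall (by linarith [hr i])).trans (hb i)
  have key : ∀ j : ℕ, j ≤ N → ∃ S : ℂ → (Fin k → Fin n → ℝ), Eqv ρ S ∧
      ∀ i : Fin N, i.val < j → ∀ w ∈ Metric.closedBall (x i) (r i),
        LinearIndependent ℝ (S w) := by
    intro j
    induction j with
    | zero =>
      intro _
      exact ⟨fun _ _ => 0, ⟨contDiffOn_const, fun γ w _ i => Matrix.zero_vecMul _⟩,
        fun i hi => absurd hi (Nat.not_lt_zero _)⟩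
    | succ j ih =>
      intro hj
      obtain ⟨S, hS, hSi⟩ := ih (by omega)
      obtain ⟨S', hS', hSi'⟩ := Sec_step hkn hS
        (K₀ := ⋃ i ∈ {i : Fin N | i.val < j}, Metric.closedBall (x i) (r i))
        ((Set.toFinite _).isCompact_biUnion fun i _ => isCompact_closedBall _ _)
        (Set.iUnion₂_subset fun i _ => hsub i)
        (by
          intro w hw
          obtain ⟨i, hi, hwi⟩ := Set.mem_iUnion₂.1 hw
          exact hSi i hi w hwi)
        (hr ⟨j, by omega⟩) (hb _) (hdis _)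
      refine ⟨S', hS', fun i hi w hw => hSi' w ?_⟩
      rcases Nat.lt_succ_iff_lt_or_eq.1 hi with h | h
      · exact Or.inl (Set.mem_iUnion₂.2 ⟨i, h, hw⟩)
      · have : i = ⟨j, by omega⟩ := Fin.ext h
        rw [this] at hw
        exact Or.inr hw
  obtain ⟨S, hS, hSi⟩ := key N le_rfl
  have hall : ∀ w ∈ HH, LinearIndependent ℝ (S w) := by
    intro w hw
    obtain ⟨γ, i, hγ⟩ := hcov w hw
    have h1 := hSi i i.isLt _ hγ
    have h2 : S w = fun i => Matrix.vecMulLinear (ρ γ) (S (CH.T (γ : SL(2, ℝ)) w) i) := by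
      funext i
      rw [Matrix.vecMulLinear_apply]
      exact (hS.eqv γ w hw i).symm
    rw [h2]
    refine h1.map' (Matrix.vecMulLinear (ρ γ)) ?_
    rw [LinearMap.ker_eq_bot]
    intro u v huv
    rw [Matrix.vecMulLinear_apply, Matrix.vecMulLinear_apply] at huv
    have h3 : ρ γ * ρ γ⁻¹ = 1 := by rw [← map_mul, mul_inv_cancel, map_one]
    have h4 := congrArg (fun y => y ᵥ* ρ γ⁻¹) huv
    simp only [Matrix.vecMul_vecMul, h3, Matrix.vecMul_one] at h4
    exact h4
  refine ⟨fun w => Matrix.of (S w), ?_, ?_, ?_⟩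
  · have h1 : Continuous fun w : ℍ => S (w : ℂ) :=
      hS.smooth.continuousOn.comp_continuous UpperHalfPlane.continuous_coe fun w => w.im_pos
    exact h1
  · intro γ w
    ext i j
    have h1 := congrFun (hS.eqv γ w w.im_pos i) j
    rw [CH.T_coe] at h1
    exact h1
  · intro w
    exact hall w w.im_pos

end Pool.Agent.SfBundle
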