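import Mathlib
import Pool.Agent.Lib.MP_1d980c_gt.Sf.PU

set_option autoImplicit false
open scoped UpperHalfPlane MatrixGroups Manifold ContDiff Matrix Topology
open Complex ComplexConjugate Pool.Agent.HypBundle

namespace Pool.Agent.SfBundle

/-- **Smoothing.** With `χ` from `exists_PU` put `θ'_γ(z) = - ∑_δ χ(δ γ z) c(δ,γ)` (smooth on `HH`:
`gsum_smooth` composed with `CH.contDiffOn_T`) and `g(w) = ∑_δ χ(δ w) θ_δ(w)` (continuous). The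
hypothesis gives `θ_γ(w) = θ_{δγ}(w) - θ_δ(γw) - c(δ,γ)`; multiply by `χ(δγw)` and sum over `δ`
(`PU.const` at `γw`, `gsum_shift`): `θ_γ(w) = g(w) - g(γw) + θ'_γ(w)`. -/
theorem smooth_cocycle (Γ : Subgroup SL(2, ℝ)) [DiscreteTopology Γ]
    (hcoc : ∃ K : Set ℍ, IsCompact K ∧ ∀ w : ℍ, ∃ γ : Γ, γ • w ∈ K)
    (θ : Γ → ℍ → ℝ) (c : Γ → Γ → ℝ) (hθ : ∀ γ, Continuous (θ γ))
    (hc : ∀ (γ δ : Γ) (w : ℍ), θ (γ * δ) w = θ γ (δ • w) + θ δ w + c γ δ) :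
    ∃ (θ' : Γ → ℂ → ℝ) (g : ℍ → ℝ), (∀ γ, ContDiffOn ℝ ∞ (θ' γ) HH) ∧ Continuous g ∧
      ∀ (γ : Γ) (w : ℍ), θ γ w = θ' γ w + g w - g (γ • w) := by
  obtain ⟨χ, L, hχ⟩ := exists_PU Γ hcoc
  refine ⟨fun γ z => -∑ᶠ δ : Γ, χ (CH.T (δ : SL(2, ℝ)) (CH.T (γ : SL(2, ℝ)) z)) • c δ γ,
    fun w => ∑ᶠ δ : Γ, χ (CH.T (δ : SL(2, ℝ)) (w : ℂ)) • θ δ w, ?_, ?_, ?_⟩
  · intro γ
    have h1 := gsum_smooth (Γ := Γ) hχ.cpt hχ.sub hχ.zero hχ.smooth (fun δ _ => c δ γ)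
      (fun _ => contDiffOn_const)
    exact (h1.comp (CH.contDiffOn_T (γ : SL(2, ℝ))) (fun z _ => CH.T_mem _ z)).neg
  · have hF : ∀ δ : Γ, ContinuousOn (fun z : ℂ => θ δ (UpperHalfPlane.ofComplex z)) HH := by
      intro δ z hz
      have h2 : ContinuousAt (fun z : ℂ => UpperHalfPlane.ofComplex z) z :=
        (CH.cmdAt_ofComplex hz).continuousAt
      exact ((hθ δ).continuousAt.comp h2).continuousWithinAt
    have h1 := gsum_cont (Γ := Γ) hχ.cpt hχ.sub hχ.zero hχ.smooth.continuous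
      (fun δ z => θ δ (UpperHalfPlane.ofComplex z)) hF
    have h2 := h1.comp_continuous UpperHalfPlane.continuous_coe (fun w => w.im_pos)
    refine h2.congr fun w => ?_
    refine finsum_congr fun δ => ?_
    show χ (CH.T (δ : SL(2, ℝ)) (w : ℂ)) • θ δ (UpperHalfPlane.ofComplex (w : ℂ)) = _
    rw [UpperHalfPlane.ofComplex_apply]
  · intro γ w
    have hw : CH.T (γ : SL(2, ℝ)) (w : ℂ) ∈ HH := CH.T_mem _ _
    have e0 : ((γ • w : ℍ) : ℂ) = CH.T (γ : SL(2, ℝ)) (w : ℂ) := (CH.T_coe _ w).symm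
    have s1 := gsum_fin hχ.cpt hχ.sub hχ.zero hw (fun δ : Γ => θ (δ * γ) w)
    have s2 := gsum_fin hχ.cpt hχ.sub hχ.zero hw (fun _ : Γ => θ γ w)
    have s3 := gsum_fin hχ.cpt hχ.sub hχ.zero hw (fun δ : Γ => c δ γ)
    have t1 := gsum_shift (χ := χ) (fun δ : Γ => θ (δ * γ) w) γ (w : ℂ)
    have t2 := PU.const hχ hw (θ γ w)
    simp only [inv_mul_cancel_right] at t1
    have key : ∑ᶠ δ : Γ, χ (CH.T (δ : SL(2, ℝ)) (CH.T (γ : SL(2, ℝ)) (w : ℂ))) • θ δ (γ • w) =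
        (∑ᶠ δ : Γ, χ (CH.T (δ : SL(2, ℝ)) (CH.T (γ : SL(2, ℝ)) (w : ℂ))) • θ (δ * γ) w -
        ∑ᶠ δ : Γ, χ (CH.T (δ : SL(2, ℝ)) (CH.T (γ : SL(2, ℝ)) (w : ℂ))) • θ γ w) -
        ∑ᶠ δ : Γ, χ (CH.T (δ : SL(2, ℝ)) (CH.T (γ : SL(2, ℝ)) (w : ℂ))) • c δ γ := by
      rw [← finsum_sub_distrib s1 s2, ← finsum_sub_distrib]
      · refine finsum_congr fun δ => ?_
        rw [hc δ γ w]
        simp only [smul_eq_mul]
        ring
      · exact (s1.union s2).subset (Function.support_sub _ _)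
      · exact s3
    rw [t1, t2] at key
    simp only [e0]
    rw [key]
    ring

end Pool.Agent.SfBundle
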