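import Mathlib
import Pool.Agent.Lib.MP_1d980c_gt.Sf.FinC
import Pool.Agent.Lib.MP_1d980c_gt.Sf.SecE
import Pool.Agent.Lib.MP_1d980c_gt.Sf.Hm
import Pool.Agent.Lib.MP_1d980c_gt.Sf.FrmC
import Pool.Agent.Lib.MP_1d980c_gt.Sf.Lg
import Pool.Agent.Lib.MP_1d980c_gt.Sf.Sm
import Pool.Agent.Lib.MP_1d980c_gt.Sf.NfD
import Pool.Agent.Lib.MP_1d980c_gt.Sf.MuB

set_option autoImplicit false
open scoped UpperHalfPlane MatrixGroups Manifold ContDiff Matrix Topology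
open Complex ComplexConjugate Pool.Agent.HypBundle

namespace Pool.Agent.SfBundle

private lemma zr_ne {n : ℕ} {X : Matrix (Fin 2) (Fin n) ℝ} {H : Matrix (Fin n) (Fin n) ℝ}
    (h : X * H * Xᵀ = 1) : zr X ≠ 0 := by
  intro h0
  have hX : X = 0 := by
    ext i j
    have h1 := congrFun h0 j
    have h2 := congrArg Complex.re h1
    have h3 := congrArg Complex.im h1
    simp [zr] at h2 h3
    fin_cases i
    · exact h2
    · exact h3
  rw [hX] at h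
  have h4 := congrFun (congrFun h 0) 0
  simp at h4

theorem exists_frame (m : ℕ) (hm : 2 ≤ m) (Γ : Subgroup SL(2, ℝ)) [DiscreteTopology Γ]
    (hfree : ∀ γ : Γ, γ ≠ 1 → ∀ w : ℍ, γ • w ≠ w)
    (hcoc : ∃ K : Set ℍ, IsCompact K ∧ ∀ w : ℍ, ∃ γ : Γ, γ • w ∈ K)
    (ρ : Γ →* Matrix (Fin (2 * m)) (Fin (2 * m)) ℝ) (hdet : ∀ γ, 0 < (ρ γ).det) :
    ∃ (T : Tw Γ) (U : ℍ → Matrix (Fin (2 * m)) (Fin (2 * m)) ℝ), Continuous U ∧
      (∀ w, IsUnit (U w)) ∧
      ∀ (γ : Γ) (w : ℍ), (Wm m * (U (γ • w)).map Complex.ofReal) * (ρ γ).map Complex.ofReal =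
        Matrix.diagonal (DT m T γ w) * (Wm m * (U w).map Complex.ofReal) := by
  have hn : 2 * m = (2 * m - 2) + 2 := by omega
  obtain ⟨S, hS, hSe, hSi⟩ := exists_S (k := 2 * m - 2) (n := 2 * m) (by omega) hfree hcoc ρ
  obtain ⟨H, hH, hp, hHe⟩ := exists_H Γ hcoc ρ
  obtain ⟨X, hX, h1, h2⟩ := exists_X hn S hS hSi H hH hp
  obtain ⟨u, hu, hu1, hue⟩ := exists_u hn ρ hdet S hS hSi hSe H hH hp hHe X hX h1 h2
  have hcu : ∀ (γ δ : Γ) (w : ℍ), u (γ * δ) w = u γ (δ • w) * u δ w := by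
    intro γ δ w
    have e : u (γ * δ) w • zr (X w) = (u γ (δ • w) * u δ w) • zr (X w) := by
      have hm1 : (ρ (γ * δ)).map Complex.ofReal =
          (ρ γ).map Complex.ofReal * (ρ δ).map Complex.ofReal := by
        rw [map_mul]
        exact Matrix.map_mul (f := Complex.ofRealHom)
      rw [← hue (γ * δ) w, hm1, ← Matrix.vecMul_vecMul, mul_smul, hue γ (δ • w),
        Matrix.smul_vecMul, hue δ w, smul_smul]
    obtain ⟨j, hj⟩ := Function.ne_iff.1 (zr_ne (h2 w))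
    have e1 := congrFun e j
    simp only [Pi.smul_apply, smul_eq_mul] at e1
    exact mul_right_cancel₀ hj e1
  obtain ⟨θ, c, hθ, hθu, hθc⟩ := log_cocycle u hu hu1 hcu
  obtain ⟨θ', g, hθ', hg, hθg⟩ := smooth_cocycle Γ hcoc θ c hθ hθc
  have hT0 : ∀ (γ : Γ) (w : ℍ), CH.T (γ : SL(2, ℝ)) (w : ℂ) = ((γ • w : ℍ) : ℂ) := fun γ w =>
    CH.T_coe _ w
  have hc' : ∀ (γ δ : Γ), ∀ z ∈ HH,
      θ' (γ * δ) z = θ' γ (CH.T (δ : SL(2, ℝ)) z) + θ' δ z + c γ δ := by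
    intro γ δ z hz
    let w : ℍ := ⟨z, hz⟩
    have hw : (w : ℂ) = z := rfl
    rw [← hw, hT0]
    have e1 := hθg (γ * δ) w
    have e2 := hθg γ (δ • w)
    have e3 := hθg δ w
    have e4 := hθc γ δ w
    rw [mul_smul] at e1
    linarith
  obtain ⟨r, k, f, hf, hnf⟩ := normal_form hcoc θ' c hθ' hc'
  have hph : ∀ (γ : Γ) (w : ℍ), θ γ w =
      phs r k γ w + (f ((γ • w : ℍ) : ℂ) - g (γ • w)) - (f (w : ℂ) - g w) := by
    intro γ w
    have e1 := hθg γ w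
    have e2 := hnf γ w w.im_pos
    rw [hT0] at e2
    unfold phs
    linarith
  have hphm : ∀ (γ : Γ) (w : ℍ), u γ w = Complex.exp (phs r k γ w * Complex.I) *
      Complex.exp (((f ((γ • w : ℍ) : ℂ) - g (γ • w) : ℝ) : ℂ) * Complex.I) *
      (Complex.exp (((f (w : ℂ) - g w : ℝ) : ℂ) * Complex.I))⁻¹ := by
    intro γ w
    rw [hθu, hph, ← Complex.exp_neg, ← Complex.exp_add, ← Complex.exp_add]
    congr 1
    push_cast
    ring
  have hmul : ∀ (γ δ : Γ) (w : ℍ), Complex.exp (phs r k (γ * δ) w * Complex.I) =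
      Complex.exp (phs r k γ (δ • w) * Complex.I) * Complex.exp (phs r k δ w * Complex.I) := by
    intro γ δ w
    have e := hcu γ δ w
    rw [hphm, hphm, hphm, mul_smul] at e
    have n1 := Complex.exp_ne_zero (((f ((γ • δ • w : ℍ) : ℂ) - g (γ • δ • w) : ℝ) : ℂ) * Complex.I)
    have n2 := Complex.exp_ne_zero (((f ((δ • w : ℍ) : ℂ) - g (δ • w) : ℝ) : ℂ) * Complex.I)
    have n3 := Complex.exp_ne_zero (((f (w : ℂ) - g w : ℝ) : ℂ) * Complex.I)
    field_simp at e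
    simpa only [mul_comm Complex.I] using e
  obtain ⟨T, hT⟩ := exists_Tw r k hmul
  have hF : Continuous fun w : ℍ => f (w : ℂ) - g w := by
    refine Continuous.sub ?_ hg
    exact hf.comp_continuous UpperHalfPlane.continuous_coe fun w => w.im_pos
  refine ⟨T, fun w => Uf m (S w) (X w) (f (w : ℂ) - g w), Uf_cont m hS hX hF, fun w =>
    Uf_unit hm (hSi w) (hp w) (h1 w) (h2 w) _, fun γ w => ?_⟩
  refine Uf_eqv hm T (p := phs r k γ w) γ w (hSe γ w) ?_ (hT γ w)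
  rw [hue, hθu, hph]

end Pool.Agent.SfBundle
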